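import Mathlib

/-!
# Deterministic multitape Turing machines, polynomial time and polynomial space

All languages are sets of words over the alphabet `Bool`.
-/

namespace Pool.Agent.PPS

/-- Head moves. -/
inductive Move
  | left
  | stay
  | right

/-- The displacement of a head move. -/
def Move.toInt : Move → ℤ
  | .left => -1
  | .stay => 0
  | .right => 1

/-- A deterministic multitape Turing machine with input alphabet `Bool`.
The tapes are indexed by the finite type `K`; tape `io` carries the input and the output.
A cell of a tape holds `none` (blank) or `some a` with `a : Γ`.
`δ q s = none` means that the machine halts in state `q` when it scans the symbols `s`.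
`δ q s = some (q', r)` means that it goes to state `q'`, and that on each tape `k` it first
writes the symbol `w` and then moves the head by `d`, where `r k = (w, d)`. -/
structure TM where
  /-- index type of the tapes -/
  K : Type
  [decK : DecidableEq K]
  [finK : Finite K]
  /-- the input and output tape -/
  io : K
  /-- tape symbols other than the blank -/
  Γ : Type
  [finΓ : Finite Γ]
  /-- the two input symbols, as tape symbols -/
  bit : Bool → Γ
  bit_inj : Function.Injective bit
  /-- states -/
  Q : Type
  [finQ : Finite Q]
  /-- initial state -/
  start : Q
  /-- which states are accepting (used when the machine halts) -/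
  accept : Q → Bool
  /-- transition function -/
  δ : Q → (K → Option Γ) → Option (Q × (K → Option Γ × Move))

attribute [instance] TM.decK TM.finK TM.finΓ TM.finQ

namespace TM

variable (M : TM)

/-- A configuration: state, head positions, tape contents. -/
structure Cfg where
  state : M.Q
  head : M.K → ℤ
  tape : M.K → ℤ → Option M.Γ

/-- One step of the machine; `none` if the machine has halted. -/
def step (c : M.Cfg) : Option M.Cfg :=
  (M.δ c.state (fun k => c.tape k (c.head k))).map fun r =>
    { state := r.1
      head := fun k => c.head k + (r.2 k).2.toInt
      tape := fun k => Function.update (c.tape k) (c.head k) (r.2 k).1 }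

/-- The configuration after `n` steps (a halted machine stays where it is). -/
def run (n : ℕ) (c : M.Cfg) : M.Cfg := (fun c => (M.step c).getD c)^[n] c

/-- The tape content that consists of the word `w` in the cells `0, 1, …, |w| - 1`, all
other cells being blank. -/
def word (w : List Bool) : ℤ → Option M.Γ :=
  fun z => if 0 ≤ z then (w[z.toNat]?).map M.bit else none

/-- The initial configuration on input `x`: all heads are on cell `0`, tape `io` holds `x`,
the other tapes are blank. -/
def init (x : List Bool) : M.Cfg where
  state := M.start
  head := fun _ => 0
  tape := fun k => if k = M.io then M.word x else fun _ => none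

/-- The configuration reached after `n` steps on input `x`. -/
def conf (x : List Bool) (n : ℕ) : M.Cfg := M.run n (M.init x)

/-- On input `x` the machine has halted after `n` steps. -/
def HaltedAt (x : List Bool) (n : ℕ) : Prop := M.step (M.conf x n) = none

/-- The set of cells of tape `k` that the machine visits on input `x`. -/
def visited (x : List Bool) (k : M.K) : Set ℤ := Set.range fun n => (M.conf x n).head k

/-- The machine halts on every input `x` within `t |x|` steps. -/
def TimeBound (t : ℕ → ℕ) : Prop := ∀ x, M.HaltedAt x (t x.length)

/-- The machine halts on every input, and on input `x` it visits at most `s |x|` cells of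
each of its tapes. -/
def SpaceBound (s : ℕ → ℕ) : Prop :=
  ∀ x, (∃ n, M.HaltedAt x n) ∧ ∀ k, (M.visited x k).encard ≤ s x.length

/-- The machine decides the language `L`: it halts on every input `x`, in an accepting state
iff `x ∈ L`. -/
def Decides (L : Set (List Bool)) : Prop :=
  ∀ x, ∃ n, M.HaltedAt x n ∧ (M.accept (M.conf x n).state = true ↔ x ∈ L)

/-- The machine computes the function `f`: it halts on every input `x`, with the word `f x`
(and nothing else) on tape `io`. -/
def Computes (f : List Bool → List Bool) : Prop :=
  ∀ x, ∃ n, M.HaltedAt x n ∧ (M.conf x n).tape M.io = M.word (f x)

end TM

/-- `P`: the languages decided by a deterministic Turing machine in polynomial time. -/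
def P : Set (Set (List Bool)) :=
  {L | ∃ (M : TM) (p : Polynomial ℕ), M.Decides L ∧ M.TimeBound (fun n => p.eval n)}

/-- `PSPACE`: the languages decided by a deterministic Turing machine (that halts on every
input) in polynomial space. -/
def PSPACE : Set (Set (List Bool)) :=
  {L | ∃ (M : TM) (p : Polynomial ℕ), M.Decides L ∧ M.SpaceBound (fun n => p.eval n)}

/-- The functions on words computed by a deterministic Turing machine in polynomial time. -/
def FP : Set (List Bool → List Bool) :=
  {f | ∃ (M : TM) (p : Polynomial ℕ), M.Computes f ∧ M.TimeBound (fun n => p.eval n)}

/-- The functions on words computed by a deterministic Turing machine in polynomial space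
(the cells of the output tape count, so the length of the output is polynomially bounded). -/
def FPSPACE : Set (List Bool → List Bool) :=
  {f | ∃ (M : TM) (p : Polynomial ℕ), M.Computes f ∧ M.SpaceBound (fun n => p.eval n)}

end Pool.Agent.PPS
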