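import Pool.Agent.PPS.Lists

/-!
# Coding and decoding
-/

namespace Pool.Agent.PPS

open Prog

variable {m : Bool} {α β γ δ σ τ : Type} [Rep α] [Rep β] [Rep γ] [Rep δ] [Rep σ] [Rep τ]

/-- The code of an element, as a word, can be computed. -/
@[fun_prop]
theorem PT.code' {f : α → β} (hf : PT m f) : PT m (fun a => code (f a)) := by
  have key : PT m (fun b : β => (code b : List Bool)) := by
    refine PT.of_rg toCode (20 * Polynomial.X + 20) ?_
    intro b
    simp only [Polynomial.eval_add, Polynomial.eval_mul, Polynomial.eval_X,
      Polynomial.eval_ofNat]
    exact rg_toCode (code b) (by unfold size; omega) (by unfold size; omega)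
  exact key.comp hf

@[fun_prop]
theorem PT.size' {f : α → β} (hf : PT m f) : PT m (fun a => size (f a)) := by
  have : PT m (fun a => (code (f a)).length) := by fun_prop
  exact this

theorem PT.polyEval {n : α → ℕ} (hn : PT m n) (p : Polynomial ℕ) :
    PT m (fun a => p.eval (n a)) := by
  induction p using Polynomial.induction_on' with
  | add p q hp hq =>
    simp only [Polynomial.eval_add]
    fun_prop
  | monomial k c =>
    simp only [Polynomial.eval_monomial]
    have hk : ∀ k : ℕ, PT m (fun a => n a ^ k) := by
      intro k
      induction k with
      | zero => simp only [pow_zero]; fun_prop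
      | succ k ih => simp only [pow_succ]; fun_prop
    have := hk k
    fun_prop

/-! ### Decoding trees -/

/-- One step of the decoder. -/
def decStep (b : Bool) (stk : List D) : List D :=
  bif b then (match stk with
    | [] => []
    | x :: l => match l with
      | [] => []
      | y :: r => D.cons x y :: r) else D.nil :: stk

/-- Decode a word (working from right to left with a stack). -/
def decStack (u : List Bool) : List D := u.foldr (fun b y => decStep b y) []

/-- Decode a word. -/
def decodeD (u : List Bool) : D := (decStack u).headD D.nil

theorem decStack_code_append (d : D) (u : List Bool) :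
    decStack (d.code ++ u) = d :: decStack u := by
  induction d generalizing u with
  | nil => rfl
  | cons a b iha ihb =>
    have : D.code (.cons a b) ++ u = true :: (a.code ++ (b.code ++ u)) := by
      simp [D.code]
    rw [this]
    show decStep true (decStack (a.code ++ (b.code ++ u))) = _
    rw [iha, ihb]
    rfl

theorem decodeD_code (d : D) : decodeD d.code = d := by
  have := decStack_code_append d []
  rw [List.append_nil] at this
  rw [decodeD, this]
  rfl

theorem decodeD_codeT (b : β) : decodeD (code b) = Rep.rep b := decodeD_code _

theorem size_tree_nil : size D.nil = 1 := rfl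

theorem size_tree_cons (x y : D) : size (D.cons x y) = size x + size y + 1 := by
  show (D.code (.cons x y)).length = _
  simp [size, code, Rep.rep]

theorem size_decStack (u : List Bool) : size (decStack u) ≤ 2 * u.length + 1 := by
  induction u with
  | nil => exact le_rfl
  | cons b u ih =>
    have e : decStack (b :: u) = decStep b (decStack u) := rfl
    rw [e, List.length_cons]
    cases b with
    | false =>
      have : decStep false (decStack u) = D.nil :: decStack u := rfl
      rw [this, size_cons, size_tree_nil]
      omega
    | true =>
      cases h : decStack u with
      | nil =>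
        have : decStep true ([] : List D) = [] := rfl
        rw [this, size_nil]; omega
      | cons x l =>
        cases l with
        | nil =>
          have : decStep true [x] = [] := rfl
          rw [this, size_nil]; omega
        | cons y r =>
          have : decStep true (x :: y :: r) = D.cons x y :: r := rfl
          rw [this, size_cons, size_tree_cons]
          rw [h, size_cons, size_cons] at ih
          omega

theorem PT.decStep' : PT m (fun z : Bool × List D => decStep z.1 z.2) := by
  have h1 : PT m (fun z : Bool × List D => D.nil :: z.2) := by fun_prop
  have h2 : PT m (fun w : D × List D × (Bool × List D) => match w.2.1 with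
      | [] => ([] : List D)
      | y :: r => D.cons w.1 y :: r) := by
    have := PT.listCase (m := m) (l := fun w : D × List D × (Bool × List D) => w.2.1)
      (f := fun _ => ([] : List D)) (g := fun v => D.cons v.2.1 v.1.1 :: v.1.2)
      (by fun_prop) (by fun_prop) (by fun_prop)
    refine this.of_eq (fun w => ?_)
    rcases w.2.1 with _ | ⟨y, r⟩ <;> rfl
  have h3 : PT m (fun z : Bool × List D => match z.2 with
      | [] => ([] : List D)
      | x :: l => match l with
        | [] => []
        | y :: r => D.cons x y :: r) := by
    have := PT.listCase (m := m) (l := fun z : Bool × List D => z.2)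
      (f := fun _ => ([] : List D))
      (g := fun v : (D × List D) × (Bool × List D) => match v.1.2 with
        | [] => []
        | y :: r => D.cons v.1.1 y :: r) (by fun_prop) (by fun_prop)
      (h2.comp (f := fun v : (D × List D) × (Bool × List D) => (v.1.1, v.1.2, v.2))
        (by fun_prop))
    refine this.of_eq (fun w => ?_)
    rcases w.2 with _ | ⟨x, _ | ⟨y, r⟩⟩ <;> rfl
  have h4 : PT m (fun z : Bool × List D => z.1) := by fun_prop
  exact h4.cond h3 h1

@[fun_prop]
theorem PT.decodeD' {u : α → List Bool} (hu : PT m u) : PT m (fun a => decodeD (u a)) := by
  have key : PT m (fun u : List Bool => decStack u) := by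
    have := PT.foldr (m := m) (l := fun u : List Bool => u) (ini := fun _ => ([] : List D))
      (s := fun z : List Bool × (Bool × List D) => decStep z.2.1 z.2.2) (by fun_prop)
      (by fun_prop) (PT.decStep'.comp (f := fun z : List Bool × (Bool × List D) => z.2)
        (by fun_prop)) (2 * Polynomial.X + 1) (by
        intro u k
        simp only [Polynomial.eval_add, Polynomial.eval_mul, Polynomial.eval_ofNat,
          Polynomial.eval_X, Polynomial.eval_one]
        refine (size_decStack (u.drop k)).trans ?_
        have h1 := length_le_size' u
        have h2 : (u.drop k).length ≤ u.length := by simp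
        omega)
    exact this
  have := PT.headD' (key.comp hu) (PT.const' (m := m) (α := α) D.nil)
  exact this

/-! ### Trees as lists, words, lists of words -/

/-- The spine of a tree. -/
def spine : D → List D
  | .nil => []
  | .cons a b => a :: spine b

theorem listTree_spine (d : D) : listTree (spine d) = d := by
  induction d with
  | nil => rfl
  | cons a b _ ih =>
    show D.cons a (listTree (spine b)) = _
    rw [ih]

theorem spine_listTree (l : List β) : spine (listTree l) = l.map Rep.rep := by
  induction l with
  | nil => rfl
  | cons a l ih =>
    show Rep.rep a :: spine (listTree l) = _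
    rw [ih]; rfl

@[fun_prop]
theorem PT.spine' {f : α → D} (hf : PT m f) : PT m (fun a => spine (f a)) := by
  refine PT.congr_code hf (fun a => ?_)
  show D.code (listTree (spine (f a))) = D.code (f a)
  rw [listTree_spine]

/-- A tree as a bit. -/
def toBit : D → Bool
  | .nil => false
  | .cons _ _ => true

theorem toBit_rep (b : Bool) : toBit (Rep.rep b) = b := by cases b <;> rfl

@[fun_prop]
theorem PT.toBit' {f : α → D} (hf : PT m f) : PT m (fun a => toBit (f a)) := by
  have := PT.treeCase (m := m) (f := fun _ : α => false) (g := fun _ => true) hf
    (by fun_prop) (by fun_prop)
  convert this using 2 with a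
  cases f a <;> rfl

/-- A tree as a word. -/
def toWord (d : D) : List Bool := (spine d).map toBit

theorem toWord_rep (w : List Bool) : toWord (Rep.rep w) = w := by
  show (spine (listTree w)).map toBit = w
  rw [spine_listTree, List.map_map]
  have : (toBit ∘ Rep.rep) = id := funext toBit_rep
  rw [this, List.map_id]

@[fun_prop]
theorem PT.toWord' {f : α → D} (hf : PT m f) : PT m (fun a => toWord (f a)) :=
  PT.map' (m := m) (f := fun z : α × D => toBit z.2) hf.spine' (by fun_prop)

/-- A tree as a list of words. -/
def toWords (d : D) : List (List Bool) := (spine d).map toWord

theorem toWords_rep (w : List (List Bool)) : toWords (Rep.rep w) = w := by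
  show (spine (listTree w)).map toWord = w
  rw [spine_listTree, List.map_map]
  have : (toWord ∘ Rep.rep) = id := funext toWord_rep
  rw [this, List.map_id]

@[fun_prop]
theorem PT.toWords' {f : α → D} (hf : PT m f) : PT m (fun a => toWords (f a)) :=
  PT.map' (m := m) (f := fun z : α × D => toWord z.2) hf.spine' (by fun_prop)

/-- A tree as a unary number. -/
def toNat (d : D) : ℕ := (spine d).length

theorem toNat_rep (n : ℕ) : toNat (Rep.rep n) = n := by
  show (spine (natTree n)).length = n
  induction n with
  | zero => rfl
  | succ n ih =>
    show (D.nil :: spine (natTree n)).length = _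
    rw [List.length_cons, ih]

@[fun_prop]
theorem PT.toNat' {f : α → D} (hf : PT m f) : PT m (fun a => toNat (f a)) :=
  hf.spine'.length'

/-- Components of a tree. -/
def hd : D → D
  | .nil => .nil
  | .cons a _ => a

/-- Components of a tree. -/
def tl : D → D
  | .nil => .nil
  | .cons _ b => b

@[fun_prop]
theorem PT.hd' {f : α → D} (hf : PT m f) : PT m (fun a => hd (f a)) := by
  have := PT.treeCase (m := m) (f := fun _ : α => D.nil) (g := fun z => z.1.1) hf
    (by fun_prop) (by fun_prop)
  convert this using 2 with a
  cases f a <;> rfl

@[fun_prop]
theorem PT.tl' {f : α → D} (hf : PT m f) : PT m (fun a => tl (f a)) := by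
  have := PT.treeCase (m := m) (f := fun _ : α => D.nil) (g := fun z => z.1.2) hf
    (by fun_prop) (by fun_prop)
  convert this using 2 with a
  cases f a <;> rfl

theorem hd_rep (p : β × γ) : hd (Rep.rep p) = Rep.rep p.1 := rfl

theorem tl_rep (p : β × γ) : tl (Rep.rep p) = Rep.rep p.2 := rfl

/-! ### Padding -/

/-- Pad the word `u` to length `w`. -/
def padTo (w : ℕ) (u : List Bool) : List Bool :=
  u ++ (true :: List.replicate (w - u.length - 1) false)

theorem length_padTo {w : ℕ} {u : List Bool} (h : u.length < w) : (padTo w u).length = w := by
  simp [padTo]; omega

@[fun_prop]
theorem PT.padTo' {w : α → ℕ} {u : α → List Bool} (hw : PT m w) (hu : PT m u) :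
    PT m (fun a => padTo (w a) (u a)) := by
  unfold padTo
  fun_prop

/-- One step of removing the padding. -/
def unpadStep (z : Bool × List Bool) (b : Bool) : Bool × List Bool :=
  bif z.1 then (true, b :: z.2) else (b, [])

/-- Remove the padding. -/
def unpad (y : List Bool) : List Bool :=
  (y.reverse.foldl (fun z b => unpadStep z b) (false, [])).2

theorem unpad_padTo (w : ℕ) (u : List Bool) : unpad (padTo w u) = u := by
  have h1 : ∀ (k : ℕ) (l : List Bool), (List.replicate k false ++ l).foldl
      (fun z b => unpadStep z b) (false, []) =
      l.foldl (fun z b => unpadStep z b) (false, []) := by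
    intro k l
    induction k with
    | zero => rfl
    | succ k ih =>
      rw [List.replicate_succ, List.cons_append, List.foldl_cons]
      exact ih
  have h2 : ∀ (l r : List Bool), l.foldl (fun z b => unpadStep z b) (true, r) =
      (true, l.reverse ++ r) := by
    intro l
    induction l with
    | nil => intro r; rfl
    | cons b l ih =>
      intro r
      rw [List.foldl_cons]
      show l.foldl (fun z b => unpadStep z b) (true, b :: r) = _
      rw [ih]; simp
  unfold unpad padTo
  rw [List.reverse_append, List.reverse_cons, List.reverse_replicate, List.append_assoc, h1]
  show (u.reverse.foldl (fun z b => unpadStep z b) (true, [])).2 = u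
  rw [h2]; simp

@[fun_prop]
theorem PT.unpad' {u : α → List Bool} (hu : PT m u) : PT m (fun a => unpad (u a)) := by
  have key : PT m (fun u : List Bool => unpad u) := by
    have hst : PT m (fun z : List Bool × ((Bool × List Bool) × Bool) =>
        unpadStep z.2.1 z.2.2) := by
      unfold unpadStep
      fun_prop
    have hsz : ∀ (l : List Bool), size (l.foldl (fun z b => unpadStep z b) (false, [])) ≤
        size l + 4 := by
      intro l
      induction l using List.reverseRecOn with
      | nil =>
        show size (false, ([] : List Bool)) ≤ size ([] : List Bool) + 4
        rw [size_pair, size_nil]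
        have : size false = 1 := rfl
        omega
      | append_singleton l b ih =>
        rw [List.foldl_append, List.foldl_cons, List.foldl_nil]
        have h := size_append l [b]
        rw [size_cons, size_nil] at h
        generalize hz : l.foldl (fun z b => unpadStep z b) (false, []) = z at ih
        obtain ⟨c, r⟩ := z
        unfold unpadStep
        rw [size_pair] at ih
        have hb := size_bool_le b
        have hb' := size_pos b
        have hc := size_bool_le c
        have hc' := size_pos c
        cases c with
        | false =>
          simp only [cond_false, size_pair, size_nil]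
          omega
        | true =>
          simp only [cond_true, size_pair, size_cons]
          omega
    have := (PT.snd (m := m)).comp (PT.foldl (m := m) (l := fun u : List Bool => u.reverse)
      (ini := fun _ => (false, ([] : List Bool)))
      (s := fun z : List Bool × ((Bool × List Bool) × Bool) => unpadStep z.2.1 z.2.2)
      (by fun_prop) (by fun_prop) hst (Polynomial.X + 4) (by
        intro u k
        simp only [Polynomial.eval_add, Polynomial.eval_X, Polynomial.eval_ofNat]
        refine (hsz _).trans ?_
        have h1 := size_take_le u.reverse k
        rw [size_reverse] at h1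
        omega))
    exact this
  exact key.comp hu

/-! ### Modifying a fixed position of a list -/

/-- Apply `f` at position `j`. -/
def modAt (f : β → β) : ℕ → List β → List β
  | _, [] => []
  | 0, x :: l => f x :: l
  | j + 1, x :: l => x :: modAt f j l

theorem PT.modAt' {f : β → β} (hf : PT m f) (j : ℕ) {l : α → List β} (hl : PT m l) :
    PT m (fun a => modAt f j (l a)) := by
  have key : PT m (fun l : List β => modAt f j l) := by
    induction j with
    | zero =>
      have := PT.listCase (m := m) (l := fun l : List β => l) (f := fun _ => ([] : List β))
        (g := fun z => f z.1.1 :: z.1.2) (by fun_prop) (by fun_prop) (by fun_prop)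
      convert this using 2 with l
      cases l <;> rfl
    | succ j ih =>
      have := PT.listCase (m := m) (l := fun l : List β => l) (f := fun _ => ([] : List β))
        (g := fun z => z.1.1 :: modAt f j z.1.2) (by fun_prop) (by fun_prop) (by fun_prop)
      convert this using 2 with l
      cases l <;> rfl
  exact key.comp hl

theorem PT.ofFn' {n : ℕ} {F : Fin n → α → β} (h : ∀ j, PT m (F j)) :
    PT m (fun a => List.ofFn (fun j => F j a)) := by
  induction n with
  | zero => simp only [List.ofFn_zero]; fun_prop
  | succ n ih =>
    have h1 := ih (F := fun j => F j.succ) (fun j => h j.succ)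
    have h2 := h 0
    simp only [List.ofFn_succ]
    fun_prop

omit [Rep β] in
theorem modAt_ofFn {n : ℕ} (f : β → β) (F : Fin n → β) (j : Fin n) :
    modAt f j (List.ofFn F) = List.ofFn (Function.update F j (f (F j))) := by
  induction n with
  | zero => exact j.elim0
  | succ n ih =>
    refine Fin.cases ?_ (fun j => ?_) j
    · rw [List.ofFn_succ, List.ofFn_succ]
      show f (F 0) :: _ = _
      simp only [Function.update_self]
      congr 1
    · rw [List.ofFn_succ, List.ofFn_succ]
      show F 0 :: modAt f j (List.ofFn fun i : Fin n => F i.succ) = _
      rw [ih, Function.update_of_ne (Fin.succ_ne_zero j).symm]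
      have e : (Function.update (fun i : Fin n => F i.succ) j (f (F j.succ))) =
          fun i => Function.update F j.succ (f (F j.succ)) i.succ := by
        funext i
        by_cases hi : i = j
        · subst hi; simp
        · rw [Function.update_of_ne hi, Function.update_of_ne]
          exact fun h => hi (Fin.succ_injective _ h)
      rw [e]

end Pool.Agent.PPS
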