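import Pool.Agent.PPS.Codes

/-!
# Words as binary counters
-/

namespace Pool.Agent.PPS

variable {m : Bool} {α β γ δ σ τ : Type} [Rep α] [Rep β] [Rep γ] [Rep δ] [Rep σ] [Rep τ]

/-! ### Bits of words -/

/-- The bit number `i` of a word (`false` beyond the end). -/
def bitAt (l : List Bool) (i : ℕ) : Bool := l.getD i false

@[fun_prop]
theorem PT.bitAt' {l : α → List Bool} {i : α → ℕ} (hl : PT m l) (hi : PT m i) :
    PT m (fun a => bitAt (l a) (i a)) := by
  unfold bitAt; fun_prop

@[simp] theorem bitAt_nil (i : ℕ) : bitAt [] i = false := by simp [bitAt]

@[simp] theorem bitAt_cons_zero (b : Bool) (l : List Bool) : bitAt (b :: l) 0 = b := rfl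

@[simp] theorem bitAt_cons_succ (b : Bool) (l : List Bool) (i : ℕ) :
    bitAt (b :: l) (i + 1) = bitAt l i := rfl

theorem bitAt_of_le {l : List Bool} {i : ℕ} (h : l.length ≤ i) : bitAt l i = false := by
  unfold bitAt
  rw [List.getD_eq_getElem?_getD, List.getElem?_eq_none h]
  rfl

theorem ext_bitAt {l l' : List Bool} (h : l.length = l'.length)
    (h' : ∀ i < l.length, bitAt l i = bitAt l' i) : l = l' := by
  apply List.ext_getElem h
  intro i h1 h2
  have := h' i h1
  unfold bitAt at this
  rw [List.getD_eq_getElem _ _ h1, List.getD_eq_getElem _ _ h2] at this
  exact this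

theorem bitAt_append (l l' : List Bool) (i : ℕ) :
    bitAt (l ++ l') i = bif decide (i < l.length) then bitAt l i else
      bitAt l' (i - l.length) := by
  induction l generalizing i with
  | nil => simp
  | cons b l ih =>
    cases i with
    | zero => simp
    | succ i =>
      rw [List.cons_append, bitAt_cons_succ, bitAt_cons_succ, ih]
      simp

@[simp] theorem bitAt_replicate_false (n i : ℕ) : bitAt (List.replicate n false) i = false := by
  induction n generalizing i with
  | zero => simp
  | succ n ih =>
    rw [List.replicate_succ]
    cases i with
    | zero => rfl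
    | succ i => exact ih i

theorem bitAt_take (l : List Bool) (n i : ℕ) :
    bitAt (l.take n) i = (decide (i < n) && bitAt l i) := by
  induction l generalizing n i with
  | nil => simp
  | cons b l ih =>
    cases n with
    | zero => simp
    | succ n =>
      cases i with
      | zero => simp
      | succ i =>
        rw [List.take_succ_cons, bitAt_cons_succ, bitAt_cons_succ, ih]
        simp

theorem bitAt_drop (l : List Bool) (n i : ℕ) : bitAt (l.drop n) i = bitAt l (n + i) := by
  unfold bitAt
  rw [List.getD_eq_getElem?_getD, List.getD_eq_getElem?_getD, List.getElem?_drop]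

/-! ### Increment and decrement -/

/-- Increment of a binary counter, least significant bit first, modulo `2 ^ length`. -/
def inc : List Bool → List Bool
  | [] => []
  | false :: l => true :: l
  | true :: l => false :: inc l

@[simp] theorem length_inc (l : List Bool) : (inc l).length = l.length := by
  induction l with
  | nil => rfl
  | cons b l ih => cases b <;> simp [inc, ih]

/-- Decrement. -/
def dec (l : List Bool) : List Bool := (inc (l.map (fun b => !b))).map (fun b => !b)

@[simp] theorem length_dec (l : List Bool) : (dec l).length = l.length := by
  simp [dec]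

theorem map_not_not (l : List Bool) : (l.map (fun b => !b)).map (fun b => !b) = l := by
  induction l with
  | nil => rfl
  | cons b l ih => rw [List.map_cons, List.map_cons, ih, Bool.not_not]

theorem inc_dec (l : List Bool) : inc (dec l) = l := by
  induction l with
  | nil => rfl
  | cons b l ih =>
    cases b
    · simp only [dec, List.map_cons, Bool.not_false, inc, Bool.not_false]
      rw [← dec, ih]
    · simp only [dec, List.map_cons, Bool.not_true, inc]
      rw [map_not_not]

theorem dec_inc (l : List Bool) : dec (inc l) = l := by
  induction l with
  | nil => rfl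
  | cons b l ih =>
    cases b
    · simp only [dec, List.map_cons, Bool.not_true, inc]
      rw [map_not_not]
    · simp only [inc, dec, List.map_cons, Bool.not_false]
      rw [← dec, ih]

@[fun_prop]
theorem PT.inc' {l : α → List Bool} (hl : PT m l) : PT m (fun a => inc (l a)) := by
  obtain ⟨p, hp⟩ := hl.exists_size_le
  let st : Bool × List Bool → Bool → Bool × List Bool :=
    fun y b => (y.1 && b, (xor b y.1) :: y.2)
  have hfalse : ∀ (l acc : List Bool), l.foldl st (false, acc) = (false, l.reverse ++ acc) := by
    intro l
    induction l with
    | nil => intro acc; rfl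
    | cons b l ih =>
      intro acc
      rw [List.foldl_cons]
      show l.foldl st (false && b, (xor b false) :: acc) = _
      rw [Bool.false_and, Bool.xor_false, ih]
      simp
  have htrue : ∀ (l acc : List Bool), (l.foldl st (true, acc)).2 = (inc l).reverse ++ acc := by
    intro l
    induction l with
    | nil => intro acc; rfl
    | cons b l ih =>
      intro acc
      rw [List.foldl_cons]
      cases b
      · show (l.foldl st (false, true :: acc)).2 = _
        rw [hfalse]
        simp [inc]
      · show (l.foldl st (true, false :: acc)).2 = _
        rw [ih]
        simp [inc]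
  have := (PT.foldl (m := m) (s := fun z : α × ((Bool × List Bool) × Bool) =>
    ((z.2.1.1 && z.2.2, (xor z.2.2 z.2.1.1) :: z.2.1.2) : Bool × List Bool))
    (ini := fun _ => (true, [])) hl (by fun_prop) (by fun_prop)
    (4 * p + 10) (by
      intro a k
      simp only
      have h1 : ∀ (l : List Bool) (c : Bool) (acc : List Bool),
          (l.foldl st (c, acc)).2.length = l.length + acc.length := by
        intro l
        induction l with
        | nil => intro c acc; simp
        | cons b l ih =>
          intro c acc
          rw [List.foldl_cons]
          show (l.foldl st (c && b, (xor b c) :: acc)).2.length = _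
          rw [ih]
          simp only [List.length_cons]
          omega
      have h2 := h1 ((l a).take k) true []
      change size (((l a).take k).foldl st (true, [])) ≤ _
      generalize ((l a).take k).foldl st (true, []) = r at h2
      obtain ⟨c, r⟩ := r
      rw [size_pair]
      have h3 : size c ≤ 3 := by cases c <;> decide
      have h4 := (size_bits r).2
      simp only [List.length_nil] at h2
      have h5 : ((l a).take k).length ≤ (l a).length := List.length_take_le' _ _
      have h6 := length_le_size' (l a)
      have h7 := hp a
      simp only [Polynomial.eval_add, Polynomial.eval_mul, Polynomial.eval_ofNat]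
      omega)).snd'.reverse'
  convert this using 2 with a
  have h8 := htrue (l a) []
  rw [List.append_nil] at h8
  have h9 : ((l a).foldl (fun y b => ((y.1 && b, (xor b y.1) :: y.2) : Bool × List Bool))
    (true, [])).2 = (inc (l a)).reverse := h8
  rw [h9, List.reverse_reverse]

@[fun_prop]
theorem PT.dec' {l : α → List Bool} (hl : PT m l) : PT m (fun a => dec (l a)) := by
  have h1 : ∀ {l : α → List Bool}, PT m l → PT m (fun a => (l a).map (fun b => !b)) := by
    intro l hl
    exact PT.map' (f := fun z : α × Bool => !z.2) hl (by fun_prop)
  exact h1 (h1 hl).inc'

/-! ### Numbers -/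

/-- The lowest `n` binary digits of `t`, least significant first. -/
def bits : ℕ → ℕ → List Bool
  | 0, _ => []
  | n + 1, t => decide (t % 2 = 1) :: bits n (t / 2)

@[simp] theorem length_bits (n t : ℕ) : (bits n t).length = n := by
  induction n generalizing t with
  | zero => rfl
  | succ n ih => simp [bits, ih]

/-- The number with the given binary digits, least significant first. -/
def val : List Bool → ℕ
  | [] => 0
  | b :: l => b.toNat + 2 * val l

theorem bits_val (l : List Bool) : bits l.length (val l) = l := by
  induction l with
  | nil => rfl
  | cons b l ih =>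
    simp only [List.length_cons, bits, val]
    have h1 : b.toNat < 2 := Bool.toNat_lt b
    rw [show (b.toNat + 2 * val l) / 2 = val l by omega, ih]
    congr 1
    cases b <;> simp

theorem inc_bits (n t : ℕ) : inc (bits n t) = bits n (t + 1) := by
  induction n generalizing t with
  | zero => rfl
  | succ n ih =>
    simp only [bits]
    rcases Nat.mod_two_eq_zero_or_one t with h | h
    · rw [show decide (t % 2 = 1) = false by simp [h]]
      simp only [inc]
      rw [show decide ((t + 1) % 2 = 1) = true by simp; omega, show (t + 1) / 2 = t / 2 by omega]
    · rw [show decide (t % 2 = 1) = true by simp [h]]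
      simp only [inc]
      rw [ih, show decide ((t + 1) % 2 = 1) = false by simp; omega,
        show (t + 1) / 2 = t / 2 + 1 by omega]

theorem bits_add (m n t : ℕ) : bits (m + n) t = bits m t ++ bits n (t / 2 ^ m) := by
  induction m generalizing t with
  | zero => simp [bits]
  | succ m ih =>
    rw [show m + 1 + n = (m + n) + 1 by omega]
    simp only [bits, List.cons_append]
    rw [ih, Nat.div_div_eq_div_mul, pow_succ, Nat.mul_comm (2 ^ m) 2]

theorem bits_mod (n t : ℕ) : bits n (t % 2 ^ n) = bits n t := by
  induction n generalizing t with
  | zero => rfl
  | succ n ih =>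
    simp only [bits]
    have h1 : t % 2 ^ (n + 1) % 2 = t % 2 := by
      rw [pow_succ, Nat.mul_comm, Nat.mod_mul_right_mod]
    have h2 : t % 2 ^ (n + 1) / 2 = t / 2 % 2 ^ n := by
      rw [pow_succ, Nat.mul_comm, Nat.mod_mul_right_div_self]
    rw [h1, h2, ih]

theorem bits_congr {n t t' : ℕ} (h : t % 2 ^ n = t' % 2 ^ n) : bits n t = bits n t' := by
  rw [← bits_mod n t, h, bits_mod]

theorem val_bits (n t : ℕ) : val (bits n t) = t % 2 ^ n := by
  induction n generalizing t with
  | zero => simp [bits, val, Nat.mod_one]
  | succ n ih =>
    simp only [bits, val]
    rw [ih]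
    have h1 : t % 2 ^ (n + 1) % 2 = t % 2 := by
      rw [pow_succ, Nat.mul_comm, Nat.mod_mul_right_mod]
    have h2 : t % 2 ^ (n + 1) / 2 = t / 2 % 2 ^ n := by
      rw [pow_succ, Nat.mul_comm, Nat.mod_mul_right_div_self]
    have h3 : (decide (t % 2 = 1)).toNat = t % 2 := by
      rcases Nat.mod_two_eq_zero_or_one t with h | h <;> simp [h]
    rw [h3, ← h2]
    omega

theorem bitAt_bits (n t i : ℕ) : bitAt (bits n t) i = (decide (i < n) && t.testBit i) := by
  induction n generalizing t i with
  | zero => simp [bits]
  | succ n ih =>
    cases i with
    | zero =>
      simp only [bits, bitAt_cons_zero, Nat.testBit_zero]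
      simp
    | succ i =>
      simp only [bits, bitAt_cons_succ, Nat.testBit_succ]
      rw [ih]
      simp

theorem bits_eq_replicate {n t : ℕ} : bits n t = List.replicate n false ↔ t % 2 ^ n = 0 := by
  constructor
  · intro h
    rw [← val_bits, h]
    clear h
    induction n with
    | zero => rfl
    | succ n ih => simp [List.replicate_succ, val, ih]
  · intro h
    rw [← bits_mod, h]
    clear h
    induction n with
    | zero => rfl
    | succ n ih => simp [List.replicate_succ, bits, ih]

/-! ### Exclusive or -/

/-- Bitwise exclusive or of `v` into `d` (the length is that of `d`). -/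
def xorl : List Bool → List Bool → List Bool
  | [], _ => []
  | b :: d, v => (xor b (v.headD false)) :: xorl d v.tail

@[simp] theorem length_xorl (d v : List Bool) : (xorl d v).length = d.length := by
  induction d generalizing v with
  | nil => rfl
  | cons b d ih => simp [xorl, ih]

theorem bitAt_xorl (d v : List Bool) (i : ℕ) :
    bitAt (xorl d v) i = (decide (i < d.length) && xor (bitAt d i) (bitAt v i)) := by
  induction d generalizing v i with
  | nil => simp [xorl]
  | cons b d ih =>
    cases i with
    | zero =>
      simp only [xorl, bitAt_cons_zero]
      cases v <;> simp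
    | succ i =>
      simp only [xorl, bitAt_cons_succ]
      rw [ih]
      cases v <;> simp

theorem xorl_xorl (d v : List Bool) : xorl (xorl d v) v = d := by
  apply ext_bitAt (by simp)
  intro i hi
  rw [bitAt_xorl, bitAt_xorl]
  simp only [length_xorl] at hi ⊢
  simp [hi]

theorem xorl_self (v : List Bool) : xorl v v = List.replicate v.length false := by
  apply ext_bitAt (by simp)
  intro i hi
  rw [bitAt_xorl]
  simp

theorem xorl_zero (v : List Bool) {n : ℕ} (h : v.length = n) :
    xorl (List.replicate n false) v = v := by
  subst h
  apply ext_bitAt (by simp)
  intro i hi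
  rw [bitAt_xorl]
  simp only [length_xorl, List.length_replicate] at hi
  simp [hi]

theorem xorl_append (d d' v : List Bool) (h : v.length ≤ d.length) :
    xorl (d ++ d') v = xorl d v ++ d' := by
  apply ext_bitAt (by simp)
  intro i hi
  rw [bitAt_xorl, bitAt_append, bitAt_append, bitAt_xorl, length_xorl]
  simp only [length_xorl] at hi
  by_cases h1 : i < d.length
  · simp [h1]; omega
  · rw [bitAt_of_le (show v.length ≤ i by omega)]
    simp [h1]
    intro h2
    rw [List.length_append] at hi
    omega

theorem xorl_append_zeros (d d' v : List Bool) :
    xorl (d ++ d') (List.replicate d.length false ++ v) = d ++ xorl d' v := by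
  apply ext_bitAt (by simp)
  intro i hi
  rw [bitAt_xorl, bitAt_append, bitAt_append, bitAt_append, bitAt_xorl,
    bitAt_replicate_false, List.length_replicate]
  simp only [length_xorl] at hi
  by_cases h1 : i < d.length
  · simp [h1]; intro h; omega
  · simp only [hi, decide_true, h1, decide_false, cond_false, Bool.true_and]
    rw [List.length_append] at hi
    rw [show decide (i - d.length < d'.length) = true by simp; omega, Bool.true_and]

@[fun_prop]
theorem PT.xorl' {d v : α → List Bool} (hd : PT m d) (hv : PT m v) :
    PT m (fun a => xorl (d a) (v a)) := by
  obtain ⟨p, hp⟩ := hd.exists_size_le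
  obtain ⟨q, hq⟩ := hv.exists_size_le
  let st : List Bool × List Bool → Bool → List Bool × List Bool :=
    fun y b => (y.1.tail, (xor b (y.1.headD false)) :: y.2)
  have hfold : ∀ (d v acc : List Bool), d.foldl st (v, acc) =
      (v.drop d.length, (xorl d v).reverse ++ acc) := by
    intro d
    induction d with
    | nil => intro v acc; rfl
    | cons b d ih =>
      intro v acc
      rw [List.foldl_cons]
      show d.foldl st (v.tail, (xor b (v.headD false)) :: acc) = _
      rw [ih]
      cases v <;> simp [xorl]
  have := (PT.foldl (m := m) (s := fun z : α × ((List Bool × List Bool) × Bool) =>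
    ((z.2.1.1.tail, (xor z.2.2 (z.2.1.1.headD false)) :: z.2.1.2) : List Bool × List Bool))
    (ini := fun a => (v a, [])) hd (by fun_prop) (by fun_prop)
    (q + 4 * p + 10) (by
      intro a k
      simp only
      change size (((d a).take k).foldl st (v a, [])) ≤ _
      rw [hfold, List.append_nil, size_pair]
      have h1 := (size_drop_le (v a) ((d a).take k).length).trans (hq a)
      have h2 := (size_bits (xorl ((d a).take k) (v a)).reverse).2
      rw [List.length_reverse, length_xorl] at h2
      have h5 : ((d a).take k).length ≤ (d a).length := List.length_take_le' _ _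
      have h6 := length_le_size' (d a)
      have h7 := hp a
      simp only [Polynomial.eval_add, Polynomial.eval_mul, Polynomial.eval_ofNat]
      omega)).snd'.reverse'
  convert this using 2 with a
  have h8 := congrArg Prod.snd (hfold (d a) (v a) [])
  simp only [List.append_nil] at h8
  have h9 : ((d a).foldl (fun y b => ((y.1.tail, (xor b (y.1.headD false)) :: y.2) :
    List Bool × List Bool)) (v a, [])).2 = (xorl (d a) (v a)).reverse := h8
  rw [h9, List.reverse_reverse]

/-! ### The unary header -/

/-- The number of letters `true` at the beginning of a word. -/
def lead : List Bool → ℕ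
  | [] => 0
  | b :: l => bif b then lead l + 1 else 0

theorem lead_le (l : List Bool) : lead l ≤ l.length := by
  induction l with
  | nil => exact le_rfl
  | cons b l ih => cases b <;> simp [lead, ih]

theorem lead_congr {l l' : List Bool} (h : l.length = l'.length)
    (h' : ∀ i ≤ lead l, bitAt l i = bitAt l' i) : lead l' = lead l := by
  induction l generalizing l' with
  | nil =>
    rw [List.length_nil] at h
    rw [List.length_eq_zero_iff.mp h.symm]
  | cons b l ih =>
    cases l' with
    | nil => simp at h
    | cons b' l' =>
      have h0 := h' 0 (Nat.zero_le _)
      simp only [bitAt_cons_zero] at h0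
      subst h0
      cases b
      · rfl
      · simp only [lead, cond_true] at h' ⊢
        rw [ih (by simpa using h)]
        intro i hi
        have := h' (i + 1) (by omega)
        simpa using this

theorem lead_append (w : ℕ) (l : List Bool) :
    lead (List.replicate w true ++ false :: l) = w := by
  induction w with
  | zero => rfl
  | succ w ih =>
    rw [List.replicate_succ, List.cons_append]
    simp only [lead, cond_true]
    rw [ih]

@[fun_prop]
theorem PT.lead' {l : α → List Bool} (hl : PT m l) : PT m (fun a => lead (l a)) := by
  obtain ⟨p, hp⟩ := hl.exists_size_le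
  have hf : ∀ l : List Bool, l.foldr (fun b y => bif b then y + 1 else 0) 0 = lead l := by
    intro l
    induction l with
    | nil => rfl
    | cons b l ih => rw [List.foldr_cons, ih]; rfl
  have := PT.foldr (m := m) (s := fun z : α × (Bool × ℕ) => bif z.2.1 then z.2.2 + 1 else 0)
    (ini := fun _ => 0) hl (by fun_prop) (by fun_prop) (2 * p + 1) (by
      intro a k
      simp only
      rw [hf, size_nat]
      have h1 := lead_le ((l a).drop k)
      have h2 : ((l a).drop k).length ≤ (l a).length := by simp
      have h3 := length_le_size' (l a)
      have h4 := hp a
      simp only [Polynomial.eval_add, Polynomial.eval_mul, Polynomial.eval_ofNat,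
        Polynomial.eval_one]
      omega)
  convert this using 2 with a
  exact (hf (l a)).symm

end Pool.Agent.PPS
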