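import Pool.Agent.PPS.PT

/-!
# Basic closure properties
-/

namespace Pool.Agent.PPS

open Prog

/-- Registers. -/
inductive Rg : Type
  | a | b | c | t | f | g
  deriving DecidableEq

instance : Finite Rg := by
  let h : Rg → Fin 6 := fun s => match s with
    | .a => 0 | .b => 1 | .c => 2 | .t => 3 | .f => 4 | .g => 5
  refine Finite.of_injective h ?_
  intro x y; cases x <;> cases y <;> simp [h]

/-- A store of the registers. -/
def rg (a b c t f g : List Bool) : Store Rg
  | .a => a | .b => b | .c => c | .t => t | .f => f | .g => g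

section upd

variable (a b c t f g w : List Bool)

@[simp] theorem upd_a : Function.update (rg a b c t f g) .a w = rg w b c t f g := by
  funext i; cases i <;> simp [Function.update, rg]

@[simp] theorem upd_b : Function.update (rg a b c t f g) .b w = rg a w c t f g := by
  funext i; cases i <;> simp [Function.update, rg]

@[simp] theorem upd_c : Function.update (rg a b c t f g) .c w = rg a b w t f g := by
  funext i; cases i <;> simp [Function.update, rg]

@[simp] theorem upd_t : Function.update (rg a b c t f g) .t w = rg a b c w f g := by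
  funext i; cases i <;> simp [Function.update, rg]

@[simp] theorem upd_f : Function.update (rg a b c t f g) .f w = rg a b c t w g := by
  funext i; cases i <;> simp [Function.update, rg]

@[simp] theorem upd_g : Function.update (rg a b c t f g) .g w = rg a b c t f w := by
  funext i; cases i <;> simp [Function.update, rg]

end upd

/-! ### Two-function workspaces -/

section ws

variable {ι₁ ι₂ : Type} [DecidableEq ι₁] [DecidableEq ι₂]

/-- The store with registers `r` and empty workspaces. -/
def EE (r : Store Rg) : Store ((Rg ⊕ ι₁) ⊕ ι₂) :=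
  Sum.elim (Sum.elim r (fun _ => [])) (fun _ => [])

/-- Inclusion of the registers. -/
abbrev jr (i : Rg) : (Rg ⊕ ι₁) ⊕ ι₂ := Sum.inl (Sum.inl i)

omit [DecidableEq ι₁] [DecidableEq ι₂] in
theorem EE_jr (r : Store Rg) (i : Rg) : EE (ι₁ := ι₁) (ι₂ := ι₂) r (jr i) = r i := rfl

theorem upd_EE (r : Store Rg) (i : Rg) (w : List Bool) :
    Function.update (EE (ι₁ := ι₁) (ι₂ := ι₂) r) (jr i) w = EE (Function.update r i w) := by
  unfold EE jr
  rw [← Sum.update_elim_inl, ← Sum.update_elim_inl]

theorem one_EE (x : List Bool) :
    one (jr .a : (Rg ⊕ ι₁) ⊕ ι₂) x = EE (rg x [] [] [] [] []) := by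
  funext i
  rcases i with (i | i) | i
  · cases i <;> simp [one, EE, rg]
  · simp [one, EE]
  · simp [one, EE]

theorem run_lift {B T : ℕ} {c : Prog Rg} {r r' : Store Rg} (h : Run B T c r r') :
    Run B T ((c.map Sum.inl).map Sum.inl) (EE (ι₁ := ι₁) (ι₂ := ι₂) r) (EE r') :=
  (h.map_inl _).map_inl _

end ws

variable {m : Bool} {α β γ δ σ τ : Type} [Rep α] [Rep β] [Rep γ] [Rep δ] [Rep σ] [Rep τ]

/-- Call the first function on register `i`. -/
def call1 {f₁ : α → β} {f₂ : γ → δ} (I₁ : Impl m f₁) (I₂ : Impl m f₂) (i : Rg) :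
    Prog ((Rg ⊕ I₁.ι) ⊕ I₂.ι) :=
  callP I₁.c I₁.io (fun x => Sum.inl (Sum.inr x)) (jr i) (jr .t) (jr .f)

/-- Call the second function on register `i`. -/
def call2 {f₁ : α → β} {f₂ : γ → δ} (I₁ : Impl m f₁) (I₂ : Impl m f₂) (i : Rg) :
    Prog ((Rg ⊕ I₁.ι) ⊕ I₂.ι) :=
  callP I₂.c I₂.io (fun x => Sum.inr x) (jr i) (jr .t) (jr .f)

theorem run_call1 {f₁ : α → β} {f₂ : γ → δ} (I₁ : Impl m f₁) (I₂ : Impl m f₂) (i : Rg)
    (hit : i ≠ .t) (hif : i ≠ .f) (x : α) (r : Store Rg) (hi : r i = code x)
    (ht : r .t = []) {B : ℕ} (hB : I₁.p.eval (size x) ≤ B) (hf : (r .f).length < B) :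
    ∃ T, Run B T (call1 I₁ I₂ i) (EE r) (EE (Function.update r i (code (f₁ x)))) ∧
      (m = true → T ≤ 20 * I₁.p.eval (size x) + 20) := by
  obtain ⟨T, h, hm⟩ := run_callP I₁ (J := (Rg ⊕ I₁.ι) ⊕ I₂.ι)
    (fun x => Sum.inl (Sum.inr x)) (fun x y h => by simpa using h) (jr i) (jr .t) (jr .f)
    (by simpa using hit) (by simpa using hif) (by simp) (by simp) (by simp) (by simp) x
    (EE r) hi ht (fun _ => rfl) hB hf
  rw [upd_EE] at h
  exact ⟨T, h, hm⟩

theorem run_call2 {f₁ : α → β} {f₂ : γ → δ} (I₁ : Impl m f₁) (I₂ : Impl m f₂) (i : Rg)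
    (hit : i ≠ .t) (hif : i ≠ .f) (x : γ) (r : Store Rg) (hi : r i = code x)
    (ht : r .t = []) {B : ℕ} (hB : I₂.p.eval (size x) ≤ B) (hf : (r .f).length < B) :
    ∃ T, Run B T (call2 I₁ I₂ i) (EE r) (EE (Function.update r i (code (f₂ x)))) ∧
      (m = true → T ≤ 20 * I₂.p.eval (size x) + 20) := by
  obtain ⟨T, h, hm⟩ := run_callP I₂ (J := (Rg ⊕ I₁.ι) ⊕ I₂.ι)
    (fun x => Sum.inr x) (fun x y h => by simpa using h) (jr i) (jr .t) (jr .f)
    (by simpa using hit) (by simpa using hif) (by simp) (by simp) (by simp) (by simp) x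
    (EE r) hi ht (fun _ => rfl) hB hf
  rw [upd_EE] at h
  exact ⟨T, h, hm⟩

/-- A program over registers only. -/
theorem PT.of_rg {f : α → β} (c : Prog Rg) (p : Polynomial ℕ)
    (h : ∀ a, Run (p.eval (size a)) (p.eval (size a)) c (rg (code a) [] [] [] [] [])
      (rg (code (f a)) [] [] [] [] [])) : PT m f := by
  refine ⟨Rg, inferInstance, inferInstance, c, .a, p, ?_⟩
  intro a
  have e : ∀ x, one Rg.a x = rg x [] [] [] [] [] := by
    intro x; funext i; cases i <;> simp [one, rg]
  refine ⟨_, ?_, fun _ => le_rfl⟩
  rw [e, e]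
  exact h a

/-- A program over registers and two functions. -/
theorem PT.of_two {f₁ : α → β} {f₂ : γ → δ} {F : σ → τ} (I₁ : Impl m f₁) (I₂ : Impl m f₂)
    (c : Prog ((Rg ⊕ I₁.ι) ⊕ I₂.ι)) (p : Polynomial ℕ)
    (h : ∀ a, ∃ T, Run (p.eval (size a)) T c (EE (rg (code a) [] [] [] [] []))
      (EE (rg (code (F a)) [] [] [] [] [])) ∧ (m = true → T ≤ p.eval (size a))) :
    PT m F := by
  refine ⟨(Rg ⊕ I₁.ι) ⊕ I₂.ι, inferInstance, inferInstance, c, jr .a, p, ?_⟩
  intro a
  obtain ⟨T, h, hm⟩ := h a
  refine ⟨T, ?_, hm⟩
  rw [one_EE, one_EE]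
  exact h

theorem PT.id : PT m (fun a : α => a) := by
  refine PT.of_rg .skip 1 ?_
  intro a
  exact Run.skip (by simp)

theorem PT.comp {g : β → γ} {f : α → β} (hg : PT m g) (hf : PT m f) :
    PT m (fun a => g (f a)) := by
  obtain ⟨I₁⟩ := hf.impl
  obtain ⟨I₂⟩ := hg.impl
  refine PT.of_two I₁ I₂ (seq (call1 I₁ I₂ .a) (call2 I₁ I₂ .a))
    (20 * I₁.p + 20 + (20 * I₂.p.comp I₁.p + 20)) ?_
  intro x
  simp only [Polynomial.eval_add, Polynomial.eval_mul, Polynomial.eval_comp,
    Polynomial.eval_ofNat]
  have h1 : I₂.p.eval (size (f x)) ≤ I₂.p.eval (I₁.p.eval (size x)) :=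
    polyMono _ (I₁.size_le x)
  obtain ⟨T, h2, h3⟩ := run_call1 I₁ I₂ .a (by simp) (by simp) x
    (rg (code x) [] [] [] [] []) rfl rfl (B := 20 * I₁.p.eval (size x) + 20 +
      (20 * I₂.p.eval (I₁.p.eval (size x)) + 20)) (by omega) (by simp [rg])
  rw [upd_a] at h2
  obtain ⟨T', h2', h3'⟩ := run_call2 I₁ I₂ .a (by simp) (by simp) (f x)
    (rg (code (f x)) [] [] [] [] []) rfl rfl (B := 20 * I₁.p.eval (size x) + 20 +
      (20 * I₂.p.eval (I₁.p.eval (size x)) + 20)) (by omega) (by simp [rg])
  rw [upd_a] at h2'
  refine ⟨T + T', Run.seq h2 h2', ?_⟩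
  intro h
  have := h3 h
  have := h3' h
  omega

/-! ### Programs on registers -/

section regs

variable {B T : ℕ}

theorem rg_moveRev_at (a b c t f g : List Bool) (hB : a.length + t.length ≤ B)
    (hf : f.length < B) (hT : 4 * a.length + 5 ≤ T) :
    Run B T (moveRev .a .t .f) (rg a b c t f g) (rg [] b c (a.reverse ++ t) f g) := by
  have := run_moveRev (ι := Rg) (a := .a) (b := .t) (f := .f) (by simp) (by simp) (by simp)
    (rg a b c t f g) hB hf hT
  simpa [rg] using this

theorem rg_moveRev_ba (a b c t f g : List Bool) (hB : b.length + a.length ≤ B)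
    (hf : f.length < B) (hT : 4 * b.length + 5 ≤ T) :
    Run B T (moveRev .b .a .f) (rg a b c t f g) (rg (b.reverse ++ a) [] c t f g) := by
  have := run_moveRev (ι := Rg) (a := .b) (b := .a) (f := .f) (by simp) (by simp) (by simp)
    (rg a b c t f g) hB hf hT
  simpa [rg] using this

theorem rg_moveRev_bt (a b c t f g : List Bool) (hB : b.length + t.length ≤ B)
    (hf : f.length < B) (hT : 4 * b.length + 5 ≤ T) :
    Run B T (moveRev .b .t .f) (rg a b c t f g) (rg a [] c (b.reverse ++ t) f g) := by
  have := run_moveRev (ι := Rg) (a := .b) (b := .t) (f := .f) (by simp) (by simp) (by simp)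
    (rg a b c t f g) hB hf hT
  simpa [rg] using this

theorem rg_moveRev_bc (a b c t f g : List Bool) (hB : b.length + c.length ≤ B)
    (hf : f.length < B) (hT : 4 * b.length + 5 ≤ T) :
    Run B T (moveRev .b .c .f) (rg a b c t f g) (rg a [] (b.reverse ++ c) t f g) := by
  have := run_moveRev (ι := Rg) (a := .b) (b := .c) (f := .f) (by simp) (by simp) (by simp)
    (rg a b c t f g) hB hf hT
  simpa [rg] using this

theorem rg_moveRev_ta (a b c t f g : List Bool) (hB : t.length + a.length ≤ B)
    (hf : f.length < B) (hT : 4 * t.length + 5 ≤ T) :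
    Run B T (moveRev .t .a .f) (rg a b c t f g) (rg (t.reverse ++ a) b c [] f g) := by
  have := run_moveRev (ι := Rg) (a := .t) (b := .a) (f := .f) (by simp) (by simp) (by simp)
    (rg a b c t f g) hB hf hT
  simpa [rg] using this

theorem rg_moveRev2_tab (a b c t f g : List Bool) (hB : t.length + a.length ≤ B)
    (hB' : t.length + b.length ≤ B)
    (hf : f.length < B) (hT : 5 * t.length + 5 ≤ T) :
    Run B T (moveRev2 .t .a .b .f) (rg a b c t f g)
      (rg (t.reverse ++ a) (t.reverse ++ b) c [] f g) := by
  have := run_moveRev2 (ι := Rg) (a := .t) (b := .a) (b' := .b) (f := .f)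
    (by simp) (by simp) (by simp) (by simp) (by simp) (by simp)
    (rg a b c t f g) hB hB' hf hT
  simpa [rg] using this

theorem rg_clear_a (a b c t f g : List Bool) (hf : f.length < B) (hT : 3 * a.length + 5 ≤ T) :
    Run B T (clear .a .f) (rg a b c t f g) (rg [] b c t f g) := by
  have := run_clear (ι := Rg) (a := .a) (f := .f) (by simp) (rg a b c t f g) hf hT
  simpa [rg] using this

theorem rg_clear_b (a b c t f g : List Bool) (hf : f.length < B) (hT : 3 * b.length + 5 ≤ T) :
    Run B T (clear .b .f) (rg a b c t f g) (rg a [] c t f g) := by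
  have := run_clear (ι := Rg) (a := .b) (f := .f) (by simp) (rg a b c t f g) hf hT
  simpa [rg] using this

theorem rg_clear_c (a b c t f g : List Bool) (hf : f.length < B) (hT : 3 * c.length + 5 ≤ T) :
    Run B T (clear .c .f) (rg a b c t f g) (rg a b [] t f g) := by
  have := run_clear (ι := Rg) (a := .c) (f := .f) (by simp) (rg a b c t f g) hf hT
  simpa [rg] using this

/-- Copy register `a` to register `b`. -/
def copyAB : Prog Rg := seq (moveRev .a .t .f) (moveRev2 .t .a .b .f)

theorem rg_copyAB (a c g : List Bool) (hB : a.length + 1 ≤ B)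
    (hT : 9 * a.length + 10 ≤ T) :
    Run B T copyAB (rg a [] c [] [] g) (rg a a c [] [] g) := by
  have h1 := rg_moveRev_at (B := B) (T := 4 * a.length + 5) a [] c [] [] g (by simp; omega)
    (by simp; omega) le_rfl
  have h2 := rg_moveRev2_tab (B := B) (T := 5 * a.length + 5) [] [] c (a.reverse ++ []) [] g
    (by simp; omega) (by simp; omega) (by simp; omega) (by simp)
  simp only [List.append_nil, List.reverse_reverse] at h1 h2
  exact Run.seq' h1 h2 (by omega)

/-- Move a tree code from register `a` to register `b` (reversed), counting with `t`. -/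
def split : Prog Rg :=
  seq (push .t true) (loop .t (pop .a skip (push .b false)
    (seq (push .b true) (seq (push .t true) (push .t true)))))

theorem rg_split (d : D) (a b c f g : List Bool) (hB : b.length + d.code.length ≤ B)
    (hB' : d.code.length + 1 ≤ B) (hT : 5 * d.code.length + 2 ≤ T) :
    Run B T split (rg (d.code ++ a) b c [] f g) (rg a (d.code.reverse ++ b) c [] f g) := by
  have key : ∀ (d : D) (a b τ : List Bool) (S' : Store Rg) (T : ℕ),
      b.length + d.code.length ≤ B → τ.length + d.code.length + 1 ≤ B →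
      Run B T (loop .t (pop .a skip (push .b false)
        (seq (push .b true) (seq (push .t true) (push .t true)))))
        (rg a (d.code.reverse ++ b) c τ f g) S' →
      Run B (T + 5 * d.code.length) (loop .t (pop .a skip (push .b false)
        (seq (push .b true) (seq (push .t true) (push .t true)))))
        (rg (d.code ++ a) b c (true :: τ) f g) S' := by
    intro d
    induction d with
    | nil =>
      intro a b τ S' T hb hτ h
      simp only [D.code_nil, List.reverse_cons, List.reverse_nil, List.nil_append,
        List.cons_append, List.length_cons, List.length_nil] at *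
      have h1 : Run B 2 (pop .a skip (push .b false)
          (seq (push .b true) (seq (push .t true) (push .t true))))
          (Function.update (rg (false :: a) b c (true :: τ) f g) .t τ)
          (rg a (false :: b) c τ f g) := by
        rw [upd_t]
        refine Run.popF (T := 1) (l := a) rfl ?_
        rw [upd_a]
        refine Run.push' ?_ le_rfl (by rw [upd_b]; rfl)
        simp only [rg]; omega
      exact (Run.loopT (i := Rg.t) (l := τ) rfl h1 h).mono le_rfl (by omega)
    | cons x y ihx ihy =>
      intro a b τ S' T hb hτ h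
      simp only [D.code_cons, List.length_cons, List.length_append] at hb hτ h ⊢
      have h1 : Run B 4 (pop .a skip (push .b false)
          (seq (push .b true) (seq (push .t true) (push .t true))))
          (Function.update (rg (true :: (x.code ++ y.code) ++ a) b c (true :: τ) f g) .t τ)
          (rg (x.code ++ (y.code ++ a)) (true :: b) c (true :: true :: τ) f g) := by
        rw [upd_t]
        refine Run.popT (T := 3) (l := x.code ++ (y.code ++ a)) (by simp [rg]) ?_
        rw [upd_a]
        have p1 := D.length_code_pos x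
        have p2 := D.length_code_pos y
        refine Run.seq (T := 1) (T' := 2) (Run.push' (S' := rg (x.code ++ (y.code ++ a))
          (true :: b) c τ f g) ?_ le_rfl (by rw [upd_b]; rfl))
          (Run.seq (T := 1) (T' := 1) (Run.push' (S' := rg (x.code ++ (y.code ++ a))
          (true :: b) c (true :: τ) f g) ?_ le_rfl (by rw [upd_t]; rfl))
          (Run.push' ?_ le_rfl (by rw [upd_t]; rfl)))
        · simp only [rg]; omega
        · simp only [rg]; omega
        · simp only [rg, List.length_cons]; omega
      have h2 := ihy a (x.code.reverse ++ true :: b) τ S' T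
        (by simp; omega) (by omega) (by
          have e : (true :: (x.code ++ y.code)).reverse ++ b =
            y.code.reverse ++ (x.code.reverse ++ true :: b) := by simp
          rw [← e]; exact h)
      have h3 := ihx (y.code ++ a) (true :: b) (true :: τ) S' _
        (by simp; omega) (by
          have p2 := D.length_code_pos y
          simp; omega) h2
      exact (Run.loopT (i := Rg.t) (l := τ) rfl h1 h3).mono le_rfl (by omega)
  have h1 : Run B 1 (push .t true) (rg (d.code ++ a) b c [] f g)
      (rg (d.code ++ a) b c [true] f g) := by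
    refine Run.push' ?_ le_rfl (by rw [upd_t]; rfl)
    simp only [rg, List.length_nil]; omega
  have h2 := key d a b [] _ 1 hB (by simpa using hB') (Run.loopN (i := Rg.t) rfl le_rfl)
  exact Run.seq' h1 h2 (by omega)

end regs

theorem PT.const (b : β) : PT m (fun _ : α => b) := by
  refine PT.of_rg (seq (clear .a .f) (pushWord .a (code b)))
    (3 * Polynomial.X + 5 + Polynomial.C ((code b).length + 1)) ?_
  intro a
  simp only [Polynomial.eval_add, Polynomial.eval_mul, Polynomial.eval_X,
    Polynomial.eval_ofNat, Polynomial.eval_C]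
  have h1 := rg_clear_a (B := 3 * size a + 5 + ((code b).length + 1)) (T := 3 * size a + 5)
    (code a) [] [] [] [] [] (by simp) (by simp [size])
  have h2 := run_pushWord (B := 3 * size a + 5 + ((code b).length + 1))
    (T := (code b).length + 1) Rg.a (code b) (rg [] [] [] [] [] []) (by simp [rg]; omega) le_rfl
  rw [upd_a] at h2
  simp only [rg, List.append_nil] at h2
  exact Run.seq' h1 h2 le_rfl

theorem PT.pair {f₁ : α → β} {f₂ : α → γ} (h₁ : PT m f₁) (h₂ : PT m f₂) :
    PT m (fun a => (f₁ a, f₂ a)) := by
  obtain ⟨I₁⟩ := h₁.impl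
  obtain ⟨I₂⟩ := h₂.impl
  -- `a := f₂ a`, `b := f₁ a`, then prepend
  refine PT.of_two I₁ I₂ (seq ((copyAB.map Sum.inl).map Sum.inl) (seq (call1 I₁ I₂ .b)
    (seq (call2 I₁ I₂ .a) (((seq (moveRev .b .t .f) (seq (moveRev .t .a .f)
      (push .a true))).map Sum.inl).map Sum.inl))))
    (9 * Polynomial.X + 10 + (20 * I₁.p + 20 + (20 * I₂.p + 20 + (8 * I₁.p + 11)))) ?_
  intro x
  simp only [Polynomial.eval_add, Polynomial.eval_mul, Polynomial.eval_X,
    Polynomial.eval_ofNat]
  have hx₁ : size x ≤ I₁.p.eval (size x) := I₁.le _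
  have hf₁ : size (f₁ x) ≤ I₁.p.eval (size x) := I₁.size_le x
  have hf₂ : size (f₂ x) ≤ I₂.p.eval (size x) := I₂.size_le x
  have e1 : (code x).length = size x := rfl
  have e2 : (code (f₁ x)).length = size (f₁ x) := rfl
  have e3 : (code (f₂ x)).length = size (f₂ x) := rfl
  generalize hB : 9 * size x + 10 + (20 * I₁.p.eval (size x) + 20 +
    (20 * I₂.p.eval (size x) + 20 + (8 * I₁.p.eval (size x) + 11))) = B
  have s1 := run_lift (ι₁ := I₁.ι) (ι₂ := I₂.ι) (rg_copyAB (B := B) (T := 9 * size x + 10)
    (code x) [] [] (by omega) (by omega))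
  obtain ⟨T₁, s2, m2⟩ := run_call1 I₁ I₂ .b (by simp) (by simp) x
    (rg (code x) (code x) [] [] [] []) rfl rfl (B := B) (by omega) (by simp [rg]; omega)
  rw [upd_b] at s2
  obtain ⟨T₂, s3, m3⟩ := run_call2 I₁ I₂ .a (by simp) (by simp) x
    (rg (code x) (code (f₁ x)) [] [] [] []) rfl rfl (B := B) (by omega) (by simp [rg]; omega)
  rw [upd_a] at s3
  have t1 := rg_moveRev_bt (B := B) (T := 4 * size (f₁ x) + 5) (code (f₂ x)) (code (f₁ x))
    [] [] [] [] (by simp; omega) (by simp; omega) (by omega)
  have t2 := rg_moveRev_ta (B := B) (T := 4 * size (f₁ x) + 5) (code (f₂ x)) []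
    [] ((code (f₁ x)).reverse ++ []) [] [] (by simp; omega) (by simp; omega) (by simp; omega)
  simp only [List.append_nil, List.reverse_reverse] at t1 t2
  have t3 : Run B 1 (push .a true) (rg (code (f₁ x) ++ code (f₂ x)) [] [] [] [] [])
      (rg (code (f₁ x, f₂ x)) [] [] [] [] []) := by
    refine Run.push' ?_ le_rfl ?_
    · simp [rg]; omega
    · rw [upd_a]; rfl
  have s4 := run_lift (ι₁ := I₁.ι) (ι₂ := I₂.ι) (Run.seq t1 (Run.seq t2 t3))
  refine ⟨_, Run.seq s1 (Run.seq s2 (Run.seq s3 s4)), ?_⟩
  intro h
  have := m2 h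
  have := m3 h
  omega

theorem PT.snd : PT m (fun p : α × β => p.2) := by
  refine PT.of_rg (seq (pop .a skip skip skip) (seq split (clear .b .f)))
    (8 * Polynomial.X + 10) ?_
  rintro ⟨x, y⟩
  simp only [Polynomial.eval_add, Polynomial.eval_mul, Polynomial.eval_X,
    Polynomial.eval_ofNat]
  have hs := size_pair x y
  have hx := size_pos x
  have hy := size_pos y
  have e1 : (Rep.rep x).code.length = size x := rfl
  have e2 : (code x).length = size x := rfl
  generalize hB : 8 * size (x, y) + 10 = B
  have h1 : Run B 2 (pop .a skip skip skip) (rg (code (x, y)) [] [] [] [] [])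
      (rg (code x ++ code y) [] [] [] [] []) := by
    refine Run.popT (T := 1) (l := code x ++ code y) rfl ?_
    rw [upd_a]; exact Run.skip le_rfl
  have h2 := rg_split (B := B) (T := 5 * size x + 2) (Rep.rep x) (code y) [] [] [] []
    (by simp; omega) (by omega) (by omega)
  have h3 := rg_clear_b (B := B) (T := 3 * size x + 5) (code y)
    ((Rep.rep x).code.reverse ++ []) [] [] [] [] (by simp; omega) (by simp; omega)
  exact Run.seq' h1 (Run.seq h2 h3) (by omega)

theorem PT.fst : PT m (fun p : α × β => p.1) := by
  refine PT.of_rg (seq (pop .a skip skip skip) (seq split (seq (clear .a .f)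
    (moveRev .b .a .f)))) (12 * Polynomial.X + 20) ?_
  rintro ⟨x, y⟩
  simp only [Polynomial.eval_add, Polynomial.eval_mul, Polynomial.eval_X,
    Polynomial.eval_ofNat]
  have hs := size_pair x y
  have hx := size_pos x
  have hy := size_pos y
  have e1 : (Rep.rep x).code.length = size x := rfl
  have e2 : (code x).length = size x := rfl
  have e3 : (code y).length = size y := rfl
  generalize hB : 12 * size (x, y) + 20 = B
  have h1 : Run B 2 (pop .a skip skip skip) (rg (code (x, y)) [] [] [] [] [])
      (rg (code x ++ code y) [] [] [] [] []) := by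
    refine Run.popT (T := 1) (l := code x ++ code y) rfl ?_
    rw [upd_a]; exact Run.skip le_rfl
  have h2 := rg_split (B := B) (T := 5 * size x + 2) (Rep.rep x) (code y) [] [] [] []
    (by simp; omega) (by omega) (by omega)
  have h3 := rg_clear_a (B := B) (T := 3 * size y + 5) (code y)
    ((Rep.rep x).code.reverse ++ []) [] [] [] [] (by simp; omega) (by omega)
  have h4 := rg_moveRev_ba (B := B) (T := 4 * size x + 5) []
    ((Rep.rep x).code.reverse ++ []) [] [] [] [] (by simp; omega) (by simp; omega)
    (by simp; omega)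
  simp only [List.append_nil, List.reverse_reverse] at h2 h3 h4
  exact Run.seq' h1 (Run.seq h2 (Run.seq h3 h4)) (by omega)

/-- Case distinction on the code. -/
theorem PT.caseD {F : σ → τ} {f₁ : α → τ} {f₂ : γ → τ} (h₁ : PT m f₁) (h₂ : PT m f₂)
    (h : ∀ x : σ, (∃ y : α, code x = true :: false :: code y ∧ F x = f₁ y) ∨
      (∃ z : γ, code x = code z ∧ (∃ l, code z = true :: true :: l) ∧ F x = f₂ z)) :
    PT m F := by
  obtain ⟨I₁⟩ := h₁.impl
  obtain ⟨I₂⟩ := h₂.impl
  refine PT.of_two I₁ I₂ (pop (jr .a) skip skip (pop (jr .a) skip (call1 I₁ I₂ .a)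
    (seq (push (jr .a) true) (seq (push (jr .a) true) (call2 I₁ I₂ .a)))))
    (20 * I₁.p + (20 * I₂.p + (Polynomial.X + 24))) ?_
  intro x
  simp only [Polynomial.eval_add, Polynomial.eval_mul, Polynomial.eval_X,
    Polynomial.eval_ofNat]
  generalize hB : 20 * I₁.p.eval (size x) + (20 * I₂.p.eval (size x) + (size x + 24)) = B
  rcases h x with ⟨y, h1, h2⟩ | ⟨z, h0, ⟨l, h1⟩, h2⟩
  · have hy : size y ≤ size x := by
      unfold size; rw [h1]; simp; omega
    have hyp := polyMono I₁.p hy
    obtain ⟨T₁, s2, m2⟩ := run_call1 I₁ I₂ .a (by simp) (by simp) y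
      (rg (code y) [] [] [] [] []) rfl rfl (B := B) (by omega) (by simp [rg]; omega)
    rw [upd_a] at s2
    refine ⟨T₁ + 1 + 1, ?_, ?_⟩
    · rw [h1]
      refine Run.popT (l := false :: code y) rfl ?_
      rw [upd_EE, upd_a]
      refine Run.popF (l := code y) rfl ?_
      rw [upd_EE, upd_a, h2]
      exact s2
    · intro hm
      have := m2 hm
      omega
  · have hzx : size z = size x := by unfold size; rw [h0]
    obtain ⟨T₁, s2, m2⟩ := run_call2 I₁ I₂ .a (by simp) (by simp) z
      (rg (code z) [] [] [] [] []) rfl rfl (B := B) (by rw [hzx]; omega)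
      (by simp [rg]; omega)
    rw [upd_a] at s2
    rw [hzx] at m2
    have hl : l.length + 2 = size x := by
      rw [← hzx]; unfold size; rw [h1]; simp
    refine ⟨1 + (1 + T₁) + 1 + 1, ?_, ?_⟩
    · rw [h0, h1]
      refine Run.popT (l := true :: l) rfl ?_
      rw [upd_EE, upd_a]
      refine Run.popT (l := l) rfl ?_
      rw [upd_EE, upd_a, h2]
      refine Run.seq (Run.push' (S' := EE (rg (true :: l) [] [] [] [] [])) ?_ le_rfl ?_)
        (Run.seq (Run.push' (S' := EE (rg (code z) [] [] [] [] [])) ?_ le_rfl ?_) s2)
      · rw [EE_jr]; simp only [rg]; omega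
      · rw [upd_EE, upd_a]; rfl
      · rw [EE_jr]; simp only [rg, List.length_cons]; omega
      · rw [upd_EE, upd_a, h1]; rfl
    · intro hm
      have := m2 hm
      omega

/-! ### While loops -/

/-- The body of a while loop with step `s` and test `c`. -/
def wbody {s : σ → σ} {c : σ → Bool} (I₁ : Impl m s) (I₂ : Impl m c) :
    Prog ((Rg ⊕ I₁.ι) ⊕ I₂.ι) :=
  seq ((copyAB.map Sum.inl).map Sum.inl) (seq (call2 I₁ I₂ .b)
    (pop (jr .b) skip (push (jr .g) false) (seq (pop (jr .b) skip skip skip)
      (seq (pop (jr .b) skip skip skip) (seq (call1 I₁ I₂ .a) (push (jr .g) true))))))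

theorem run_wbody {s : σ → σ} {c : σ → Bool} (I₁ : Impl m s) (I₂ : Impl m c) (y : σ) {B : ℕ}
    (hB : 20 * I₁.p.eval (size y) + 20 * I₂.p.eval (size y) + 9 * size y + 80 ≤ B) :
    ∃ T, Run B T (wbody I₁ I₂) (EE (rg (code y) [] [] [] [] []))
      (EE (if c y then rg (code (s y)) [] [] [] [] [true] else rg (code y) [] [] [] [] [false]))
      ∧ (m = true → T ≤ 20 * I₁.p.eval (size y) + 20 * I₂.p.eval (size y) + 9 * size y + 78) := by
  have hy : size y ≤ I₁.p.eval (size y) := I₁.le _
  have hy' : size y ≤ I₂.p.eval (size y) := I₂.le _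
  have e1 : (code y).length = size y := rfl
  have s1 := run_lift (ι₁ := I₁.ι) (ι₂ := I₂.ι) (rg_copyAB (B := B) (T := 9 * size y + 10)
    (code y) [] [] (by omega) (by omega))
  obtain ⟨T₂, s2, m2⟩ := run_call2 I₁ I₂ .b (by simp) (by simp) y
    (rg (code y) (code y) [] [] [] []) rfl rfl (B := B) (by omega) (by simp [rg]; omega)
  rw [upd_b] at s2
  cases hc : c y with
  | false =>
    rw [hc, code_false] at s2
    simp only [Bool.false_eq_true, if_false]
    refine ⟨(9 * size y + 10) + (T₂ + (1 + 1)), Run.seq s1 (Run.seq s2 (Run.popF (l := [])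
      rfl ?_)), ?_⟩
    · rw [upd_EE, upd_b]
      refine Run.push' ?_ le_rfl ?_
      · rw [EE_jr]; simp [rg]; omega
      · rw [upd_EE, upd_g]; rfl
    · intro h; have := m2 h; omega
  | true =>
    rw [hc, code_true] at s2
    simp only [if_true]
    obtain ⟨T₁, s3, m3⟩ := run_call1 I₁ I₂ .a (by simp) (by simp) y
      (rg (code y) [] [] [] [] []) rfl rfl (B := B) (by omega) (by simp [rg]; omega)
    rw [upd_a] at s3
    refine ⟨(9 * size y + 10) + (T₂ + ((1 + 1) + ((1 + 1) + (T₁ + 1)) + 1)),
      Run.seq s1 (Run.seq s2 (Run.popT (l := [false, false])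
      rfl ?_)), ?_⟩
    · rw [upd_EE, upd_b]
      refine Run.seq (S' := EE (rg (code y) [false] [] [] [] [])) (Run.popF (l := [false])
        rfl ?_) (Run.seq (S' := EE (rg (code y) [] [] [] [] [])) (Run.popF (l := []) rfl ?_)
        (Run.seq s3 (Run.push' ?_ le_rfl ?_)))
      · rw [upd_EE, upd_b]; exact Run.skip le_rfl
      · rw [upd_EE, upd_b]; exact Run.skip le_rfl
      · rw [EE_jr]; simp [rg]; omega
      · rw [upd_EE, upd_g]; rfl
    · intro h; have := m2 h; have := m3 h; omega

theorem PT.whileSub {s : σ → σ} {c : σ → Bool} (hs : PT m s) (hc : PT m c) (P : σ → Prop)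
    (N : {y // P y} → ℕ) (q : Polynomial ℕ)
    (hsz : ∀ y k, k ≤ N y → size (s^[k] y.1) ≤ q.eval (size y.1))
    (h1 : ∀ y k, k < N y → c (s^[k] y.1) = true) (h2 : ∀ y, c (s^[N y] y.1) = false)
    (hN : m = true → ∀ y, N y ≤ q.eval (size y.1)) :
    PT m (fun y : {y // P y} => s^[N y] y.1) := by
  obtain ⟨I₁⟩ := hs.impl
  obtain ⟨I₂⟩ := hc.impl
  let pb : Polynomial ℕ := 20 * I₁.p + 20 * I₂.p + 9 * Polynomial.X + 80
  have hpb : ∀ n, pb.eval n = 20 * I₁.p.eval n + 20 * I₂.p.eval n + 9 * n + 80 := by
    intro n; simp [pb]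
  refine PT.of_two I₁ I₂ (seq (push (jr .g) true) (loop (jr .g) (wbody I₁ I₂)))
    ((q + 2) * pb.comp q) ?_
  intro y
  have hP : ((q + 2) * pb.comp q).eval (size y) =
      (q.eval (size y.1) + 2) * pb.eval (q.eval (size y.1)) := by
    simp only [Polynomial.eval_mul, Polynomial.eval_add, Polynomial.eval_ofNat,
      Polynomial.eval_comp]
    rfl
  rw [hP]
  obtain ⟨Q, hQ⟩ : ∃ Q, Q = q.eval (size y.1) := ⟨_, rfl⟩
  obtain ⟨W, hW⟩ : ∃ W, W = pb.eval Q := ⟨_, rfl⟩
  rw [← hQ, ← hW]
  generalize hB : (Q + 2) * W = B
  have hWB : W ≤ B := by rw [← hB]; exact Nat.le_mul_of_pos_left _ (by omega)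
  have hW80 : 80 ≤ W := by rw [hW, hpb]; omega
  have hbody : ∀ k ≤ N y, 20 * I₁.p.eval (size (s^[k] y.1)) +
      20 * I₂.p.eval (size (s^[k] y.1)) + 9 * size (s^[k] y.1) + 80 ≤ W := by
    intro k hk
    have h3 := hsz y k hk
    rw [hW, hpb, hQ]
    have h4 := polyMono I₁.p h3
    have h5 := polyMono I₂.p h3
    omega
  have key : ∀ j ≤ N y, ∃ T, Run B T (loop (jr .g) (wbody I₁ I₂))
      (EE (rg (code (s^[N y - j] y.1)) [] [] [] [] [true]))
      (EE (rg (code (s^[N y] y.1)) [] [] [] [] [])) ∧ (m = true → T ≤ (j + 1) * W) := by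
    intro j
    induction j with
    | zero =>
      intro hj
      have hb := hbody (N y) le_rfl
      obtain ⟨T, r1, m1⟩ := run_wbody I₁ I₂ (s^[N y] y.1) (B := B) (by omega)
      rw [h2] at r1
      simp only [Bool.false_eq_true, if_false] at r1
      refine ⟨T + 1 + 1, ?_, ?_⟩
      · rw [Nat.sub_zero]
        refine Run.loopT (S' := EE (rg (code (s^[N y] y.1)) [] [] [] [] [false])) (l := [])
          rfl ?_ (Run.loopF' (l := []) rfl le_rfl ?_)
        · rw [upd_EE, upd_g]; exact r1
        · rw [upd_EE, upd_g]
      · intro h; have := m1 h; omega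
    | succ j ih =>
      intro hj
      obtain ⟨T', r2, m2⟩ := ih (by omega)
      have hb := hbody (N y - (j + 1)) (by omega)
      obtain ⟨T, r1, m1⟩ := run_wbody I₁ I₂ (s^[N y - (j + 1)] y.1) (B := B) (by omega)
      rw [h1 y (N y - (j + 1)) (by omega)] at r1
      simp only [if_true] at r1
      have e : s (s^[N y - (j + 1)] y.1) = s^[N y - j] y.1 := by
        rw [← Function.iterate_succ_apply' s, show (N y - (j + 1)).succ = N y - j by omega]
      rw [e] at r1
      refine ⟨T + T' + 1, Run.loopT (l := []) rfl ?_ r2, ?_⟩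
      · rw [upd_EE, upd_g]; exact r1
      · intro h
        have := m1 h
        have := m2 h
        rw [Nat.add_mul]
        omega
  obtain ⟨T, r, hm⟩ := key (N y) le_rfl
  rw [Nat.sub_self] at r
  refine ⟨1 + T, Run.seq (Run.push' ?_ le_rfl ?_) r, ?_⟩
  · rw [EE_jr]; simp [rg]; omega
  · rw [upd_EE, upd_g]; rfl
  · intro h
    have h6 := hm h
    have h7 := hN h y
    rw [← hQ] at h7
    have h8 : (N y + 1) * W ≤ (Q + 1) * W := Nat.mul_le_mul_right _ (by omega)
    have h9 : (Q + 2) * W = (Q + 1) * W + W := by ring
    omega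

/-! ### Equality -/

/-- Write the result `b` of a comparison and stop. -/
def cmpEnd (b : Bool) : Prog Rg := seq (push .b b) (push .g false)

/-- Comparison of the registers `a` and `c`. -/
def cmp : Prog Rg :=
  loop .g (pop .a (pop .c (cmpEnd true) (cmpEnd false) (cmpEnd false))
    (pop .c (cmpEnd false) (push .g true) (cmpEnd false))
    (pop .c (cmpEnd false) (cmpEnd false) (push .g true)))

theorem rg_cmpEnd {B : ℕ} (hB : 2 ≤ B) (r : Bool) (a c t f : List Bool) :
    Run B 2 (cmpEnd r) (rg a [] c t f []) (rg a [r] c t f [false]) := by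
  refine Run.seq (T := 1) (T' := 1) (Run.push' (S' := rg a [r] c t f []) ?_ le_rfl
    (by rw [upd_b]; rfl)) (Run.push' ?_ le_rfl (by rw [upd_g]; rfl))
  · simp [rg]; omega
  · simp [rg]; omega

theorem rg_cmp {B : ℕ} (hB : 2 ≤ B) (t f : List Bool) : ∀ (x y : List Bool),
    ∃ a' c' : List Bool, a'.length ≤ x.length ∧ c'.length ≤ y.length ∧
      Run B (4 * x.length + 6) cmp (rg x [] y t f [true]) (rg a' [decide (x = y)] c' t f []) := by
  have fin : ∀ (x y : List Bool) (r : Bool) (b : Prog Rg) (a' c' : List Bool),
      Run B 4 b (rg x [] y t f []) (rg a' [r] c' t f [false]) →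
      Run B 6 (loop .g b) (rg x [] y t f [true]) (rg a' [r] c' t f []) := by
    intro x y r b a' c' h
    refine Run.loopT (l := []) (S' := rg a' [r] c' t f [false]) rfl ?_ (Run.loopF' (T := 1)
      (l := []) rfl le_rfl ?_)
    · rw [upd_g]; exact h
    · rw [upd_g]
  intro x
  induction x with
  | nil =>
    intro y
    cases y with
    | nil =>
      refine ⟨[], [], le_rfl, le_rfl, fin [] [] true _ _ _ ?_⟩
      exact Run.popN rfl (Run.popN rfl (rg_cmpEnd hB true _ _ _ _))
    | cons b y =>
      refine ⟨[], y, le_rfl, by simp, fin [] (b :: y) false _ _ _ ?_⟩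
      refine Run.popN rfl ?_
      cases b with
      | false =>
        refine Run.popF (l := y) rfl ?_
        rw [upd_c]; exact rg_cmpEnd hB false _ _ _ _
      | true =>
        refine Run.popT (l := y) rfl ?_
        rw [upd_c]; exact rg_cmpEnd hB false _ _ _ _
  | cons b x ih =>
    intro y
    cases y with
    | nil =>
      refine ⟨x, [], by simp, le_rfl, (fin (b :: x) [] false _ _ _ ?_).mono le_rfl (by omega)⟩
      cases b with
      | false =>
        refine Run.popF (l := x) rfl ?_
        rw [upd_a]; exact Run.popN rfl (rg_cmpEnd hB false _ _ _ _)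
      | true =>
        refine Run.popT (l := x) rfl ?_
        rw [upd_a]; exact Run.popN rfl (rg_cmpEnd hB false _ _ _ _)
    | cons b' y =>
      obtain ⟨a', c', h1, h2, h3⟩ := ih y
      by_cases hbb : b = b'
      · subst hbb
        refine ⟨a', c', by simp; omega, by simp; omega, ?_⟩
        have e : decide (b :: x = b :: y) = decide (x = y) := by simp
        rw [e]
        have hb : Run B 3 (pop .a (pop .c (cmpEnd true) (cmpEnd false) (cmpEnd false))
            (pop .c (cmpEnd false) (push .g true) (cmpEnd false))
            (pop .c (cmpEnd false) (cmpEnd false) (push .g true)))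
            (Function.update (rg (b :: x) [] (b :: y) t f [true]) .g [])
            (rg x [] y t f [true]) := by
          rw [upd_g]
          cases b with
          | false =>
            refine Run.popF (T := 2) (l := x) rfl ?_
            rw [upd_a]
            refine Run.popF (T := 1) (l := y) rfl ?_
            rw [upd_c]
            exact Run.push' (by simp [rg]; omega) le_rfl (by rw [upd_g]; rfl)
          | true =>
            refine Run.popT (T := 2) (l := x) rfl ?_
            rw [upd_a]
            refine Run.popT (T := 1) (l := y) rfl ?_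
            rw [upd_c]
            exact Run.push' (by simp [rg]; omega) le_rfl (by rw [upd_g]; rfl)
        have h4 := Run.loopT (i := Rg.g) (l := []) (by rfl) hb h3
        exact h4.mono le_rfl (by simp; omega)
      · refine ⟨x, y, by simp, by simp, ?_⟩
        have e : decide (b :: x = b' :: y) = false := by simp [hbb]
        rw [e]
        refine (fin (b :: x) (b' :: y) false _ _ _ ?_).mono le_rfl (by omega)
        cases b <;> cases b'
        · exact absurd rfl hbb
        · refine Run.popF (l := x) rfl ?_
          rw [upd_a]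
          refine Run.popT (l := y) rfl ?_
          rw [upd_c]; exact rg_cmpEnd hB false _ _ _ _
        · refine Run.popT (l := x) rfl ?_
          rw [upd_a]
          refine Run.popF (l := y) rfl ?_
          rw [upd_c]; exact rg_cmpEnd hB false _ _ _ _
        · exact absurd rfl hbb

theorem PT.eqCode : PT m (fun p : α × α => decide (code p.1 = code p.2)) := by
  refine PT.of_rg (seq (pop .a skip skip skip) (seq split (seq (moveRev .b .c .f)
    (seq (push .g true) (seq cmp (seq (clear .a .f) (seq (clear .c .f)
    (pop .b skip (push .a false) (seq (push .a false) (seq (push .a false)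
      (push .a true))))))))))) (20 * Polynomial.X + 40) ?_
  rintro ⟨x, y⟩
  simp only [Polynomial.eval_add, Polynomial.eval_mul, Polynomial.eval_X,
    Polynomial.eval_ofNat]
  have hs := size_pair x y
  have hx := size_pos x
  have hy := size_pos y
  have e1 : (Rep.rep x).code.length = size x := rfl
  have e2 : (code x).length = size x := rfl
  have e3 : (code y).length = size y := rfl
  generalize hB : 20 * size (x, y) + 40 = B
  have h1 : Run B 2 (pop .a skip skip skip) (rg (code (x, y)) [] [] [] [] [])
      (rg (code x ++ code y) [] [] [] [] []) := by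
    refine Run.popT (T := 1) (l := code x ++ code y) rfl ?_
    rw [upd_a]; exact Run.skip le_rfl
  have h2 := rg_split (B := B) (T := 5 * size x + 2) (Rep.rep x) (code y) [] [] [] []
    (by simp; omega) (by omega) (by omega)
  have h3 := rg_moveRev_bc (B := B) (T := 4 * size x + 5) (code y)
    ((Rep.rep x).code.reverse ++ []) [] [] [] [] (by simp; omega) (by simp; omega)
    (by simp; omega)
  simp only [List.append_nil, List.reverse_reverse] at h2 h3
  have h4 : Run B 1 (push .g true) (rg (code y) [] (Rep.rep x).code [] [] [])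
      (rg (code y) [] (Rep.rep x).code [] [] [true]) :=
    Run.push' (by simp [rg]; omega) le_rfl (by rw [upd_g]; rfl)
  obtain ⟨a', c', ha, hc, h5⟩ := rg_cmp (B := B) (by omega) [] [] (code y) (Rep.rep x).code
  have h6 := rg_clear_a (B := B) (T := 3 * size y + 5) a' [decide (code y = (Rep.rep x).code)]
    c' [] [] [] (by simp; omega) (by omega)
  have h7 := rg_clear_c (B := B) (T := 3 * size x + 5) [] [decide (code y = (Rep.rep x).code)]
    c' [] [] [] (by simp; omega) (by omega)
  have h8 : Run B 4 (pop .b skip (push .a false) (seq (push .a false) (seq (push .a false)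
      (push .a true)))) (rg [] [decide (code y = (Rep.rep x).code)] [] [] [] [])
      (rg (code (decide (code x = code y))) [] [] [] [] []) := by
    have e : decide (code x = code y) = decide (code y = (Rep.rep x).code) :=
      decide_eq_decide.mpr eq_comm
    rw [e]
    cases decide (code y = (Rep.rep x).code) with
    | false =>
      refine Run.mono (T := 1 + 1) (Run.popF (l := []) rfl ?_) le_rfl (by omega)
      rw [upd_b]
      exact Run.push' (by simp [rg]; omega) le_rfl (by rw [upd_a]; rfl)
    | true =>
      refine Run.popT (T := 3) (l := []) rfl ?_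
      rw [upd_b]
      exact Run.seq (T := 1) (T' := 2) (Run.push' (S' := rg [false] [] [] [] [] [])
        (by simp [rg]; omega) le_rfl (by rw [upd_a]; rfl))
        (Run.seq (T := 1) (T' := 1) (Run.push' (S' := rg [false, false] [] [] [] [] [])
        (by simp [rg]; omega) le_rfl (by rw [upd_a]; rfl))
        (Run.push' (by simp [rg]; omega) le_rfl (by rw [upd_a]; rfl)))
  refine Run.seq' h1 (Run.seq h2 (Run.seq h3 (Run.seq h4 (Run.seq h5 (Run.seq h6
    (Run.seq h7 h8)))))) (by omega)

/-! ### Words and their codes -/

/-- From the code of a word in register `a` to the word in register `a`. -/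
def toRaw : Prog Rg :=
  seq (seq (push .g true) (loop .g (pop .a skip (push .g false)
    (seq (pop .a skip (push .t false)
      (pop .a skip (pop .a skip (push .t true) (push .t true)) skip)) (push .g true)))))
    (moveRev .t .a .f)

theorem rg_toRaw {B T : ℕ} (w : List Bool) (hB : w.length + 2 ≤ B)
    (hT : 20 * w.length + 20 ≤ T) :
    Run B T toRaw (rg (code w) [] [] [] [] []) (rg w [] [] [] [] []) := by
  have key : ∀ (w τ : List Bool), w.length + τ.length + 1 ≤ B →
      Run B (8 * w.length + 4) (loop .g (pop .a skip (push .g false)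
        (seq (pop .a skip (push .t false)
          (pop .a skip (pop .a skip (push .t true) (push .t true)) skip)) (push .g true))))
      (rg (code w) [] [] τ [] [true]) (rg [] [] [] (w.reverse ++ τ) [] []) := by
    intro w
    induction w with
    | nil =>
      intro τ hB
      simp only [List.length_nil] at *
      refine (Run.loopT (T := 2) (T' := 1) (l := []) (S' := rg [] [] [] τ [] [false]) rfl ?_
        (Run.loopF' (l := []) rfl le_rfl ?_)).mono le_rfl (by omega)
      · rw [upd_g]
        refine Run.popF (T := 1) (l := []) rfl ?_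
        rw [upd_a]
        exact Run.push' (by simp [rg]; omega) le_rfl (by rw [upd_g]; rfl)
      · rw [upd_g]; rfl
    | cons b w ih =>
      intro τ hB
      simp only [List.length_cons] at *
      have h1 := ih (b :: τ) (by simp; omega)
      have hg : Run B 1 (push .g true) (rg (code w) [] [] (b :: τ) [] [])
          (rg (code w) [] [] (b :: τ) [] [true]) :=
        Run.push' (by simp [rg]; omega) le_rfl (by rw [upd_g]; rfl)
      have hb : Run B 6 (pop .a skip (push .g false)
          (seq (pop .a skip (push .t false)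
            (pop .a skip (pop .a skip (push .t true) (push .t true)) skip)) (push .g true)))
          (Function.update (rg (code (b :: w)) [] [] τ [] [true]) .g [])
          (rg (code w) [] [] (b :: τ) [] [true]) := by
        rw [upd_g, code_cons]
        refine Run.popT (T := 5) (l := code b ++ code w) rfl ?_
        rw [upd_a]
        refine Run.seq (T := 4) (T' := 1) (S' := rg (code w) [] [] (b :: τ) [] []) ?_ hg
        cases b with
        | false =>
          refine Run.mono (T := 1 + 1) (Run.popF (l := code w) rfl ?_) le_rfl (by omega)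
          rw [upd_a]
          exact Run.push' (by simp [rg]; omega) le_rfl (by rw [upd_t]; rfl)
        | true =>
          refine Run.popT (T := 3) (l := false :: false :: code w) rfl ?_
          rw [upd_a]
          refine Run.popF (T := 2) (l := false :: code w) rfl ?_
          rw [upd_a]
          refine Run.popF (T := 1) (l := code w) rfl ?_
          rw [upd_a]
          exact Run.push' (by simp [rg]; omega) le_rfl (by rw [upd_t]; rfl)
      have h4 := Run.loopT (i := Rg.g) (l := []) (by rfl) hb h1
      have h2 := h4.mono (T' := 8 * (w.length + 1) + 4) le_rfl (by omega)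
      simpa using h2
  have h0 : Run B 1 (push .g true) (rg (code w) [] [] [] [] []) (rg (code w) [] [] [] [] [true]) :=
    Run.push' (by simp [rg]; omega) le_rfl (by rw [upd_g]; rfl)
  have h1 := key w [] (by simp; omega)
  have h2 := rg_moveRev_ta (B := B) (T := 4 * w.length + 5) [] [] [] (w.reverse ++ []) [] []
    (by simp; omega) (by simp; omega) (by simp)
  simp only [List.append_nil, List.reverse_reverse] at h1 h2
  exact Run.seq' (Run.seq h0 h1) h2 (by omega)

/-- From a word in register `a` to the code of the word in register `a`. -/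
def toCode : Prog Rg :=
  seq (moveRev .a .t .f) (seq (push .a false) (seq (push .g true)
    (loop .g (pop .t (push .g false)
      (seq (seq (push .a false) (push .a true)) (push .g true))
      (seq (seq (seq (push .a false) (push .a false)) (seq (push .a true) (push .a true)))
        (push .g true))))))

theorem rg_toCode {B T : ℕ} (w : List Bool) (hB : 4 * w.length + 2 ≤ B)
    (hT : 20 * w.length + 20 ≤ T) :
    Run B T toCode (rg w [] [] [] [] []) (rg (code w) [] [] [] [] []) := by
  have key : ∀ (τ w : List Bool), 4 * (τ.length + w.length) + 2 ≤ B →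
      Run B (8 * τ.length + 4) (loop .g (pop .t (push .g false)
      (seq (seq (push .a false) (push .a true)) (push .g true))
      (seq (seq (seq (push .a false) (push .a false)) (seq (push .a true) (push .a true)))
        (push .g true))))
      (rg (code w) [] [] τ [] [true]) (rg (code (τ.reverse ++ w)) [] [] [] [] []) := by
    intro τ
    induction τ with
    | nil =>
      intro w hB
      simp only [List.length_nil] at *
      refine (Run.loopT (T := 2) (T' := 1) (l := []) (S' := rg (code w) [] [] [] [] [false])
        rfl ?_ (Run.loopF' (l := []) rfl le_rfl ?_)).mono le_rfl (by omega)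
      · rw [upd_g]
        refine Run.popN (T := 1) rfl ?_
        exact Run.push' (by simp [rg]; omega) le_rfl (by rw [upd_g]; rfl)
      · rw [upd_g]; rfl
    | cons b τ ih =>
      intro w hB
      simp only [List.length_cons] at *
      have h1 := ih (b :: w) (by simp; omega)
      have hg : Run B 1 (push .g true) (rg (code (b :: w)) [] [] τ [] [])
          (rg (code (b :: w)) [] [] τ [] [true]) :=
        Run.push' (by simp [rg]; omega) le_rfl (by rw [upd_g]; rfl)
      have hsz := (size_bits w).2
      have ew : (code w).length = size w := rfl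
      have hb : Run B 6 (pop .t (push .g false)
          (seq (seq (push .a false) (push .a true)) (push .g true))
          (seq (seq (seq (push .a false) (push .a false)) (seq (push .a true) (push .a true)))
            (push .g true)))
          (Function.update (rg (code w) [] [] (b :: τ) [] [true]) .g [])
          (rg (code (b :: w)) [] [] τ [] [true]) := by
        rw [upd_g]
        cases b with
        | false =>
          refine Run.mono (T := 3 + 1) (Run.popF (l := τ) rfl ?_) le_rfl (by omega)
          rw [upd_t]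
          refine Run.seq (T := 2) (T' := 1) (Run.seq (T := 1) (T' := 1)
            (Run.push' (S' := rg (false :: code w) [] [] τ [] []) ?_ le_rfl
              (by rw [upd_a]; rfl))
            (Run.push' (S' := rg (true :: false :: code w) [] [] τ [] []) ?_ le_rfl
              (by rw [upd_a]; rfl))) hg
          · simp [rg]; omega
          · simp [rg]; omega
        | true =>
          refine Run.popT (T := 5) (l := τ) rfl ?_
          rw [upd_t]
          refine Run.seq (T := 4) (T' := 1) (Run.seq (T := 2) (T' := 2) (Run.seq (T := 1)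
            (T' := 1) (Run.push' (S' := rg (false :: code w) [] [] τ [] []) ?_ le_rfl
              (by rw [upd_a]; rfl))
            (Run.push' (S' := rg (false :: false :: code w) [] [] τ [] []) ?_ le_rfl
              (by rw [upd_a]; rfl)))
            (Run.seq (T := 1) (T' := 1)
            (Run.push' (S' := rg (true :: false :: false :: code w) [] [] τ [] []) ?_ le_rfl
              (by rw [upd_a]; rfl))
            (Run.push' (S' := rg (true :: true :: false :: false :: code w) [] [] τ [] [])
              ?_ le_rfl (by rw [upd_a]; rfl)))) hg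
          · simp [rg]; omega
          · simp [rg]; omega
          · simp [rg]; omega
          · simp [rg]; omega
      have h4 := Run.loopT (i := Rg.g) (l := []) (by rfl) hb h1
      have h2 := h4.mono (T' := 8 * (τ.length + 1) + 4) le_rfl (by omega)
      simpa using h2
  have h0 := rg_moveRev_at (B := B) (T := 4 * w.length + 5) w [] [] [] [] []
    (by simp; omega) (by simp; omega) le_rfl
  have h1 : Run B 1 (push .a false) (rg [] [] [] w.reverse [] [])
      (rg (code ([] : List Bool)) [] [] w.reverse [] []) :=
    Run.push' (by simp [rg]; omega) le_rfl (by rw [upd_a]; rfl)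
  have h2 : Run B 1 (push .g true) (rg (code ([] : List Bool)) [] [] w.reverse [] [])
      (rg (code ([] : List Bool)) [] [] w.reverse [] [true]) :=
    Run.push' (by simp [rg]; omega) le_rfl (by rw [upd_g]; rfl)
  have h3 := key w.reverse [] (by simp; omega)
  simp only [List.append_nil, List.reverse_reverse, List.length_reverse] at h0 h3
  exact Run.seq' h0 (Run.seq h1 (Run.seq h2 h3)) (by omega)

end Pool.Agent.PPS
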