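import Pool.Agent.PPS.FromTM
import Pool.Agent.PPS.Basic

/-!
# The classes `P`, `PSPACE`, `FP`, `FPSPACE` in terms of stack programs
-/

namespace Pool.Agent.PPS

open Prog

/-! ### Head positions -/

namespace TM

variable (M : TM)

theorem step_head {c c' : M.Cfg} (h : M.step c = some c') (k : M.K) :
    |c'.head k - c.head k| ≤ 1 := by
  unfold step at h
  rw [Option.map_eq_some_iff] at h
  obtain ⟨r, -, rfl⟩ := h
  simp only [add_sub_cancel_left]
  cases (r.2 k).2 <;> simp [Move.toInt]

theorem conf_succ (x : List Bool) (n : ℕ) :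
    M.conf x (n + 1) = (M.step (M.conf x n)).getD (M.conf x n) := by
  unfold conf
  rw [run_add]
  rfl

theorem conf_succ_head (x : List Bool) (n : ℕ) (k : M.K) :
    |(M.conf x (n + 1)).head k - (M.conf x n).head k| ≤ 1 := by
  rw [conf_succ]
  cases h : M.step (M.conf x n) with
  | none => simp
  | some c' => exact M.step_head h k

theorem conf_zero_head (x : List Bool) (k : M.K) : (M.conf x 0).head k = 0 := rfl

theorem abs_head_le (x : List Bool) (n : ℕ) (k : M.K) : |(M.conf x n).head k| ≤ n := by
  induction n with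
  | zero => rw [conf_zero_head]; simp
  | succ n ih =>
    have h := M.conf_succ_head x n k
    rw [abs_le] at *
    push_cast
    omega

theorem abs_head_le_of_halted {x : List Bool} {n : ℕ} (h : M.HaltedAt x n) (j : ℕ) (k : M.K) :
    |(M.conf x j).head k| ≤ n := by
  rcases le_total j n with hj | hj
  · exact (M.abs_head_le x j k).trans (by exact_mod_cast hj)
  · rw [M.conf_of_haltedAt h hj]
    exact M.abs_head_le x n k

theorem mem_visited_of_between (x : List Bool) (k : M.K) (n : ℕ) (z : ℤ)
    (hz : (0 ≤ z ∧ z ≤ (M.conf x n).head k) ∨ ((M.conf x n).head k ≤ z ∧ z ≤ 0)) :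
    z ∈ M.visited x k := by
  induction n generalizing z with
  | zero =>
    rw [conf_zero_head] at hz
    have : z = 0 := by omega
    exact ⟨0, by rw [this]; rfl⟩
  | succ n ih =>
    by_cases he : z = (M.conf x (n + 1)).head k
    · exact ⟨n + 1, he.symm⟩
    · apply ih
      have h := M.conf_succ_head x n k
      rw [abs_le] at h
      omega

theorem abs_head_le_of_visited {x : List Bool} {k : M.K} {s : ℕ}
    (h : (M.visited x k).encard ≤ s) (n : ℕ) : |(M.conf x n).head k| ≤ s := by
  by_contra hlt
  push Not at hlt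
  have hsub : ∃ a : ℤ, Set.Icc a (a + s) ⊆ M.visited x k := by
    rcases le_total 0 ((M.conf x n).head k) with h0 | h0
    · refine ⟨0, ?_⟩
      intro z hz
      rw [abs_of_nonneg h0] at hlt
      apply M.mem_visited_of_between x k n z
      simp only [Set.mem_Icc] at hz
      omega
    · refine ⟨-s, ?_⟩
      intro z hz
      rw [abs_of_nonpos h0] at hlt
      apply M.mem_visited_of_between x k n z
      simp only [Set.mem_Icc] at hz
      omega
  obtain ⟨a, ha⟩ := hsub
  have h1 := (Set.encard_le_encard ha).trans h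
  have h2 : (Set.Icc a (a + s)).encard = ((s + 1 : ℕ) : ℕ∞) := by
    rw [← Finset.coe_Icc, Set.encard_coe_eq_coe_finsetCard, Int.card_Icc]
    congr 1
    omega
  rw [h2] at h1
  have h3 : s + 1 ≤ s := by exact_mod_cast h1
  omega

theorem visited_encard_le {x : List Bool} {k : M.K} {B : ℕ}
    (h : M.visited x k ⊆ Set.Icc (-1) (B : ℤ)) : (M.visited x k).encard ≤ (B + 2 : ℕ) := by
  refine (Set.encard_le_encard h).trans ?_
  rw [← Finset.coe_Icc, Set.encard_coe_eq_coe_finsetCard, Int.card_Icc]
  have : ((B : ℤ) + 1 - -1).toNat = B + 2 := by omega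
  rw [this]

end TM

variable {m : Bool} {α β : Type} [Rep α] [Rep β]

/-! ### From words to codes -/

theorem length_le_size (x : List Bool) : x.length ≤ size x := by
  have := (size_bits x).1; omega

theorem size_le_length (x : List Bool) : size x ≤ 4 * x.length + 1 := (size_bits x).2

theorem PT.of_raw {ι : Type} [DecidableEq ι] [Finite ι] (c : Prog ι) (io : ι)
    (f : List Bool → List Bool) (p : Polynomial ℕ)
    (h : ∀ x, ∃ T, Run (p.eval x.length) T c (one io x) (one io (f x)) ∧
      (m = true → T ≤ p.eval x.length)) : PT m f := by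
  refine ⟨(Rg ⊕ ι) ⊕ Empty, inferInstance, inferInstance,
    seq ((toRaw.map Sum.inl).map Sum.inl)
    (seq (callP c io (fun x => Sum.inl (Sum.inr x)) (jr .a) (jr .t) (jr .f))
      ((toCode.map Sum.inl).map Sum.inl)), jr .a, 40 * p + 60 * Polynomial.X + 100, ?_⟩
  intro x
  obtain ⟨T, hT, hm⟩ := h x
  have hx := length_le_size x
  have hp := polyMono p hx
  have hfx : (f x).length ≤ p.eval x.length + x.length := by
    obtain ⟨t, ht, hE⟩ := hT
    have := (hE.mono (Nat.le_add_right _ x.length)).length_le (by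
      intro i
      unfold one
      split_ifs
      · omega
      · simp) io
    simpa [one] using this
  simp only [Polynomial.eval_add, Polynomial.eval_mul, Polynomial.eval_X,
    Polynomial.eval_ofNat]
  generalize hB : 40 * p.eval (size x) + 60 * size x + 100 = B
  have s1 := run_lift (ι₁ := ι) (ι₂ := Empty) (rg_toRaw (B := B) (T := 20 * x.length + 20) x
    (by omega) le_rfl)
  have s2 := run_callRaw (J := (Rg ⊕ ι) ⊕ Empty) (B := B) (fun x => Sum.inl (Sum.inr x))
    (fun x y h => by simpa using h) (jr .a) (jr .t) (jr .f) (by simp) (by simp) (by simp)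
    (by simp) (by simp) (by simp) x (f x) (EE (rg x [] [] [] [] [])) rfl rfl (fun _ => rfl)
    (hT.mono (by omega) le_rfl) (by omega) (by omega) (by rw [EE_jr]; simp [rg]; omega)
  rw [upd_EE, upd_a] at s2
  have s3 := run_lift (ι₁ := ι) (ι₂ := Empty) (rg_toCode (B := B)
    (T := 20 * (f x).length + 20) (f x) (by omega) le_rfl)
  refine ⟨(20 * x.length + 20) + ((T + 8 * x.length + 8 * (f x).length + 20) +
      (20 * (f x).length + 20)), ?_, ?_⟩
  · rw [one_EE, one_EE]
    exact Run.seq s1 (Run.seq s2 s3)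
  · intro hm'
    have := hm hm'
    omega

theorem PT.of_rawBool {ι : Type} [DecidableEq ι] [Finite ι] (c : Prog ι) (io : ι)
    (f : List Bool → Bool) (p : Polynomial ℕ)
    (h : ∀ x, ∃ T, Run (p.eval x.length) T c (one io x) (one io [f x]) ∧
      (m = true → T ≤ p.eval x.length)) : PT m f := by
  refine ⟨(Rg ⊕ ι) ⊕ Empty, inferInstance, inferInstance,
    seq ((toRaw.map Sum.inl).map Sum.inl)
    (seq (callP c io (fun x => Sum.inl (Sum.inr x)) (jr .a) (jr .t) (jr .f))
      (((pop .a skip (push .a false) (seq (push .a false) (seq (push .a false)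
        (push .a true)))).map Sum.inl).map Sum.inl)), jr .a,
      40 * p + 60 * Polynomial.X + 100, ?_⟩
  intro x
  obtain ⟨T, hT, hm⟩ := h x
  have hx := length_le_size x
  have hp := polyMono p hx
  simp only [Polynomial.eval_add, Polynomial.eval_mul, Polynomial.eval_X,
    Polynomial.eval_ofNat]
  generalize hB : 40 * p.eval (size x) + 60 * size x + 100 = B
  have s1 := run_lift (ι₁ := ι) (ι₂ := Empty) (rg_toRaw (B := B) (T := 20 * x.length + 20) x
    (by omega) le_rfl)
  have s2 := run_callRaw (J := (Rg ⊕ ι) ⊕ Empty) (B := B) (fun x => Sum.inl (Sum.inr x))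
    (fun x y h => by simpa using h) (jr .a) (jr .t) (jr .f) (by simp) (by simp) (by simp)
    (by simp) (by simp) (by simp) x [f x] (EE (rg x [] [] [] [] [])) rfl rfl (fun _ => rfl)
    (hT.mono (by omega) le_rfl) (by omega) (by simp; omega) (by rw [EE_jr]; simp [rg]; omega)
  rw [upd_EE, upd_a] at s2
  have h8 : Run B 4 (pop .a skip (push .a false) (seq (push .a false) (seq (push .a false)
      (push .a true)))) (rg [f x] [] [] [] [] []) (rg (code (f x)) [] [] [] [] []) := by
    cases f x with
    | false =>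
      refine Run.mono (T := 1 + 1) (Run.popF (l := []) rfl ?_) le_rfl (by omega)
      rw [upd_a]
      exact Run.push' (by simp [rg]; omega) le_rfl (by rw [upd_a]; rfl)
    | true =>
      refine Run.popT (T := 3) (l := []) rfl ?_
      rw [upd_a]
      exact Run.seq (T := 1) (T' := 2) (Run.push' (S' := rg [false] [] [] [] [] [])
        (by simp [rg]; omega) le_rfl (by rw [upd_a]; rfl))
        (Run.seq (T := 1) (T' := 1) (Run.push' (S' := rg [false, false] [] [] [] [] [])
        (by simp [rg]; omega) le_rfl (by rw [upd_a]; rfl))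
        (Run.push' (by simp [rg]; omega) le_rfl (by rw [upd_a]; rfl)))
  have s3 := run_lift (ι₁ := ι) (ι₂ := Empty) h8
  refine ⟨(20 * x.length + 20) + ((T + 8 * x.length + 8 * [f x].length + 20) + 4), ?_, ?_⟩
  · rw [one_EE, one_EE]
    exact Run.seq s1 (Run.seq s2 s3)
  · intro hm'
    have := hm hm'
    simp only [List.length_singleton]
    omega

/-- Reverse register `a`. -/
def rev3 : Prog Rg := seq (moveRev .a .t .f) (seq (moveRev .t .b .f) (moveRev .b .a .f))

theorem rg_rev3 {B T : ℕ} (w : List Bool) (hB : w.length + 1 ≤ B)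
    (hT : 12 * w.length + 15 ≤ T) :
    Run B T rev3 (rg w [] [] [] [] []) (rg w.reverse [] [] [] [] []) := by
  have h1 := rg_moveRev_at (B := B) (T := 4 * w.length + 5) w [] [] [] [] []
    (by simp; omega) (by simp; omega) le_rfl
  have h2 := run_moveRev (ι := Rg) (a := .t) (b := .b) (f := .f) (by simp) (by simp) (by simp)
    (rg [] [] [] w.reverse [] []) (B := B) (T := 4 * w.length + 5) (by simp [rg]; omega)
    (by simp [rg]; omega) (by simp [rg])
  have h3 := rg_moveRev_ba (B := B) (T := 4 * w.length + 5) [] w [] [] [] []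
    (by simp; omega) (by simp; omega) le_rfl
  simp only [List.append_nil] at h1 h3
  simp only [rg, List.reverse_reverse, List.append_nil, upd_t, upd_b] at h2
  exact Run.seq' h1 (Run.seq h2 h3) (by omega)

/-- Programs that get the reversed word as input. -/
theorem PT.exists_raw {f : List Bool → List Bool} (h : PT m f) :
    ∃ (ι : Type) (_ : DecidableEq ι) (_ : Finite ι) (c : Prog ι) (io : ι) (p : Polynomial ℕ),
      ∀ x, ∃ T, Run (p.eval x.length) T c (one io x.reverse) (one io (f x).reverse) ∧
        x.length ≤ p.eval x.length ∧ (m = true → T ≤ p.eval x.length) := by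
  obtain ⟨I⟩ := h.impl
  let q : Polynomial ℕ := I.p.comp (4 * Polynomial.X + 1)
  refine ⟨(Rg ⊕ I.ι) ⊕ I.ι, inferInstance, inferInstance,
    seq ((rev3.map Sum.inl).map Sum.inl) (seq ((toCode.map Sum.inl).map Sum.inl)
    (seq (call1 I I .a) (seq ((toRaw.map Sum.inl).map Sum.inl)
      ((rev3.map Sum.inl).map Sum.inl)))), jr .a, 60 * q + 100 * Polynomial.X + 200, ?_⟩
  intro x
  simp only [Polynomial.eval_add, Polynomial.eval_mul, Polynomial.eval_X,
    Polynomial.eval_ofNat]
  obtain ⟨Q, hQ⟩ : ∃ Q, Q = q.eval x.length := ⟨_, rfl⟩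
  have hsx : I.p.eval (size x) ≤ Q := by
    rw [hQ]
    simp only [q, Polynomial.eval_comp, Polynomial.eval_add, Polynomial.eval_mul,
      Polynomial.eval_X, Polynomial.eval_ofNat, Polynomial.eval_one]
    exact polyMono _ (size_le_length x)
  have hfx : (f x).length ≤ Q :=
    (length_le_size (f x)).trans ((I.size_le x).trans hsx)
  rw [← hQ]
  generalize hB : 60 * Q + 100 * x.length + 200 = B
  have s1 := run_lift (ι₁ := I.ι) (ι₂ := I.ι) (rg_rev3 (B := B) (T := 12 * x.length + 15)
    x.reverse (by simp; omega) (by simp))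
  rw [List.reverse_reverse] at s1
  have s2 := run_lift (ι₁ := I.ι) (ι₂ := I.ι) (rg_toCode (B := B) (T := 20 * x.length + 20)
    x (by omega) le_rfl)
  obtain ⟨T, s3, m3⟩ := run_call1 I I .a (by simp) (by simp) x
    (rg (code x) [] [] [] [] []) rfl rfl (B := B) (by omega) (by simp [rg]; omega)
  rw [upd_a] at s3
  have s4 := run_lift (ι₁ := I.ι) (ι₂ := I.ι) (rg_toRaw (B := B)
    (T := 20 * (f x).length + 20) (f x) (by omega) le_rfl)
  have s5 := run_lift (ι₁ := I.ι) (ι₂ := I.ι) (rg_rev3 (B := B) (T := 12 * (f x).length + 15)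
    (f x) (by omega) le_rfl)
  refine ⟨(12 * x.length + 15) + ((20 * x.length + 20) + (T + ((20 * (f x).length + 20) +
      (12 * (f x).length + 15)))), ?_, by omega, ?_⟩
  · rw [one_EE, one_EE]
    exact Run.seq s1 (Run.seq s2 (Run.seq s3 (Run.seq s4 s5)))
  · intro hm
    have := m3 hm
    omega

theorem PT.exists_rawBool {f : List Bool → Bool} (h : PT m f) :
    ∃ (ι : Type) (_ : DecidableEq ι) (_ : Finite ι) (c : Prog ι) (io : ι) (p : Polynomial ℕ),
      ∀ x, ∃ T, Run (p.eval x.length) T c (one io x.reverse) (one io (code (f x))) ∧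
        x.length ≤ p.eval x.length ∧ (m = true → T ≤ p.eval x.length) := by
  obtain ⟨I⟩ := h.impl
  let q : Polynomial ℕ := I.p.comp (4 * Polynomial.X + 1)
  refine ⟨(Rg ⊕ I.ι) ⊕ I.ι, inferInstance, inferInstance,
    seq ((rev3.map Sum.inl).map Sum.inl) (seq ((toCode.map Sum.inl).map Sum.inl)
    (call1 I I .a)), jr .a, 60 * q + 100 * Polynomial.X + 200, ?_⟩
  intro x
  simp only [Polynomial.eval_add, Polynomial.eval_mul, Polynomial.eval_X,
    Polynomial.eval_ofNat]
  obtain ⟨Q, hQ⟩ : ∃ Q, Q = q.eval x.length := ⟨_, rfl⟩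
  have hsx : I.p.eval (size x) ≤ Q := by
    rw [hQ]
    simp only [q, Polynomial.eval_comp, Polynomial.eval_add, Polynomial.eval_mul,
      Polynomial.eval_X, Polynomial.eval_ofNat, Polynomial.eval_one]
    exact polyMono _ (size_le_length x)
  rw [← hQ]
  generalize hB : 60 * Q + 100 * x.length + 200 = B
  have s1 := run_lift (ι₁ := I.ι) (ι₂ := I.ι) (rg_rev3 (B := B) (T := 12 * x.length + 15)
    x.reverse (by simp; omega) (by simp))
  rw [List.reverse_reverse] at s1
  have s2 := run_lift (ι₁ := I.ι) (ι₂ := I.ι) (rg_toCode (B := B) (T := 20 * x.length + 20)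
    x (by omega) le_rfl)
  obtain ⟨T, s3, m3⟩ := run_call1 I I .a (by simp) (by simp) x
    (rg (code x) [] [] [] [] []) rfl rfl (B := B) (by omega) (by simp [rg]; omega)
  rw [upd_a] at s3
  refine ⟨(12 * x.length + 15) + ((20 * x.length + 20) + T), ?_, by omega, ?_⟩
  · rw [one_EE, one_EE]
    exact Run.seq s1 (Run.seq s2 s3)
  · intro hm
    have := m3 hm
    omega

/-! ### The bridge theorems -/

/-- The machine model behind `PT m`. -/
def Bounded (M : TM) (m : Bool) (p : Polynomial ℕ) : Prop :=
  if m then M.TimeBound (fun n => p.eval n) else M.SpaceBound (fun n => p.eval n)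

theorem pt_of_computes {M : TM} {p : Polynomial ℕ} {f : List Bool → List Bool}
    (hf : M.Computes f) (hb : Bounded M m p) : PT m f := by
  obtain ⟨C, hC⟩ := FromTM.exists_prog_computes M
  refine PT.of_raw (FromTM.progC M) FromTM.Ix.io f
    (Polynomial.C C * (2 * p + Polynomial.X + 1)) ?_
  intro x
  simp only [Polynomial.eval_add, Polynomial.eval_mul, Polynomial.eval_X,
    Polynomial.eval_ofNat, Polynomial.eval_C, Polynomial.eval_one]
  obtain ⟨n, hn, hy⟩ := hf x
  cases m with
  | true =>
    have hb : M.TimeBound (fun n => p.eval n) := hb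
    have hn' := hb x
    have hy' : (M.conf x (p.eval x.length)).tape M.io = M.word (f x) := by
      rw [M.conf_eq_of_haltedAt hn' hn]; exact hy
    have h := hC x (f x) (p.eval x.length) (x.length + p.eval x.length) (by omega) hn' hy'
      (fun j k => (M.abs_head_le_of_halted hn' j k).trans (by push_cast; omega))
    refine ⟨_, h.mono (Nat.mul_le_mul_left _ (by omega)) le_rfl, fun _ =>
      Nat.mul_le_mul_left _ (by omega)⟩
  | false =>
    have hb : M.SpaceBound (fun n => p.eval n) := hb
    have h := hC x (f x) n (x.length + p.eval x.length) (by omega) hn hy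
      (fun j k => (M.abs_head_le_of_visited ((hb x).2 k) j).trans (by push_cast; omega))
    exact ⟨_, h.mono (Nat.mul_le_mul_left _ (by omega)) le_rfl, fun h => by cases h⟩

open Classical in
theorem pt_of_decides {M : TM} {p : Polynomial ℕ} {L : Set (List Bool)}
    (hf : M.Decides L) (hb : Bounded M m p) : PT m (fun x => decide (x ∈ L)) := by
  obtain ⟨C, hC⟩ := FromTM.exists_prog_decides M
  refine PT.of_rawBool (FromTM.progD M) FromTM.Ix.io _
    (Polynomial.C C * (2 * p + Polynomial.X + 1)) ?_
  intro x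
  simp only [Polynomial.eval_add, Polynomial.eval_mul, Polynomial.eval_X,
    Polynomial.eval_ofNat, Polynomial.eval_C, Polynomial.eval_one]
  obtain ⟨n, hn, hy⟩ := hf x
  have hdec : ∀ n', M.HaltedAt x n' → M.accept (M.conf x n').state = decide (x ∈ L) := by
    intro n' hn'
    rw [M.conf_eq_of_haltedAt hn' hn]
    by_cases hx : x ∈ L
    · simp [hx, hy.mpr hx]
    · simp only [hx, decide_false]
      cases hb : M.accept (M.conf x n).state with
      | false => rfl
      | true => exact absurd (hy.mp hb) hx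
  cases m with
  | true =>
    have hb : M.TimeBound (fun n => p.eval n) := hb
    have hn' := hb x
    have h := hC x (p.eval x.length) (x.length + p.eval x.length) (by omega) hn'
      (fun j k => (M.abs_head_le_of_halted hn' j k).trans (by push_cast; omega))
    rw [hdec _ hn'] at h
    refine ⟨_, h.mono (Nat.mul_le_mul_left _ (by omega)) le_rfl, fun _ =>
      Nat.mul_le_mul_left _ (by omega)⟩
  | false =>
    have hb : M.SpaceBound (fun n => p.eval n) := hb
    have h := hC x n (x.length + p.eval x.length) (by omega) hn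
      (fun j k => (M.abs_head_le_of_visited ((hb x).2 k) j).trans (by push_cast; omega))
    rw [hdec _ hn] at h
    exact ⟨_, h.mono (Nat.mul_le_mul_left _ (by omega)) le_rfl, fun h => by cases h⟩

theorem computes_of_pt {f : List Bool → List Bool} (h : PT m f) :
    ∃ (M : TM) (p : Polynomial ℕ), M.Computes f ∧ Bounded M m p := by
  obtain ⟨ι, _, _, c, io, p, h⟩ := h.exists_raw
  obtain ⟨M, hM⟩ := exists_TM_computes c io
  refine ⟨M, Polynomial.X + 1 + 2 * p + 2, ?_, ?_⟩
  · intro x
    obtain ⟨T, ⟨t, ht, hE⟩, hx, -⟩ := h x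
    obtain ⟨⟨N, hN, h1, h2⟩, h3⟩ := hM x _ t _ hE hx
    refine ⟨N, h1, ?_⟩
    rw [h2]
    simp [one]
  · cases m with
    | true =>
      intro x
      obtain ⟨T, ⟨t, ht, hE⟩, hx, hT⟩ := h x
      obtain ⟨⟨N, hN, h1, h2⟩, h3⟩ := hM x _ t _ hE hx
      have := hT rfl
      refine M.haltedAt_mono h1 ?_
      simp only [Polynomial.eval_add, Polynomial.eval_mul, Polynomial.eval_X,
        Polynomial.eval_ofNat, Polynomial.eval_one]
      omega
    | false =>
      intro x
      obtain ⟨T, ⟨t, ht, hE⟩, hx, hT⟩ := h x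
      obtain ⟨⟨N, hN, h1, h2⟩, h3⟩ := hM x _ t _ hE hx
      refine ⟨⟨N, h1⟩, fun k => (M.visited_encard_le (h3 k)).trans ?_⟩
      simp only [Polynomial.eval_add, Polynomial.eval_mul, Polynomial.eval_X,
        Polynomial.eval_ofNat, Polynomial.eval_one]
      norm_cast
      omega

open Classical in
theorem decides_of_pt {L : Set (List Bool)} (h : PT m (fun x => decide (x ∈ L))) :
    ∃ (M : TM) (p : Polynomial ℕ), M.Decides L ∧ Bounded M m p := by
  obtain ⟨ι, _, _, c, io, p, h⟩ := h.exists_rawBool
  obtain ⟨M, hM⟩ := exists_TM_decides c io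
  refine ⟨M, Polynomial.X + 3 + 2 * p + 2, ?_, ?_⟩
  · intro x
    obtain ⟨T, ⟨t, ht, hE⟩, hx, -⟩ := h x
    obtain ⟨⟨N, hN, h1, h2⟩, h3⟩ := hM x _ t _ hE hx
    refine ⟨N, h1, ?_⟩
    rw [h2]
    by_cases hx : x ∈ L
    · simp [one, hx, code_true]
    · simp [one, hx, code_false]
  · cases m with
    | true =>
      intro x
      obtain ⟨T, ⟨t, ht, hE⟩, hx, hT⟩ := h x
      obtain ⟨⟨N, hN, h1, h2⟩, h3⟩ := hM x _ t _ hE hx
      have := hT rfl
      refine M.haltedAt_mono h1 ?_
      simp only [Polynomial.eval_add, Polynomial.eval_mul, Polynomial.eval_X,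
        Polynomial.eval_ofNat]
      omega
    | false =>
      intro x
      obtain ⟨T, ⟨t, ht, hE⟩, hx, hT⟩ := h x
      obtain ⟨⟨N, hN, h1, h2⟩, h3⟩ := hM x _ t _ hE hx
      refine ⟨⟨N, h1⟩, fun k => (M.visited_encard_le (h3 k)).trans ?_⟩
      simp only [Polynomial.eval_add, Polynomial.eval_mul, Polynomial.eval_X,
        Polynomial.eval_ofNat]
      norm_cast
      omega

open Classical in
theorem mem_P_iff {L : Set (List Bool)} : L ∈ P ↔ PT true (fun x => decide (x ∈ L)) := by
  constructor
  · rintro ⟨M, p, h1, h2⟩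
    exact pt_of_decides (m := true) h1 h2
  · intro h
    obtain ⟨M, p, h1, h2⟩ := decides_of_pt h
    exact ⟨M, p, h1, h2⟩

open Classical in
theorem mem_PSPACE_iff {L : Set (List Bool)} :
    L ∈ PSPACE ↔ PT false (fun x => decide (x ∈ L)) := by
  constructor
  · rintro ⟨M, p, h1, h2⟩
    exact pt_of_decides (m := false) h1 h2
  · intro h
    obtain ⟨M, p, h1, h2⟩ := decides_of_pt h
    exact ⟨M, p, h1, h2⟩

theorem mem_FP_iff {f : List Bool → List Bool} : f ∈ FP ↔ PT true f := by
  constructor
  · rintro ⟨M, p, h1, h2⟩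
    exact pt_of_computes (m := true) h1 h2
  · intro h
    obtain ⟨M, p, h1, h2⟩ := computes_of_pt h
    exact ⟨M, p, h1, h2⟩

theorem mem_FPSPACE_iff {f : List Bool → List Bool} : f ∈ FPSPACE ↔ PT false f := by
  constructor
  · rintro ⟨M, p, h1, h2⟩
    exact pt_of_computes (m := false) h1 h2
  · intro h
    obtain ⟨M, p, h1, h2⟩ := computes_of_pt h
    exact ⟨M, p, h1, h2⟩

end Pool.Agent.PPS
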