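import Pool.Agent.PPS.Run

/-!
# Trees as universal data, and their codes
-/

namespace Pool.Agent.PPS

/-- Binary trees, the universal data. -/
inductive D : Type
  | nil : D
  | cons (a b : D) : D
  deriving DecidableEq

namespace D

/-- The code of a tree (in Polish form). -/
def code : D → List Bool
  | nil => [false]
  | cons a b => true :: (a.code ++ b.code)

theorem code_append_inj : ∀ (a b : D) (r s : List Bool),
    a.code ++ r = b.code ++ s → a = b ∧ r = s := by
  intro a
  induction a with
  | nil =>
    intro b r s h
    cases b with
    | nil => simpa [code] using h
    | cons b1 b2 => simp [code] at h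
  | cons a1 a2 ih1 ih2 =>
    intro b r s h
    cases b with
    | nil => simp [code] at h
    | cons b1 b2 =>
      simp only [code, List.cons_append, List.cons.injEq, true_and, List.append_assoc] at h
      obtain ⟨rfl, h'⟩ := ih1 _ _ _ h
      obtain ⟨rfl, h''⟩ := ih2 _ _ _ h'
      exact ⟨rfl, h''⟩

theorem code_injective : Function.Injective code := by
  intro a b h
  exact (code_append_inj a b [] [] (by simpa using h)).1

theorem code_ne_nil (d : D) : d.code ≠ [] := by cases d <;> simp [code]

theorem length_code_pos (d : D) : 0 < d.code.length := List.length_pos_of_ne_nil (code_ne_nil d)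

@[simp] theorem code_nil : code nil = [false] := rfl

@[simp] theorem code_cons (a b : D) : code (cons a b) = true :: (a.code ++ b.code) := rfl

end D

/-- Types whose elements are represented by trees. -/
class Rep (α : Type) where
  rep : α → D
  rep_injective : Function.Injective rep

/-- The code of an element. -/
def code {α : Type} [Rep α] (a : α) : List Bool := (Rep.rep a).code

theorem code_injective {α : Type} [Rep α] : Function.Injective (code : α → List Bool) :=
  D.code_injective.comp Rep.rep_injective

/-- The size of an element. -/
def size {α : Type} [Rep α] (a : α) : ℕ := (code a).length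

theorem size_pos {α : Type} [Rep α] (a : α) : 0 < size a := D.length_code_pos _

instance : Rep D := ⟨id, Function.injective_id⟩

/-- Unary natural numbers as trees. -/
def natTree : ℕ → D
  | 0 => .nil
  | n + 1 => .cons .nil (natTree n)

theorem natTree_injective : Function.Injective natTree := by
  intro a
  induction a with
  | zero => intro b h; cases b with
    | zero => rfl
    | succ b => cases h
  | succ a ih => intro b h; cases b with
    | zero => cases h
    | succ b =>
      simp only [natTree, D.cons.injEq, true_and] at h
      rw [ih h]

instance : Rep ℕ := ⟨natTree, natTree_injective⟩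

instance : Rep Unit := ⟨fun _ => .nil, fun _ _ _ => rfl⟩

instance {n : ℕ} : Rep (Fin n) := ⟨fun i => natTree i, fun _ _ h => Fin.ext (natTree_injective h)⟩

instance : Rep Bool := ⟨fun b => if b then .cons .nil .nil else .nil, by
  intro a b h; cases a <;> cases b <;> simp_all⟩

instance {α β : Type} [Rep α] [Rep β] : Rep (α × β) :=
  ⟨fun p => .cons (Rep.rep p.1) (Rep.rep p.2), by
    rintro ⟨a, b⟩ ⟨a', b'⟩ h
    simp only [D.cons.injEq] at h
    rw [Rep.rep_injective h.1, Rep.rep_injective h.2]⟩

/-- Lists as trees. -/
def listTree {α : Type} [Rep α] : List α → D
  | [] => .nil
  | a :: l => .cons (Rep.rep a) (listTree l)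

theorem listTree_injective {α : Type} [Rep α] :
    Function.Injective (listTree : List α → D) := by
  intro a
  induction a with
  | nil => intro b h; cases b with
    | nil => rfl
    | cons x b => cases h
  | cons y a ih => intro b h; cases b with
    | nil => cases h
    | cons x b =>
      simp only [listTree, D.cons.injEq] at h
      rw [Rep.rep_injective h.1, ih h.2]

instance {α : Type} [Rep α] : Rep (List α) := ⟨listTree, listTree_injective⟩

instance {α : Type} [Rep α] : Rep (Option α) :=
  ⟨fun o => match o with
    | none => .nil
    | some a => .cons (Rep.rep a) .nil, by
    intro a b h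
    cases a <;> cases b <;> simp_all [Rep.rep_injective.eq_iff]⟩

instance {α : Type} [Rep α] {p : α → Prop} : Rep {a : α // p a} :=
  ⟨fun a => Rep.rep a.1, fun _ _ h => Subtype.ext (Rep.rep_injective h)⟩

section codes

variable {α β : Type} [Rep α] [Rep β]

theorem code_pair (a : α) (b : β) : code (a, b) = true :: (code a ++ code b) := rfl

theorem code_nil : code ([] : List α) = [false] := rfl

theorem code_cons (a : α) (l : List α) : code (a :: l) = true :: (code a ++ code l) := rfl

theorem code_false : code false = [false] := rfl

theorem code_true : code true = [true, false, false] := rfl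

theorem code_zero : code (0 : ℕ) = [false] := rfl

theorem code_succ (n : ℕ) : code (n + 1) = true :: false :: code n := rfl

theorem code_none : code (none : Option α) = [false] := rfl

theorem code_some (a : α) : code (some a) = true :: (code a ++ [false]) := rfl

theorem size_pair (a : α) (b : β) : size (a, b) = size a + size b + 1 := by
  simp [size, code_pair]

theorem size_nil : size ([] : List α) = 1 := rfl

theorem size_cons (a : α) (l : List α) : size (a :: l) = size a + size l + 1 := by
  simp [size, code_cons]

theorem size_nat (n : ℕ) : size n = 2 * n + 1 := by
  induction n with
  | zero => rfl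
  | succ n ih =>
    have : size (n + 1) = size n + 2 := by simp [size, code_succ]
    omega

theorem size_bool_le (b : Bool) : size b ≤ 3 := by cases b <;> simp [size, code_true, code_false]

theorem size_none : size (none : Option α) = 1 := rfl

theorem size_some (a : α) : size (some a) = size a + 2 := by
  simp [size, code_some]

theorem size_bits (l : List Bool) : 2 * l.length + 1 ≤ size l ∧ size l ≤ 4 * l.length + 1 := by
  induction l with
  | nil => simp [size_nil]
  | cons b l ih =>
    rw [size_cons, List.length_cons]
    have h1 := size_bool_le b
    have h2 := size_pos b
    omega

end codes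

end Pool.Agent.PPS
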