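import Pool.Agent.PPS.Toolkit

/-!
# Lists, unary numbers and bit strings
-/

namespace Pool.Agent.PPS

variable {m : Bool} {α β γ δ σ τ : Type} [Rep α] [Rep β] [Rep γ] [Rep δ] [Rep σ] [Rep τ]

/-! ### Sizes of lists -/

theorem size_append (l l' : List β) : size (l ++ l') + 1 = size l + size l' := by
  induction l with
  | nil => simp [size_nil]; omega
  | cons b l ih => rw [List.cons_append, size_cons, size_cons]; omega

theorem size_reverse (l : List β) : size l.reverse = size l := by
  induction l with
  | nil => rfl
  | cons b l ih =>
    have h := size_append l.reverse [b]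
    rw [List.reverse_cons, size_cons]
    rw [size_cons, size_nil] at h
    omega

theorem size_drop_le (l : List β) (k : ℕ) : size (l.drop k) ≤ size l := by
  induction l generalizing k with
  | nil => simp
  | cons b l ih =>
    cases k with
    | zero => simp
    | succ k =>
      rw [List.drop_succ_cons, size_cons]
      have := ih k
      omega

theorem size_take_le (l : List β) (k : ℕ) : size (l.take k) ≤ size l := by
  have h := size_append (l.take k) (l.drop k)
  rw [List.take_append_drop] at h
  have := size_pos (l.drop k)
  omega

theorem length_le_size' (l : List β) : l.length ≤ size l := by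
  induction l with
  | nil => simp
  | cons b l ih => rw [size_cons, List.length_cons]; omega

theorem size_le_of_mem {l : List β} {b : β} (h : b ∈ l) : size b ≤ size l := by
  induction l with
  | nil => cases h
  | cons c l ih =>
    rw [size_cons]
    rcases List.mem_cons.mp h with rfl | h
    · omega
    · have := ih h; omega

theorem size_list_le {l : List β} {B : ℕ} (h : ∀ b ∈ l, size b ≤ B) :
    size l ≤ l.length * (B + 1) + 1 := by
  induction l with
  | nil => simp [size_nil]
  | cons c l ih =>
    rw [size_cons, List.length_cons, Nat.add_mul]
    have h1 := h c (by simp)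
    have h2 := ih (fun b hb => h b (by simp [hb]))
    omega

theorem size_tail_le (l : List β) : size l.tail ≤ size l := by
  cases l with
  | nil => exact le_rfl
  | cons b l => rw [List.tail_cons, size_cons]; omega

/-! ### Basic list functions -/

@[fun_prop]
theorem PT.reverse' {l : α → List β} (hl : PT m l) : PT m (fun a => (l a).reverse) := by
  obtain ⟨p, hp⟩ := hl.exists_size_le
  have hfold : ∀ (l r : List β), l.foldl (fun y b => b :: y) r = l.reverse ++ r := by
    intro l
    induction l with
    | nil => intro r; rfl
    | cons b l ih => intro r; rw [List.foldl_cons, ih]; simp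
  have := PT.foldl (m := m) (s := fun z : α × (List β × β) => z.2.2 :: z.2.1)
    (ini := fun _ => []) hl (by fun_prop) (by fun_prop) p (by
      intro a k
      simp only
      rw [hfold, List.append_nil, size_reverse]
      exact (size_take_le _ _).trans (hp a))
  convert this using 2 with a
  rw [hfold, List.append_nil]

@[fun_prop]
theorem PT.append' {l l' : α → List β} (hl : PT m l) (hl' : PT m l') :
    PT m (fun a => l a ++ l' a) := by
  obtain ⟨p, hp⟩ := hl.exists_size_le
  obtain ⟨p', hp'⟩ := hl'.exists_size_le
  have hfold : ∀ (l r : List β), l.foldl (fun y b => b :: y) r = l.reverse ++ r := by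
    intro l
    induction l with
    | nil => intro r; rfl
    | cons b l ih => intro r; rw [List.foldl_cons, ih]; simp
  have := PT.foldl (m := m) (s := fun z : α × (List β × β) => z.2.2 :: z.2.1)
    (ini := l') hl.reverse' hl' (by fun_prop) (p + p') (by
      intro a k
      simp only
      rw [hfold]
      have h1 := size_append ((l a).reverse.take k).reverse (l' a)
      rw [size_reverse] at h1
      have h2 := size_take_le (l a).reverse k
      rw [size_reverse] at h2
      have h3 := hp a
      have h4 := hp' a
      simp only [Polynomial.eval_add]
      omega)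
  convert this using 2 with a
  rw [hfold, List.reverse_reverse]

theorem PT.map' {l : α → List β} {f : α × β → γ} (hl : PT m l) (hf : PT m f) :
    PT m (fun a => (l a).map (fun b => f (a, b))) := by
  obtain ⟨p, hp⟩ := hl.exists_size_le
  obtain ⟨q, hq⟩ := hf.exists_size_le
  have hfold : ∀ (a : α) (l : List β) (r : List γ), l.foldl (fun y b => f (a, b) :: y) r =
      (l.map (fun b => f (a, b))).reverse ++ r := by
    intro a l
    induction l with
    | nil => intro r; rfl
    | cons b l ih => intro r; rw [List.foldl_cons, ih]; simp
  have := (PT.foldl (m := m) (s := fun z : α × (List γ × β) => f (z.1, z.2.2) :: z.2.1)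
    (ini := fun _ => []) hl (by fun_prop) (by fun_prop)
    (p * (q.comp (Polynomial.X + p + 1) + 1) + 1) (by
      intro a k
      simp only
      rw [hfold, List.append_nil, size_reverse]
      simp only [Polynomial.eval_add, Polynomial.eval_mul, Polynomial.eval_comp,
        Polynomial.eval_X, Polynomial.eval_one]
      have h1 : ∀ c ∈ ((l a).take k).map (fun b => f (a, b)),
          size c ≤ q.eval (size a + p.eval (size a) + 1) := by
        intro c hc
        obtain ⟨b, hb, rfl⟩ := List.mem_map.mp hc
        refine (hq _).trans (polyMono _ ?_)
        rw [size_pair]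
        have h2 := size_le_of_mem (List.mem_of_mem_take hb)
        have h3 := hp a
        omega
      refine (size_list_le h1).trans ?_
      have h4 : (((l a).take k).map (fun b => f (a, b))).length ≤ p.eval (size a) := by
        rw [List.length_map, List.length_take]
        exact (min_le_right _ _).trans ((length_le_size' _).trans (hp a))
      have := Nat.mul_le_mul_right (q.eval (size a + p.eval (size a) + 1) + 1) h4
      omega)).reverse'
  convert this using 2 with a
  rw [hfold, List.append_nil, List.reverse_reverse]

theorem PT.foldr {ini : α → σ} {s : α × (β × σ) → σ} {l : α → List β} (hl : PT m l)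
    (hini : PT m ini) (hs : PT m s) (q : Polynomial ℕ)
    (hsz : ∀ a k, size (((l a).drop k).foldr (fun b y => s (a, (b, y))) (ini a)) ≤
      q.eval (size a)) :
    PT m (fun a => (l a).foldr (fun b y => s (a, (b, y))) (ini a)) := by
  have := PT.foldl (m := m) (s := fun z : α × (σ × β) => s (z.1, (z.2.2, z.2.1)))
    (ini := ini) hl.reverse' hini (hs.comp (f := fun z : α × (σ × β) =>
      (z.1, (z.2.2, z.2.1))) (by fun_prop)) q (by
      intro a k
      simp only
      rw [← List.foldr_reverse]
      rw [show ((l a).reverse.take k).reverse = (l a).drop ((l a).length - k) by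
        rw [List.reverse_take, List.reverse_reverse]
        simp]
      exact hsz a _)
  convert this using 2 with a
  rw [← List.foldr_reverse, List.reverse_reverse]

@[fun_prop]
theorem PT.length' {l : α → List β} (hl : PT m l) : PT m (fun a => (l a).length) := by
  obtain ⟨p, hp⟩ := hl.exists_size_le
  have hfold : ∀ (l : List β) (n : ℕ), l.foldl (fun y _ => y + 1) n = n + l.length := by
    intro l
    induction l with
    | nil => intro n; rfl
    | cons b l ih => intro n; rw [List.foldl_cons, ih, List.length_cons]; omega
  have := PT.foldl (m := m) (s := fun z : α × (ℕ × β) => z.2.1 + 1)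
    (ini := fun _ => 0) hl (by fun_prop) (by fun_prop) (2 * p + 1) (by
      intro a k
      simp only
      rw [hfold, size_nat]
      simp only [Polynomial.eval_add, Polynomial.eval_mul, Polynomial.eval_ofNat,
        Polynomial.eval_one]
      have h1 := length_le_size' (l a)
      have h2 := hp a
      have h3 : ((l a).take k).length ≤ (l a).length := List.length_take_le' _ _
      omega)
  convert this using 2 with a
  rw [hfold, Nat.zero_add]

/-! ### Unary numbers -/

@[fun_prop]
theorem PT.add' {f g : α → ℕ} (hf : PT m f) (hg : PT m g) : PT m (fun a => f a + g a) := by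
  obtain ⟨p, hp⟩ := hf.exists_size_le
  obtain ⟨q, hq⟩ := hg.exists_size_le
  have hit : ∀ (k n : ℕ), (fun y => y + 1)^[k] n = n + k := by
    intro k n
    induction k with
    | zero => rfl
    | succ k ih => rw [Function.iterate_succ_apply', ih]; rfl
  have := PT.iterate (m := m) (s := fun z : α × ℕ => z.2 + 1) hg hf (by fun_prop)
    (p + q) (by
      intro a k hk
      simp only
      rw [hit, size_nat]
      have h1 := hp a
      have h2 := hq a
      rw [size_nat] at h1 h2
      simp only [Polynomial.eval_add]
      omega)
  convert this using 2 with a
  rw [hit]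

@[fun_prop]
theorem PT.sub' {f g : α → ℕ} (hf : PT m f) (hg : PT m g) : PT m (fun a => f a - g a) := by
  obtain ⟨p, hp⟩ := hf.exists_size_le
  have hit : ∀ (k n : ℕ), (fun y => y - 1)^[k] n = n - k := by
    intro k n
    induction k with
    | zero => rfl
    | succ k ih => rw [Function.iterate_succ_apply', ih]; omega
  have := PT.iterate (m := m) (s := fun z : α × ℕ => z.2 - 1) hg hf (by fun_prop)
    p (by
      intro a k hk
      simp only
      rw [hit, size_nat]
      have h1 := hp a
      rw [size_nat] at h1
      omega)
  convert this using 2 with a
  rw [hit]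

@[fun_prop]
theorem PT.mul' {f g : α → ℕ} (hf : PT m f) (hg : PT m g) : PT m (fun a => f a * g a) := by
  obtain ⟨p, hp⟩ := hf.exists_size_le
  obtain ⟨q, hq⟩ := hg.exists_size_le
  have hit : ∀ (c k n : ℕ), (fun y => y + c)^[k] n = n + c * k := by
    intro c k n
    induction k with
    | zero => rfl
    | succ k ih => rw [Function.iterate_succ_apply', ih]; ring
  have hs : PT m (fun z : α × ℕ => z.2 + f z.1) := by fun_prop
  have := PT.iterate (m := m) (s := fun z : α × ℕ => z.2 + f z.1) (ini := fun _ => 0) hg
    (by fun_prop) hs (2 * (p * q) + 1) (by
      intro a k hk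
      simp only
      rw [hit, size_nat]
      have h1 := hp a
      have h2 := hq a
      rw [size_nat] at h1 h2
      simp only [Polynomial.eval_add, Polynomial.eval_mul, Polynomial.eval_ofNat,
        Polynomial.eval_one]
      have h3 : f a * k ≤ p.eval (size a) * q.eval (size a) :=
        Nat.mul_le_mul (by omega) (by omega)
      omega)
  convert this using 2 with a
  exact ((hit (f a) (g a) 0).trans (Nat.zero_add _)).symm

@[fun_prop]
theorem PT.decideLe {f g : α → ℕ} (hf : PT m f) (hg : PT m g) :
    PT m (fun a => decide (f a ≤ g a)) := by
  have : PT m (fun a => decide (f a - g a = 0)) := by fun_prop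
  convert this using 2 with a
  exact decide_eq_decide.mpr (by omega)

@[fun_prop]
theorem PT.decideLt {f g : α → ℕ} (hf : PT m f) (hg : PT m g) :
    PT m (fun a => decide (f a < g a)) := by
  have : PT m (fun a => decide (f a + 1 ≤ g a)) := by fun_prop
  exact this

theorem PT.replicate' {n : α → ℕ} {b : α → β} (hn : PT m n) (hb : PT m b) :
    PT m (fun a => List.replicate (n a) (b a)) := by
  obtain ⟨p, hp⟩ := hn.exists_size_le
  obtain ⟨q, hq⟩ := hb.exists_size_le
  have hit : ∀ (b : β) (k : ℕ), (fun y => b :: y)^[k] [] = List.replicate k b := by
    intro b k
    induction k with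
    | zero => rfl
    | succ k ih => rw [Function.iterate_succ_apply', ih]; rfl
  have hs : PT m (fun z : α × List β => b z.1 :: z.2) := by fun_prop
  have := PT.iterate (m := m) (s := fun z : α × List β => b z.1 :: z.2) (ini := fun _ => [])
    hn (by fun_prop) hs (p * (q + 1) + 1) (by
      intro a k hk
      simp only
      rw [hit]
      have h1 : ∀ c ∈ List.replicate k (b a), size c ≤ q.eval (size a) := by
        intro c hc
        rw [List.eq_of_mem_replicate hc]
        exact hq a
      refine (size_list_le h1).trans ?_
      simp only [Polynomial.eval_add, Polynomial.eval_mul, Polynomial.eval_one,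
        List.length_replicate]
      have h2 := hp a
      rw [size_nat] at h2
      have := Nat.mul_le_mul_right (q.eval (size a) + 1) (show k ≤ p.eval (size a) by omega)
      omega)
  convert this using 2 with a
  exact (hit (b a) (n a)).symm

attribute [fun_prop] PT.replicate'

@[fun_prop]
theorem PT.drop' {n : α → ℕ} {l : α → List β} (hn : PT m n) (hl : PT m l) :
    PT m (fun a => (l a).drop (n a)) := by
  obtain ⟨p, hp⟩ := hl.exists_size_le
  have hit : ∀ (k : ℕ) (l : List β), (fun y => y.tail)^[k] l = l.drop k := by
    intro k l
    induction k with
    | zero => rfl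
    | succ k ih => rw [Function.iterate_succ_apply', ih, List.tail_drop]
  have := PT.iterate (m := m) (s := fun z : α × List β => z.2.tail) hn hl (by fun_prop)
    p (by
      intro a k hk
      simp only
      rw [hit]
      exact (size_drop_le _ _).trans (hp a))
  convert this using 2 with a
  rw [hit]

@[fun_prop]
theorem PT.take' {n : α → ℕ} {l : α → List β} (hn : PT m n) (hl : PT m l) :
    PT m (fun a => (l a).take (n a)) := by
  have : PT m (fun a => ((l a).reverse.drop ((l a).length - n a)).reverse) := by fun_prop
  convert this using 2 with a
  rw [List.reverse_drop, List.reverse_reverse, List.length_reverse]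
  rcases le_total (n a) (l a).length with h | h
  · rw [show (l a).length - ((l a).length - n a) = n a by omega]
  · rw [show (l a).length - ((l a).length - n a) = (l a).length by omega,
      List.take_of_length_le h, List.take_length]

theorem PT.getD' {n : α → ℕ} {l : α → List β} {d : α → β} (hn : PT m n) (hl : PT m l)
    (hd : PT m d) : PT m (fun a => (l a).getD (n a) (d a)) := by
  have : PT m (fun a => ((l a).drop (n a)).headD (d a)) := PT.headD' (by fun_prop) hd
  convert this using 2 with a
  rw [List.getD_eq_getElem?_getD, ← List.head?_drop]
  cases (l a).drop (n a) <;> rfl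

attribute [fun_prop] PT.getD' PT.headD'

end Pool.Agent.PPS
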