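import Pool.Agent.PPS.Prog

/-!
# Basic stack programs
-/

namespace Pool.Agent.PPS

variable {ι : Type} [DecidableEq ι]

theorem Exec.mono {B B' : ℕ} (hB : B ≤ B') {c : Prog ι} {S S' : Store ι} {t : ℕ}
    (h : Exec B c S S' t) : Exec B' c S S' t := by
  induction h with
  | skip S => exact .skip S
  | push S i b h => exact .push S i b (by omega)
  | popN S S' i n f t u hS h ih => exact .popN S S' i n f t u hS ih
  | popF S S' i n f t u l hS h ih => exact .popF S S' i n f t u l hS ih
  | popT S S' i n f t u l hS h ih => exact .popT S S' i n f t u l hS ih
  | seq S S' S'' a b u v h h' ih ih' => exact .seq S S' S'' a b u v ih ih'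
  | loopN S i a hS => exact .loopN S i a hS
  | loopF S i a l hS => exact .loopF S i a l hS
  | loopT S S' S'' i a l u v hS h h' ih ih' => exact .loopT S S' S'' i a l u v hS ih ih'

/-- `Run B T c S S'`: the program `c` leads from `S` to `S'` in at most `T` steps, pushing
only on stacks of height less than `B`. -/
def Run (B T : ℕ) (c : Prog ι) (S S' : Store ι) : Prop := ∃ t ≤ T, Exec B c S S' t

namespace Run

variable {B B' T T' : ℕ} {c c' : Prog ι} {S S' S'' : Store ι} {i : ι}

theorem mono (h : Run B T c S S') (hB : B ≤ B') (hT : T ≤ T') : Run B' T' c S S' := by
  obtain ⟨t, ht, h⟩ := h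
  exact ⟨t, by omega, h.mono hB⟩

theorem skip (hT : 1 ≤ T) : Run B T .skip S S := ⟨1, hT, .skip S⟩

theorem push {b : Bool} (h : (S i).length < B) (hT : 1 ≤ T) :
    Run B T (.push i b) S (Function.update S i (b :: S i)) := ⟨1, hT, .push S i b h⟩

theorem push' {b : Bool} (h : (S i).length < B) (hT : 1 ≤ T)
    (hS : Function.update S i (b :: S i) = S') :
    Run B T (.push i b) S S' := ⟨1, hT, hS ▸ .push S i b h⟩

theorem seq (h : Run B T c S S') (h' : Run B T' c' S' S'') :
    Run B (T + T') (.seq c c') S S'' := by
  obtain ⟨t, ht, h⟩ := h
  obtain ⟨t', ht', h'⟩ := h'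
  exact ⟨t + t', by omega, .seq _ _ _ _ _ _ _ h h'⟩

theorem seq' {T'' : ℕ} (h : Run B T c S S') (h' : Run B T' c' S' S'') (hT : T + T' ≤ T'') :
    Run B T'' (.seq c c') S S'' := (h.seq h').mono le_rfl hT

theorem popN {n f t : Prog ι} (hS : S i = []) (h : Run B T n S S') :
    Run B (T + 1) (.pop i n f t) S S' := by
  obtain ⟨u, hu, h⟩ := h
  exact ⟨u + 1, by omega, .popN _ _ _ _ _ _ _ hS h⟩

theorem popF {n f t : Prog ι} {l : List Bool} (hS : S i = false :: l)
    (h : Run B T f (Function.update S i l) S') : Run B (T + 1) (.pop i n f t) S S' := by
  obtain ⟨u, hu, h⟩ := h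
  exact ⟨u + 1, by omega, .popF _ _ _ _ _ _ _ _ hS h⟩

theorem popT {n f t : Prog ι} {l : List Bool} (hS : S i = true :: l)
    (h : Run B T t (Function.update S i l) S') : Run B (T + 1) (.pop i n f t) S S' := by
  obtain ⟨u, hu, h⟩ := h
  exact ⟨u + 1, by omega, .popT _ _ _ _ _ _ _ _ hS h⟩

theorem loopN {a : Prog ι} (hS : S i = []) (hT : 1 ≤ T) : Run B T (.loop i a) S S :=
  ⟨1, hT, .loopN _ _ _ hS⟩

theorem loopF {a : Prog ι} {l : List Bool} (hS : S i = false :: l) (hT : 1 ≤ T) :
    Run B T (.loop i a) S (Function.update S i l) :=
  ⟨1, hT, .loopF _ _ _ _ hS⟩

theorem loopF' {a : Prog ι} {l : List Bool} (hS : S i = false :: l) (hT : 1 ≤ T)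
    (h : Function.update S i l = S') : Run B T (.loop i a) S S' :=
  ⟨1, hT, h ▸ .loopF _ _ _ _ hS⟩

theorem loopT {a : Prog ι} {l : List Bool} (hS : S i = true :: l)
    (h : Run B T a (Function.update S i l) S') (h' : Run B T' (.loop i a) S' S'') :
    Run B (T + T' + 1) (.loop i a) S S'' := by
  obtain ⟨u, hu, h⟩ := h
  obtain ⟨v, hv, h'⟩ := h'
  exact ⟨u + v + 1, by omega, .loopT _ _ _ _ _ _ _ _ hS h h'⟩

end Run

/-! ### Renaming -/

theorem Exec.map {κ : Type} [DecidableEq κ] {B : ℕ} {c : Prog ι} {S S' : Store ι} {t : ℕ}
    (h : Exec B c S S' t) {e : ι → κ} (he : Function.Injective e) {R : Store κ}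
    (hR : ∀ i, R (e i) = S i) :
    ∃ R' : Store κ, (∀ i, R' (e i) = S' i) ∧ (∀ j, (∀ i, e i ≠ j) → R' j = R j) ∧
      Exec B (c.map e) R R' t := by
  have upd : ∀ {S : Store ι} {R : Store κ} (i : ι) (l : List Bool), (∀ i, R (e i) = S i) →
      ∀ j, Function.update R (e i) l (e j) = Function.update S i l j := by
    intro S R i l hR j
    by_cases hj : j = i
    · subst hj; simp
    · have : e j ≠ e i := fun h => hj (he h)
      simp [Function.update_of_ne hj, Function.update_of_ne this, hR]
  have upd' : ∀ {R : Store κ} (i : ι) (l : List Bool) (j : κ), (∀ i, e i ≠ j) →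
      Function.update R (e i) l j = R j := by
    intro R i l j hj
    rw [Function.update_of_ne (hj i).symm]
  induction h generalizing R with
  | skip S => exact ⟨R, hR, fun _ _ => rfl, .skip R⟩
  | push S i b h =>
    refine ⟨_, ?_, ?_, .push R (e i) b (by rw [hR]; exact h)⟩
    · rw [hR]; exact upd i _ hR
    · exact fun j hj => upd' i _ j hj
  | popN S S' i n f t u hS h ih =>
    obtain ⟨R', h1, h2, h3⟩ := ih hR
    exact ⟨R', h1, h2, .popN _ _ _ _ _ _ _ (by rw [hR, hS]) h3⟩
  | popF S S' i n f t u l hS h ih =>
    obtain ⟨R', h1, h2, h3⟩ := ih (upd i l hR)
    exact ⟨R', h1, fun j hj => by rw [h2 j hj, upd' i _ j hj],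
      .popF _ _ _ _ _ _ _ l (by rw [hR, hS]) h3⟩
  | popT S S' i n f t u l hS h ih =>
    obtain ⟨R', h1, h2, h3⟩ := ih (upd i l hR)
    exact ⟨R', h1, fun j hj => by rw [h2 j hj, upd' i _ j hj],
      .popT _ _ _ _ _ _ _ l (by rw [hR, hS]) h3⟩
  | seq S S' S'' a b u v h h' ih ih' =>
    obtain ⟨R', h1, h2, h3⟩ := ih hR
    obtain ⟨R'', h1', h2', h3'⟩ := ih' h1
    exact ⟨R'', h1', fun j hj => by rw [h2' j hj, h2 j hj], .seq _ _ _ _ _ _ _ h3 h3'⟩
  | loopN S i a hS =>
    exact ⟨R, hR, fun _ _ => rfl, .loopN _ _ _ (by rw [hR, hS])⟩
  | loopF S i a l hS =>
    exact ⟨_, upd i l hR, fun j hj => upd' i _ j hj, .loopF _ _ _ l (by rw [hR, hS])⟩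
  | loopT S S' S'' i a l u v hS h h' ih ih' =>
    obtain ⟨R', h1, h2, h3⟩ := ih (upd i l hR)
    obtain ⟨R'', h1', h2', h3'⟩ := ih' h1
    exact ⟨R'', h1', fun j hj => by rw [h2' j hj, h2 j hj, upd' i _ j hj],
      .loopT _ _ _ _ _ _ _ _ (by rw [hR, hS]) h3 h3'⟩

theorem Run.map_inl {κ : Type} [DecidableEq κ] {B T : ℕ} {c : Prog ι} {S S' : Store ι}
    (h : Run B T c S S') (Z : Store κ) :
    Run B T (c.map Sum.inl) (Sum.elim S Z) (Sum.elim S' Z) := by
  obtain ⟨t, ht, h⟩ := h
  obtain ⟨R', h1, h2, h3⟩ := h.map (e := (Sum.inl : ι → ι ⊕ κ)) Sum.inl_injective
    (R := Sum.elim S Z) (fun _ => rfl)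
  have : R' = Sum.elim S' Z := by
    funext j
    rcases j with j | j
    · exact h1 j
    · exact h2 (Sum.inr j) (by simp)
  exact ⟨t, ht, this ▸ h3⟩

theorem Run.map_inr {κ : Type} [DecidableEq κ] {B T : ℕ} {c : Prog ι} {S S' : Store ι}
    (h : Run B T c S S') (Z : Store κ) :
    Run B T (c.map Sum.inr) (Sum.elim Z S) (Sum.elim Z S') := by
  obtain ⟨t, ht, h⟩ := h
  obtain ⟨R', h1, h2, h3⟩ := h.map (e := (Sum.inr : ι → κ ⊕ ι)) Sum.inr_injective
    (R := Sum.elim Z S) (fun _ => rfl)
  have : R' = Sum.elim Z S' := by
    funext j
    rcases j with j | j
    · exact h2 (Sum.inl j) (by simp)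
    · exact h1 j
  exact ⟨t, ht, this ▸ h3⟩

/-! ### Basic programs -/

namespace Prog

/-- Push the word `w` on stack `i`, so that the first letter of `w` becomes the top. -/
def pushWord (i : ι) : List Bool → Prog ι
  | [] => skip
  | b :: w => seq (pushWord i w) (push i b)

/-- Move the content of stack `a` to stack `b` (in reverse order), with flag stack `f`. -/
def moveRev (a b f : ι) : Prog ι :=
  seq (push f true) (loop f (pop a (push f false)
    (seq (push b false) (push f true)) (seq (push b true) (push f true))))

/-- Empty stack `a`, with flag stack `f`. -/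
def clear (a f : ι) : Prog ι :=
  seq (push f true) (loop f (pop a (push f false) (push f true) (push f true)))

/-- Move the content of stack `a` to the stacks `b` and `b'` (in reverse order), with flag
stack `f`. -/
def moveRev2 (a b b' f : ι) : Prog ι :=
  seq (push f true) (loop f (pop a (push f false)
    (seq (seq (push b false) (push b' false)) (push f true))
    (seq (seq (push b true) (push b' true)) (push f true))))

end Prog

open Prog

theorem run_pushWord {B T : ℕ} (i : ι) (w : List Bool) (S : Store ι)
    (hB : w.length + (S i).length ≤ B) (hT : w.length + 1 ≤ T) :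
    Run B T (pushWord i w) S (Function.update S i (w ++ S i)) := by
  induction w generalizing T with
  | nil =>
    simp only [List.nil_append, Function.update_eq_self]
    exact Run.skip (by simpa using hT)
  | cons b w ih =>
    have h1 := ih (T := T - 1) (by simp at hB; omega) (by simp at hT; omega)
    refine Run.seq' h1 (Run.push' (T := 1) ?_ le_rfl ?_) (by simp at hT; omega)
    · simp at hB ⊢; omega
    · simp

theorem run_moveRev {B T : ℕ} {a b f : ι} (hab : a ≠ b) (haf : a ≠ f) (hbf : b ≠ f)
    (S : Store ι) (hB : (S a).length + (S b).length ≤ B) (hf : (S f).length < B)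
    (hT : 4 * (S a).length + 5 ≤ T) :
    Run B T (moveRev a b f) S
      (Function.update (Function.update S a []) b ((S a).reverse ++ S b)) := by
  have key : ∀ (l : List Bool) (φ : List Bool) (S : Store ι) (T : ℕ), S a = l →
      S f = true :: φ → (S a).length + (S b).length ≤ B → φ.length < B →
      4 * l.length + 4 ≤ T →
      Run B T (loop f (pop a (push f false)
        (seq (push b false) (push f true)) (seq (push b true) (push f true)))) S
      (Function.update (Function.update (Function.update S f φ) a []) b
        (l.reverse ++ S b)) := by
    intro l
    induction l with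
    | nil =>
      intro φ S T ha hf hB hφ hT
      have h1 : Run B 2 (pop a (push f false)
        (seq (push b false) (push f true)) (seq (push b true) (push f true)))
          (Function.update S f φ) (Function.update S f (false :: φ)) := by
        refine Run.popN (T := 1) ?_ (Run.push' ?_ le_rfl ?_)
        · rw [Function.update_of_ne haf, ha]
        · simpa using hφ
        · simp
      have h := (Run.loopT hf h1 (Run.loopF (T := 1) (l := φ) (by simp) le_rfl)).mono (T' := T) le_rfl (by omega)
      convert h using 1
      funext j
      simp only [Function.update_apply]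
      split_ifs <;> simp_all
    | cons x l ih =>
      intro φ S T ha hf hB hφ hT
      rw [ha] at hB
      simp only [List.length_cons] at hB hT
      have h1 : Run B 3 (pop a (push f false)
        (seq (push b false) (push f true)) (seq (push b true) (push f true)))
          (Function.update S f φ)
          (Function.update (Function.update S a l) b (x :: S b)) := by
        have h2 : Run B 2 (seq (push b x) (push f true))
            (Function.update (Function.update S f φ) a l)
            (Function.update (Function.update S a l) b (x :: S b)) := by
          refine Run.seq (T := 1) (T' := 1) (Run.push ?_ le_rfl) (Run.push' ?_ le_rfl ?_)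
          · simp [Function.update_of_ne hab.symm, Function.update_of_ne hbf]
            omega
          · simp [Function.update_of_ne hbf.symm, Function.update_of_ne haf.symm]
            exact hφ
          · funext j
            simp only [Function.update_apply]
            split_ifs <;> simp_all
        cases x with
        | false => exact Run.popF (T := 2) (l := l) (by simp [Function.update_of_ne haf, ha]) h2
        | true => exact Run.popT (T := 2) (l := l) (by simp [Function.update_of_ne haf, ha]) h2
      have h3 := ih φ (Function.update (Function.update S a l) b (x :: S b)) (T - 4)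
        (by simp [Function.update_of_ne hab])
        (by simp [Function.update_of_ne haf.symm, Function.update_of_ne hbf.symm, hf])
        (by simp [Function.update_of_ne hab]; omega) hφ (by omega)
      have h := (Run.loopT hf h1 h3).mono (T' := T) le_rfl (by omega)
      convert h using 1
      funext j
      simp only [Function.update_apply]
      split_ifs <;> simp_all
  have h1 : Run B 1 (push f true) S (Function.update S f (true :: S f)) :=
    Run.push hf le_rfl
  have h2 := key (S a) (S f) (Function.update S f (true :: S f)) (T - 1)
    (by simp [Function.update_of_ne haf]) (by simp)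
    (by simpa [Function.update_of_ne haf, Function.update_of_ne hbf] using hB) hf (by omega)
  have h := (Run.seq h1 h2).mono (T' := T) le_rfl (by omega)
  unfold moveRev
  convert h using 1
  funext j
  simp only [Function.update_apply]
  split_ifs <;> simp_all

theorem run_clear {B T : ℕ} {a f : ι} (haf : a ≠ f)
    (S : Store ι) (hf : (S f).length < B) (hT : 3 * (S a).length + 5 ≤ T) :
    Run B T (clear a f) S (Function.update S a []) := by
  have key : ∀ (l : List Bool) (φ : List Bool) (S : Store ι) (T : ℕ), S a = l →
      S f = true :: φ → φ.length < B → 3 * l.length + 4 ≤ T →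
      Run B T (loop f (pop a (push f false) (push f true) (push f true))) S
      (Function.update (Function.update S f φ) a []) := by
    intro l
    induction l with
    | nil =>
      intro φ S T ha hf hφ hT
      have h1 : Run B 2 (pop a (push f false) (push f true) (push f true))
          (Function.update S f φ) (Function.update S f (false :: φ)) := by
        refine Run.popN (T := 1) ?_ (Run.push' ?_ le_rfl ?_)
        · rw [Function.update_of_ne haf, ha]
        · simpa using hφ
        · simp
      have h := (Run.loopT hf h1 (Run.loopF (T := 1) (l := φ) (by simp) le_rfl)).mono (T' := T) le_rfl (by omega)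
      convert h using 1
      funext j
      simp only [Function.update_apply]
      split_ifs <;> simp_all
    | cons x l ih =>
      intro φ S T ha hf hφ hT
      simp only [List.length_cons] at hT
      have h1 : Run B 2 (pop a (push f false) (push f true) (push f true))
          (Function.update S f φ) (Function.update S a l) := by
        have h2 : Run B 1 (push f true)
            (Function.update (Function.update S f φ) a l) (Function.update S a l) := by
          refine Run.push' ?_ le_rfl ?_
          · simp [Function.update_of_ne haf.symm]
            exact hφ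
          · funext j
            simp only [Function.update_apply]
            split_ifs <;> simp_all
        cases x with
        | false => exact Run.popF (T := 1) (l := l) (by simp [Function.update_of_ne haf, ha]) h2
        | true => exact Run.popT (T := 1) (l := l) (by simp [Function.update_of_ne haf, ha]) h2
      have h3 := ih φ (Function.update S a l) (T - 3) (by simp)
        (by simp [Function.update_of_ne haf.symm, hf]) hφ (by omega)
      have h := (Run.loopT hf h1 h3).mono (T' := T) le_rfl (by omega)
      convert h using 1
      funext j
      simp only [Function.update_apply]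
      split_ifs <;> simp_all
  have h1 : Run B 1 (push f true) S (Function.update S f (true :: S f)) :=
    Run.push hf le_rfl
  have h2 := key (S a) (S f) (Function.update S f (true :: S f)) (T - 1)
    (by simp [Function.update_of_ne haf]) (by simp) hf (by omega)
  have h := (Run.seq h1 h2).mono (T' := T) le_rfl (by omega)
  unfold clear
  convert h using 1
  funext j
  simp only [Function.update_apply]
  split_ifs <;> simp_all

theorem run_moveRev2 {B T : ℕ} {a b b' f : ι} (hab : a ≠ b) (hab' : a ≠ b') (haf : a ≠ f)
    (hbb' : b ≠ b') (hbf : b ≠ f) (hbf' : b' ≠ f)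
    (S : Store ι) (hB : (S a).length + (S b).length ≤ B)
    (hB' : (S a).length + (S b').length ≤ B) (hf : (S f).length < B)
    (hT : 5 * (S a).length + 5 ≤ T) :
    Run B T (moveRev2 a b b' f) S
      (Function.update (Function.update (Function.update S a []) b ((S a).reverse ++ S b))
        b' ((S a).reverse ++ S b')) := by
  have key : ∀ (l : List Bool) (φ : List Bool) (S : Store ι) (T : ℕ), S a = l →
      S f = true :: φ → (S a).length + (S b).length ≤ B → (S a).length + (S b').length ≤ B →
      φ.length < B → 5 * l.length + 4 ≤ T →
      Run B T (loop f (pop a (push f false)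
        (seq (seq (push b false) (push b' false)) (push f true))
        (seq (seq (push b true) (push b' true)) (push f true)))) S
      (Function.update (Function.update (Function.update (Function.update S f φ) a []) b
        (l.reverse ++ S b)) b' (l.reverse ++ S b')) := by
    intro l
    induction l with
    | nil =>
      intro φ S T ha hf hB hB' hφ hT
      have h1 : Run B 2 (pop a (push f false)
        (seq (seq (push b false) (push b' false)) (push f true))
        (seq (seq (push b true) (push b' true)) (push f true)))
          (Function.update S f φ) (Function.update S f (false :: φ)) := by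
        refine Run.popN (T := 1) ?_ (Run.push' ?_ le_rfl ?_)
        · rw [Function.update_of_ne haf, ha]
        · simpa using hφ
        · simp
      have h := (Run.loopT hf h1 (Run.loopF (T := 1) (l := φ) (by simp) le_rfl)).mono
        (T' := T) le_rfl (by omega)
      convert h using 1
      funext j
      simp only [Function.update_apply]
      split_ifs <;> simp_all
    | cons x l ih =>
      intro φ S T ha hf hB hB' hφ hT
      rw [ha] at hB hB'
      simp only [List.length_cons] at hB hB' hT
      have h1 : Run B 4 (pop a (push f false)
        (seq (seq (push b false) (push b' false)) (push f true))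
        (seq (seq (push b true) (push b' true)) (push f true)))
          (Function.update S f φ)
          (Function.update (Function.update (Function.update S a l) b (x :: S b)) b'
            (x :: S b')) := by
        have h2 : Run B 3 (seq (seq (push b x) (push b' x)) (push f true))
            (Function.update (Function.update S f φ) a l)
            (Function.update (Function.update (Function.update S a l) b (x :: S b)) b'
              (x :: S b')) := by
          refine Run.seq (T := 2) (T' := 1) (Run.seq (T := 1) (T' := 1) (Run.push ?_ le_rfl)
            (Run.push ?_ le_rfl)) (Run.push' ?_ le_rfl ?_)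
          · simp [Function.update_of_ne hab.symm, Function.update_of_ne hbf]
            omega
          · simp [Function.update_of_ne hab'.symm, Function.update_of_ne hbf',
              Function.update_of_ne hbb'.symm]
            omega
          · simp [Function.update_of_ne hbf.symm, Function.update_of_ne hbf'.symm,
              Function.update_of_ne haf.symm]
            exact hφ
          · funext j
            simp only [Function.update_apply]
            split_ifs <;> simp_all
        cases x with
        | false => exact Run.popF (T := 3) (l := l) (by simp [Function.update_of_ne haf, ha]) h2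
        | true => exact Run.popT (T := 3) (l := l) (by simp [Function.update_of_ne haf, ha]) h2
      have h3 := ih φ (Function.update (Function.update (Function.update S a l) b (x :: S b))
        b' (x :: S b')) (T - 5)
        (by simp [Function.update_of_ne hab, Function.update_of_ne hab'])
        (by simp [Function.update_of_ne haf.symm, Function.update_of_ne hbf.symm,
          Function.update_of_ne hbf'.symm, hf])
        (by simp [Function.update_of_ne hab, Function.update_of_ne hab',
          Function.update_of_ne hbb']; omega)
        (by simp [Function.update_of_ne hab, Function.update_of_ne hab']; omega) hφ (by omega)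
      have h := (Run.loopT hf h1 h3).mono (T' := T) le_rfl (by omega)
      convert h using 1
      funext j
      simp only [Function.update_apply]
      split_ifs <;> simp_all
  have h1 : Run B 1 (push f true) S (Function.update S f (true :: S f)) :=
    Run.push hf le_rfl
  have h2 := key (S a) (S f) (Function.update S f (true :: S f)) (T - 1)
    (by simp [Function.update_of_ne haf]) (by simp)
    (by simpa [Function.update_of_ne haf, Function.update_of_ne hbf] using hB)
    (by simpa [Function.update_of_ne haf, Function.update_of_ne hbf'] using hB') hf (by omega)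
  have h := (Run.seq h1 h2).mono (T' := T) le_rfl (by omega)
  unfold moveRev2
  convert h using 1
  funext j
  simp only [Function.update_apply]
  split_ifs <;> simp_all

end Pool.Agent.PPS
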