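import Pool.Agent.PPS.ToTM
import Pool.Agent.PPS.Run

/-!
# From Turing machines to stack programs
-/

namespace Pool.Agent.PPS

namespace FromTM

open Prog

/-! ### Codes of elements of finite types -/

/-- A code of fixed length for the elements of a finite type. -/
noncomputable def enc {A : Type} [Finite A] (a : A) : List Bool :=
  List.ofFn (fun j : Fin (Nat.card A) => decide (Finite.equivFin A a = j))

theorem length_enc {A : Type} [Finite A] (a : A) : (enc a).length = Nat.card A := by
  simp [enc]

theorem enc_injective {A : Type} [Finite A] : Function.Injective (enc : A → List Bool) := by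
  intro a b h
  unfold enc at h
  have h1 := List.ofFn_injective h
  have h2 := congrFun h1 (Finite.equivFin A a)
  simp only [decide_true] at h2
  have h3 := of_decide_eq_true h2.symm
  exact ((Finite.equivFin A).injective h3).symm

open Classical in
/-- Decoding (with default value `d`). -/
noncomputable def dec {A : Type} [Finite A] (d : A) (w : List Bool) : A :=
  if h : ∃ a : A, enc a = w then h.choose else d

theorem dec_enc {A : Type} [Finite A] (d a : A) : dec d (enc a) = a := by
  have h : ∃ a' : A, enc a' = enc a := ⟨a, rfl⟩
  unfold dec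
  rw [dif_pos h]
  exact enc_injective h.choose_spec

/-! ### Reading words from a stack -/

section read

variable {ι : Type} [DecidableEq ι]

/-- Pop a word of length `n` from stack `i` and run `P` of it; `e` is run if the stack
becomes empty. -/
def readWord (i : ι) (e : Prog ι) : ℕ → (List Bool → Prog ι) → Prog ι
  | 0, P => P []
  | n + 1, P => pop i e (readWord i e n fun w => P (false :: w))
      (readWord i e n fun w => P (true :: w))

theorem run_readWord {B T : ℕ} (i : ι) (e : Prog ι) (w r : List Bool)
    (P : List Bool → Prog ι) (S S' : Store ι) (hS : S i = w ++ r)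
    (h : Run B T (P w) (Function.update S i r) S') :
    Run B (T + w.length) (readWord i e w.length P) S S' := by
  induction w generalizing P S with
  | nil =>
    have : Function.update S i r = S := by
      rw [Function.update_eq_self_iff]; simpa using hS.symm
    rw [this] at h
    exact h
  | cons b w ih =>
    have h1 := ih (fun w => P (b :: w)) (Function.update S i (w ++ r)) (by simp)
      (by simpa using h)
    rw [List.length_cons, ← Nat.add_assoc]
    cases b with
    | false => exact Run.popF (l := w ++ r) (by simpa using hS) h1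
    | true => exact Run.popT (l := w ++ r) (by simpa using hS) h1

theorem run_readWord_nil {B T : ℕ} (i : ι) (e : Prog ι) (n : ℕ) (hn : 0 < n)
    (P : List Bool → Prog ι) (S S' : Store ι) (hS : S i = [])
    (h : Run B T e S S') :
    Run B (T + n) (readWord i e n P) S S' := by
  obtain ⟨n, rfl⟩ := Nat.exists_eq_succ_of_ne_zero hn.ne'
  exact (Run.popN hS h).mono le_rfl (by omega)

end read

/-! ### The simulation -/

/-- The stacks of the program that simulates a machine with tapes `K`. -/
inductive Ix (K : Type) : Type
  | ctl : Ix K
  | flg : Ix K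
  | io : Ix K
  | aux : Ix K
  | lft (k : K) : Ix K
  | rgt (k : K) : Ix K
  deriving DecidableEq

instance (K : Type) [Finite K] : Finite (Ix K) := by
  let f : Ix K → (K ⊕ K) ⊕ (Bool × Bool) := fun s =>
    match s with
    | .ctl => .inr (false, false)
    | .flg => .inr (false, true)
    | .io => .inr (true, false)
    | .aux => .inr (true, true)
    | .lft k => .inl (.inl k)
    | .rgt k => .inl (.inr k)
  refine Finite.of_injective f ?_
  intro a b h
  cases a <;> cases b <;> simp_all [f]

section sim

variable {K : Type} [DecidableEq K] {Γ : Type} [Finite Γ]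

/-- The bits that represent a list of cells. -/
noncomputable def cells (l : List (Option Γ)) : List Bool := l.flatMap enc

/-- Number of bits of a cell. -/
noncomputable def nb (Γ : Type) : ℕ := Nat.card (Option Γ)

theorem nb_pos : 0 < nb Γ := Nat.card_pos

@[simp] theorem length_encOpt (a : Option Γ) : (enc a).length = nb Γ := length_enc a

@[simp] theorem length_cells (l : List (Option Γ)) :
    (cells l).length = nb Γ * l.length := by
  induction l with
  | nil => simp [cells]
  | cons a l ih =>
    have : (cells (a :: l)).length = (enc a).length + (cells l).length := by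
      simp [cells]
    rw [this, ih, length_encOpt, List.length_cons, Nat.mul_succ, Nat.add_comm]

@[simp] theorem cells_nil : cells ([] : List (Option Γ)) = [] := rfl

theorem cells_cons (a : Option Γ) (l : List (Option Γ)) :
    cells (a :: l) = enc a ++ cells l := rfl

/-- The stores that occur in the simulation. -/
noncomputable def st (q φ x y : List Bool) (l r : K → List (Option Γ)) : Store (Ix K)
  | .ctl => q
  | .flg => φ
  | .io => x
  | .aux => y
  | .lft k => cells (l k)
  | .rgt k => cells (r k)

omit [DecidableEq K] in
theorem st_congr {q φ x y : List Bool} {l r l' r' : K → List (Option Γ)}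
    (h : ∀ k, l k = l' k) (h' : ∀ k, r k = r' k) : st q φ x y l r = st q φ x y l' r' := by
  rw [funext h, funext h']

section updates

variable (q φ x y : List Bool) (l r : K → List (Option Γ))

theorem st_upd_ctl (w : List Bool) :
    Function.update (st q φ x y l r) .ctl w = st w φ x y l r := by
  funext i; cases i <;> simp [Function.update, st]

theorem st_upd_flg (w : List Bool) :
    Function.update (st q φ x y l r) .flg w = st q w x y l r := by
  funext i; cases i <;> simp [Function.update, st]

theorem st_upd_io (w : List Bool) :
    Function.update (st q φ x y l r) .io w = st q φ w y l r := by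
  funext i; cases i <;> simp [Function.update, st]

theorem st_upd_aux (w : List Bool) :
    Function.update (st q φ x y l r) .aux w = st q φ x w l r := by
  funext i; cases i <;> simp [Function.update, st]

theorem st_upd_lft (k : K) (w : List (Option Γ)) :
    Function.update (st q φ x y l r) (.lft k) (cells w) =
      st q φ x y (Function.update l k w) r := by
  funext i
  cases i with
  | lft j =>
    by_cases hj : j = k
    · subst hj; simp [st]
    · rw [Function.update_of_ne (by simpa using hj)]
      simp [st, Function.update_of_ne hj]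
  | _ => simp [Function.update, st]

theorem st_upd_rgt (k : K) (w : List (Option Γ)) :
    Function.update (st q φ x y l r) (.rgt k) (cells w) =
      st q φ x y l (Function.update r k w) := by
  funext i
  cases i with
  | rgt j =>
    by_cases hj : j = k
    · subst hj; simp [st]
    · rw [Function.update_of_ne (by simpa using hj)]
      simp [st, Function.update_of_ne hj]
  | _ => simp [Function.update, st]

end updates

/-- Pop a symbol from stack `i` (blank if the stack is empty) and run `P` of it. -/
noncomputable def readSym (i : Ix K) (P : Option Γ → Prog (Ix K)) : Prog (Ix K) :=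
  readWord i (P none) (nb Γ) (fun w => P (dec none w))

theorem run_readSym {B T : ℕ} (i : Ix K) (P : Option Γ → Prog (Ix K)) (S S' : Store (Ix K))
    (r : List (Option Γ)) (hS : S i = cells r)
    (h : Run B T (P (r.headD none)) (Function.update S i (cells r.tail)) S') :
    Run B (T + nb Γ) (readSym i P) S S' := by
  rcases r with _ | ⟨a, r⟩
  · simp only [List.headD_nil, List.tail_nil, cells_nil] at h
    have hS' : S i = [] := hS
    rw [← hS', Function.update_eq_self] at h
    exact run_readWord_nil i _ _ nb_pos _ _ _ hS' h
  · simp only [List.headD_cons, List.tail_cons] at h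
    have := run_readWord (B := B) (T := T) i (P none) (enc a) (cells r)
      (fun w => P (dec none w)) S S' (by rw [hS, cells_cons]) (by
        simp only [dec_enc]; exact h)
    rwa [length_encOpt] at this

/-- Read the scanned symbols of the tapes in the list. -/
noncomputable def readTapes : List K → ((K → Option Γ) → Prog (Ix K)) → Prog (Ix K)
  | [], P => P (fun _ => none)
  | k :: ks, P => readSym (.rgt k) (fun s => readTapes ks (fun σ => P (Function.update σ k s)))

theorem run_readTapes {B T : ℕ} (ks : List K) (hks : ks.Nodup)
    (P : (K → Option Γ) → Prog (Ix K)) (q φ x y : List Bool) (l r : K → List (Option Γ))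
    (S' : Store (Ix K))
    (h : Run B T (P (fun k => if k ∈ ks then (r k).headD none else none))
      (st q φ x y l (fun k => if k ∈ ks then (r k).tail else r k)) S') :
    Run B (T + nb Γ * ks.length) (readTapes ks P) (st q φ x y l r) S' := by
  induction ks generalizing P r with
  | nil =>
    simp only [List.not_mem_nil, if_false] at h
    simpa [readTapes] using h
  | cons k ks ih =>
    obtain ⟨hk, hks⟩ := List.nodup_cons.mp hks
    rw [List.length_cons, Nat.mul_succ, ← Nat.add_assoc]
    refine run_readSym (.rgt k) _ _ _ (r k) rfl ?_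
    rw [st_upd_rgt]
    refine ih hks _ _ ?_
    convert h using 1
    · congr 1
      funext j
      by_cases hj : j = k
      · subst hj; simp
      · simp [Function.update_of_ne hj, hj]
    · refine st_congr (fun _ => rfl) ?_
      intro j
      by_cases hj : j = k
      · subst hj; simp [hk]
      · simp [Function.update_of_ne hj, hj]

/-- New left part of a tape. -/
def newL (l : List (Option Γ)) (a : Option Γ × Move) : List (Option Γ) :=
  match a.2 with
  | .stay => l
  | .right => a.1 :: l
  | .left => l.tail

/-- New right part of a tape (`r` does not contain the scanned symbol). -/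
def newR (l r : List (Option Γ)) (a : Option Γ × Move) : List (Option Γ) :=
  match a.2 with
  | .stay => a.1 :: r
  | .right => r
  | .left => l.headD none :: a.1 :: r

/-- Write and move on one tape. -/
noncomputable def tapeAct (k : K) (a : Option Γ × Move) : Prog (Ix K) :=
  match a.2 with
  | .stay => pushWord (.rgt k) (enc a.1)
  | .right => pushWord (.lft k) (enc a.1)
  | .left => seq (pushWord (.rgt k) (enc a.1))
      (readSym (Γ := Γ) (.lft k) (fun u => pushWord (.rgt k) (enc u)))

theorem run_tapeAct {B : ℕ} (k : K) (a : Option Γ × Move)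
    (q φ x y : List Bool) (l r : K → List (Option Γ))
    (hl : nb Γ * ((l k).length + 2) ≤ B) (hr : nb Γ * ((r k).length + 2) ≤ B) :
    Run B (3 * nb Γ + 2) (tapeAct k a) (st q φ x y l r)
      (st q φ x y (Function.update l k (newL (l k) a))
        (Function.update r k (newR (l k) (r k) a))) := by
  rw [Nat.mul_add] at hl hr
  obtain ⟨w, mv⟩ := a
  cases mv with
  | stay =>
    simp only [tapeAct, newL, newR, Function.update_eq_self]
    have h := run_pushWord (B := B) (T := nb Γ + 1) (.rgt k) (enc w) (st q φ x y l r)
      (by simp [st]; omega) (by simp)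
    have h' := h.mono (T' := 3 * nb Γ + 2) le_rfl (by omega)
    convert h' using 1
    rw [← st_upd_rgt]; rfl
  | right =>
    simp only [tapeAct, newL, newR, Function.update_eq_self]
    have h := run_pushWord (B := B) (T := nb Γ + 1) (.lft k) (enc w) (st q φ x y l r)
      (by simp [st]; omega) (by simp)
    have h' := h.mono (T' := 3 * nb Γ + 2) le_rfl (by omega)
    convert h' using 1
    rw [← st_upd_lft]; rfl
  | left =>
    simp only [tapeAct, newL, newR]
    have h := run_pushWord (B := B) (T := nb Γ + 1) (.rgt k) (enc w) (st q φ x y l r)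
      (by simp [st]; omega) (by simp)
    have e1 : Function.update (st q φ x y l r) (.rgt k) (enc w ++ (st q φ x y l r) (.rgt k)) =
        st q φ x y l (Function.update r k (w :: r k)) := by
      rw [← st_upd_rgt]; rfl
    rw [e1] at h
    refine Run.seq' h (T' := nb Γ + 1 + nb Γ) ?_ (by omega)
    refine run_readSym (.lft k) _ _ _ (l k) rfl ?_
    rw [st_upd_lft]
    have h2 := run_pushWord (B := B) (T := nb Γ + 1) (.rgt k) (enc ((l k).headD none))
      (st q φ x y (Function.update l k (l k).tail) (Function.update r k (w :: r k)))
      (by simp [st, Nat.mul_add]; omega) (by simp)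
    convert h2 using 1
    have e2 : enc ((l k).headD none) ++
        (st q φ x y (Function.update l k (l k).tail) (Function.update r k (w :: r k))) (.rgt k)
        = cells ((l k).headD none :: w :: r k) := by
      simp [st, cells_cons]
    rw [e2, st_upd_rgt]
    simp

/-- Write and move on the tapes of a list. -/
noncomputable def actAll (a : K → Option Γ × Move) : List K → Prog (Ix K)
  | [] => skip
  | k :: ks => seq (tapeAct k (a k)) (actAll a ks)

theorem run_actAll {B : ℕ} (ks : List K) (hks : ks.Nodup) (a : K → Option Γ × Move)
    (q φ x y : List Bool) (l r : K → List (Option Γ))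
    (hl : ∀ k ∈ ks, nb Γ * ((l k).length + 2) ≤ B)
    (hr : ∀ k ∈ ks, nb Γ * ((r k).length + 2) ≤ B) :
    Run B ((3 * nb Γ + 2) * ks.length + 1) (actAll a ks) (st q φ x y l r)
      (st q φ x y (fun k => if k ∈ ks then newL (l k) (a k) else l k)
        (fun k => if k ∈ ks then newR (l k) (r k) (a k) else r k)) := by
  induction ks generalizing l r with
  | nil =>
    simp only [List.not_mem_nil, if_false, actAll]
    exact Run.skip (by omega)
  | cons k ks ih =>
    obtain ⟨hk, hks⟩ := List.nodup_cons.mp hks
    have hne : ∀ j ∈ ks, j ≠ k := fun j hj h => hk (h ▸ hj)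
    have h1 := run_tapeAct k (a k) q φ x y l r (hl k (by simp)) (hr k (by simp))
    have h2 := ih hks (Function.update l k (newL (l k) (a k)))
        (Function.update r k (newR (l k) (r k) (a k)))
        (fun j hj => by
          rw [Function.update_of_ne (hne j hj)]; exact hl j (by simp [hj]))
        (fun j hj => by
          rw [Function.update_of_ne (hne j hj)]; exact hr j (by simp [hj]))
    rw [List.length_cons, Nat.mul_succ]
    refine Run.seq' h1 (T' := (3 * nb Γ + 2) * ks.length + 1) ?_ (by omega)
    convert h2 using 1
    refine st_congr ?_ ?_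
    · intro j
      by_cases hj : j = k
      · subst hj; simp [hk]
      · simp [hj]
    · intro j
      by_cases hj : j = k
      · subst hj; simp [hk]
      · simp [hj]

/-- Pushing a letter-coded word on the right stack of tape `k`, letter by letter from
stack `aux`. -/
noncomputable def load (k : K) (bit : Bool → Γ) : Prog (Ix K) :=
  seq (push .flg true) (loop .flg (pop .aux (push .flg false)
    (seq (pushWord (.rgt k) (enc (some (bit false)))) (push .flg true))
    (seq (pushWord (.rgt k) (enc (some (bit true)))) (push .flg true))))

theorem run_load {B : ℕ} (k : K) (bit : Bool → Γ) (q x y : List Bool)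
    (l r : K → List (Option Γ))
    (hB : nb Γ * ((r k).length + y.length + 2) ≤ B) :
    Run B ((nb Γ + 5) * (y.length + 1)) (load k bit) (st q [] x y l r)
      (st q [] x [] l (Function.update r k (y.reverse.map (fun b => some (bit b)) ++ r k))) := by
  have hn := nb_pos (Γ := Γ)
  have hB1 : 1 < B := by nlinarith
  have key : ∀ (y : List Bool) (r : K → List (Option Γ)),
      nb Γ * ((r k).length + y.length + 2) ≤ B →
      Run B ((nb Γ + 5) * (y.length + 1) - 1) (loop .flg (pop .aux (push .flg false)
        (seq (pushWord (.rgt k) (enc (some (bit false)))) (push .flg true))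
        (seq (pushWord (.rgt k) (enc (some (bit true)))) (push .flg true))))
        (st q [true] x y l r)
        (st q [] x [] l (Function.update r k
          (y.reverse.map (fun b => some (bit b)) ++ r k))) := by
    intro y
    induction y with
    | nil =>
      intro r hB
      have h1 : Run B 2 (pop .aux (push .flg false)
        (seq (pushWord (.rgt k) (enc (some (bit false)))) (push .flg true))
        (seq (pushWord (.rgt k) (enc (some (bit true)))) (push .flg true)))
        (Function.update (st q [true] x [] l r) .flg []) (st q [false] x [] l r) := by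
        rw [st_upd_flg]
        refine Run.popN (T := 1) rfl (Run.push' ?_ le_rfl ?_)
        · simp [st]; omega
        · rw [st_upd_flg]; rfl
      have h2 := Run.loopT (i := Ix.flg) (l := []) (by rfl) h1
        (Run.loopF (T := 1) (l := []) (by rfl) le_rfl)
      rw [st_upd_flg] at h2
      have h3 := h2.mono (T' := (nb Γ + 5) * (([] : List Bool).length + 1) - 1) le_rfl
        (by simp)
      convert h3 using 1
      simp
    | cons b y ih =>
      intro r hB
      simp only [List.length_cons, Nat.mul_add, Nat.add_mul] at hB ⊢
      have h1 : Run B (nb Γ + 3) (pop .aux (push .flg false)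
        (seq (pushWord (.rgt k) (enc (some (bit false)))) (push .flg true))
        (seq (pushWord (.rgt k) (enc (some (bit true)))) (push .flg true)))
        (Function.update (st q [true] x (b :: y) l r) .flg [])
        (st q [true] x y l (Function.update r k (some (bit b) :: r k))) := by
        rw [st_upd_flg]
        have h2 : Run B (nb Γ + 2)
            (seq (pushWord (.rgt k) (enc (some (bit b)))) (push .flg true))
            (Function.update (st q [] x (b :: y) l r) .aux y)
            (st q [true] x y l (Function.update r k (some (bit b) :: r k))) := by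
          rw [st_upd_aux]
          have h3 := run_pushWord (B := B) (T := nb Γ + 1) (.rgt k) (enc (some (bit b)))
            (st q [] x y l r) (by simp [st]; omega) (by simp)
          have e1 : Function.update (st q [] x y l r) (.rgt k)
              (enc (some (bit b)) ++ (st q [] x y l r) (.rgt k)) =
              st q [] x y l (Function.update r k (some (bit b) :: r k)) := by
            rw [← st_upd_rgt]; rfl
          rw [e1] at h3
          refine Run.seq' h3 (Run.push' (T := 1) ?_ le_rfl ?_) (by omega)
          · simp [st]; omega
          · rw [st_upd_flg]; rfl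
        cases b with
        | false => exact Run.popF (l := y) rfl h2
        | true => exact Run.popT (l := y) rfl h2
      have h2 := ih (Function.update r k (some (bit b) :: r k)) (by
        simp only [Function.update_self, List.length_cons, Nat.mul_add]; omega)
      have h3 := (Run.loopT (i := Ix.flg) (l := []) (by rfl) h1 h2)
      have h4 := h3.mono (T' := (nb Γ * y.length + nb Γ * 1 + (5 * y.length + 5 * 1) +
        (nb Γ * 1 + 5 * 1)) - 1) le_rfl (by
          simp only [Nat.mul_add, Nat.add_mul]; omega)
      convert h4 using 1
      · omega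
      · simp
  have h1 : Run B 1 (push .flg true) (st q [] x y l r) (st q [true] x y l r) := by
    refine Run.push' ?_ le_rfl ?_
    · simp [st]; omega
    · rw [st_upd_flg]; rfl
  have hpos : 1 ≤ (nb Γ + 5) * (y.length + 1) := Nat.mul_pos (by omega) (by omega)
  exact Run.seq' h1 (key y r hB) (by omega)

/-! ### Invariants -/

/-- The lists `l` and `r` represent the tape content `t` with the head at `h`. -/
def Inv (t : ℤ → Option Γ) (h : ℤ) (l r : List (Option Γ)) : Prop :=
  (∀ j : ℕ, l.getD j none = t (h - 1 - j)) ∧ ∀ j : ℕ, r.getD j none = t (h + j)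

omit [Finite Γ] in
theorem Inv.headD {t : ℤ → Option Γ} {h : ℤ} {l r : List (Option Γ)} (hI : Inv t h l r) :
    r.headD none = t h := by
  have := hI.2 0
  rcases r with _ | ⟨a, r⟩ <;> simpa using this

omit [Finite Γ] in
theorem getD_tail (l : List (Option Γ)) (j : ℕ) : l.tail.getD j none = l.getD (j + 1) none := by
  rcases l with _ | ⟨a, l⟩ <;> simp

omit [Finite Γ] in
theorem Inv.act {t : ℤ → Option Γ} {h : ℤ} {l r : List (Option Γ)} (hI : Inv t h l r)
    (a : Option Γ × Move) :
    Inv (Function.update t h a.1) (h + a.2.toInt) (newL l a) (newR l r.tail a) := by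
  obtain ⟨w, mv⟩ := a
  obtain ⟨h1, h2⟩ := hI
  have hr : ∀ j : ℕ, r.tail.getD j none = t (h + 1 + j) := by
    intro j
    rw [getD_tail, h2]
    congr 1
    push_cast; ring
  have hl : ∀ j : ℕ, l.tail.getD j none = t (h - 1 - 1 - j) := by
    intro j
    rw [getD_tail, h1]
    congr 1
    push_cast; ring
  have hu : ∀ z : ℤ, z ≠ h → Function.update t h w z = t z := fun z hz =>
    Function.update_of_ne hz _ _
  cases mv with
  | stay =>
    simp only [newL, newR, Move.toInt, add_zero]
    refine ⟨?_, ?_⟩
    · intro j
      rw [hu _ (by omega), h1]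
    · intro j
      cases j with
      | zero => simp
      | succ j =>
        rw [List.getD_cons_succ, hu _ (by push_cast; omega), hr]
        congr 1; push_cast; ring
  | right =>
    simp only [newL, newR, Move.toInt]
    refine ⟨?_, ?_⟩
    · intro j
      cases j with
      | zero => simp
      | succ j =>
        rw [List.getD_cons_succ, hu _ (by push_cast; omega), h1]
        congr 1; push_cast; ring
    · intro j
      rw [hu _ (by omega), hr]
  | left =>
    simp only [newL, newR, Move.toInt]
    refine ⟨?_, ?_⟩
    · intro j
      rw [hu _ (by omega), hl]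
      congr 1
    · intro j
      cases j with
      | zero =>
        rw [hu _ (by simp)]
        have := h1 0
        rcases l with _ | ⟨a, l⟩ <;> simpa [sub_eq_add_neg] using this
      | succ j =>
        cases j with
        | zero => simp
        | succ j =>
          rw [List.getD_cons_succ, List.getD_cons_succ, hu _ (by push_cast; omega), hr]
          congr 1; push_cast; ring

/-- Bounds for the lengths of the lists. -/
def Bdd (H : ℕ) (h : ℤ) (l r : List (Option Γ)) : Prop :=
  -(H : ℤ) ≤ h - l.length ∧ h + r.length ≤ H + 1

omit [Finite Γ] in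
theorem Bdd.act {H : ℕ} {h : ℤ} {l r : List (Option Γ)} (hI : Bdd H h l r)
    (hh : |h| ≤ H) (a : Option Γ × Move) (hh' : |h + a.2.toInt| ≤ H) :
    Bdd H (h + a.2.toInt) (newL l a) (newR l r.tail a) := by
  obtain ⟨w, mv⟩ := a
  obtain ⟨h1, h2⟩ := hI
  rw [abs_le] at hh hh'
  unfold Bdd
  cases mv with
  | stay =>
    simp only [newL, newR, Move.toInt, List.length_cons, List.length_tail] at *
    push_cast
    omega
  | right =>
    simp only [newL, newR, Move.toInt, List.length_cons, List.length_tail] at *
    push_cast
    omega
  | left =>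
    simp only [newL, newR, Move.toInt, List.length_cons, List.length_tail] at *
    push_cast
    omega

end sim

/-! ### The main loop -/

section main

variable (M : TM)

/-- The list of all tapes. -/
noncomputable def tapes : List M.K := (@Finset.univ M.K (Fintype.ofFinite M.K)).toList

theorem nodup_tapes : (tapes M).Nodup := Finset.nodup_toList _

theorem mem_tapes (k : M.K) : k ∈ tapes M := by simp [tapes]

/-- One step of the machine. -/
noncomputable def body : Prog (Ix M.K) :=
  readWord .ctl skip (Nat.card M.Q) fun w =>
    readTapes (tapes M) fun σ =>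
      match M.δ (dec M.start w) σ with
      | none => seq (actAll (fun k => (σ k, .stay)) (tapes M))
          (seq (push .ctl (M.accept (dec M.start w))) (push .flg false))
      | some r => seq (actAll r.2 (tapes M)) (seq (pushWord .ctl (enc r.1)) (push .flg true))

/-- Time bound for the body. -/
noncomputable def tbody : ℕ :=
  (3 * nb M.Γ + 2) * (tapes M).length + 1 + (Nat.card M.Q + 1 + 1) +
    nb M.Γ * (tapes M).length + Nat.card M.Q

/-- Space bound. -/
noncomputable def sbody (H : ℕ) : ℕ := nb M.Γ * (2 * H + 4) + Nat.card M.Q + 2

theorem run_body_aux {B : ℕ} (c : M.Cfg) (x y : List Bool)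
    (l r : M.K → List (Option M.Γ)) (S' : Store (Ix M.K))
    (hI : ∀ k, Inv (c.tape k) (c.head k) (l k) (r k))
    (hP : Run B ((3 * nb M.Γ + 2) * (tapes M).length + 1 + (Nat.card M.Q + 1 + 1))
      (match M.δ c.state (fun k => c.tape k (c.head k)) with
      | none => seq (actAll (fun k => (c.tape k (c.head k), .stay)) (tapes M))
          (seq (push .ctl (M.accept c.state)) (push .flg false))
      | some r => seq (actAll r.2 (tapes M)) (seq (pushWord .ctl (enc r.1)) (push .flg true)))
      (st [] [] x y l (fun k => (r k).tail)) S') :
    Run B (tbody M) (body M) (st (enc c.state) [] x y l r) S' := by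
  unfold body tbody
  rw [← length_enc c.state]
  refine run_readWord Ix.ctl skip (enc c.state) [] _ _ _ (by simp [st]) ?_
  rw [st_upd_ctl]
  refine run_readTapes (tapes M) (nodup_tapes M) _ _ _ _ _ _ _ _ ?_
  have e : ∀ k, (r k).headD none = c.tape k (c.head k) := fun k => (hI k).headD
  simp only [mem_tapes, if_true, dec_enc, e, length_enc]
  exact hP

theorem run_body_none {B H : ℕ} (hB : sbody M H ≤ B) (c : M.Cfg) (x y : List Bool)
    (l r : M.K → List (Option M.Γ))
    (hI : ∀ k, Inv (c.tape k) (c.head k) (l k) (r k))
    (hb : ∀ k, Bdd H (c.head k) (l k) (r k)) (hh : ∀ k, |c.head k| ≤ H)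
    (hs : M.step c = none) :
    Run B (tbody M) (body M) (st (enc c.state) [] x y l r)
      (st [M.accept c.state] [false] x y l (fun k => c.tape k (c.head k) :: (r k).tail)) := by
  have hd : M.δ c.state (fun k => c.tape k (c.head k)) = none := by
    unfold TM.step at hs
    simpa using hs
  have hn := nb_pos (Γ := M.Γ)
  unfold sbody at hB
  have hlen : ∀ k, (l k).length ≤ 2 * H ∧ (r k).length ≤ 2 * H + 1 := by
    intro k
    have h1 := hb k
    have h2 := abs_le.mp (hh k)
    unfold Bdd at h1
    omega
  refine run_body_aux M c x y l r _ hI ?_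
  rw [hd]
  have h1 := run_actAll (B := B) (tapes M) (nodup_tapes M)
    (fun k => (c.tape k (c.head k), Move.stay)) [] [] x y l (fun k => (r k).tail)
    (fun k _ => by
      refine le_trans (Nat.mul_le_mul_left _ (?_ : _ ≤ 2 * H + 4)) (by omega)
      have := (hlen k).1; omega)
    (fun k _ => by
      refine le_trans (Nat.mul_le_mul_left _ (?_ : _ ≤ 2 * H + 4)) (by omega)
      have := (hlen k).2; simp only [List.length_tail]; omega)
  simp only [mem_tapes, if_true, newL, newR] at h1
  refine Run.seq h1 (Run.seq' (T := 1) (T' := 1) (S' := st [M.accept c.state] [] x y l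
    (fun k => c.tape k (c.head k) :: (r k).tail)) (Run.push' ?_ le_rfl ?_)
    (Run.push' ?_ le_rfl ?_) (by omega))
  · simp [st]; omega
  · rw [st_upd_ctl]; rfl
  · simp [st]; omega
  · rw [st_upd_flg]; rfl

theorem run_body_some {B H : ℕ} (hB : sbody M H ≤ B) (c c' : M.Cfg) (x y : List Bool)
    (l r : M.K → List (Option M.Γ))
    (hI : ∀ k, Inv (c.tape k) (c.head k) (l k) (r k))
    (hb : ∀ k, Bdd H (c.head k) (l k) (r k)) (hh : ∀ k, |c.head k| ≤ H)
    (hh' : ∀ k, |c'.head k| ≤ H) (hs : M.step c = some c') :
    ∃ l' r' : M.K → List (Option M.Γ),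
      (∀ k, Inv (c'.tape k) (c'.head k) (l' k) (r' k)) ∧
      (∀ k, Bdd H (c'.head k) (l' k) (r' k)) ∧
      Run B (tbody M) (body M) (st (enc c.state) [] x y l r)
        (st (enc c'.state) [true] x y l' r') := by
  unfold TM.step at hs
  rw [Option.map_eq_some_iff] at hs
  obtain ⟨a, hd, rfl⟩ := hs
  have hn := nb_pos (Γ := M.Γ)
  unfold sbody at hB
  have hlen : ∀ k, (l k).length ≤ 2 * H ∧ (r k).length ≤ 2 * H + 1 := by
    intro k
    have h1 := hb k
    have h2 := abs_le.mp (hh k)
    unfold Bdd at h1
    omega
  refine ⟨fun k => newL (l k) (a.2 k), fun k => newR (l k) (r k).tail (a.2 k), ?_, ?_, ?_⟩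
  · intro k
    exact (hI k).act (a.2 k)
  · intro k
    exact (hb k).act (hh k) (a.2 k) (hh' k)
  refine run_body_aux M c x y l r _ hI ?_
  rw [hd]
  have h1 := run_actAll (B := B) (tapes M) (nodup_tapes M) a.2
    [] [] x y l (fun k => (r k).tail)
    (fun k _ => by
      refine le_trans (Nat.mul_le_mul_left _ (?_ : _ ≤ 2 * H + 4)) (by omega)
      have := (hlen k).1; omega)
    (fun k _ => by
      refine le_trans (Nat.mul_le_mul_left _ (?_ : _ ≤ 2 * H + 4)) (by omega)
      have := (hlen k).2; simp only [List.length_tail]; omega)
  simp only [mem_tapes, if_true] at h1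
  have h2 := run_pushWord (B := B) (T := Nat.card M.Q + 1) .ctl (enc a.1)
    (st [] [] x y (fun k => newL (l k) (a.2 k)) (fun k => newR (l k) (r k).tail (a.2 k)))
    (by simp [st, length_enc]; omega) (by simp [length_enc])
  rw [st_upd_ctl] at h2
  refine Run.seq h1 (Run.seq' (T' := 1) h2 (Run.push' ?_ le_rfl ?_) (by omega))
  · simp [st]; omega
  · rw [st_upd_flg]
    simp [st]

theorem run_main {B H : ℕ} (hB : sbody M H ≤ B) (x y : List Bool) (N : ℕ) (c : M.Cfg)
    (l r : M.K → List (Option M.Γ)) (hN : M.step (M.run N c) = none)
    (hI : ∀ k, Inv (c.tape k) (c.head k) (l k) (r k))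
    (hb : ∀ k, Bdd H (c.head k) (l k) (r k)) (hh : ∀ n k, |(M.run n c).head k| ≤ H) :
    ∃ l' r' : M.K → List (Option M.Γ),
      (∀ k, Inv ((M.run N c).tape k) ((M.run N c).head k) (l' k) (r' k)) ∧
      (∀ k, Bdd H ((M.run N c).head k) (l' k) (r' k)) ∧
      Run B ((tbody M + 1) * (N + 1) + 1) (loop .flg (body M))
        (st (enc c.state) [true] x y l r)
        (st [M.accept (M.run N c).state] [] x y l' r') := by
  have base : ∀ (c : M.Cfg) (l r : M.K → List (Option M.Γ)), M.step c = none →
      (∀ k, Inv (c.tape k) (c.head k) (l k) (r k)) →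
      (∀ k, Bdd H (c.head k) (l k) (r k)) → (∀ k, |c.head k| ≤ H) →
      ∃ l' r' : M.K → List (Option M.Γ),
      (∀ k, Inv (c.tape k) (c.head k) (l' k) (r' k)) ∧
      (∀ k, Bdd H (c.head k) (l' k) (r' k)) ∧
      Run B (tbody M + 1 + 1) (loop .flg (body M))
        (st (enc c.state) [true] x y l r)
        (st [M.accept c.state] [] x y l' r') := by
    intro c l r hs hI hb hh
    have h1 := run_body_none M hB c x y l r hI hb hh hs
    refine ⟨l, fun k => c.tape k (c.head k) :: (r k).tail, ?_, ?_, ?_⟩
    · intro k
      have := (hI k).act (c.tape k (c.head k), .stay)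
      simpa [newL, newR, Move.toInt] using this
    · intro k
      have := (hb k).act (hh k) (c.tape k (c.head k), .stay) (by simpa [Move.toInt] using hh k)
      simpa [newL, newR, Move.toInt] using this
    · rw [← st_upd_flg _ [true] _ _ _ _ []] at h1
      have h2 := Run.loopT (i := Ix.flg) (l := []) (by rfl) h1
        (Run.loopF (T := 1) (l := []) (by rfl) le_rfl)
      rw [st_upd_flg] at h2
      exact h2.mono le_rfl (by omega)
  induction N generalizing c l r with
  | zero =>
    obtain ⟨l', r', h1, h2, h3⟩ := base c l r hN hI hb (hh 0)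
    exact ⟨l', r', h1, h2, h3.mono le_rfl (by omega)⟩
  | succ N ih =>
    cases hs : M.step c with
    | none =>
      rw [M.run_of_halted hs]
      obtain ⟨l', r', h1, h2, h3⟩ := base c l r hs hI hb (hh 0)
      refine ⟨l', r', h1, h2, h3.mono le_rfl ?_⟩
      have : tbody M + 1 ≤ (tbody M + 1) * (N + 1 + 1) := Nat.le_mul_of_pos_right _ (by omega)
      omega
    | some c' =>
      have hrun : ∀ n, M.run (n + 1) c = M.run n c' := by
        intro n
        rw [Nat.add_comm, M.run_add, M.run_one_of_step hs]
      rw [hrun] at hN ⊢
      have hh0 : ∀ k, |c.head k| ≤ H := hh 0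
      have hh1 : ∀ n k, |(M.run n c').head k| ≤ H := by
        intro n k
        rw [← hrun]; exact hh _ k
      obtain ⟨l1, r1, h1, h2, h3⟩ := run_body_some M hB c c' x y l r hI hb hh0 (hh1 0) hs
      obtain ⟨l', r', h1', h2', h3'⟩ := ih c' l1 r1 hN h1 h2 hh1
      refine ⟨l', r', h1', h2', ?_⟩
      rw [← st_upd_flg _ [true] _ _ _ _ []] at h3
      have h4 := Run.loopT (i := Ix.flg) (l := []) (by rfl) h3 h3'
      refine h4.mono le_rfl ?_
      rw [Nat.mul_succ (tbody M + 1) (N + 1)]
      omega

/-! ### Setup, extraction of the result, and cleaning -/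

/-- The setup: from the input on stack `io` to the representation of the initial
configuration. -/
noncomputable def setup : Prog (Ix M.K) :=
  seq (moveRev .io .aux .flg) (seq (load M.io M.bit)
    (seq (pushWord .ctl (enc M.start)) (push .flg true)))

theorem run_setup {B : ℕ} (x : List Bool)
    (hB : nb M.Γ * (x.length + 2) + Nat.card M.Q + 1 ≤ B) :
    Run B (4 * x.length + 5 + ((nb M.Γ + 5) * (x.length + 1) + (Nat.card M.Q + 1 + 1)))
      (setup M) (st [] [] x [] (fun _ => []) (fun _ => ([] : List (Option M.Γ))))
      (st (enc M.start) [true] [] [] (fun _ => [])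
        (Function.update (fun _ => []) M.io (x.map fun b => some (M.bit b)))) := by
  have hn := nb_pos (Γ := M.Γ)
  have hx : x.length ≤ nb M.Γ * (x.length + 2) := by nlinarith
  have h1 := run_moveRev (ι := Ix M.K) (B := B) (T := 4 * x.length + 5) (a := Ix.io)
    (b := Ix.aux) (f := Ix.flg) (by simp) (by simp) (by simp)
    (st [] [] x [] (fun _ => []) (fun _ => ([] : List (Option M.Γ))))
    (by simp [st]; omega) (by simp [st]; omega) (by simp [st])
  rw [st_upd_io, st_upd_aux] at h1
  simp only [st, List.append_nil] at h1
  have h2 := run_load (B := B) M.io M.bit [] [] x.reverse (fun _ => [])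
    (fun _ => ([] : List (Option M.Γ))) (by simp; omega)
  simp only [List.reverse_reverse, List.append_nil, List.length_reverse] at h2
  have h3 := run_pushWord (B := B) (T := Nat.card M.Q + 1) Ix.ctl (enc M.start)
    (st [] [] [] [] (fun _ => [])
      (Function.update (fun _ => []) M.io (x.map fun b => some (M.bit b))))
    (by simp [st, length_enc]; omega) (by simp [length_enc])
  rw [st_upd_ctl] at h3
  refine Run.seq h1 (Run.seq h2 (Run.seq h3 (Run.push' ?_ le_rfl ?_)))
  · simp [st]; omega
  · rw [st_upd_flg]; simp [st]

/-- Move the left part of tape `k` to the right stack. -/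
noncomputable def rewind (k : M.K) : Prog (Ix M.K) :=
  seq (push .flg true) (loop .flg (readWord (.lft k) (push .flg false) (nb M.Γ)
    fun w => seq (pushWord (.rgt k) w) (push .flg true)))

theorem run_rewind {B : ℕ} (k : M.K) (q x y : List Bool) (l r : M.K → List (Option M.Γ))
    (hB : nb M.Γ * ((l k).length + (r k).length + 2) ≤ B) :
    Run B ((2 * nb M.Γ + 5) * ((l k).length + 1)) (rewind M k) (st q [] x y l r)
      (st q [] x y (Function.update l k [])
        (Function.update r k ((l k).reverse ++ r k))) := by
  have hn := nb_pos (Γ := M.Γ)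
  have hB1 : 1 < B := by nlinarith
  have key : ∀ (lk : List (Option M.Γ)) (l r : M.K → List (Option M.Γ)), l k = lk →
      nb M.Γ * (lk.length + (r k).length + 2) ≤ B →
      Run B ((2 * nb M.Γ + 5) * (lk.length + 1) - 1)
        (loop .flg (readWord (.lft k) (push .flg false) (nb M.Γ)
          fun w => seq (pushWord (.rgt k) w) (push .flg true)))
        (st q [true] x y l r)
        (st q [] x y (Function.update l k []) (Function.update r k (lk.reverse ++ r k))) := by
    intro lk
    induction lk with
    | nil =>
      intro l r hl hB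
      have h1 : Run B (1 + nb M.Γ) (readWord (.lft k) (push .flg false) (nb M.Γ)
          fun w => seq (pushWord (.rgt k) w) (push .flg true))
        (Function.update (st q [true] x y l r) .flg []) (st q [false] x y l r) := by
        rw [st_upd_flg]
        refine run_readWord_nil _ _ _ hn _ _ _ (by simp [st, hl]) (Run.push' ?_ le_rfl ?_)
        · simp [st]; omega
        · rw [st_upd_flg]; rfl
      have h2 := Run.loopT (i := Ix.flg) (l := []) (by rfl) h1
        (Run.loopF (T := 1) (l := []) (by rfl) le_rfl)
      rw [st_upd_flg] at h2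
      have h3 := h2.mono (T' := (2 * nb M.Γ + 5) * (([] : List (Option M.Γ)).length + 1) - 1) le_rfl
        (by simp; omega)
      convert h3 using 1
      simp only [List.reverse_nil, List.nil_append, Function.update_eq_self]
      rw [← hl, Function.update_eq_self]
    | cons a lk ih =>
      intro l r hl hB
      simp only [List.length_cons, Nat.mul_add, Nat.add_mul] at hB ⊢
      have h1 : Run B (nb M.Γ + 2 + nb M.Γ) (readWord (.lft k) (push .flg false) (nb M.Γ)
          fun w => seq (pushWord (.rgt k) w) (push .flg true))
        (Function.update (st q [true] x y l r) .flg [])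
        (st q [true] x y (Function.update l k lk) (Function.update r k (a :: r k))) := by
        rw [st_upd_flg, ← length_encOpt a]
        refine run_readWord _ _ (enc a) (cells lk) _ _ _ (by simp [st, hl, cells_cons]) ?_
        rw [st_upd_lft, length_encOpt]
        have h3 := run_pushWord (B := B) (T := nb M.Γ + 1) (.rgt k) (enc a)
          (st q [] x y (Function.update l k lk) r) (by simp [st]; omega) (by simp)
        have e1 : Function.update (st q [] x y (Function.update l k lk) r) (.rgt k)
            (enc a ++ (st q [] x y (Function.update l k lk) r) (.rgt k)) =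
            st q [] x y (Function.update l k lk) (Function.update r k (a :: r k)) := by
          rw [← st_upd_rgt]; rfl
        rw [e1] at h3
        refine Run.seq' h3 (Run.push' (T := 1) ?_ le_rfl ?_) (by omega)
        · simp [st]; omega
        · rw [st_upd_flg]; rfl
      have h2 := ih (Function.update l k lk) (Function.update r k (a :: r k)) (by simp) (by
        simp only [Function.update_self, List.length_cons, Nat.mul_add]; omega)
      have h3 := (Run.loopT (i := Ix.flg) (l := []) (by rfl) h1 h2)
      have h4 := h3.mono (T' := 2 * nb M.Γ * lk.length + 2 * nb M.Γ * 1 +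
        (5 * lk.length + 5 * 1) + (2 * nb M.Γ * 1 + 5 * 1) - 1) le_rfl (by
          simp only [Nat.mul_add, Nat.add_mul]; omega)
      convert h4 using 1
      · omega
      · simp
  have h1 : Run B 1 (push .flg true) (st q [] x y l r) (st q [true] x y l r) := by
    refine Run.push' ?_ le_rfl ?_
    · simp [st]; omega
    · rw [st_upd_flg]; rfl
  have hpos : 1 ≤ (2 * nb M.Γ + 5) * ((l k).length + 1) := Nat.mul_pos (by omega) (by omega)
  exact Run.seq' h1 (key (l k) l r rfl hB) (by omega)

open Classical in
/-- The bit coded by a tape symbol. -/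
noncomputable def bitOf (g : M.Γ) : Bool := decide (g = M.bit true)

theorem bitOf_bit (b : Bool) : bitOf M (M.bit b) = b := by
  unfold bitOf
  cases b with
  | true => simp
  | false =>
    have : M.bit false ≠ M.bit true := fun h => by simpa using M.bit_inj h
    simp [this]

/-- Move the bits on the right stack of tape `k` to stack `aux`. -/
noncomputable def extract (k : M.K) : Prog (Ix M.K) :=
  seq (push .flg true) (loop .flg (readWord (.rgt k) (push .flg false) (nb M.Γ)
    fun w => match (dec none w : Option M.Γ) with
      | none => push .flg true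
      | some g => seq (push .aux (bitOf M g)) (push .flg true)))

theorem run_extract {B : ℕ} (k : M.K) (q x y : List Bool) (l r : M.K → List (Option M.Γ))
    (hB : y.length + (r k).length + 2 ≤ B) :
    Run B ((nb M.Γ + 5) * ((r k).length + 1)) (extract M k) (st q [] x y l r)
      (st q [] x (((r k).filterMap (Option.map (bitOf M))).reverse ++ y) l
        (Function.update r k [])) := by
  have hn := nb_pos (Γ := M.Γ)
  have key : ∀ (rk : List (Option M.Γ)) (y : List Bool) (r : M.K → List (Option M.Γ)),
      r k = rk → y.length + rk.length + 2 ≤ B →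
      Run B ((nb M.Γ + 5) * (rk.length + 1) - 1)
        (loop .flg (readWord (.rgt k) (push .flg false) (nb M.Γ)
          fun w => match (dec none w : Option M.Γ) with
          | none => push .flg true
          | some g => seq (push .aux (bitOf M g)) (push .flg true)))
        (st q [true] x y l r)
        (st q [] x ((rk.filterMap (Option.map (bitOf M))).reverse ++ y) l
          (Function.update r k [])) := by
    intro rk
    induction rk with
    | nil =>
      intro y r hr hB
      have h1 : Run B (1 + nb M.Γ) (readWord (.rgt k) (push .flg false) (nb M.Γ)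
          fun w => match (dec none w : Option M.Γ) with
          | none => push .flg true
          | some g => seq (push .aux (bitOf M g)) (push .flg true))
        (Function.update (st q [true] x y l r) .flg []) (st q [false] x y l r) := by
        rw [st_upd_flg]
        refine run_readWord_nil _ _ _ hn _ _ _ (by simp [st, hr]) (Run.push' ?_ le_rfl ?_)
        · simp [st]; omega
        · rw [st_upd_flg]; rfl
      have h2 := Run.loopT (i := Ix.flg) (l := []) (by rfl) h1
        (Run.loopF (T := 1) (l := []) (by rfl) le_rfl)
      rw [st_upd_flg] at h2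
      have h3 := h2.mono (T' := (nb M.Γ + 5) * (([] : List (Option M.Γ)).length + 1) - 1) le_rfl
        (by simp; omega)
      convert h3 using 1
      simp only [List.filterMap_nil, List.reverse_nil, List.nil_append]
      rw [← hr, Function.update_eq_self]
    | cons a rk ih =>
      intro y r hr hB
      simp only [List.length_cons, Nat.mul_add, Nat.add_mul] at hB ⊢
      have h1 : Run B (2 + nb M.Γ) (readWord (.rgt k) (push .flg false) (nb M.Γ)
          fun w => match (dec none w : Option M.Γ) with
          | none => push .flg true
          | some g => seq (push .aux (bitOf M g)) (push .flg true))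
        (Function.update (st q [true] x y l r) .flg [])
        (st q [true] x (([a].filterMap (Option.map (bitOf M))) ++ y) l
          (Function.update r k rk)) := by
        rw [st_upd_flg, ← length_encOpt a]
        refine run_readWord _ _ (enc a) (cells rk) _ _ _ (by simp [st, hr, cells_cons]) ?_
        rw [st_upd_rgt, dec_enc]
        cases a with
        | none =>
          refine (Run.push' (T := 1) ?_ le_rfl ?_).mono le_rfl (by omega)
          · simp [st]; omega
          · rw [st_upd_flg]; rfl
        | some g =>
          refine Run.seq (T := 1) (T' := 1) (Run.push ?_ le_rfl) (Run.push' ?_ le_rfl ?_)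
          · simp [st]; omega
          · simp [st]; omega
          · rw [st_upd_aux, st_upd_flg]; rfl
      have h2 := ih (([a].filterMap (Option.map (bitOf M))) ++ y) (Function.update r k rk)
        (by simp) (by
          have : ([a].filterMap (Option.map (bitOf M))).length ≤ 1 := by
            have := List.length_filterMap_le (Option.map (bitOf M)) [a]
            simpa using this
          simp only [List.length_append]; omega)
      have h3 := (Run.loopT (i := Ix.flg) (l := []) (by rfl) h1 h2)
      have h4 := h3.mono (T' := nb M.Γ * rk.length + nb M.Γ * 1 +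
        (5 * rk.length + 5 * 1) + (nb M.Γ * 1 + 5 * 1) - 1) le_rfl (by
          simp only [Nat.mul_add, Nat.add_mul]; omega)
      convert h4 using 1
      · omega
      · have e2 : (a :: rk).filterMap (Option.map (bitOf M)) =
            [a].filterMap (Option.map (bitOf M)) ++ rk.filterMap (Option.map (bitOf M)) := by
          rw [← List.filterMap_append]; rfl
        have e3 : ([a].filterMap (Option.map (bitOf M))).reverse =
            [a].filterMap (Option.map (bitOf M)) := by
          cases a <;> rfl
        rw [e2, List.reverse_append, e3, List.append_assoc]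
        simp
  have h1 : Run B 1 (push .flg true) (st q [] x y l r) (st q [true] x y l r) := by
    refine Run.push' ?_ le_rfl ?_
    · simp [st]; omega
    · rw [st_upd_flg]; rfl
  have hpos : 1 ≤ (nb M.Γ + 5) * ((r k).length + 1) := Nat.mul_pos (by omega) (by omega)
  exact Run.seq' h1 (key (r k) y r rfl hB) (by omega)

/-- Empty the stacks of the tapes of a list. -/
def cleanAll {K : Type} : List K → Prog (Ix K)
  | [] => skip
  | k :: ks => seq (seq (clear (.lft k) .flg) (clear (.rgt k) .flg)) (cleanAll ks)

theorem run_cleanAll {B C : ℕ} (ks : List M.K) (q x y : List Bool)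
    (l r : M.K → List (Option M.Γ)) (hB : 0 < B)
    (hC : ∀ k, nb M.Γ * (l k).length ≤ C ∧ nb M.Γ * (r k).length ≤ C) :
    Run B ((6 * C + 10) * ks.length + 1) (cleanAll ks) (st q [] x y l r)
      (st q [] x y (fun k => if k ∈ ks then [] else l k)
        (fun k => if k ∈ ks then [] else r k)) := by
  induction ks generalizing l r with
  | nil =>
    simp only [List.not_mem_nil, if_false, cleanAll]
    exact Run.skip (by omega)
  | cons k ks ih =>
    have h1 := run_clear (B := B) (T := 3 * C + 5) (a := Ix.lft k) (f := Ix.flg) (by simp)
      (st q [] x y l r) (by simpa [st] using hB) (by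
        simp only [st, length_cells]; have := (hC k).1; omega)
    have e1 := st_upd_lft q [] x y l r k []
    rw [cells_nil] at e1
    rw [e1] at h1
    have h2 := run_clear (B := B) (T := 3 * C + 5) (a := Ix.rgt k) (f := Ix.flg) (by simp)
      (st q [] x y (Function.update l k []) r) (by simpa [st] using hB) (by
        simp only [st, length_cells]; have := (hC k).2; omega)
    have e2 := st_upd_rgt q [] x y (Function.update l k []) r k []
    rw [cells_nil] at e2
    rw [e2] at h2
    have h3 := ih (Function.update l k []) (Function.update r k []) (by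
      intro j
      by_cases hj : j = k
      · subst hj; simp
      · simpa [hj] using hC j)
    rw [List.length_cons, Nat.mul_succ]
    refine Run.seq' (Run.seq h1 h2) (T' := (6 * C + 10) * ks.length + 1) ?_ (by omega)
    convert h3 using 1
    refine st_congr ?_ ?_
    · intro j
      by_cases hj : j = k
      · subst hj; simp
      · simp [hj]
    · intro j
      by_cases hj : j = k
      · subst hj; simp
      · simp [hj]

theorem inv_init (x : List Bool) (k : M.K) :
    Inv ((M.init x).tape k) ((M.init x).head k) []
      (Function.update (fun _ => ([] : List (Option M.Γ))) M.io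
        (x.map fun b => some (M.bit b)) k) := by
  have e1 : (M.init x).head k = 0 := rfl
  have e2 : (M.init x).tape k = if k = M.io then M.word x else fun _ => none := rfl
  rw [e1, e2]
  by_cases hk : k = M.io
  · subst hk
    simp only [if_true, Function.update_self]
    refine ⟨?_, ?_⟩
    · intro j
      have : ¬ (0 : ℤ) ≤ 0 - 1 - (j : ℤ) := by omega
      simp only [TM.word, this, if_false]
      simp
    · intro j
      simp only [TM.word, zero_add, Int.natCast_nonneg, if_true, Int.toNat_natCast]
      rw [List.getD_eq_getElem?_getD, List.getElem?_map]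
      cases x[j]? <;> rfl
  · simp only [hk, if_false, ne_eq, not_false_eq_true, Function.update_of_ne]
    refine ⟨fun j => by simp, fun j => by simp⟩

theorem filterMap_word (y : List Bool) (s : List (Option M.Γ)) (a : ℤ)
    (hs : ∀ i : ℕ, s.getD i none = M.word y (a + i)) :
    s.filterMap (Option.map (bitOf M)) = y.drop a.toNat := by
  induction s generalizing a with
  | nil =>
    simp only [List.filterMap_nil]
    symm
    rw [List.drop_eq_nil_iff]
    by_contra hlt
    push Not at hlt
    have h := hs (a.toNat - a).toNat
    have e1 : a + (((a.toNat : ℤ) - a).toNat : ℤ) = (a.toNat : ℤ) := by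
      have : (0 : ℤ) ≤ (a.toNat : ℤ) - a := by have := Int.self_le_toNat a; omega
      rw [Int.toNat_of_nonneg this]; ring
    rw [e1] at h
    simp only [TM.word, List.getD_nil, Int.natCast_nonneg, if_true, Int.toNat_natCast,
      List.getElem?_eq_getElem hlt, Option.map_some] at h
    cases h
  | cons c s ih =>
    have h0 := hs 0
    simp only [List.getD_cons_zero, Nat.cast_zero, add_zero] at h0
    have h1 := ih (a + 1) (by
      intro i
      have := hs (i + 1)
      rw [List.getD_cons_succ] at this
      rw [this]
      congr 1; push_cast; ring)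
    rcases lt_or_ge a 0 with ha | ha
    · have hc : c = none := by rw [h0]; simp [TM.word, not_le.mpr ha]
      have e1 : a.toNat = 0 := by omega
      have e2 : (a + 1).toNat = 0 := by omega
      rw [hc, e1]
      rw [e2] at h1
      simpa using h1
    · obtain ⟨n, rfl⟩ := Int.eq_ofNat_of_zero_le ha
      have e2 : ((n : ℤ) + 1).toNat = n + 1 := by omega
      rw [e2] at h1
      simp only [Int.toNat_natCast]
      simp only [TM.word, ha, if_true, Int.toNat_natCast] at h0
      rcases Nat.lt_or_ge n y.length with hn | hn
      · rw [List.getElem?_eq_getElem hn] at h0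
        rw [List.drop_eq_getElem_cons hn, ← h1, h0]
        simp [bitOf_bit]
      · rw [List.getElem?_eq_none hn] at h0
        rw [h0, List.drop_eq_nil_of_le hn]
        rw [List.drop_eq_nil_of_le (by omega)] at h1
        simpa using h1

theorem filterMap_final (y : List Bool) (h : ℤ) (l r : List (Option M.Γ))
    (hI : Inv (M.word y) h l r) :
    (l.reverse ++ r).filterMap (Option.map (bitOf M)) = y := by
  obtain ⟨h1, h2⟩ := hI
  have key := filterMap_word M y (l.reverse ++ r) (h - l.length) (by
    intro i
    rcases Nat.lt_or_ge i l.length with hi | hi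
    · rw [List.getD_append _ _ _ _ (by simpa using hi)]
      have h3 := h1 (l.length - 1 - i)
      have e1 : h - 1 - ((l.length - 1 - i : ℕ) : ℤ) = h - l.length + i := by omega
      rw [e1] at h3
      rw [← h3, List.getD_eq_getElem?_getD, List.getD_eq_getElem?_getD,
        List.getElem?_reverse hi]
    · rw [List.getD_append_right _ _ _ _ (by simpa using hi), List.length_reverse, h2]
      congr 1
      omega)
  rw [key]
  rcases le_or_gt (h - l.length) 0 with ha | ha
  · have : (h - (l.length : ℤ)).toNat = 0 := by omega
    rw [this]; rfl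
  · -- cell `0` is blank, so `y` is empty
    have h3 := h1 (h - 1).toNat
    have hle : l.length ≤ (h - 1).toNat := by omega
    have e1 : h - 1 - ((h - 1).toNat : ℤ) = 0 := by omega
    rw [e1, List.getD_eq_default _ _ hle] at h3
    have : y = [] := by
      rcases y with _ | ⟨b, y⟩
      · rfl
      · simp [TM.word] at h3
    rw [this]; simp

/-- The program for a machine that computes a function. -/
noncomputable def progC : Prog (Ix M.K) :=
  seq (setup M) (seq (loop .flg (body M)) (seq (pop .ctl skip skip skip)
    (seq (rewind M M.io) (seq (extract M M.io) (seq (moveRev .aux .io .flg)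
      (cleanAll (tapes M)))))))

/-- The program for a machine that decides a language. -/
noncomputable def progD : Prog (Ix M.K) :=
  seq (setup M) (seq (loop .flg (body M))
    (seq (pop .ctl skip (push .io false) (push .io true)) (cleanAll (tapes M))))

theorem st_single (x : List Bool) :
    st [] [] x [] (fun _ => []) (fun _ => ([] : List (Option M.Γ))) =
      ToTM.single (Ix.io : Ix M.K) x := by
  funext i
  cases i <;> simp [st, ToTM.single]

/-- The space constant. -/
noncomputable def csp : ℕ := 8 * nb M.Γ + Nat.card M.Q + 8

theorem run_phase1 {H : ℕ} (x : List Bool) (n : ℕ) (hx : x.length ≤ H)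
    (hn : M.HaltedAt x n) (hh : ∀ m k, |(M.conf x m).head k| ≤ H) :
    ∃ l' r' : M.K → List (Option M.Γ),
      (∀ k, Inv ((M.conf x n).tape k) ((M.conf x n).head k) (l' k) (r' k)) ∧
      (∀ k, Bdd H ((M.conf x n).head k) (l' k) (r' k)) ∧
      Run (csp M * (H + 1)) (4 * x.length + 5 + ((nb M.Γ + 5) * (x.length + 1) +
        (Nat.card M.Q + 1 + 1)) + ((tbody M + 1) * (n + 1) + 1))
        (seq (setup M) (loop .flg (body M)))
        (ToTM.single (Ix.io : Ix M.K) x)
        (st [M.accept (M.conf x n).state] [] [] [] l' r') := by
  have hnb := nb_pos (Γ := M.Γ)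
  have hB1 : nb M.Γ * (x.length + 2) + Nat.card M.Q + 1 ≤ csp M * (H + 1) := by
    unfold csp; nlinarith
  have hB2 : sbody M H ≤ csp M * (H + 1) := by
    unfold csp sbody; nlinarith
  obtain ⟨l', r', h1, h2, h3⟩ := run_main M hB2 [] [] n (M.init x) (fun _ => [])
    (Function.update (fun _ => []) M.io (x.map fun b => some (M.bit b))) hn
    (inv_init M x) (by
      intro k
      have e1 : (M.init x).head k = 0 := rfl
      rw [e1]
      unfold Bdd
      by_cases hk : k = M.io
      · subst hk
        simp only [Function.update_self, List.length_nil, List.length_map]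
        push_cast; omega
      · simp [hk]; omega) hh
  refine ⟨l', r', h1, h2, ?_⟩
  have h4 := run_setup M (B := csp M * (H + 1)) x hB1
  rw [st_single] at h4
  exact Run.seq h4 h3

theorem exists_prog_computes : ∃ C : ℕ, ∀ (x y : List Bool) (n H : ℕ), x.length ≤ H →
    M.HaltedAt x n → (M.conf x n).tape M.io = M.word y →
    (∀ m k, |(M.conf x m).head k| ≤ H) →
    Run (C * (H + 1)) (C * (H + n + 1)) (progC M) (ToTM.single (Ix.io : Ix M.K) x)
      (ToTM.single (Ix.io : Ix M.K) y) := by
  have hnb := nb_pos (Γ := M.Γ)
  -- the total time, as a linear polynomial in `H` and `n` with coefficients that depend on `M`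
  let κ := (tapes M).length
  let C : ℕ := csp M + (100 * (nb M.Γ + 5) * (κ + 1) + tbody M + Nat.card M.Q + 100)
  refine ⟨C, ?_⟩
  intro x y n H hx hn hy hh
  obtain ⟨l, r, h1, h2, h3⟩ := run_phase1 M x n hx hn hh
  have hIo := h1 M.io
  rw [hy] at hIo
  have hlen : ∀ k, (l k).length ≤ 2 * H ∧ (r k).length ≤ 2 * H + 1 ∧
      (l k).length + (r k).length ≤ 2 * H + 1 := by
    intro k
    have h1 := h2 k
    have h2 := abs_le.mp (hh n k)
    unfold Bdd at h1
    omega
  have hCs : csp M ≤ C := Nat.le_add_right _ _
  have hB : csp M * (H + 1) ≤ C * (H + 1) := Nat.mul_le_mul_right _ hCs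
  have hB' : 8 * nb M.Γ * (H + 1) + 8 * (H + 1) ≤ csp M * (H + 1) := by
    unfold csp; nlinarith
  have hBH : 8 * (H + 1) ≤ C * (H + 1) := by omega
  -- pop the answer bit
  have s1 : Run (C * (H + 1)) 2 (pop .ctl skip skip skip)
      (st [M.accept (M.conf x n).state] [] [] [] l r) (st [] [] [] [] l r) := by
    have e := st_upd_ctl [M.accept (M.conf x n).state] [] [] [] l r []
    have hs : Run (C * (H + 1)) 1 skip
        (Function.update (st [M.accept (M.conf x n).state] [] [] [] l r) Ix.ctl [])
        (st [] [] [] [] l r) := by
      rw [e]; exact Run.skip le_rfl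
    cases hb : M.accept (M.conf x n).state with
    | false =>
      rw [hb] at hs
      exact Run.popF (l := []) rfl hs
    | true =>
      rw [hb] at hs
      exact Run.popT (l := []) rfl hs
  have s2 := run_rewind M (B := C * (H + 1)) M.io [] [] [] l r (by
    have := hlen M.io
    refine le_trans (Nat.mul_le_mul_left _ (?_ : _ ≤ 8 * (H + 1))) ?_
    · omega
    · nlinarith)
  have s3 := run_extract M (B := C * (H + 1)) M.io [] [] [] (Function.update l M.io [])
    (Function.update r M.io ((l M.io).reverse ++ r M.io)) (by
    have := hlen M.io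
    simp only [Function.update_self, List.length_append, List.length_reverse,
      List.length_nil]
    omega)
  simp only [Function.update_self, Function.update_idem, List.append_nil,
    filterMap_final M y _ _ _ hIo] at s3
  have hy' : y.length ≤ 2 * H + 1 := by
    have h5 := List.length_filterMap_le (Option.map (bitOf M))
      ((l M.io).reverse ++ r M.io)
    rw [filterMap_final M y _ _ _ hIo] at h5
    simp only [List.length_append, List.length_reverse] at h5
    have := hlen M.io
    omega
  have s4 := run_moveRev (ι := Ix M.K) (B := C * (H + 1)) (T := 4 * y.length + 5)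
    (a := Ix.aux) (b := Ix.io) (f := Ix.flg) (by simp) (by simp) (by simp)
    (st [] [] [] y.reverse (Function.update l M.io []) (Function.update r M.io []))
    (by simp [st]; omega) (by simp [st]; omega) (by simp [st])
  rw [st_upd_aux, st_upd_io] at s4
  simp only [st, List.reverse_reverse, List.append_nil] at s4
  have s5 := run_cleanAll M (B := C * (H + 1)) (C := nb M.Γ * (2 * H + 1)) (tapes M)
    [] y [] (Function.update l M.io []) (Function.update r M.io []) (by omega) (by
      intro k
      by_cases hk : k = M.io
      · subst hk; simp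
      · have := hlen k
        simp only [ne_eq, hk, not_false_eq_true, Function.update_of_ne]
        exact ⟨Nat.mul_le_mul_left _ (by omega), Nat.mul_le_mul_left _ (by omega)⟩)
  simp only [mem_tapes, if_true] at s5
  rw [st_single] at s5
  have s6 := Run.seq (h3.mono hB le_rfl) (Run.seq s1 (Run.seq s2 (Run.seq s3
    (Run.seq s4 s5))))
  -- reassociate
  obtain ⟨t, ht, hE⟩ := s6
  have hE' : Exec (C * (H + 1)) (progC M) (ToTM.single (Ix.io : Ix M.K) x)
      (ToTM.single (Ix.io : Ix M.K) y) t := by
    cases hE with
    | seq _ S1 _ _ _ u v h h' =>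
      cases h with
      | seq _ S2 _ _ _ u1 u2 g g' =>
        have := Exec.seq _ _ _ _ _ _ _ g (Exec.seq _ _ _ _ _ _ _ g' h')
        rwa [← Nat.add_assoc] at this
  refine ⟨t, le_trans ht ?_, hE'⟩
  obtain ⟨hl1, hl2, hl3⟩ := hlen M.io
  simp only [List.length_append, List.length_reverse]
  obtain ⟨D, hD⟩ : ∃ D, D = (nb M.Γ + 5) * (H + n + 1) := ⟨_, rfl⟩
  obtain ⟨A, hA⟩ : ∃ A, A = (nb M.Γ + 5) * (κ + 1) * (H + n + 1) := ⟨_, rfl⟩
  obtain ⟨E, hE⟩ : ∃ E, E = tbody M * (H + n + 1) := ⟨_, rfl⟩
  obtain ⟨F, hF⟩ : ∃ F, F = Nat.card M.Q * (H + n + 1) := ⟨_, rfl⟩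
  obtain ⟨G, hG⟩ : ∃ G, G = csp M * (H + n + 1) := ⟨_, rfl⟩
  have b1 : (nb M.Γ + 5) * (x.length + 1) ≤ D := hD ▸ Nat.mul_le_mul_left _ (by omega)
  have b2 : (tbody M + 1) * (n + 1) ≤ E + (H + n + 1) := by
    have : (tbody M + 1) * (n + 1) ≤ (tbody M + 1) * (H + n + 1) :=
      Nat.mul_le_mul_left _ (by omega)
    rw [hE]; rw [Nat.add_mul (tbody M) 1 (H + n + 1), Nat.one_mul] at this; exact this
  have b3 : (2 * nb M.Γ + 5) * ((l M.io).length + 1) ≤ 4 * D := by
    have h1 : (2 * nb M.Γ + 5) * ((l M.io).length + 1) ≤
      (2 * nb M.Γ + 5) * (2 * (H + n + 1)) := Nat.mul_le_mul_left _ (by omega)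
    have h2 : (2 * nb M.Γ + 5) * (2 * (H + n + 1)) ≤ (2 * (nb M.Γ + 5)) * (2 * (H + n + 1)) :=
      Nat.mul_le_mul_right _ (by omega)
    have h3 : (2 * (nb M.Γ + 5)) * (2 * (H + n + 1)) = 4 * D := by rw [hD]; ring
    omega
  have b4 : (nb M.Γ + 5) * ((l M.io).length + (r M.io).length + 1) ≤ 2 * D := by
    have h1 : (nb M.Γ + 5) * ((l M.io).length + (r M.io).length + 1) ≤
      (nb M.Γ + 5) * (2 * (H + n + 1)) := Nat.mul_le_mul_left _ (by omega)
    have h3 : (nb M.Γ + 5) * (2 * (H + n + 1)) = 2 * D := by rw [hD]; ring
    omega
  have b5 : (6 * (nb M.Γ * (2 * H + 1)) + 10) * (tapes M).length ≤ 12 * A := by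
    have h1 : nb M.Γ * (2 * H + 1) ≤ nb M.Γ * (2 * (H + n + 1)) :=
      Nat.mul_le_mul_left _ (by omega)
    have h2 : 6 * (nb M.Γ * (2 * H + 1)) + 10 ≤ 12 * ((nb M.Γ + 5) * (H + n + 1)) := by
      have e1 : nb M.Γ * (2 * (H + n + 1)) = 2 * (nb M.Γ * (H + n + 1)) := by ring
      have e2 : (nb M.Γ + 5) * (H + n + 1) = nb M.Γ * (H + n + 1) + 5 * (H + n + 1) := by ring
      omega
    calc (6 * (nb M.Γ * (2 * H + 1)) + 10) * (tapes M).length
        ≤ (12 * ((nb M.Γ + 5) * (H + n + 1))) * (κ + 1) :=
          Nat.mul_le_mul h2 (Nat.le_succ _)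
      _ = 12 * A := by rw [hA]; ring
  have b8 : D ≤ A := by
    rw [hD, hA]
    exact Nat.mul_le_mul_right _ (Nat.le_mul_of_pos_right _ (by omega))
  have b9 : C * (H + n + 1) = G + (100 * A + E + F + 100 * (H + n + 1)) := by
    rw [hA, hE, hF, hG]; simp only [C]; ring
  have b10 : Nat.card M.Q ≤ F := hF ▸ Nat.le_mul_of_pos_right _ (by omega)
  rw [b9]
  omega

theorem exists_prog_decides : ∃ C : ℕ, ∀ (x : List Bool) (n H : ℕ), x.length ≤ H →
    M.HaltedAt x n → (∀ m k, |(M.conf x m).head k| ≤ H) →
    Run (C * (H + 1)) (C * (H + n + 1)) (progD M) (ToTM.single (Ix.io : Ix M.K) x)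
      (ToTM.single (Ix.io : Ix M.K) [M.accept (M.conf x n).state]) := by
  have hnb := nb_pos (Γ := M.Γ)
  let κ := (tapes M).length
  let C : ℕ := csp M + (100 * (nb M.Γ + 5) * (κ + 1) + tbody M + Nat.card M.Q + 100)
  refine ⟨C, ?_⟩
  intro x n H hx hn hh
  obtain ⟨l, r, h1, h2, h3⟩ := run_phase1 M x n hx hn hh
  have hlen : ∀ k, (l k).length ≤ 2 * H ∧ (r k).length ≤ 2 * H + 1 ∧
      (l k).length + (r k).length ≤ 2 * H + 1 := by
    intro k
    have h1 := h2 k
    have h2 := abs_le.mp (hh n k)
    unfold Bdd at h1
    omega
  have hCs : csp M ≤ C := Nat.le_add_right _ _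
  have hB : csp M * (H + 1) ≤ C * (H + 1) := Nat.mul_le_mul_right _ hCs
  have hB' : 8 * nb M.Γ * (H + 1) + 8 * (H + 1) ≤ csp M * (H + 1) := by
    unfold csp; nlinarith
  have hBH : 8 * (H + 1) ≤ C * (H + 1) := by omega
  have s1 : Run (C * (H + 1)) 2 (pop .ctl skip (push .io false) (push .io true))
      (st [M.accept (M.conf x n).state] [] [] [] l r)
      (st [] [] [M.accept (M.conf x n).state] [] l r) := by
    have e := st_upd_ctl [M.accept (M.conf x n).state] [] [] [] l r []
    have hs : Run (C * (H + 1)) 1 (push .io (M.accept (M.conf x n).state))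
        (Function.update (st [M.accept (M.conf x n).state] [] [] [] l r) Ix.ctl [])
        (st [] [] [M.accept (M.conf x n).state] [] l r) := by
      rw [e]
      refine Run.push' ?_ le_rfl ?_
      · simp [st]; omega
      · rw [st_upd_io]; rfl
    cases hb : M.accept (M.conf x n).state with
    | false =>
      rw [hb] at hs
      exact Run.popF (l := []) rfl hs
    | true =>
      rw [hb] at hs
      exact Run.popT (l := []) rfl hs
  have s5 := run_cleanAll M (B := C * (H + 1)) (C := nb M.Γ * (2 * H + 1)) (tapes M)
    [] [M.accept (M.conf x n).state] [] l r (by omega) (by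
      intro k
      have := hlen k
      exact ⟨Nat.mul_le_mul_left _ (by omega), Nat.mul_le_mul_left _ (by omega)⟩)
  simp only [mem_tapes, if_true] at s5
  rw [st_single] at s5
  have s6 := Run.seq (h3.mono hB le_rfl) (Run.seq s1 s5)
  obtain ⟨t, ht, hE⟩ := s6
  have hE' : Exec (C * (H + 1)) (progD M) (ToTM.single (Ix.io : Ix M.K) x)
      (ToTM.single (Ix.io : Ix M.K) [M.accept (M.conf x n).state]) t := by
    cases hE with
    | seq _ S1 _ _ _ u v h h' =>
      cases h with
      | seq _ S2 _ _ _ u1 u2 g g' =>
        have := Exec.seq _ _ _ _ _ _ _ g (Exec.seq _ _ _ _ _ _ _ g' h')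
        rwa [← Nat.add_assoc] at this
  refine ⟨t, le_trans ht ?_, hE'⟩
  obtain ⟨D, hD⟩ : ∃ D, D = (nb M.Γ + 5) * (H + n + 1) := ⟨_, rfl⟩
  obtain ⟨A, hA⟩ : ∃ A, A = (nb M.Γ + 5) * (κ + 1) * (H + n + 1) := ⟨_, rfl⟩
  obtain ⟨E, hE⟩ : ∃ E, E = tbody M * (H + n + 1) := ⟨_, rfl⟩
  obtain ⟨F, hF⟩ : ∃ F, F = Nat.card M.Q * (H + n + 1) := ⟨_, rfl⟩
  obtain ⟨G, hG⟩ : ∃ G, G = csp M * (H + n + 1) := ⟨_, rfl⟩
  have b1 : (nb M.Γ + 5) * (x.length + 1) ≤ D := hD ▸ Nat.mul_le_mul_left _ (by omega)
  have b2 : (tbody M + 1) * (n + 1) ≤ E + (H + n + 1) := by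
    have : (tbody M + 1) * (n + 1) ≤ (tbody M + 1) * (H + n + 1) :=
      Nat.mul_le_mul_left _ (by omega)
    rw [hE]; rw [Nat.add_mul (tbody M) 1 (H + n + 1), Nat.one_mul] at this; exact this
  have b5 : (6 * (nb M.Γ * (2 * H + 1)) + 10) * (tapes M).length ≤ 12 * A := by
    have h1 : nb M.Γ * (2 * H + 1) ≤ nb M.Γ * (2 * (H + n + 1)) :=
      Nat.mul_le_mul_left _ (by omega)
    have h2 : 6 * (nb M.Γ * (2 * H + 1)) + 10 ≤ 12 * ((nb M.Γ + 5) * (H + n + 1)) := by
      have e1 : nb M.Γ * (2 * (H + n + 1)) = 2 * (nb M.Γ * (H + n + 1)) := by ring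
      have e2 : (nb M.Γ + 5) * (H + n + 1) = nb M.Γ * (H + n + 1) + 5 * (H + n + 1) := by ring
      omega
    calc (6 * (nb M.Γ * (2 * H + 1)) + 10) * (tapes M).length
        ≤ (12 * ((nb M.Γ + 5) * (H + n + 1))) * (κ + 1) :=
          Nat.mul_le_mul h2 (Nat.le_succ _)
      _ = 12 * A := by rw [hA]; ring
  have b8 : D ≤ A := by
    rw [hD, hA]
    exact Nat.mul_le_mul_right _ (Nat.le_mul_of_pos_right _ (by omega))
  have b9 : C * (H + n + 1) = G + (100 * A + E + F + 100 * (H + n + 1)) := by
    rw [hA, hE, hF, hG]; simp only [C]; ring
  have b10 : Nat.card M.Q ≤ F := hF ▸ Nat.le_mul_of_pos_right _ (by omega)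
  rw [b9]
  omega

end main

end FromTM

end Pool.Agent.PPS
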