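import Pool.Agent.PPS.Prog

/-!
# Flow charts

Compilation of stack programs to flow charts: finite sets of positions, each carrying one
instruction.
-/

namespace Pool.Agent.PPS

/-- Instructions with successors in `P`. -/
inductive Instr (ι P : Type) : Type
  | nop (p : P) : Instr ι P
  | push (i : ι) (b : Bool) (p : P) : Instr ι P
  | pop (i : ι) (p : Option Bool → P) : Instr ι P

/-- Where to go: `x` at the exit, and `e p` at position `p`. -/
def goto {P P' : Type} (e : P → P') (x : Option P') : Option P → Option P'
  | none => x
  | some p => some (e p)

namespace Instr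

/-- Change the successors. -/
def map {ι P P' : Type} (g : P → P') : Instr ι P → Instr ι P'
  | nop p => nop (g p)
  | push i b p => push i b (g p)
  | pop i p => pop i (fun o => g (p o))

@[simp] theorem map_map {ι P P' P'' : Type} (g : P → P') (h : P' → P'') (x : Instr ι P) :
    (x.map g).map h = x.map (fun p => h (g p)) := by
  cases x <;> rfl

theorem map_congr {ι P P' : Type} {g h : P → P'} (H : ∀ p, g p = h p) (x : Instr ι P) :
    x.map g = x.map h := by
  have : g = h := funext H
  rw [this]

theorem map_goto {ι P P' P'' : Type} (g : P → P') (y : Option P') (e : P' → P'')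
    (x : Option P'') (z : Instr ι (Option P)) :
    (z.map (goto g y)).map (goto e x) = z.map (goto (fun q => e (g q)) (goto e x y)) := by
  rw [map_map]
  refine map_congr ?_ _
  intro o; cases o <;> rfl

variable {ι P : Type} [DecidableEq ι]

/-- Execute an instruction. -/
def exec (S : Store ι) : Instr ι P → P × Store ι
  | nop p => (p, S)
  | push i b p => (p, Function.update S i (b :: S i))
  | pop i p => (p (S i).head?, Function.update S i (S i).tail)

end Instr

section flow

variable {ι P : Type} [DecidableEq ι]

/-- One step of a flow chart `m`; the position `none` is the exit. -/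
def fstep (m : P → Instr ι (Option P)) (c : Option P × Store ι) : Option P × Store ι :=
  match c.1 with
  | none => c
  | some p => (m p).exec c.2

@[simp] theorem fstep_none (m : P → Instr ι (Option P)) (S : Store ι) :
    fstep m (none, S) = (none, S) := rfl

@[simp] theorem fstep_some (m : P → Instr ι (Option P)) (p : P) (S : Store ι) :
    fstep m (some p, S) = (m p).exec S := rfl

theorem fstep_iterate_none (m : P → Instr ι (Option P)) (S : Store ι) (n : ℕ) :
    (fstep m)^[n] (none, S) = (none, S) := by
  induction n with
  | zero => rfl
  | succ n ih => rw [Function.iterate_succ_apply', ih, fstep_none]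

/-- `FlowRun m B n c c'`: the flow chart goes from `c` to `c'` in `n` steps, and all stacks of
all stores on the way (`c'` included) have height at most `B`. -/
def FlowRun (m : P → Instr ι (Option P)) (B n : ℕ) (c c' : Option P × Store ι) : Prop :=
  (fstep m)^[n] c = c' ∧ ∀ k ≤ n, ∀ i, (((fstep m)^[k] c).2 i).length ≤ B

theorem FlowRun.refl (m : P → Instr ι (Option P)) (B : ℕ) (c : Option P × Store ι)
    (h : ∀ i, (c.2 i).length ≤ B) : FlowRun m B 0 c c := by
  refine ⟨rfl, ?_⟩
  intro k hk i
  obtain rfl : k = 0 := by omega
  exact h i

theorem FlowRun.trans {m : P → Instr ι (Option P)} {B n n' : ℕ} {c c' c'' : Option P × Store ι}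
    (h : FlowRun m B n c c') (h' : FlowRun m B n' c' c'') : FlowRun m B (n + n') c c'' := by
  refine ⟨?_, ?_⟩
  · rw [Nat.add_comm, Function.iterate_add_apply, h.1, h'.1]
  · intro k hk i
    rcases Nat.lt_or_ge n k with hnk | hkn
    · have := h'.2 (k - n) (by omega) i
      rw [← h.1, ← Function.iterate_add_apply] at this
      rwa [show k - n + n = k by omega] at this
    · exact h.2 k hkn i

theorem FlowRun.le_right {m : P → Instr ι (Option P)} {B n : ℕ} {c c' : Option P × Store ι}
    (h : FlowRun m B n c c') (i : ι) : (c'.2 i).length ≤ B := by
  have := h.2 n le_rfl i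
  rwa [h.1] at this

theorem FlowRun.step {m : P → Instr ι (Option P)} {B : ℕ} {c c' : Option P × Store ι}
    (h : ∀ i, (c.2 i).length ≤ B) (h' : ∀ i, (c'.2 i).length ≤ B) (hs : fstep m c = c') :
    FlowRun m B 1 c c' := by
  refine ⟨hs, ?_⟩
  intro k hk i
  interval_cases k
  · exact h i
  · simpa [hs] using h' i

end flow

namespace Prog

variable {ι : Type}

/-- Positions of a program. -/
def Pos : Prog ι → Type
  | skip => Unit
  | push _ _ => Unit
  | pop _ n f t => Option (Pos n ⊕ (Pos f ⊕ Pos t))
  | seq a b => Pos a ⊕ Pos b
  | loop _ a => Option (Pos a)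

instance instFinitePos : (c : Prog ι) → Finite c.Pos
  | skip => inferInstanceAs (Finite Unit)
  | push _ _ => inferInstanceAs (Finite Unit)
  | pop _ n f t =>
    have := instFinitePos n
    have := instFinitePos f
    have := instFinitePos t
    inferInstanceAs (Finite (Option (Pos n ⊕ (Pos f ⊕ Pos t))))
  | seq a b =>
    have := instFinitePos a
    have := instFinitePos b
    inferInstanceAs (Finite (Pos a ⊕ Pos b))
  | loop _ a =>
    have := instFinitePos a
    inferInstanceAs (Finite (Option (Pos a)))

/-- The first position of a program. -/
def entry : (c : Prog ι) → c.Pos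
  | skip => ()
  | push _ _ => ()
  | pop _ n f t => (none : Option (Pos n ⊕ (Pos f ⊕ Pos t)))
  | seq a b => (Sum.inl (entry a) : Pos a ⊕ Pos b)
  | loop _ a => (none : Option (Pos a))

/-- The flow chart of a program. -/
def instr : (c : Prog ι) → c.Pos → Instr ι (Option c.Pos)
  | skip => fun _ => .nop none
  | push i b => fun _ => .push i b none
  | pop i n f t => fun (p : Option (Pos n ⊕ (Pos f ⊕ Pos t))) =>
    match p with
    | none => .pop i fun o =>
      match o with
      | none => some (some (Sum.inl (entry n)))
      | some false => some (some (Sum.inr (Sum.inl (entry f))))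
      | some true => some (some (Sum.inr (Sum.inr (entry t))))
    | some (Sum.inl q) => (instr n q).map (goto (fun q => some (Sum.inl q)) none)
    | some (Sum.inr (Sum.inl q)) =>
      (instr f q).map (goto (fun q => some (Sum.inr (Sum.inl q))) none)
    | some (Sum.inr (Sum.inr q)) =>
      (instr t q).map (goto (fun q => some (Sum.inr (Sum.inr q))) none)
  | seq a b => fun (p : Pos a ⊕ Pos b) =>
    match p with
    | Sum.inl q => (instr a q).map (goto Sum.inl (some (Sum.inr (entry b))))
    | Sum.inr q => (instr b q).map (goto Sum.inr none)
  | loop i a => fun (p : Option (Pos a)) =>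
    match p with
    | none => .pop i fun o =>
      match o with
      | some true => some (some (entry a))
      | _ => none
    | some q => (instr a q).map (goto (fun q => some q) (some none))

/-- The flow chart `m'` contains a copy of the program `c` (with positions `e p`), whose exit
is `x`. -/
def Embeds (c : Prog ι) {P' : Type} (m' : P' → Instr ι (Option P')) (e : c.Pos → P')
    (x : Option P') : Prop :=
  ∀ p, m' (e p) = (instr c p).map (goto e x)

theorem embeds_self (c : Prog ι) : Embeds c (instr c) id none := by
  intro p
  have : (goto id none : Option c.Pos → Option c.Pos) = id := by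
    funext o; cases o <;> rfl
  rw [this]
  show instr c p = (instr c p).map id
  cases instr c p <;> rfl

variable [DecidableEq ι]

theorem length_update_le {S : Store ι} {B : ℕ} (h : ∀ i, (S i).length ≤ B) (i : ι)
    (l : List Bool) (hl : l.length ≤ B) (j : ι) : (Function.update S i l j).length ≤ B := by
  by_cases hj : j = i
  · subst hj; simpa using hl
  · simpa [Function.update_of_ne hj] using h j

theorem flowRun_of_exec {B : ℕ} {c : Prog ι} {S S' : Store ι} {t : ℕ} (h : Exec B c S S' t)
    {P' : Type} {m' : P' → Instr ι (Option P')} {e : c.Pos → P'} {x : Option P'}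
    (he : Embeds c m' e x) (hB : ∀ i, (S i).length ≤ B) :
    FlowRun m' B t (some (e c.entry), S) (x, S') := by
  induction h generalizing P' with
  | skip S =>
    refine FlowRun.step hB hB ?_
    rw [fstep_some, he]; rfl
  | push S i b h =>
    refine FlowRun.step hB (length_update_le hB _ _ (by simpa using h)) ?_
    rw [fstep_some, he]; rfl
  | popN S S' i n f t u hS h ih =>
    rw [Nat.add_comm]
    have h1 : FlowRun m' B 1 (some (e (entry (.pop i n f t))), S)
        (some (e (some (Sum.inl (entry n)))), S) := by
      refine FlowRun.step hB hB ?_
      rw [fstep_some, he]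
      simp only [entry, instr, Instr.map, Instr.exec, hS, List.head?_nil, goto, List.tail_nil]
      rw [← hS, Function.update_eq_self]
    exact h1.trans (ih (e := fun q => e (some (Sum.inl q)))
      (fun q => (he (some (Sum.inl q))).trans (Instr.map_goto _ _ _ _ _)) hB)
  | popF S S' i n f t u l hS h ih =>
    rw [Nat.add_comm]
    have hB' : ∀ j, (Function.update S i l j).length ≤ B :=
      length_update_le hB _ _ (by have := hB i; rw [hS] at this; simp at this; omega)
    have h1 : FlowRun m' B 1 (some (e (entry (.pop i n f t))), S)
        (some (e (some (Sum.inr (Sum.inl (entry f))))), Function.update S i l) := by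
      refine FlowRun.step hB hB' ?_
      rw [fstep_some, he]
      simp only [entry, instr, Instr.map, Instr.exec, hS, List.head?_cons, goto, List.tail_cons]
    exact h1.trans (ih (e := fun q => e (some (Sum.inr (Sum.inl q))))
      (fun q => (he (some (Sum.inr (Sum.inl q)))).trans (Instr.map_goto _ _ _ _ _)) hB')
  | popT S S' i n f t u l hS h ih =>
    rw [Nat.add_comm]
    have hB' : ∀ j, (Function.update S i l j).length ≤ B :=
      length_update_le hB _ _ (by have := hB i; rw [hS] at this; simp at this; omega)
    have h1 : FlowRun m' B 1 (some (e (entry (.pop i n f t))), S)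
        (some (e (some (Sum.inr (Sum.inr (entry t))))), Function.update S i l) := by
      refine FlowRun.step hB hB' ?_
      rw [fstep_some, he]
      simp only [entry, instr, Instr.map, Instr.exec, hS, List.head?_cons, goto, List.tail_cons]
    exact h1.trans (ih (e := fun q => e (some (Sum.inr (Sum.inr q))))
      (fun q => (he (some (Sum.inr (Sum.inr q)))).trans (Instr.map_goto _ _ _ _ _)) hB')
  | seq S S' S'' a b u v h h' ih ih' =>
    have h1 : FlowRun m' B u (some (e (Sum.inl (entry a))), S)
        (some (e (Sum.inr (entry b))), S') := by
      exact ih (e := fun q => e (Sum.inl q))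
        (fun q => (he (Sum.inl q)).trans (Instr.map_goto _ _ _ _ _)) hB
    exact h1.trans (ih' (e := fun q => e (Sum.inr q))
      (fun q => (he (Sum.inr q)).trans (Instr.map_goto _ _ _ _ _)) h1.le_right)
  | loopN S i a hS =>
    refine FlowRun.step hB hB ?_
    rw [fstep_some, he]
    simp only [entry, instr, Instr.map, Instr.exec, hS, List.head?_nil, goto, List.tail_nil]
    rw [← hS, Function.update_eq_self]
  | loopF S i a l hS =>
    have hB' : ∀ j, (Function.update S i l j).length ≤ B :=
      length_update_le hB _ _ (by have := hB i; rw [hS] at this; simp at this; omega)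
    refine FlowRun.step hB hB' ?_
    rw [fstep_some, he]
    simp only [entry, instr, Instr.map, Instr.exec, hS, List.head?_cons, goto, List.tail_cons]
  | loopT S S' S'' i a l u v hS h h' ih ih' =>
    have hB' : ∀ j, (Function.update S i l j).length ≤ B :=
      length_update_le hB _ _ (by have := hB i; rw [hS] at this; simp at this; omega)
    have h1 : FlowRun m' B 1 (some (e (entry (.loop i a))), S)
        (some (e (some (entry a))), Function.update S i l) := by
      refine FlowRun.step hB hB' ?_
      rw [fstep_some, he]
      simp only [entry, instr, Instr.map, Instr.exec, hS, List.head?_cons, goto, List.tail_cons]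
    have h2 : FlowRun m' B u (some (e (some (entry a))), Function.update S i l)
        (some (e (entry (.loop i a))), S') := by
      exact ih (e := fun q => e (some q))
        (fun q => (he (some q)).trans (Instr.map_goto _ _ _ _ _)) hB'
    have h3 := ih' he h2.le_right
    have := (h1.trans h2).trans h3
    rwa [show 1 + u + v = u + v + 1 by omega] at this

end Prog

end Pool.Agent.PPS
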