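import Pool.Agent.PPS.Codes
import Pool.Agent.PPS.Flow

/-!
# Polynomial space as exponential iteration of a polynomial-time map
-/

namespace Pool.Agent.PPS

open Prog

variable {m : Bool} {α β γ δ σ τ : Type} [Rep α] [Rep β] [Rep γ] [Rep δ] [Rep σ] [Rep τ]

theorem PT.mkFin' {n : ℕ} {f : α → ℕ} (hf : PT m f) :
    PT m (fun a => if h : f a < n then some (⟨f a, h⟩ : Fin n) else none) := by
  have h1 : PT m (fun x : {k : ℕ // k < n} => some (⟨x.1, x.2⟩ : Fin n)) := by
    have : PT m (fun x : {k : ℕ // k < n} => some x.1) := PT.some' PT.val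
    exact this.congr_code (fun _ => rfl)
  have h2 : PT m (fun _ : {k : ℕ // ¬ k < n} => (none : Option (Fin n))) := by fun_prop
  have h3 := PT.dite (m := m) (p := fun k : ℕ => k < n) (by fun_prop) h1 h2
  exact h3.comp hf

section sim

variable {ι : Type} [DecidableEq ι] {P : Type} {N₁ N₂ : ℕ} (e : ι ≃ Fin N₂) (g : P ≃ Fin N₁)

/-- The data that represent a configuration of a flow chart. -/
def conv (x : Option P × Store ι) : Option (Fin N₁) × List (List Bool) :=
  (x.1.map g, List.ofFn fun j => x.2 (e.symm j))

omit [DecidableEq ι] in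
theorem conv_injective : Function.Injective (conv e g) := by
  rintro ⟨o, S⟩ ⟨o', S'⟩ h
  simp only [conv, Prod.mk.injEq] at h
  obtain ⟨h1, h2⟩ := h
  have h3 := Option.map_injective g.injective h1
  have h4 := List.ofFn_injective h2
  refine Prod.ext h3 ?_
  funext i
  have := congrFun h4 (e i)
  simpa using this

/-- Execution of one instruction. -/
def stepI (x : Instr ι (Option P)) (L : List (List Bool)) :
    Option (Fin N₁) × List (List Bool) :=
  match x with
  | .nop p => (p.map g, L)
  | .push i b p => (p.map g, modAt (fun l => b :: l) (e i) L)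
  | .pop i p => ((p (L.getD (e i) []).head?).map g, modAt List.tail (e i) L)

/-- One step of the flow chart. -/
def stepQ (c : P → Instr ι (Option P)) (q : Option (Fin N₁) × List (List Bool)) :
    Option (Fin N₁) × List (List Bool) :=
  match q.1 with
  | none => q
  | some j => stepI e g (c (g.symm j)) q.2

theorem getD_ofFn {n : ℕ} (F : Fin n → List Bool) (j : Fin n) :
    (List.ofFn F).getD j [] = F j := by
  rw [List.getD_eq_getElem?_getD, List.getElem?_ofFn]
  simp

theorem conv_exec (x : Instr ι (Option P)) (S : Store ι) :
    conv e g (x.exec S) = stepI e g x (List.ofFn fun j => S (e.symm j)) := by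
  have upd : ∀ (i : ι) (f : List Bool → List Bool),
      (List.ofFn fun j => Function.update S i (f (S i)) (e.symm j)) =
        modAt f (e i) (List.ofFn fun j => S (e.symm j)) := by
    intro i f
    rw [modAt_ofFn]
    congr 1
    funext j
    by_cases hj : j = e i
    · subst hj; simp
    · rw [Function.update_of_ne hj, Function.update_of_ne]
      intro h
      apply hj
      rw [← h]; simp
  cases x with
  | nop p => rfl
  | push i b p =>
    simp only [Instr.exec, conv, stepI]
    rw [upd i (fun l => b :: l)]
  | pop i p =>
    simp only [Instr.exec, conv, stepI, getD_ofFn]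
    rw [upd i List.tail]
    simp

theorem conv_step (c : P → Instr ι (Option P)) (x : Option P × Store ι) :
    conv e g (fstep c x) = stepQ e g c (conv e g x) := by
  obtain ⟨o, S⟩ := x
  cases o with
  | none => rfl
  | some p =>
    rw [fstep_some, conv_exec]
    show _ = stepI e g (c (g.symm (g p))) _
    rw [g.symm_apply_apply]
    rfl

omit [DecidableEq ι] in
theorem PT.stepI' (x : Instr ι (Option P)) : PT m (fun L => stepI e g x L) := by
  cases x with
  | nop p =>
    simp only [stepI]; fun_prop
  | push i b p =>
    simp only [stepI]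
    exact PT.prodMk (by fun_prop) (PT.modAt' (by fun_prop) _ (by fun_prop))
  | pop i p =>
    simp only [stepI]
    refine PT.prodMk ?_ (PT.modAt' (by fun_prop) _ (by fun_prop))
    have h1 : PT m (fun o : Option Bool => (p o).map g) := by
      have := PT.optCase (m := m) (o := fun o : Option Bool => o)
        (f := fun _ => (p none).map g)
        (g := fun z => bif z.1 then (p (some true)).map g else (p (some false)).map g)
        (by fun_prop) (by fun_prop) (by fun_prop)
      refine this.of_eq (fun o => ?_)
      rcases o with _ | b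
      · rfl
      · cases b <;> rfl
    exact h1.comp (by fun_prop)

omit [DecidableEq ι] in
theorem PT.stepQ' (c : P → Instr ι (Option P)) : PT m (fun q => stepQ e g c q) := by
  have h1 : PT m (fun z : Fin N₁ × (Option (Fin N₁) × List (List Bool)) =>
      stepI e g (c (g.symm z.1)) z.2.2) := by
    refine PT.finCase (fun i => ?_)
    exact (PT.stepI' e g (c (g.symm i))).comp (by fun_prop)
  have := PT.optCase (m := m) (o := fun q : Option (Fin N₁) × List (List Bool) => q.1)
    (f := fun q => q) (g := fun z => stepI e g (c (g.symm z.1)) z.2.2)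
    (by fun_prop) (by fun_prop) h1
  refine this.of_eq (fun q => ?_)
  rcases q with ⟨_ | j, L⟩ <;> rfl

end sim

/-- Decode configurations. -/
def toQ (N : ℕ) (d : D) : Option (Fin N) × List (List Bool) :=
  (bif toBit (hd d) then (if h : toNat (hd (hd d)) < N then some ⟨toNat (hd (hd d)), h⟩ else none)
    else none, toWords (tl d))

theorem toQ_rep {N : ℕ} (q : Option (Fin N) × List (List Bool)) : toQ N (Rep.rep q) = q := by
  obtain ⟨o, L⟩ := q
  unfold toQ
  rw [hd_rep, tl_rep, toWords_rep]
  cases o with
  | none => rfl
  | some j =>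
    have e1 : toBit (Rep.rep (some j)) = true := rfl
    have e2 : hd (Rep.rep (some j)) = Rep.rep (j : ℕ) := rfl
    simp only [e1, e2, toNat_rep, cond_true, j.2, dif_pos]

theorem PT.toQ' (N : ℕ) {f : α → D} (hf : PT m f) : PT m (fun a => toQ N (f a)) := by
  unfold toQ
  refine PT.prodMk (PT.cond (by fun_prop) (PT.mkFin' (by fun_prop)) (by fun_prop)) (by fun_prop)

theorem size_opt_fin_le {N : ℕ} (o : Option (Fin N)) : size o ≤ 2 * N + 3 := by
  cases o with
  | none => rw [size_none]; omega
  | some j =>
    have h1 : size (some j) = size j + 2 := size_some j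
    have h2 : size j = size (j : ℕ) := rfl
    rw [h1, h2, size_nat]
    omega

/-- Two configurations of a run before the exit are different. -/
theorem flow_distinct {ι P : Type} [DecidableEq ι] (c : P → Instr ι (Option P))
    (x : Option P × Store ι) (t : ℕ) (ht : ((fstep c)^[t] x).1 = none)
    (hmin : ∀ k < t, ((fstep c)^[k] x).1 ≠ none) (i j : ℕ) (hij : i < j) (hj : j ≤ t) :
    (fstep c)^[i] x ≠ (fstep c)^[j] x := by
  intro h
  have h1 : (fstep c)^[t - j + i] x = (fstep c)^[t] x := by
    rw [Function.iterate_add_apply, h, ← Function.iterate_add_apply,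
      show t - j + j = t by omega]
  exact hmin (t - j + i) (by omega) (by rw [h1]; exact ht)

theorem PT.exists_iterate {f : α → β} (hf : PT false f) :
    ∃ (s : List Bool → List Bool) (ini : α → List Bool) (out : List Bool → D),
      PT true s ∧ PT true ini ∧ PT true out ∧ (∀ y, (s y).length = y.length) ∧
      (∀ a, 2 ≤ (ini a).length) ∧
      ∀ a k, 2 ^ (ini a).length ≤ k → out (s^[k] (ini a)) = Rep.rep (f a) := by
  obtain ⟨I⟩ := hf.impl
  obtain ⟨N₂, ⟨e⟩⟩ := Finite.exists_equiv_fin I.ι
  obtain ⟨N₁, ⟨g⟩⟩ := Finite.exists_equiv_fin I.c.Pos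
  let c := I.c.instr
  let x₀ : α → Option I.c.Pos × Store I.ι := fun a => (some I.c.entry, one I.io (code a))
  -- the step on words
  let nxt : List Bool → List Bool := fun y => code (stepQ e g c (toQ N₁ (decodeD (unpad y))))
  let s : List Bool → List Bool := fun y =>
    bif decide ((nxt y).length < y.length) then padTo y.length (nxt y) else y
  let Wp : Polynomial ℕ := Polynomial.C (2 * N₁ + 10) + Polynomial.C N₂ * (4 * I.p + 2)
  let ini : α → List Bool := fun a => padTo (Wp.eval (size a)) (code (conv e g (x₀ a)))
  let out : List Bool → D := fun y =>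
    decodeD ((toQ N₁ (decodeD (unpad y))).2.getD (e I.io) [])
  have hnxt : PT true nxt := by
    have h1 : PT true (fun y => stepQ e g c (toQ N₁ (decodeD (unpad y)))) :=
      (PT.stepQ' e g c).comp (PT.toQ' N₁ (by fun_prop))
    exact h1.code'
  have hs : PT true s := by
    simp only [s]
    fun_prop
  have hconv0 : PT true (fun a => conv e g (x₀ a)) := by
    refine PT.prodMk (by simp only [x₀]; fun_prop) ?_
    refine PT.ofFn' (F := fun j a => one I.io (code a) (e.symm j)) (fun j => ?_)
    simp only [one]
    by_cases hj : e.symm j = I.io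
    · simp only [hj, if_true]; fun_prop
    · simp only [hj, if_false]; fun_prop
  have hW : PT true (fun a : α => Wp.eval (size a)) := PT.polyEval (by fun_prop) Wp
  have hini : PT true ini := PT.padTo' hW hconv0.code'
  have hout : PT true out := by
    have h1 : PT true (fun y : List Bool => (toQ N₁ (decodeD (unpad y))).2) :=
      (PT.toQ' N₁ (by fun_prop)).snd'
    simp only [out]
    fun_prop
  have hslen : ∀ y, (s y).length = y.length := by
    intro y
    simp only [s]
    cases h : decide ((nxt y).length < y.length) with
    | false => rfl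
    | true => exact length_padTo (of_decide_eq_true h)
  -- sizes of configurations
  have hsize : ∀ (a : α) (x : Option I.c.Pos × Store I.ι),
      (∀ i, (x.2 i).length ≤ I.p.eval (size a)) →
      (code (conv e g x)).length < Wp.eval (size a) := by
    intro a x hx
    have h1 : (code (conv e g x)).length = size (conv e g x) := rfl
    rw [h1]
    have h2 : size (conv e g x) = size (x.1.map g) +
        size (List.ofFn fun j => x.2 (e.symm j)) + 1 := size_pair _ _
    have h3 := size_opt_fin_le (x.1.map g)
    have h4 : size (List.ofFn fun j => x.2 (e.symm j)) ≤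
        N₂ * (4 * I.p.eval (size a) + 1 + 1) + 1 := by
      have := size_list_le (l := List.ofFn fun j => x.2 (e.symm j))
        (B := 4 * I.p.eval (size a) + 1) (by
          intro b hb
          rw [List.mem_ofFn] at hb
          obtain ⟨j, rfl⟩ := hb
          have := (size_bits (x.2 (e.symm j))).2
          have := hx (e.symm j)
          omega)
      simpa using this
    simp only [Wp, Polynomial.eval_add, Polynomial.eval_mul, Polynomial.eval_C,
      Polynomial.eval_ofNat]
    have h5 : 4 * I.p.eval (size a) + 1 + 1 = 4 * I.p.eval (size a) + 2 := rfl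
    rw [h5] at h4
    generalize N₂ * (4 * I.p.eval (size a) + 2) = M at h4 ⊢
    omega
  refine ⟨s, ini, out, hs, hini, hout, hslen, ?_, ?_⟩
  · intro a
    have h1 := hsize a (x₀ a) (by
      intro i
      simp only [x₀, one]
      split_ifs
      · exact I.le _
      · simp)
    simp only [ini]
    rw [length_padTo h1]
    simp only [Wp, Polynomial.eval_add, Polynomial.eval_mul, Polynomial.eval_C,
      Polynomial.eval_ofNat]
    omega
  intro a k hk
  obtain ⟨T, ⟨t, -, hE⟩, -⟩ := I.spec a
  have hS0 : ∀ i, (one I.io (code a) i).length ≤ I.p.eval (size a) := by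
    intro i
    simp only [one]
    split_ifs
    · exact I.le _
    · simp
  have hflow0 := flowRun_of_exec hE (embeds_self I.c) hS0
  have hflow1 : (fstep c)^[t] (x₀ a) = (none, one I.io (code (f a))) := hflow0.1
  have hflow2 : ∀ j ≤ t, ∀ i, (((fstep c)^[j] (x₀ a)).2 i).length ≤ I.p.eval (size a) :=
    hflow0.2
  have hex : ∃ t, ((fstep c)^[t] (x₀ a)).1 = none := ⟨t, by rw [hflow1]⟩
  classical
  let t₀ := Nat.find hex
  have ht₀ : ((fstep c)^[t₀] (x₀ a)).1 = none := Nat.find_spec hex
  have hmin : ∀ j < t₀, ((fstep c)^[j] (x₀ a)).1 ≠ none := fun j hj => Nat.find_min hex hj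
  have ht₀t : t₀ ≤ t := Nat.find_min' hex (by rw [hflow1])
  have hstay : ∀ j, t₀ ≤ j → (fstep c)^[j] (x₀ a) = (fstep c)^[t₀] (x₀ a) := by
    intro j hj
    obtain ⟨d, rfl⟩ := Nat.exists_eq_add_of_le hj
    rw [Nat.add_comm, Function.iterate_add_apply]
    generalize hx : (fstep c)^[t₀] (x₀ a) = x at ht₀
    obtain ⟨o, S⟩ := x
    simp only at ht₀
    subst ht₀
    exact fstep_iterate_none c S d
  have hfin : (fstep c)^[t₀] (x₀ a) = (none, one I.io (code (f a))) := by
    rw [← hstay t ht₀t, hflow1]
  have hbd : ∀ j i, (((fstep c)^[j] (x₀ a)).2 i).length ≤ I.p.eval (size a) := by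
    intro j i
    rcases le_total j t with h | h
    · exact hflow2 j h i
    · rw [hstay j (by omega), ← hstay t ht₀t]
      exact hflow2 t le_rfl i
  let K := Wp.eval (size a)
  have hlen : (ini a).length = K := length_padTo (hsize a (x₀ a) (hbd 0))
  have hiter : ∀ j, s^[j] (ini a) = padTo K (code (conv e g ((fstep c)^[j] (x₀ a)))) := by
    intro j
    induction j with
    | zero => rfl
    | succ j ih =>
      rw [Function.iterate_succ_apply', ih, Function.iterate_succ_apply' (fstep c)]
      have h1 : nxt (padTo K (code (conv e g ((fstep c)^[j] (x₀ a))))) =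
          code (conv e g (fstep c ((fstep c)^[j] (x₀ a)))) := by
        simp only [nxt]
        rw [unpad_padTo, decodeD_codeT, toQ_rep, ← conv_step]
      have h2 : (padTo K (code (conv e g ((fstep c)^[j] (x₀ a))))).length = K :=
        length_padTo (hsize a _ (hbd j))
      have h3 : (code (conv e g (fstep c ((fstep c)^[j] (x₀ a))))).length < K := by
        rw [← Function.iterate_succ_apply' (fstep c)]
        exact hsize a _ (hbd (j + 1))
      simp only [s]
      rw [h1, h2]
      simp only [h3, decide_true, cond_true]
  -- the exit is reached in time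
  have htime : t₀ < 2 ^ K := by
    let F : Fin (t₀ + 1) → List.Vector Bool K := fun i =>
      ⟨padTo K (code (conv e g ((fstep c)^[(i : ℕ)] (x₀ a)))),
        length_padTo (hsize a _ (hbd i))⟩
    have hF : Function.Injective F := by
      intro i j hij
      have h1 : padTo K (code (conv e g ((fstep c)^[(i : ℕ)] (x₀ a)))) =
          padTo K (code (conv e g ((fstep c)^[(j : ℕ)] (x₀ a)))) := congrArg Subtype.val hij
      have h2 := congrArg unpad h1
      rw [unpad_padTo, unpad_padTo] at h2
      have h3 := conv_injective e g (code_injective h2)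
      by_contra hne
      rcases lt_or_gt_of_ne (fun h => hne (Fin.ext h) : (i : ℕ) ≠ j) with h | h
      · exact flow_distinct c (x₀ a) t₀ ht₀ hmin i j h (by omega) h3
      · exact flow_distinct c (x₀ a) t₀ ht₀ hmin j i h (by omega) h3.symm
    have := Fintype.card_le_of_injective F hF
    rw [Fintype.card_fin, card_vector, Fintype.card_bool] at this
    omega
  rw [hlen] at hk
  rw [hiter, hstay k (by omega), hfin]
  simp only [out]
  rw [unpad_padTo, decodeD_codeT, toQ_rep]
  simp only [conv, getD_ofFn, Equiv.symm_apply_apply]
  simp only [one, if_true]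
  exact decodeD_codeT (f a)

end Pool.Agent.PPS
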