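import Pool.Agent.PPS.Cycle

/-!
# Conjugacy of permutations in polynomial space

A canonical label of a word with respect to a length-preserving permutation: the length of
its cycle, the rank of the cycle among the cycles of the same length, and the position in the
cycle.  Two permutations with the same numbers of cycles of each length are conjugate by the
permutation that respects the labels.
-/

namespace Pool.Agent.PPS

variable {m : Bool} {α β γ δ σ τ : Type} [Rep α] [Rep β] [Rep γ] [Rep δ] [Rep σ] [Rep τ]

section basic

variable {f : Equiv.Perm (List Bool)} (hlen : ∀ x, (f x).length = x.length)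

include hlen in
theorem mem_periodicPts' (x : List Bool) : x ∈ Function.periodicPts f := by
  obtain ⟨n, h1, h2⟩ := exists_period f.injective hlen x
  exact ⟨n, h1, h2⟩

theorem retTime_eq (x : List Bool) : retTime hlen x = Function.minimalPeriod f x := by
  apply le_antisymm
  · classical
    unfold retTime
    apply Nat.find_min'
    exact ⟨Function.minimalPeriod_pos_of_mem_periodicPts (mem_periodicPts' hlen x),
      Function.iterate_minimalPeriod⟩
  · exact Function.IsPeriodicPt.minimalPeriod_le (retTime_pos hlen x) (iterate_retTime hlen x)

theorem retTime_iterate (x : List Bool) (k : ℕ) : retTime hlen (f^[k] x) = retTime hlen x := by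
  rw [retTime_eq, retTime_eq]
  exact Function.minimalPeriod_apply_iterate (mem_periodicPts' hlen x) k

theorem retTime_least (x : List Bool) : retTime hlen (least hlen x) = retTime hlen x := by
  obtain ⟨i, h⟩ := exists_least hlen x
  rw [h, retTime_iterate]

theorem least_least (x : List Bool) : least hlen (least hlen x) = least hlen x := by
  obtain ⟨i, h⟩ := exists_least hlen x
  conv_lhs => rw [h]
  rw [least_iterate]

theorem retTime_le (x : List Bool) : retTime hlen x ≤ 2 ^ x.length := by
  -- the iterates `f ^ i x`, `i < retTime`, are different words of the same length
  let F : Fin (retTime hlen x) → List.Vector Bool x.length := fun i =>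
    ⟨f^[(i : ℕ)] x, iterate_length hlen _ _⟩
  have hF : Function.Injective F := by
    intro i j hij
    have h : f^[(i : ℕ)] x = f^[(j : ℕ)] x := congrArg Subtype.val hij
    have key : ∀ i j : ℕ, i < j → j < retTime hlen x → f^[i] x ≠ f^[j] x := by
      intro i j hij hj h
      have h1 : f^[j - i] x = x := by
        apply f.injective.iterate i
        rw [← Function.iterate_add_apply, show i + (j - i) = j by omega, h]
      exact iterate_ne_of_lt hlen x (by omega) (by omega) h1
    by_contra hne
    rcases lt_or_gt_of_ne (fun h => hne (Fin.ext h) : (i : ℕ) ≠ j) with h' | h'
    · exact key i j h' j.2 h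
    · exact key j i h' i.2 h.symm
  have := Fintype.card_le_of_injective F hF
  rw [Fintype.card_fin, card_vector, Fintype.card_bool] at this
  exact this

theorem posn_lt (x : List Bool) : posn hlen x < retTime hlen x := by
  by_contra hcon
  push Not at hcon
  have h1 := iterate_posn hlen x
  have h2 : f^[retTime hlen x] (least hlen x) = least hlen x := by
    have := iterate_retTime hlen (least hlen x)
    rwa [retTime_least] at this
  apply iterate_ne_of_lt_posn hlen x (k := posn hlen x - retTime hlen x)
    (by have := retTime_pos hlen x; omega)
  conv_rhs => rw [← h1]
  conv_rhs => rw [show posn hlen x = posn hlen x - retTime hlen x + retTime hlen x by omega]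
  rw [Function.iterate_add_apply, h2]

theorem posn_unique (x : List Bool) {k : ℕ} (hk : k < retTime hlen x)
    (h : f^[k] (least hlen x) = x) : posn hlen x = k := by
  have h1 := iterate_posn hlen x
  have h2 := posn_lt hlen x
  have h3 : retTime hlen (least hlen x) = retTime hlen x := retTime_least hlen x
  by_contra hne
  have key : ∀ i j : ℕ, i < j → j < retTime hlen x →
      f^[i] (least hlen x) ≠ f^[j] (least hlen x) := by
    intro i j hij hj h
    have h1 : f^[j - i] (least hlen x) = least hlen x := by
      apply f.injective.iterate i
      rw [← Function.iterate_add_apply, show i + (j - i) = j by omega, h]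
    exact iterate_ne_of_lt hlen (least hlen x) (by omega) (by omega) h1
  rcases lt_or_gt_of_ne hne with h' | h'
  · exact key _ _ h' hk (by rw [h1, h])
  · exact key _ _ h' h2 (by rw [h1, h])

theorem posn_apply (x : List Bool) :
    posn hlen (f x) = (posn hlen x + 1) % retTime hlen x := by
  have hpos := retTime_pos hlen x
  have hr : retTime hlen (f x) = retTime hlen x := retTime_iterate hlen x 1
  apply posn_unique
  · rw [hr]; exact Nat.mod_lt _ hpos
  · rw [least_apply]
    have h1 := iterate_posn hlen x
    have h2 : f^[posn hlen x + 1] (least hlen x) = f x := by
      rw [Function.iterate_succ_apply', h1]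
    rw [← h2]
    have h3 := posn_lt hlen x
    rcases Nat.lt_or_ge (posn hlen x + 1) (retTime hlen x) with h | h
    · rw [Nat.mod_eq_of_lt h]
    · have h4 : posn hlen x + 1 = retTime hlen x := by omega
      rw [h4, Nat.mod_self]
      have := iterate_retTime hlen (least hlen x)
      rw [retTime_least] at this
      rw [this]
      rfl

/-! ### The label -/

/-- The length of the cycle, in binary. -/
noncomputable def retBits (x : List Bool) : List Bool := bits (x.length + 1) (retTime hlen x)

/-- The position in the cycle, in binary. -/
noncomputable def posBits (x : List Bool) : List Bool := bits (x.length + 1) (posn hlen x)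

theorem inc_iterate (n k : ℕ) (t : ℕ) : inc^[k] (bits n t) = bits n (t + k) := by
  induction k with
  | zero => rfl
  | succ k ih => rw [Function.iterate_succ_apply', ih, inc_bits]; rfl

theorem bits_zero' (n : ℕ) : bits n 0 = List.replicate n false :=
  bits_eq_replicate.mpr (Nat.zero_mod _)

theorem size_bits_le (n t : ℕ) : size (bits n t) ≤ 4 * n + 1 := by
  have := size_word_le (bits n t)
  rwa [length_bits] at this

theorem PT.retBits' (hf : PT false f) : PT false (retBits hlen) := by
  have key := (PT.loop (m := false)
    (ini := fun x : List Bool => (f x, inc (List.replicate (x.length + 1) false)))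
    (s := fun z : List Bool × (List Bool × List Bool) => (f z.2.1, inc z.2.2))
    (c := fun z : List Bool × (List Bool × List Bool) => !(decide (z.2.1 = z.1)))
    (fun x => retTime hlen x - 1) (hf.prodMk (by fun_prop))
    (by
      have h1 : PT false (fun z : List Bool × (List Bool × List Bool) => f z.2.1) :=
        hf.comp' (by fun_prop)
      fun_prop)
    (by fun_prop) (10 * Polynomial.X + 20) (by
      intro x k _
      rw [pair_iterate, ← bits_zero', inc_bits, inc_iterate, size_pair]
      have h3 := size_of_length_eq (x := x) (y := f^[k] (f x))
        (by rw [iterate_length hlen, hlen])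
      have h4 := size_bits_le (x.length + 1) (0 + 1 + k)
      have h5 := length_le_size' x
      simp only [Polynomial.eval_add, Polynomial.eval_mul, Polynomial.eval_ofNat,
        Polynomial.eval_X]
      omega) (by
      intro x k hk
      rw [pair_iterate]
      have := iterate_ne_of_lt hlen x (k := k + 1) (by omega) (by omega)
      rw [Function.iterate_succ_apply] at this
      simpa using this) (by
      intro x
      rw [pair_iterate]
      have h1 := iterate_retTime hlen x
      have h2 := retTime_pos hlen x
      rw [show retTime hlen x = retTime hlen x - 1 + 1 by omega,
        Function.iterate_succ_apply] at h1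
      simp [h1]) (by simp)).snd'
  refine key.of_eq (fun x => ?_)
  rw [pair_iterate, ← bits_zero', inc_bits, inc_iterate]
  unfold retBits
  have h2 := retTime_pos hlen x
  congr 1
  omega

theorem PT.posBits' (hf : PT false f) : PT false (posBits hlen) := by
  have h0 := PT.least' hlen hf
  have key := (PT.loop (m := false)
    (ini := fun x : List Bool => (least hlen x, List.replicate (x.length + 1) false))
    (s := fun z : List Bool × (List Bool × List Bool) => (f z.2.1, inc z.2.2))
    (c := fun z : List Bool × (List Bool × List Bool) => !(decide (z.2.1 = z.1)))
    (fun x => posn hlen x) (h0.prodMk (by fun_prop))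
    (by
      have h1 : PT false (fun z : List Bool × (List Bool × List Bool) => f z.2.1) :=
        hf.comp' (by fun_prop)
      fun_prop)
    (by fun_prop) (10 * Polynomial.X + 20) (by
      intro x k _
      rw [pair_iterate, ← bits_zero', inc_iterate, size_pair]
      have h3 := size_of_length_eq (x := x) (y := f^[k] (least hlen x))
        (by rw [iterate_length hlen, length_least])
      have h4 := size_bits_le (x.length + 1) (0 + k)
      have h5 := length_le_size' x
      simp only [Polynomial.eval_add, Polynomial.eval_mul, Polynomial.eval_ofNat,
        Polynomial.eval_X]
      omega) (by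
      intro x k hk
      rw [pair_iterate]
      have := iterate_ne_of_lt_posn hlen x hk
      simpa using this) (by
      intro x
      rw [pair_iterate]
      simp [iterate_posn]) (by simp)).snd'
  refine key.of_eq (fun x => ?_)
  rw [pair_iterate, ← bits_zero', inc_iterate, Nat.zero_add]
  rfl

/-- The word `u` is the least element of its cycle, whose length is given in binary. -/
noncomputable def isLeader (u l : List Bool) : Bool :=
  decide (least hlen u = u) && decide (retBits hlen u = l)

/-- The number of leaders below the number `k`. -/
noncomputable def cnt (n : ℕ) (l : List Bool) (k : ℕ) : ℕ :=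
  Nat.count (fun v => isLeader hlen (bits n v) l = true) k

/-- The rank of the cycle, in binary. -/
noncomputable def rankBits (x : List Bool) : List Bool :=
  bits (x.length + 1) (cnt hlen x.length (retBits hlen x) (val (least hlen x)))

theorem PT.rankBits' (hf : PT false f) : PT false (rankBits hlen) := by
  have h0 := PT.least' hlen hf
  have h0' := PT.retBits' hlen hf
  let st : List Bool × (List Bool × List Bool) → List Bool × List Bool := fun z =>
    (inc z.2.1, bif isLeader hlen z.2.1 (retBits hlen z.1) then inc z.2.2 else z.2.2)
  have hit : ∀ (x : List Bool) (k : ℕ), (fun y => st (x, y))^[k]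
      (List.replicate x.length false, List.replicate (x.length + 1) false) =
      (bits x.length k, bits (x.length + 1) (cnt hlen x.length (retBits hlen x) k)) := by
    intro x k
    induction k with
    | zero =>
      rw [← bits_zero', ← bits_zero']
      simp [cnt]
    | succ k ih =>
      rw [Function.iterate_succ_apply', ih]
      simp only [st]
      rw [inc_bits]
      congr 1
      unfold cnt
      rw [Nat.count_succ]
      cases h : isLeader hlen (bits x.length k) (retBits hlen x) with
      | true => simp [inc_bits]
      | false => simp
  have key := (PT.loop (m := false)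
    (ini := fun x : List Bool =>
      (List.replicate x.length false, List.replicate (x.length + 1) false))
    (s := st)
    (c := fun z : List Bool × (List Bool × List Bool) => !(decide (z.2.1 = least hlen z.1)))
    (fun x => PPS.val (least hlen x)) (by fun_prop)
    (by
      have h1 : PT false (fun z : List Bool × (List Bool × List Bool) => least hlen z.2.1) :=
        h0.comp' (by fun_prop)
      have h2 : PT false (fun z : List Bool × (List Bool × List Bool) => retBits hlen z.2.1) :=
        h0'.comp' (by fun_prop)
      have h3 : PT false (fun z : List Bool × (List Bool × List Bool) => retBits hlen z.1) :=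
        h0'.comp' (by fun_prop)
      simp only [st, isLeader]
      fun_prop)
    (by
      have h1 : PT false (fun z : List Bool × (List Bool × List Bool) => least hlen z.1) :=
        h0.comp' (by fun_prop)
      fun_prop) (10 * Polynomial.X + 20) (by
      intro x k _
      rw [hit, size_pair]
      have h3 := size_bits_le x.length k
      have h4 := size_bits_le (x.length + 1) (cnt hlen x.length (retBits hlen x) k)
      have h5 := length_le_size' x
      simp only [Polynomial.eval_add, Polynomial.eval_mul, Polynomial.eval_ofNat,
        Polynomial.eval_X]
      omega) (by
      intro x k hk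
      rw [hit]
      have h1 : bits x.length k ≠ least hlen x := by
        intro h
        have h2 := congrArg PPS.val h
        rw [val_bits] at h2
        have := Nat.mod_le k (2 ^ x.length)
        omega
      simpa using h1) (by
      intro x
      rw [hit]
      have h1 : bits x.length (PPS.val (least hlen x)) = least hlen x := by
        have := bits_val (least hlen x)
        rwa [length_least] at this
      simp [h1]) (by simp)).snd'
  refine key.of_eq (fun x => ?_)
  rw [hit]
  rfl

/-- The canonical label of a word. -/
noncomputable def label (x : List Bool) : List Bool × (List Bool × List Bool) :=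
  (retBits hlen x, (rankBits hlen x, posBits hlen x))

theorem PT.label' (hf : PT false f) : PT false (label hlen) :=
  (PT.retBits' hlen hf).prodMk ((PT.rankBits' hlen hf).prodMk (PT.posBits' hlen hf))

theorem val_lt (l : List Bool) : val l < 2 ^ l.length := by
  have h := val_bits l.length (val l)
  rw [bits_val] at h
  rw [h]
  exact Nat.mod_lt _ (by positivity)

theorem bits_inj {n a b : ℕ} (ha : a < 2 ^ n) (hb : b < 2 ^ n) (h : bits n a = bits n b) :
    a = b := by
  have := congrArg val h
  rwa [val_bits, val_bits, Nat.mod_eq_of_lt ha, Nat.mod_eq_of_lt hb] at this

theorem cnt_le (n : ℕ) (l : List Bool) (k : ℕ) : cnt hlen n l k ≤ k := Nat.count_le _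

theorem isLeader_least (x : List Bool) : isLeader hlen (least hlen x) (retBits hlen x) = true := by
  unfold isLeader retBits
  rw [least_least, retTime_least, length_least]
  simp

theorem label_injective {x y : List Bool} (hxy : x.length = y.length)
    (h : label hlen x = label hlen y) : x = y := by
  simp only [label, Prod.mk.injEq] at h
  obtain ⟨h1, h2, h3⟩ := h
  have hn : 2 ^ x.length < 2 ^ (x.length + 1) := by rw [pow_succ]; have := Nat.two_pow_pos x.length; omega
  have e3 : posn hlen x = posn hlen y := by
    unfold posBits at h3
    rw [← hxy] at h3
    refine bits_inj ?_ ?_ h3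
    · have := posn_lt hlen x; have := retTime_le hlen x; omega
    · have := posn_lt hlen y; have := retTime_le hlen y; rw [← hxy] at this; omega
  have e2 : cnt hlen x.length (retBits hlen x) (val (least hlen x)) =
      cnt hlen x.length (retBits hlen x) (val (least hlen y)) := by
    unfold rankBits at h2
    rw [← hxy, ← h1] at h2
    refine bits_inj ?_ ?_ h2
    · have := cnt_le hlen x.length (retBits hlen x) (val (least hlen x))
      have h4 := val_lt (least hlen x)
      rw [length_least] at h4
      omega
    · have := cnt_le hlen x.length (retBits hlen x) (val (least hlen y))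
      have h4 := val_lt (least hlen y)
      rw [length_least, ← hxy] at h4
      omega
  have e1 : val (least hlen x) = val (least hlen y) := by
    apply Nat.count_injective (p := fun v => isLeader hlen (bits x.length v) (retBits hlen x) = true)
    · have h4 : bits x.length (val (least hlen x)) = least hlen x := by
        have := bits_val (least hlen x); rwa [length_least] at this
      rw [h4]
      exact isLeader_least hlen x
    · have h4 : bits x.length (val (least hlen y)) = least hlen y := by
        have := bits_val (least hlen y); rwa [length_least, ← hxy] at this
      rw [h4, h1]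
      exact isLeader_least hlen y
    · exact e2
  have e4 : least hlen x = least hlen y :=
    val_inj (by rw [length_least, length_least, hxy]) e1
  rw [← iterate_posn hlen x, ← iterate_posn hlen y, e3, e4]

/-- The label of the image. -/
noncomputable def nextLabel (n : ℕ) (l : List Bool × (List Bool × List Bool)) :
    List Bool × (List Bool × List Bool) :=
  (l.1, (l.2.1, bits (n + 1) ((val l.2.2 + 1) % val l.1)))

theorem label_apply (x : List Bool) :
    label hlen (f x) = nextLabel x.length (label hlen x) := by
  have hr : retTime hlen (f x) = retTime hlen x := retTime_iterate hlen x 1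
  have hn : 2 ^ x.length < 2 ^ (x.length + 1) := by rw [pow_succ]; have := Nat.two_pow_pos x.length; omega
  have e1 : retBits hlen (f x) = retBits hlen x := by unfold retBits; rw [hr, hlen]
  have e2 : rankBits hlen (f x) = rankBits hlen x := by
    unfold rankBits; rw [e1, least_apply, hlen]
  have e3 : val (retBits hlen x) = retTime hlen x := by
    unfold retBits
    rw [val_bits, Nat.mod_eq_of_lt]
    have := retTime_le hlen x
    omega
  have e4 : val (posBits hlen x) = posn hlen x := by
    unfold posBits
    rw [val_bits, Nat.mod_eq_of_lt]
    have := posn_lt hlen x
    have := retTime_le hlen x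
    omega
  simp only [label, nextLabel]
  rw [e1, e2, e3, e4]
  congr 2
  unfold posBits
  rw [posn_apply, hlen]

end basic

/-! ### Comparison of two permutations -/

section two

variable {f g : Equiv.Perm (List Bool)} (hf : ∀ x, (f x).length = x.length)
  (hg : ∀ x, (g x).length = x.length)

/-- The leaders as a set of numbers. -/
def leaders (hf : ∀ x, (f x).length = x.length) (n l : ℕ) : Set ℕ :=
  {v | v < 2 ^ n ∧ least hf (bits n v) = bits n v ∧ retTime hf (bits n v) = l}

theorem leaders_finite (n l : ℕ) : (leaders hf n l).Finite :=
  (Set.finite_lt_nat (2 ^ n)).subset (fun _ h => h.1)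

theorem iterate_conj {h : Equiv.Perm (List Bool)} (hconj : ∀ x, h (f x) = g (h x)) (k : ℕ)
    (x : List Bool) : h (f^[k] x) = g^[k] (h x) := by
  induction k with
  | zero => rfl
  | succ k ih => rw [Function.iterate_succ_apply', hconj, ih, Function.iterate_succ_apply']

theorem retTime_conj {h : Equiv.Perm (List Bool)} (hconj : ∀ x, h (f x) = g (h x))
    (x : List Bool) : retTime hg (h x) = retTime hf x := by
  apply le_antisymm
  · rw [retTime_eq hg]
    apply Function.IsPeriodicPt.minimalPeriod_le (retTime_pos hf x)
    show g^[retTime hf x] (h x) = h x
    rw [← iterate_conj hconj, iterate_retTime]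
  · rw [retTime_eq hf]
    apply Function.IsPeriodicPt.minimalPeriod_le (retTime_pos hg (h x))
    apply h.injective
    rw [iterate_conj hconj]
    exact iterate_retTime hg (h x)

theorem ncard_leaders_le {h : Equiv.Perm (List Bool)} (hh : ∀ x, (h x).length = x.length)
    (hconj : ∀ x, h (f x) = g (h x)) (n l : ℕ) :
    (leaders hf n l).ncard ≤ (leaders hg n l).ncard := by
  apply Set.ncard_le_ncard_of_injOn (fun v => val (least hg (h (bits n v)))) ?_ ?_
    (leaders_finite hg n l)
  · intro v hv
    obtain ⟨h1, h2, h3⟩ := hv
    have hl : (least hg (h (bits n v))).length = n := by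
      rw [length_least, hh, length_bits]
    have hb : bits n (val (least hg (h (bits n v)))) = least hg (h (bits n v)) := by
      have := bits_val (least hg (h (bits n v)))
      rwa [hl] at this
    refine ⟨?_, ?_, ?_⟩
    · have := val_lt (least hg (h (bits n v)))
      rwa [hl] at this
    · show least hg (bits n (val (least hg (h (bits n v))))) =
        bits n (val (least hg (h (bits n v))))
      rw [hb, least_least]
    · show retTime hg (bits n (val (least hg (h (bits n v))))) = l
      rw [hb, retTime_least, retTime_conj hf hg hconj, h3]
  · intro v hv v' hv' heq
    obtain ⟨h1, h2, h3⟩ := hv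
    obtain ⟨h1', h2', h3'⟩ := hv'
    have e1 : least hg (h (bits n v)) = least hg (h (bits n v')) := by
      apply val_inj _ heq
      rw [length_least, length_least, hh, hh, length_bits, length_bits]
    -- the two words are in the same cycle
    obtain ⟨i, hi⟩ := exists_least hg (h (bits n v))
    obtain ⟨j, hj⟩ := exists_iterate_least hg (h (bits n v'))
    rw [← e1, hi, ← Function.iterate_add_apply, ← iterate_conj hconj] at hj
    have e2 := h.injective hj
    have e3 : bits n v = bits n v' := by
      rw [← h2, ← h2', ← e2, least_iterate]
    exact bits_inj h1 h1' e3

theorem exists_label {h : Equiv.Perm (List Bool)} (hh : ∀ x, (h x).length = x.length)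
    (hconj : ∀ x, h (f x) = g (h x)) (x : List Bool) :
    ∃ y, y.length = x.length ∧ label hg y = label hf x := by
  classical
  set n := x.length with hn
  set l := retTime hf x with hl
  set r := cnt hf n (retBits hf x) (val (least hf x)) with hr
  have hnn : 2 ^ n < 2 ^ (n + 1) := by rw [pow_succ]; have := Nat.two_pow_pos n; omega
  have hle : l ≤ 2 ^ n := retTime_le hf x
  -- leaders in terms of the test
  have key : ∀ (f' : Equiv.Perm (List Bool)) (hf' : ∀ x, (f' x).length = x.length) (v : ℕ),
      v < 2 ^ n → (isLeader hf' (bits n v) (retBits hf x) = true ↔ v ∈ leaders hf' n l) := by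
    intro f' hf' v hv
    unfold isLeader leaders retBits
    rw [Bool.and_eq_true, decide_eq_true_iff, decide_eq_true_iff, length_bits]
    show _ ↔ v < 2 ^ n ∧ _ ∧ _
    constructor
    · rintro ⟨h1, h2⟩
      refine ⟨hv, h1, ?_⟩
      have h3 := retTime_le hf' (bits n v)
      rw [length_bits] at h3
      rw [← hn] at h2
      exact bits_inj (by omega) (by omega) h2
    · rintro ⟨-, h1, h2⟩
      exact ⟨h1, by rw [h2]⟩
  have hcnt : ∀ (f' : Equiv.Perm (List Bool)) (hf' : ∀ x, (f' x).length = x.length) (k : ℕ),
      k ≤ 2 ^ n → cnt hf' n (retBits hf x) k = Nat.count (· ∈ leaders hf' n l) k := by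
    intro f' hf' k hk
    unfold cnt
    induction k with
    | zero => simp
    | succ k ih =>
      rw [Nat.count_succ, Nat.count_succ, ih (by omega)]
      congr 1
      simp only [key f' hf' k (by omega)]
  have hv0 : val (least hf x) < 2 ^ n := by
    have := val_lt (least hf x); rwa [length_least] at this
  have hb0 : bits n (val (least hf x)) = least hf x := by
    have := bits_val (least hf x); rwa [length_least] at this
  have hmem : val (least hf x) ∈ leaders hf n l := by
    rw [← key f hf _ hv0, hb0]
    exact isLeader_least hf x
  have hcard : (leaders hf n l).ncard = (leaders hg n l).ncard := by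
    apply le_antisymm (ncard_leaders_le hf hg hh hconj n l)
    apply ncard_leaders_le hg hf (h := h.symm) (length_symm hh)
    intro y
    apply h.injective
    rw [h.apply_symm_apply, hconj, h.apply_symm_apply]
  have hfin := leaders_finite hf n l
  have hfing := leaders_finite hg n l
  have hr1 : r < hfin.toFinset.card := by
    rw [hr, hcnt f hf _ hv0.le]
    exact Nat.count_lt_card (p := (· ∈ leaders hf n l)) hfin hmem
  have hr2 : r < hfing.toFinset.card := by
    rw [← Set.ncard_eq_toFinset_card _ hfing, ← hcard, Set.ncard_eq_toFinset_card _ hfin]
    exact hr1
  -- the leader with the same rank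
  set v := Nat.nth (· ∈ leaders hg n l) r with hv
  have hvmem : v ∈ leaders hg n l := Nat.nth_mem r (fun _ => hr2)
  have hvcount : Nat.count (· ∈ leaders hg n l) v = r := Nat.count_nth (fun _ => hr2)
  obtain ⟨h1, h2, h3⟩ := hvmem
  set m' := bits n v with hm'
  have hm'l : m'.length = n := length_bits _ _
  refine ⟨g^[posn hf x] m', by rw [iterate_length hg, hm'l], ?_⟩
  set y := g^[posn hf x] m' with hy
  have hyl : y.length = n := by rw [hy, iterate_length hg, hm'l]
  have e1 : retTime hg y = l := by rw [hy, retTime_iterate, h3]
  have e2 : least hg y = m' := by rw [hy, least_iterate, h2]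
  have e3 : posn hg y = posn hf x := by
    apply posn_unique
    · rw [e1]; exact posn_lt hf x
    · rw [e2]
  have e4 : retBits hg y = retBits hf x := by
    unfold retBits; rw [hyl, e1]
  have e5 : rankBits hg y = rankBits hf x := by
    unfold rankBits
    rw [e2, e4, hyl, ← hn, ← hr, hm', val_bits, Nat.mod_eq_of_lt h1, hcnt g hg v h1.le,
      hvcount]
  have e6 : posBits hg y = posBits hf x := by
    unfold posBits; rw [e3, hyl]
  simp only [label, e4, e5, e6]

open Classical in
/-- The number of the word with the given label. -/
noncomputable def matchNum (hex : ∀ x, ∃ y : List Bool, y.length = x.length ∧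
    label hg y = label hf x) (x : List Bool) : ℕ :=
  Nat.find (show ∃ v, label hg (bits x.length v) = label hf x by
    obtain ⟨y, h1, h2⟩ := hex x
    refine ⟨val y, ?_⟩
    rw [← h1, bits_val, h2])

/-- The word with the given label. -/
noncomputable def matchWord (hex : ∀ x, ∃ y : List Bool, y.length = x.length ∧
    label hg y = label hf x) (x : List Bool) : List Bool :=
  bits x.length (matchNum hf hg hex x)

variable (hex : ∀ x, ∃ y : List Bool, y.length = x.length ∧ label hg y = label hf x)

theorem label_matchWord (x : List Bool) : label hg (matchWord hf hg hex x) = label hf x := by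
  classical
  exact Nat.find_spec (show ∃ v, label hg (bits x.length v) = label hf x by
    obtain ⟨y, h1, h2⟩ := hex x
    refine ⟨val y, ?_⟩
    rw [← h1, bits_val, h2])

theorem length_matchWord (x : List Bool) : (matchWord hf hg hex x).length = x.length :=
  length_bits _ _

theorem PT.matchWord' (hpf : PT false f) (hpg : PT false g) :
    PT false (matchWord hf hg hex) := by
  have h0 := PT.label' hf hpf
  have h0' := PT.label' hg hpg
  have key := (PT.loop (m := false)
    (ini := fun x : List Bool => List.replicate x.length false)
    (s := fun z : List Bool × List Bool => inc z.2)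
    (c := fun z : List Bool × List Bool => !(decide (label hg z.2 = label hf z.1)))
    (fun x => matchNum hf hg hex x) (by fun_prop)
    (by fun_prop)
    (by
      have h1 : PT false (fun z : List Bool × List Bool => label hf z.1) :=
        h0.comp' (by fun_prop)
      have h2 : PT false (fun z : List Bool × List Bool => label hg z.2) :=
        h0'.comp' (by fun_prop)
      fun_prop) (4 * Polynomial.X + 20) (by
      intro x k _
      rw [← bits_zero', inc_iterate]
      have h4 := size_bits_le x.length (0 + k)
      have h5 := length_le_size' x
      simp only [Polynomial.eval_add, Polynomial.eval_mul, Polynomial.eval_ofNat,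
        Polynomial.eval_X]
      omega) (by
      intro x k hk
      rw [← bits_zero', inc_iterate, Nat.zero_add]
      classical
      have := Nat.find_min (show ∃ v, label hg (bits x.length v) = label hf x by
        obtain ⟨y, h1, h2⟩ := hex x
        refine ⟨PPS.val y, ?_⟩
        rw [← h1, bits_val, h2]) hk
      simpa using this) (by
      intro x
      rw [← bits_zero', inc_iterate, Nat.zero_add]
      have := label_matchWord hf hg hex x
      unfold matchWord at this
      simpa using this) (by simp))
  refine key.of_eq (fun x => ?_)
  rw [← bits_zero', inc_iterate, Nat.zero_add]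
  rfl

theorem matchWord_matchWord (hex' : ∀ x, ∃ y : List Bool, y.length = x.length ∧
    label hf y = label hg x) (x : List Bool) :
    matchWord hg hf hex' (matchWord hf hg hex x) = x := by
  apply label_injective hf (by rw [length_matchWord, length_matchWord])
  rw [label_matchWord, label_matchWord]

theorem matchWord_apply (x : List Bool) :
    matchWord hf hg hex (f x) = g (matchWord hf hg hex x) := by
  apply label_injective hg (by rw [length_matchWord, hf, hg, length_matchWord])
  rw [label_matchWord, label_apply, label_apply, label_matchWord, length_matchWord]

include hf hg in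
/-- Two permutations in polynomial space that are conjugate by a length-preserving permutation
are conjugate by a permutation in polynomial space. -/
theorem exists_conj (hpf : PT false f) (hpg : PT false g) {h : Equiv.Perm (List Bool)}
    (hh : ∀ x, (h x).length = x.length) (hconj : ∀ x, h (f x) = g (h x)) :
    ∃ k : Equiv.Perm (List Bool), (∀ x, (k x).length = x.length) ∧ PT false k ∧
      PT false k.symm ∧ ∀ x, k (f x) = g (k x) := by
  have hex := exists_label hf hg hh hconj
  have hconj' : ∀ x, h.symm (g x) = f (h.symm x) := by
    intro y
    apply h.injective
    rw [h.apply_symm_apply, hconj, h.apply_symm_apply]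
  have hex' := exists_label hg hf (length_symm hh) hconj'
  refine ⟨⟨matchWord hf hg hex, matchWord hg hf hex', matchWord_matchWord hf hg hex hex',
    matchWord_matchWord hg hf hex' hex⟩, ?_, ?_, ?_, ?_⟩
  · exact length_matchWord hf hg hex
  · exact PT.matchWord' hf hg hex hpf hpg
  · exact PT.matchWord' hg hf hex' hpg hpf
  · exact matchWord_apply hf hg hex

end two

end Pool.Agent.PPS
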