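import Pool.Agent.PPS.Revp
import Pool.Agent.PPS.Conj

/-!
# The groups of permutations in polynomial time and in polynomial space
-/

namespace Pool.Agent.PPS

/-! ### The groups -/

theorem mem_mul_aux {m : Bool} {f g : Equiv.Perm (List Bool)} (hf : PT m ⇑f)
    (hf' : PT m ⇑f⁻¹) (hg : PT m ⇑g) (hg' : PT m ⇑g⁻¹) :
    PT m ⇑(f * g) ∧ PT m ⇑(f * g)⁻¹ := by
  constructor
  · exact (hf.comp hg).of_eq (fun x => rfl)
  · exact (hg'.comp hf').of_eq (fun x => by rw [mul_inv_rev]; rfl)

/-- The group of all length-preserving permutations of the set of words that are computable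
in polynomial time together with their inverses. -/
def GP : Subgroup (Equiv.Perm (List Bool)) where
  carrier := {f | (∀ x, (f x).length = x.length) ∧ ⇑f ∈ FP ∧ ⇑f⁻¹ ∈ FP}
  mul_mem' := by
    rintro f g ⟨h1, h2, h3⟩ ⟨k1, k2, k3⟩
    rw [mem_FP_iff] at h2 h3 k2 k3
    obtain ⟨h4, h5⟩ := mem_mul_aux h2 h3 k2 k3
    exact ⟨fun x => by rw [Equiv.Perm.mul_apply, h1, k1], mem_FP_iff.mpr h4, mem_FP_iff.mpr h5⟩
  one_mem' := by
    refine ⟨fun x => rfl, mem_FP_iff.mpr ?_, mem_FP_iff.mpr ?_⟩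
    · exact PT.id.of_eq (fun x => rfl)
    · exact PT.id.of_eq (fun x => by rw [inv_one]; rfl)
  inv_mem' := by
    rintro f ⟨h1, h2, h3⟩
    exact ⟨length_symm h1, h3, by rw [inv_inv]; exact h2⟩

/-- The group of all length-preserving permutations of the set of words that are computable
in polynomial space together with their inverses. -/
def GPSPACE : Subgroup (Equiv.Perm (List Bool)) where
  carrier := {f | (∀ x, (f x).length = x.length) ∧ ⇑f ∈ FPSPACE ∧ ⇑f⁻¹ ∈ FPSPACE}
  mul_mem' := by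
    rintro f g ⟨h1, h2, h3⟩ ⟨k1, k2, k3⟩
    rw [mem_FPSPACE_iff] at h2 h3 k2 k3
    obtain ⟨h4, h5⟩ := mem_mul_aux h2 h3 k2 k3
    exact ⟨fun x => by rw [Equiv.Perm.mul_apply, h1, k1], mem_FPSPACE_iff.mpr h4,
      mem_FPSPACE_iff.mpr h5⟩
  one_mem' := by
    refine ⟨fun x => rfl, mem_FPSPACE_iff.mpr ?_, mem_FPSPACE_iff.mpr ?_⟩
    · exact PT.id.of_eq (fun x => rfl)
    · exact PT.id.of_eq (fun x => by rw [inv_one]; rfl)
  inv_mem' := by
    rintro f ⟨h1, h2, h3⟩
    exact ⟨length_symm h1, h3, by rw [inv_inv]; exact h2⟩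

theorem mem_GP_iff {f : Equiv.Perm (List Bool)} :
    f ∈ GP ↔ (∀ x, (f x).length = x.length) ∧ PT true f ∧ PT true f.symm := by
  show (_ ∧ ⇑f ∈ FP ∧ ⇑f⁻¹ ∈ FP) ↔ _
  rw [mem_FP_iff, mem_FP_iff]
  rfl

theorem mem_GPSPACE_iff {f : Equiv.Perm (List Bool)} :
    f ∈ GPSPACE ↔ (∀ x, (f x).length = x.length) ∧ PT false f ∧ PT false f.symm := by
  show (_ ∧ ⇑f ∈ FPSPACE ∧ ⇑f⁻¹ ∈ FPSPACE) ↔ _
  rw [mem_FPSPACE_iff, mem_FPSPACE_iff]
  rfl

theorem GP_le_GPSPACE : GP ≤ GPSPACE := by
  intro f hf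
  rw [mem_GP_iff] at hf
  rw [mem_GPSPACE_iff]
  exact ⟨hf.1, hf.2.1.of_true, hf.2.2.of_true⟩

theorem GP_eq_of_collapse (h : P = PSPACE) : GP = GPSPACE := by
  apply le_antisymm GP_le_GPSPACE
  intro f hf
  rw [mem_GPSPACE_iff] at hf
  rw [mem_GP_iff]
  exact ⟨hf.1, PT.of_collapse h hf.2.1, PT.of_collapse h hf.2.2⟩

theorem P_subset_PSPACE : P ⊆ PSPACE := by
  intro L hL
  rw [mem_P_iff] at hL
  rw [mem_PSPACE_iff]
  exact hL.of_true

/-! ### The reversal -/

/-- The reversal as a permutation. -/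
noncomputable def flipPerm {f : Equiv.Perm (List Bool)} (hlen : ∀ x, (f x).length = x.length) :
    Equiv.Perm (List Bool) where
  toFun := flip hlen
  invFun := flip hlen
  left_inv := flip_flip hlen
  right_inv := flip_flip hlen

theorem exists_flip {f : Equiv.Perm (List Bool)} (hf : f ∈ GPSPACE) :
    ∃ s ∈ GPSPACE, s * s = 1 ∧ s * f = f⁻¹ * s := by
  rw [mem_GPSPACE_iff] at hf
  obtain ⟨hlen, h1, h2⟩ := hf
  refine ⟨flipPerm hlen, ?_, ?_, ?_⟩
  · rw [mem_GPSPACE_iff]
    exact ⟨length_flip hlen, PT.flip' hlen h1 h2, PT.flip' hlen h1 h2⟩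
  · ext1 x; exact flip_flip hlen x
  · ext1 x; exact flip_apply hlen x

theorem exists_involutions {f : Equiv.Perm (List Bool)} (hf : f ∈ GPSPACE) :
    ∃ a ∈ GPSPACE, ∃ b ∈ GPSPACE, a * a = 1 ∧ b * b = 1 ∧ f = a * b := by
  obtain ⟨s, hs, h1, h2⟩ := exists_flip hf
  refine ⟨f * s, GPSPACE.mul_mem hf hs, s, hs, ?_, h1, ?_⟩
  · calc f * s * (f * s) = f * (s * f) * s := by group
      _ = f * (f⁻¹ * s) * s := by rw [h2]
      _ = s * s := by group
      _ = 1 := h1
  · rw [mul_assoc, h1, mul_one]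

/-! ### The hard direction -/

theorem collapse_of_reverse (h : ∀ f ∈ GP, ∃ g ∈ GP, g * f * g⁻¹ = f⁻¹) : P = PSPACE := by
  classical
  apply Set.Subset.antisymm P_subset_PSPACE
  intro L hL
  rw [mem_PSPACE_iff] at hL
  obtain ⟨s, ini, out, hs, hini, hout, hslen, hini2, hiter⟩ := PT.exists_iterate hL
  have hmem : revPerm s hslen ∈ GP := by
    rw [mem_GP_iff]
    exact ⟨length_fwd s, PT.fwd' hs, PT.bwd' hs⟩
  obtain ⟨g, hg, hconj⟩ := h _ hmem
  rw [mem_GP_iff] at hg
  obtain ⟨hg1, hg2, hg3⟩ := hg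
  have hrev : ∀ z, g (fwd s z) = bwd s (g z) := by
    intro z
    have h1 : g * revPerm s hslen = (revPerm s hslen)⁻¹ * g := by
      rw [← hconj]; group
    exact congrArg (fun k : Equiv.Perm (List Bool) => k z) h1
  obtain ⟨A, hA, hA'⟩ := exists_of_reverse hslen hrev hg1 hg2 hg3
  rw [mem_P_iff]
  have h2 : PT true (fun x => toBit (out (A (ini x)))) :=
    (hout.comp' (hA.comp' hini)).toBit'
  refine h2.of_eq (fun x => ?_)
  rw [hA' _ (hini2 x), hiter x _ le_rfl, toBit_rep]

/-! ### The language of groups -/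

/-- The function symbols: one binary symbol. -/
inductive MulFunc : ℕ → Type
  | mul : MulFunc 2

/-- The first-order language with one binary function symbol. -/
def mulLang : FirstOrder.Language where
  Functions := MulFunc
  Relations := fun _ => Empty

/-- A group as a first-order structure: the symbol denotes the multiplication. -/
instance mulStructure (G : Type) [Mul G] : mulLang.Structure G where
  funMap := fun {n} f => match n, f with
    | _, MulFunc.mul => fun v => v 0 * v 1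
  RelMap := fun {_} r => Empty.elim r

theorem elementarilyEquivalent_of_mulEquiv {G H : Type} [Group G] [Group H] (e : G ≃* H) :
    mulLang.ElementarilyEquivalent G H := by
  let E : mulLang.Equiv G H :=
    { toEquiv := e.toEquiv
      map_fun' := by
        intro n f v
        cases f
        exact map_mul e (v 0) (v 1)
      map_rel' := by
        intro n r
        exact Empty.elim r }
  exact E.toElementaryEmbedding.elementarilyEquivalent

open FirstOrder Language in
/-- The sentence `∀ x, ∃ y, x (y x) = y`. -/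
def revSentence : mulLang.Sentence :=
  let mulf : mulLang.Functions 2 := MulFunc.mul
  let x : mulLang.Term (Empty ⊕ Fin 2) := &0
  let y : mulLang.Term (Empty ⊕ Fin 2) := &1
  ∀' ∃' ((mulf.apply₂ x (mulf.apply₂ y x)) =' y)

theorem realize_revSentence (G : Type) [Group G] :
    FirstOrder.Language.Sentence.Realize G revSentence ↔ ∀ x : G, ∃ y : G, x * (y * x) = y := by
  unfold revSentence FirstOrder.Language.Sentence.Realize FirstOrder.Language.Formula.Realize
  simp only [FirstOrder.Language.BoundedFormula.realize_all,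
    FirstOrder.Language.BoundedFormula.realize_ex,
    FirstOrder.Language.BoundedFormula.realize_bdEqual,
    FirstOrder.Language.Term.realize_functions_apply₂]
  rfl

end Pool.Agent.PPS
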