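import Pool.Agent.PPS.Bits

/-!
# The schedule of a reversible iteration
-/

namespace Pool.Agent.PPS

variable {m : Bool} {α β γ δ σ τ : Type} [Rep α] [Rep β] [Rep γ] [Rep δ] [Rep σ] [Rep τ]

/-! ### The schedule -/

/-- One level of the schedule: the two digits of the clock `c` at level `j` refine the
operation that adds the image of register `a` under `2 ^ (j + 1)` iterations of `s` to
register `b`. -/
def lvl (c : ℕ → Bool) (j : ℕ) : Option (ℕ × ℕ) → Option (ℕ × ℕ)
  | none => none
  | some (a, b) =>
      bif c (2 * j) then (bif c (2 * j + 1) then none else some (j + 1, b)) else some (a, j + 1)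

/-- The elementary operation prescribed by the lowest `2 j` digits of the clock. -/
def opOf (c : ℕ → Bool) : ℕ → Option (ℕ × ℕ) → Option (ℕ × ℕ)
  | 0, o => o
  | j + 1, o => opOf c j (lvl c j o)

theorem opOf_none (c : ℕ → Bool) (j : ℕ) : opOf c j none = none := by
  induction j with
  | zero => rfl
  | succ j ih => exact ih

theorem lvl_congr {c c' : ℕ → Bool} {j : ℕ} (h : ∀ i < 2 * (j + 1), c i = c' i)
    (o : Option (ℕ × ℕ)) : lvl c j o = lvl c' j o := by
  cases o with
  | none => rfl
  | some p =>
    obtain ⟨a, b⟩ := p
    simp only [lvl]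
    rw [h (2 * j) (by omega), h (2 * j + 1) (by omega)]

theorem opOf_congr {c c' : ℕ → Bool} {j : ℕ} (h : ∀ i < 2 * j, c i = c' i)
    (o : Option (ℕ × ℕ)) : opOf c j o = opOf c' j o := by
  induction j generalizing o with
  | zero => rfl
  | succ j ih =>
    simp only [opOf]
    rw [lvl_congr h, ih (fun i hi => h i (by omega))]

theorem opOf_spec (c : ℕ → Bool) (M j a b : ℕ) (hj : j ≤ M) (ha : a = 0 ∨ j < a) (ha' : a ≤ M + 1)
    (hb : b = 0 ∨ j < b) (hb' : b ≤ M + 1) (hab : a ≠ b) {a' b' : ℕ}
    (h : opOf c j (some (a, b)) = some (a', b')) : a' ≠ b' ∧ a' ≤ M + 1 ∧ b' ≤ M + 1 := by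
  induction j generalizing a b with
  | zero =>
    simp only [opOf, Option.some.injEq, Prod.mk.injEq] at h
    obtain ⟨rfl, rfl⟩ := h
    exact ⟨hab, ha', hb'⟩
  | succ j ih =>
    simp only [opOf, lvl] at h
    cases h1 : c (2 * j) with
    | false =>
      rw [h1, cond_false] at h
      exact ih a (j + 1) (by omega) (by omega) ha' (by omega) (by omega) (by omega) h
    | true =>
      rw [h1, cond_true] at h
      cases h2 : c (2 * j + 1) with
      | true =>
        rw [h2, cond_true, opOf_none] at h
        cases h
      | false =>
        rw [h2, cond_false] at h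
        exact ih (j + 1) b (by omega) (by omega) (by omega) (by omega) hb' (by omega) h

theorem PT.opOf' {κ : α → List Bool} {j : α → ℕ} {o : α → Option (ℕ × ℕ)}
    (hκ : PT m κ) (hj : PT m j) (ho : PT m o) :
    PT m (fun a => opOf (bitAt (κ a)) (j a) (o a)) := by
  obtain ⟨p, hp⟩ := hj.exists_size_le
  obtain ⟨q, hq⟩ := ho.exists_size_le
  -- the state: the level and the operation
  let st : α × (ℕ × Option (ℕ × ℕ)) → ℕ × Option (ℕ × ℕ) := fun z =>
    (z.2.1 - 1, lvl (bitAt (κ z.1)) (z.2.1 - 1) z.2.2)
  have hst : PT m st := by
    refine PT.prodMk (by fun_prop) ?_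
    have := PT.optCase (m := m) (o := fun z : α × (ℕ × Option (ℕ × ℕ)) => z.2.2)
      (f := fun _ => (none : Option (ℕ × ℕ)))
      (g := fun z : (ℕ × ℕ) × (α × (ℕ × Option (ℕ × ℕ))) =>
        bif bitAt (κ z.2.1) (2 * (z.2.2.1 - 1)) then
          (bif bitAt (κ z.2.1) (2 * (z.2.2.1 - 1) + 1) then none else
            some (z.2.2.1 - 1 + 1, z.1.2))
        else some (z.1.1, z.2.2.1 - 1 + 1)) (by fun_prop) (by fun_prop) (by fun_prop)
    refine this.of_eq (fun z => ?_)
    rcases z.2.2 with _ | ⟨a, b⟩ <;> rfl
  have hit : ∀ (a : α) (k : ℕ), k ≤ j a → ((fun y => st (a, y))^[k] (j a, o a)).1 = j a - k ∧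
      opOf (bitAt (κ a)) (j a - k) ((fun y => st (a, y))^[k] (j a, o a)).2 =
        opOf (bitAt (κ a)) (j a) (o a) := by
    intro a k hk
    induction k with
    | zero => exact ⟨rfl, rfl⟩
    | succ k ih =>
      obtain ⟨h1, h2⟩ := ih (by omega)
      rw [Function.iterate_succ_apply']
      generalize (fun y => st (a, y))^[k] (j a, o a) = y at h1 h2
      obtain ⟨i, u⟩ := y
      simp only at h1 h2
      subst h1
      refine ⟨?_, ?_⟩
      · simp only [st]; omega
      · rw [← h2, show j a - k = (j a - (k + 1)) + 1 by omega]
        rfl
  have hsz : ∀ (a : α) (k : ℕ), k ≤ j a →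
      size ((fun y => st (a, y))^[k] (j a, o a)) ≤ 8 * size (j a) + size (o a) + 20 := by
    intro a k hk
    -- the numbers never exceed the given bound
    have h1 : ∀ k, k ≤ j a → ((fun y => st (a, y))^[k] (j a, o a)).2 = none ∨
        ∃ x y, ((fun y => st (a, y))^[k] (j a, o a)).2 = some (x, y) ∧
          (size x ≤ size (o a) + size (j a) ∧ size y ≤ size (o a) + size (j a)) ∧
          (size x + size y ≤ size (o a) + 2 * size (j a)) := by
      intro k hk
      induction k with
      | zero =>
        show (o a) = none ∨ _
        rcases h : o a with _ | ⟨x, y⟩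
        · exact Or.inl rfl
        · right
          refine ⟨x, y, by rw [Function.iterate_zero_apply], ?_⟩
          rw [size_some, size_pair]
          omega
      | succ k ih =>
        have h2 := (hit a k (by omega)).1
        have h3 := ih (by omega)
        rw [Function.iterate_succ_apply']
        generalize (fun y => st (a, y))^[k] (j a, o a) = y at h2 h3
        obtain ⟨i, u⟩ := y
        simp only at h2 h3
        subst h2
        rcases h3 with rfl | ⟨x, y, rfl, h4, h5⟩
        · exact Or.inl rfl
        · simp only [st, lvl]
          have h6 : size (j a - k - 1 + 1) ≤ size (j a) := by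
            rw [size_nat, size_nat]; omega
          cases bitAt (κ a) (2 * (j a - k - 1)) with
          | false =>
            right
            refine ⟨_, _, rfl, ?_, ?_⟩
            · omega
            · omega
          | true =>
            cases bitAt (κ a) (2 * (j a - k - 1) + 1) with
            | true => exact Or.inl rfl
            | false =>
              right
              refine ⟨_, _, rfl, ?_, ?_⟩
              · omega
              · omega
    have h2 := (hit a k hk).1
    have h3 := h1 k hk
    generalize (fun y => st (a, y))^[k] (j a, o a) = y at h2 h3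
    obtain ⟨i, u⟩ := y
    simp only at h2 h3
    subst h2
    rw [size_pair]
    have h6 : size (j a - k) ≤ size (j a) := by
      rw [size_nat, size_nat]; omega
    rcases h3 with rfl | ⟨x, y, rfl, h4, h5⟩
    · rw [size_none]; omega
    · rw [size_some, size_pair]; omega
  have := (PT.iterate (m := m) (s := st) (ini := fun a => (j a, o a)) hj (by fun_prop) hst
    (8 * p + q + 20) (by
      intro a k hk
      have h1 := hsz a k hk
      have h2 := hp a
      have h3 := hq a
      simp only [Polynomial.eval_add, Polynomial.eval_mul, Polynomial.eval_ofNat]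
      omega)).snd'
  refine this.of_eq (fun a => ?_)
  have h := (hit a (j a) le_rfl).2
  rw [Nat.sub_self] at h
  exact h.symm

/-! ### The effect of the schedule on registers -/

/-- The elementary operation on registers. -/
def act (s : List Bool → List Bool) (o : Option (ℕ × ℕ)) (R : ℕ → List Bool) : ℕ → List Bool :=
  match o with
  | none => R
  | some (a, b) => Function.update R b (xorl (R b) (s (R a)))

/-- The elementary operations `F 0, F 1, …, F (n - 1)` one after the other. -/
def seqR (s : List Bool → List Bool) (F : ℕ → Option (ℕ × ℕ)) :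
    ℕ → (ℕ → List Bool) → (ℕ → List Bool)
  | 0, R => R
  | n + 1, R => act s (F n) (seqR s F n R)

theorem seqR_add (s : List Bool → List Bool) (F : ℕ → Option (ℕ × ℕ)) (k n : ℕ)
    (R : ℕ → List Bool) :
    seqR s F (k + n) R = seqR s (fun i => F (k + i)) n (seqR s F k R) := by
  induction n with
  | zero => rfl
  | succ n ih =>
    rw [← Nat.add_assoc]
    show act s (F (k + n)) (seqR s F (k + n) R) = _
    rw [ih]
    rfl

theorem seqR_congr (s : List Bool → List Bool) {F F' : ℕ → Option (ℕ × ℕ)} {n : ℕ}
    (h : ∀ t < n, F t = F' t) (R : ℕ → List Bool) : seqR s F n R = seqR s F' n R := by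
  induction n with
  | zero => rfl
  | succ n ih =>
    show act s (F n) (seqR s F n R) = act s (F' n) (seqR s F' n R)
    rw [h n (by omega), ih (fun t ht => h t (by omega))]

theorem seqR_none (s : List Bool → List Bool) (n : ℕ) (R : ℕ → List Bool) :
    seqR s (fun _ => none) n R = R := by
  induction n with
  | zero => rfl
  | succ n ih => exact ih

theorem length_iterate {s : List Bool → List Bool} (hs : ∀ y, (s y).length = y.length)
    (k : ℕ) (y : List Bool) : (s^[k] y).length = y.length := by
  induction k with
  | zero => rfl
  | succ k ih => rw [Function.iterate_succ_apply', hs, ih]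

theorem testBit_four_low {j q t i : ℕ} (ht : t < 4 ^ j) (hi : i < 2 * j) :
    (q * 4 ^ j + t).testBit i = t.testBit i := by
  have h4 : 4 ^ j = 2 ^ (2 * j) := by rw [pow_mul]; norm_num
  rw [h4, Nat.mul_comm]
  rw [Nat.testBit_two_pow_mul_add q (by rw [← h4]; exact ht), if_pos hi]

theorem testBit_four_high {j q t i : ℕ} (ht : t < 4 ^ j) (hi : 2 * j ≤ i) :
    (q * 4 ^ j + t).testBit i = q.testBit (i - 2 * j) := by
  have h4 : 4 ^ j = 2 ^ (2 * j) := by rw [pow_mul]; norm_num
  rw [h4, Nat.mul_comm]
  rw [Nat.testBit_two_pow_mul_add q (by rw [← h4]; exact ht), if_neg (by omega)]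

theorem opOf_block {j q t : ℕ} (ht : t < 4 ^ j) (o : Option (ℕ × ℕ)) :
    opOf (Nat.testBit (q * 4 ^ j + t)) (j + 1) o =
      opOf (Nat.testBit t) j (lvl (fun i => q.testBit (i - 2 * j)) j o) := by
  simp only [opOf]
  rw [opOf_congr (c := Nat.testBit (q * 4 ^ j + t)) (c' := Nat.testBit t)
    (fun i hi => testBit_four_low ht hi)]
  congr 1
  cases o with
  | none => rfl
  | some p =>
    obtain ⟨a, b⟩ := p
    simp only [lvl]
    rw [testBit_four_high ht le_rfl, testBit_four_high ht (by omega)]

/-- The recursive procedure: `4 ^ j` elementary operations add `s ^ (2 ^ j)` of register `a`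
to register `b`, if the auxiliary registers `1, …, j` are clear. -/
theorem bennett {s : List Bool → List Bool} (hs : ∀ y, (s y).length = y.length) {w : ℕ} (j : ℕ) :
    ∀ (a b : ℕ) (R : ℕ → List Bool), a ≠ b → (a = 0 ∨ j < a) → (b = 0 ∨ j < b) →
      (∀ i, 1 ≤ i → i ≤ j → R i = List.replicate w false) → (∀ i, (R i).length = w) →
      seqR s (fun t => opOf (Nat.testBit t) j (some (a, b))) (4 ^ j) R =
        Function.update R b (xorl (R b) (s^[2 ^ j] (R a))) := by
  induction j with
  | zero => intro a b R _ _ _ _ _; rfl
  | succ j ih =>
    intro a b R hab ha hb hR hw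
    have hblock : ∀ (q : ℕ) (a' b' : ℕ) (R' : ℕ → List Bool),
        lvl (fun i => q.testBit (i - 2 * j)) j (some (a, b)) = some (a', b') →
        seqR s (fun t => opOf (Nat.testBit (q * 4 ^ j + t)) (j + 1) (some (a, b))) (4 ^ j) R' =
          seqR s (fun t => opOf (Nat.testBit t) j (some (a', b'))) (4 ^ j) R' := by
      intro q a' b' R' h
      apply seqR_congr
      intro t ht
      rw [opOf_block ht, h]
    have hlvl : ∀ q : ℕ, lvl (fun i => q.testBit (i - 2 * j)) j (some (a, b)) =
        bif q.testBit 0 then (bif q.testBit 1 then none else some (j + 1, b))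
          else some (a, j + 1) := by
      intro q
      simp only [lvl, Nat.sub_self]
      rw [show 2 * j + 1 - 2 * j = 1 by omega]
    let G : ℕ → ℕ → Option (ℕ × ℕ) := fun q t =>
      opOf (Nat.testBit (q * 4 ^ j + t)) (j + 1) (some (a, b))
    have hsplit : seqR s (fun t => opOf (Nat.testBit t) (j + 1) (some (a, b))) (4 ^ (j + 1)) R =
        seqR s (G 3) (4 ^ j) (seqR s (G 2) (4 ^ j) (seqR s (G 1) (4 ^ j)
          (seqR s (G 0) (4 ^ j) R))) := by
      rw [show 4 ^ (j + 1) = 4 ^ j + (4 ^ j + (4 ^ j + 4 ^ j)) by rw [pow_succ]; omega]
      rw [seqR_add, seqR_add, seqR_add]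
      have e3 : (fun i => opOf (4 ^ j + (4 ^ j + (4 ^ j + i))).testBit (j + 1) (some (a, b))) =
          G 3 := by
        funext i
        simp only [G]
        rw [show 4 ^ j + (4 ^ j + (4 ^ j + i)) = 3 * 4 ^ j + i by omega]
      have e2 : (fun i => opOf (4 ^ j + (4 ^ j + i)).testBit (j + 1) (some (a, b))) = G 2 := by
        funext i
        simp only [G]
        rw [show 4 ^ j + (4 ^ j + i) = 2 * 4 ^ j + i by omega]
      have e1 : (fun i => opOf (4 ^ j + i).testBit (j + 1) (some (a, b))) = G 1 := by
        funext i
        simp only [G]
        rw [show 4 ^ j + i = 1 * 4 ^ j + i by omega]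
      have e0 : (fun i => opOf (Nat.testBit i) (j + 1) (some (a, b))) = G 0 := by
        funext i
        simp only [G]
        rw [show i = 0 * 4 ^ j + i by omega]
        congr 2
        omega
      rw [e3, e2, e1, e0]
    rw [hsplit]
    -- first quarter
    have hz : R (j + 1) = List.replicate w false := hR (j + 1) (by omega) le_rfl
    set V := s^[2 ^ j] (R a) with hV
    have hVlen : V.length = w := by rw [hV, length_iterate hs, hw]
    have h1 : seqR s (G 0) (4 ^ j) R = Function.update R (j + 1) V := by
      have h := hblock 0 a (j + 1) R (by rw [hlvl]; simp)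
      have h' : seqR s (G 0) (4 ^ j) R = _ := h
      rw [h', ih a (j + 1) R (by omega) (by omega) (by omega)
        (fun i h1 h2 => hR i h1 (by omega)) hw, hz, xorl_zero _ (by rw [← hV]; exact hVlen)]
    rw [h1]
    set R₁ := Function.update R (j + 1) V with hR₁
    have hR₁w : ∀ i, (R₁ i).length = w := by
      intro i
      by_cases hi : i = j + 1
      · subst hi; rw [hR₁, Function.update_self]; exact hVlen
      · rw [hR₁, Function.update_of_ne hi]; exact hw i
    have hR₁z : ∀ i, 1 ≤ i → i ≤ j → R₁ i = List.replicate w false := by
      intro i hi hi'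
      rw [hR₁, Function.update_of_ne (by omega)]
      exact hR i hi (by omega)
    -- second quarter
    set W := xorl (R b) (s^[2 ^ (j + 1)] (R a)) with hW
    have h2 : seqR s (G 1) (4 ^ j) R₁ = Function.update R₁ b W := by
      have h := hblock 1 (j + 1) b R₁ (by rw [hlvl]; simp [Nat.testBit])
      have h' : seqR s (G 1) (4 ^ j) R₁ = _ := h
      rw [h', ih (j + 1) b R₁ (by omega) (by omega) (by omega) hR₁z hR₁w]
      congr 1
      have e1 : R₁ b = R b := by rw [hR₁, Function.update_of_ne (by omega)]
      have e2 : R₁ (j + 1) = V := by rw [hR₁, Function.update_self]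
      rw [e1, e2, hV, ← Function.iterate_add_apply, hW]
      congr 2
      rw [pow_succ]; omega
    rw [h2]
    set R₂ := Function.update R₁ b W with hR₂
    have hR₂w : ∀ i, (R₂ i).length = w := by
      intro i
      by_cases hi : i = b
      · subst hi; rw [hR₂, Function.update_self, hW, length_xorl]; exact hw _
      · rw [hR₂, Function.update_of_ne hi]; exact hR₁w i
    have hR₂z : ∀ i, 1 ≤ i → i ≤ j → R₂ i = List.replicate w false := by
      intro i hi hi'
      rw [hR₂, Function.update_of_ne (by omega)]
      exact hR₁z i hi (by omega)
    -- third quarter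
    have h3 : seqR s (G 2) (4 ^ j) R₂ = Function.update R₂ (j + 1) (R (j + 1)) := by
      have h := hblock 2 a (j + 1) R₂ (by rw [hlvl]; simp [Nat.testBit])
      have h' : seqR s (G 2) (4 ^ j) R₂ = _ := h
      rw [h', ih a (j + 1) R₂ (by omega) (by omega) (by omega) hR₂z hR₂w]
      congr 1
      have e1 : R₂ (j + 1) = V := by
        rw [hR₂, Function.update_of_ne (by omega), hR₁, Function.update_self]
      have e2 : R₂ a = R a := by
        rw [hR₂, Function.update_of_ne hab, hR₁, Function.update_of_ne (by omega)]
      rw [e1, e2, ← hV, xorl_self, hVlen, hz]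
    rw [h3]
    -- last quarter
    have h4 : ∀ R', seqR s (G 3) (4 ^ j) R' = R' := by
      intro R'
      have : seqR s (G 3) (4 ^ j) R' = seqR s (fun _ => none) (4 ^ j) R' := by
        apply seqR_congr
        intro t ht
        simp only [G]
        rw [opOf_block ht, hlvl]
        simp [Nat.testBit, opOf_none]
      rw [this, seqR_none]
    rw [h4]
    funext i
    by_cases hi : i = j + 1
    · subst hi
      rw [Function.update_self, Function.update_of_ne (by omega)]
    · rw [Function.update_of_ne hi, hR₂]
      by_cases hi' : i = b
      · subst hi'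
        rw [Function.update_self, Function.update_self]
      · rw [Function.update_of_ne hi', Function.update_of_ne hi', hR₁,
          Function.update_of_ne hi]

/-! ### Registers in a word -/

/-- The registers `0, …, n - 1` one after the other. -/
def regs : ℕ → (ℕ → List Bool) → List Bool
  | 0, _ => []
  | n + 1, R => R 0 ++ regs n (fun i => R (i + 1))

/-- The data part of the word: the header, which tells the width `w`, and `w + 2` registers. -/
def enc (w : ℕ) (R : ℕ → List Bool) : List Bool :=
  List.replicate w true ++ false :: regs (w + 2) R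

theorem length_regs {w : ℕ} {R : ℕ → List Bool} (hR : ∀ i, (R i).length = w) (n : ℕ) :
    (regs n R).length = n * w := by
  induction n generalizing R with
  | zero => simp [regs]
  | succ n ih =>
    simp only [regs, List.length_append]
    rw [ih (fun i => hR (i + 1)), hR 0]
    ring

theorem length_enc {w : ℕ} {R : ℕ → List Bool} (hR : ∀ i, (R i).length = w) :
    (enc w R).length = w * w + 3 * w + 1 := by
  simp only [enc, List.length_append, List.length_replicate, List.length_cons]
  rw [length_regs hR]
  ring

theorem lead_enc (w : ℕ) (R : ℕ → List Bool) : lead (enc w R) = w := lead_append w _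

theorem slice_regs {w : ℕ} {R : ℕ → List Bool} (hR : ∀ i, (R i).length = w) {n a : ℕ}
    (ha : a < n) : ((regs n R).drop (a * w)).take w = R a := by
  induction n generalizing R a with
  | zero => omega
  | succ n ih =>
    cases a with
    | zero =>
      simp only [regs, Nat.zero_mul, List.drop_zero]
      rw [List.take_append_of_le_length (by rw [hR 0]), ← hR 0, List.take_length]
    | succ a =>
      simp only [regs]
      rw [show (a + 1) * w = (R 0).length + a * w by rw [hR 0]; ring, ← List.drop_drop,
        List.drop_left]
      exact ih (fun i => hR (i + 1)) (by omega)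

theorem xorl_regs {w : ℕ} {R : ℕ → List Bool} (hR : ∀ i, (R i).length = w) {n b : ℕ}
    (hb : b < n) (v : List Bool) (hv : v.length ≤ w) :
    xorl (regs n R) (List.replicate (b * w) false ++ v) =
      regs n (Function.update R b (xorl (R b) v)) := by
  induction n generalizing R b with
  | zero => omega
  | succ n ih =>
    cases b with
    | zero =>
      simp only [regs, Nat.zero_mul, List.replicate_zero, List.nil_append]
      rw [xorl_append _ _ _ (by rw [hR 0]; exact hv), Function.update_self]
      rfl
    | succ b =>
      simp only [regs]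
      rw [show (b + 1) * w = (R 0).length + b * w by rw [hR 0]; ring, List.replicate_add,
        List.append_assoc, xorl_append_zeros, ih (fun i => hR (i + 1)) (by omega)]
      rw [Function.update_of_ne (by omega)]
      congr 2
      funext i
      by_cases hi : i = b
      · subst hi; simp
      · rw [Function.update_of_ne hi, Function.update_of_ne (by omega)]

theorem slice_enc {w : ℕ} {R : ℕ → List Bool} (hR : ∀ i, (R i).length = w) {a : ℕ}
    (ha : a ≤ w + 1) : ((enc w R).drop ((a + 1) * w + 1)).take w = R a := by
  have e : (enc w R).drop ((a + 1) * w + 1) = (regs (w + 2) R).drop (a * w) := by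
    rw [show (a + 1) * w + 1 = (List.replicate w true).length + (1 + a * w) by
      rw [List.length_replicate]; ring, enc, ← List.drop_drop, List.drop_left, ← List.drop_drop]
    rfl
  rw [e]
  exact slice_regs hR (by omega)

theorem xorl_enc {w : ℕ} {R : ℕ → List Bool} (hR : ∀ i, (R i).length = w) {b : ℕ}
    (hb : b ≤ w + 1) (v : List Bool) (hv : v.length ≤ w) :
    xorl (enc w R) (List.replicate ((b + 1) * w + 1) false ++ v) =
      enc w (Function.update R b (xorl (R b) v)) := by
  have e : enc w R = (List.replicate w true ++ [false]) ++ regs (w + 2) R := by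
    simp [enc]
  have e2 : List.replicate ((b + 1) * w + 1) false ++ v =
      List.replicate (List.replicate w true ++ [false]).length false ++
        (List.replicate (b * w) false ++ v) := by
    rw [← List.append_assoc, ← List.replicate_add]
    congr 2
    simp
    ring
  rw [e, e2, xorl_append_zeros, xorl_regs hR (by omega) v hv]
  simp [enc]

/-! ### The elementary operation on words -/

/-- The elementary operation on the data part of the word. -/
def opW (s : List Bool → List Bool) (o : Option (ℕ × ℕ)) (d : List Bool) : List Bool :=
  match o with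
  | none => d
  | some (a, b) =>
      bif decide (a = b) then d else
        xorl d (List.replicate ((b + 1) * lead d + 1) false ++
          s ((d.drop ((a + 1) * lead d + 1)).take (lead d)))

@[simp] theorem length_opW (s : List Bool → List Bool) (o : Option (ℕ × ℕ)) (d : List Bool) :
    (opW s o d).length = d.length := by
  rcases o with _ | ⟨a, b⟩
  · rfl
  · simp only [opW]
    cases decide (a = b)
    · rw [cond_false, length_xorl]
    · rw [cond_true]

theorem bitAt_opW_low (s : List Bool → List Bool) (o : Option (ℕ × ℕ)) (d : List Bool) (i : ℕ)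
    (hi : i ≤ lead d) : bitAt (opW s o d) i = bitAt d i := by
  rcases o with _ | ⟨a, b⟩
  · rfl
  · simp only [opW]
    cases decide (a = b)
    · rw [cond_false, bitAt_xorl, bitAt_append, bitAt_replicate_false, List.length_replicate]
      have h1 : i < (b + 1) * lead d + 1 := by nlinarith
      rw [decide_eq_true h1, cond_true, Bool.xor_false]
      by_cases h2 : i < d.length
      · rw [decide_eq_true h2, Bool.true_and]
      · rw [decide_eq_false h2, Bool.false_and, bitAt_of_le (by omega)]
    · rw [cond_true]

theorem lead_opW (s : List Bool → List Bool) (o : Option (ℕ × ℕ)) (d : List Bool) :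
    lead (opW s o d) = lead d :=
  lead_congr (length_opW s o d).symm (fun i hi => (bitAt_opW_low s o d i hi).symm)

/-- The elementary operation is an involution. -/
theorem opW_opW {s : List Bool → List Bool} (hs : ∀ y, (s y).length = y.length)
    (o : Option (ℕ × ℕ)) (d : List Bool) : opW s o (opW s o d) = d := by
  rcases o with _ | ⟨a, b⟩
  · rfl
  · have hl := lead_opW s (some (a, b)) d
    by_cases hab : a = b
    · subst hab
      simp [opW]
    · have hslice : ((opW s (some (a, b)) d).drop ((a + 1) * lead d + 1)).take (lead d) =
          (d.drop ((a + 1) * lead d + 1)).take (lead d) := by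
        apply ext_bitAt
        · simp
        · intro i _
          rw [bitAt_take, bitAt_take]
          by_cases hi : i < lead d
          · rw [decide_eq_true hi, Bool.true_and, Bool.true_and, bitAt_drop, bitAt_drop]
            simp only [opW]
            rw [decide_eq_false hab, cond_false, bitAt_xorl, bitAt_append,
              bitAt_replicate_false, List.length_replicate]
            have h0 : bitAt d ((a + 1) * lead d + 1 + i) =
                (decide ((a + 1) * lead d + 1 + i < d.length) &&
                  bitAt d ((a + 1) * lead d + 1 + i)) := by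
              by_cases h : (a + 1) * lead d + 1 + i < d.length
              · rw [decide_eq_true h, Bool.true_and]
              · rw [decide_eq_false h, Bool.false_and, bitAt_of_le (by omega)]
            rcases Nat.lt_or_gt_of_ne hab with h | h
            · have h1 : (a + 1) * lead d + 1 + i < (b + 1) * lead d + 1 := by
                have : (a + 1) * lead d + lead d ≤ (b + 1) * lead d := by
                  rw [← Nat.succ_mul]
                  exact Nat.mul_le_mul_right _ (by omega)
                omega
              rw [decide_eq_true h1, cond_true, Bool.xor_false]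
              exact h0.symm
            · have h1 : (b + 1) * lead d + 1 + lead d ≤ (a + 1) * lead d + 1 + i := by
                have : (b + 1) * lead d + lead d ≤ (a + 1) * lead d := by
                  rw [← Nat.succ_mul]
                  exact Nat.mul_le_mul_right _ (by omega)
                omega
              have h2 : ¬ (a + 1) * lead d + 1 + i < (b + 1) * lead d + 1 := by omega
              rw [decide_eq_false h2, cond_false, bitAt_of_le (l := s _), Bool.xor_false]
              · exact h0.symm
              · rw [hs, List.length_take]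
                have := min_le_left (lead d) (d.drop ((a + 1) * lead d + 1)).length
                omega
          · rw [decide_eq_false hi, Bool.false_and, Bool.false_and]
      have e : ∀ d', opW s (some (a, b)) d' =
          xorl d' (List.replicate ((b + 1) * lead d' + 1) false ++
            s ((d'.drop ((a + 1) * lead d' + 1)).take (lead d'))) := by
        intro d'
        simp only [opW]
        rw [decide_eq_false hab, cond_false]
      rw [e (opW s (some (a, b)) d), hl, hslice, e d, xorl_xorl]

/-- The elementary operation on an encoded state. -/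
theorem opW_enc {s : List Bool → List Bool} (hs : ∀ y, (s y).length = y.length) {w : ℕ}
    {R : ℕ → List Bool} (hR : ∀ i, (R i).length = w) {a b : ℕ} (ha : a ≤ w + 1)
    (hb : b ≤ w + 1) (hab : a ≠ b) :
    opW s (some (a, b)) (enc w R) = enc w (act s (some (a, b)) R) := by
  simp only [opW, act]
  rw [decide_eq_false hab, cond_false, lead_enc, slice_enc hR ha]
  exact xorl_enc hR hb _ (by rw [hs, hR])

theorem PT.opW' {s : List Bool → List Bool} (hs : PT m s) {o : α → Option (ℕ × ℕ)}
    {d : α → List Bool} (ho : PT m o) (hd : PT m d) : PT m (fun a => opW s (o a) (d a)) := by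
  have h1 : PT m (fun z : (ℕ × ℕ) × α =>
      bif decide (z.1.1 = z.1.2) then d z.2 else
        xorl (d z.2) (List.replicate ((z.1.2 + 1) * lead (d z.2) + 1) false ++
          s (((d z.2).drop ((z.1.1 + 1) * lead (d z.2) + 1)).take (lead (d z.2))))) := by
    fun_prop
  have := PT.optCase (m := m) (o := o) (f := d) (g := fun z : (ℕ × ℕ) × α =>
      bif decide (z.1.1 = z.1.2) then d z.2 else
        xorl (d z.2) (List.replicate ((z.1.2 + 1) * lead (d z.2) + 1) false ++
          s (((d z.2).drop ((z.1.1 + 1) * lead (d z.2) + 1)).take (lead (d z.2)))))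
    ho hd h1
  refine this.of_eq (fun a => ?_)
  rcases o a with _ | ⟨x, y⟩ <;> rfl

end Pool.Agent.PPS
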