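import Pool.Agent.PPS.Bits
import Pool.Agent.PPS.Bridge

/-!
# Cycles of permutations in polynomial space, and the collapse of the function classes
-/

namespace Pool.Agent.PPS

variable {m : Bool} {α β γ δ σ τ : Type} [Rep α] [Rep β] [Rep γ] [Rep δ] [Rep σ] [Rep τ]

/-! ### The order of words -/

/-- Comparison of two words of the same length, as binary numbers. -/
def ltAux : List Bool → List Bool → Bool → Bool
  | [], _, c => c
  | a :: u, v, c => ltAux u v.tail (bif (a == v.headD false) then c else v.headD false)

/-- Comparison of two words of the same length, as binary numbers. -/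
def ltb (u v : List Bool) : Bool := ltAux u v false

theorem val_inj {u v : List Bool} (h : u.length = v.length) (h' : val u = val v) : u = v := by
  rw [← bits_val u, ← bits_val v, h, h']

theorem ltAux_eq {u v : List Bool} (h : u.length = v.length) (c : Bool) :
    ltAux u v c = bif decide (val u = val v) then c else decide (val u < val v) := by
  induction u generalizing v c with
  | nil =>
    rw [List.length_nil] at h
    rw [List.length_eq_zero_iff.mp h.symm]
    rfl
  | cons a u ih =>
    cases v with
    | nil => simp at h
    | cons b v =>
      have e1 : val (a :: u) = a.toNat + 2 * val u := rfl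
      have e2 : val (b :: v) = b.toNat + 2 * val v := rfl
      have ha := Bool.toNat_lt a
      have hb := Bool.toNat_lt b
      show ltAux u v (bif (a == b) then c else b) = _
      rw [ih (by simpa using h)]
      rcases lt_trichotomy (val u) (val v) with h3 | h3 | h3
      · have h4 : val (a :: u) < val (b :: v) := by omega
        rw [decide_eq_false (ne_of_lt h3), decide_eq_true h3, decide_eq_false (ne_of_lt h4),
          decide_eq_true h4]
        rfl
      · rw [decide_eq_true h3, cond_true]
        cases a <;> cases b
        · have h4 : val (false :: u) = val (false :: v) := by omega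
          rw [decide_eq_true h4]; rfl
        · have h4 : val (false :: u) < val (true :: v) := by
            simp only [Bool.toNat_false, Bool.toNat_true] at e1 e2; omega
          rw [decide_eq_false (ne_of_lt h4), decide_eq_true h4]; rfl
        · have h4 : val (false :: v) < val (true :: u) := by
            simp only [Bool.toNat_false, Bool.toNat_true] at e1 e2; omega
          rw [decide_eq_false (ne_of_gt h4), decide_eq_false (not_lt_of_gt h4)]; rfl
        · have h4 : val (true :: u) = val (true :: v) := by omega
          rw [decide_eq_true h4]; rfl
      · have h4 : val (b :: v) < val (a :: u) := by omega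
        rw [decide_eq_false (ne_of_gt h3), decide_eq_false (not_lt_of_gt h3),
          decide_eq_false (ne_of_gt h4), decide_eq_false (not_lt_of_gt h4)]
        rfl

theorem ltb_eq {u v : List Bool} (h : u.length = v.length) :
    ltb u v = decide (val u < val v) := by
  unfold ltb
  rw [ltAux_eq h]
  by_cases h3 : val u = val v
  · rw [decide_eq_true h3, cond_true]
    simp [h3]
  · rw [decide_eq_false h3, cond_false]

@[fun_prop]
theorem PT.ltb' {u v : α → List Bool} (hu : PT m u) (hv : PT m v) :
    PT m (fun a => ltb (u a) (v a)) := by
  obtain ⟨q, hq⟩ := hv.exists_size_le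
  let st : List Bool × Bool → Bool → List Bool × Bool :=
    fun y b => (y.1.tail, bif (b == y.1.headD false) then y.2 else y.1.headD false)
  have hfold : ∀ (u v : List Bool) (c : Bool), (u.foldl st (v, c)) =
      (v.drop u.length, ltAux u v c) := by
    intro u
    induction u with
    | nil => intro v c; rfl
    | cons b u ih =>
      intro v c
      rw [List.foldl_cons]
      show u.foldl st (v.tail, bif (b == v.headD false) then c else v.headD false) = _
      rw [ih]
      cases v <;> simp [ltAux]
  have := (PT.foldl (m := m) (s := fun z : α × ((List Bool × Bool) × Bool) =>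
    ((z.2.1.1.tail, bif (z.2.2 == z.2.1.1.headD false) then z.2.1.2 else
      z.2.1.1.headD false) : List Bool × Bool))
    (ini := fun a => (v a, false)) hu (by fun_prop) (by fun_prop)
    (q + 10) (by
      intro a k
      simp only
      change size (((u a).take k).foldl st (v a, false)) ≤ _
      rw [hfold, size_pair]
      have h1 := (size_drop_le (v a) ((u a).take k).length).trans (hq a)
      have h2 : ∀ c : Bool, size c ≤ 3 := by intro c; cases c <;> decide
      have h3 := h2 (ltAux ((u a).take k) (v a) false)
      simp only [Polynomial.eval_add, Polynomial.eval_ofNat]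
      omega)).snd'
  refine this.of_eq (fun a => ?_)
  exact (congrArg Prod.snd (hfold (u a) (v a) false)).symm

/-! ### Periodic points -/

theorem iterate_length {f : List Bool → List Bool} (hlen : ∀ x, (f x).length = x.length)
    (k : ℕ) (x : List Bool) : (f^[k] x).length = x.length := by
  induction k with
  | zero => rfl
  | succ k ih => rw [Function.iterate_succ_apply', hlen, ih]

theorem exists_period {f : List Bool → List Bool} (hinj : Function.Injective f)
    (hlen : ∀ x, (f x).length = x.length) (x : List Bool) : ∃ n, 0 < n ∧ f^[n] x = x := by
  have hfin : Finite {l : List Bool // l.length = x.length} :=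
    (List.finite_length_eq Bool x.length).to_subtype
  obtain ⟨i, j, hij, h⟩ := Finite.exists_ne_map_eq_of_infinite
    (fun k : ℕ => (⟨f^[k] x, iterate_length hlen k x⟩ : {l : List Bool // l.length = x.length}))
  have h' : f^[i] x = f^[j] x := congrArg Subtype.val h
  rcases Nat.lt_or_gt_of_ne hij with hlt | hlt
  · refine ⟨j - i, by omega, ?_⟩
    apply hinj.iterate i
    rw [← Function.iterate_add_apply, show i + (j - i) = j by omega, h']
  · refine ⟨i - j, by omega, ?_⟩
    apply hinj.iterate j
    rw [← Function.iterate_add_apply, show j + (i - j) = i by omega, h']

theorem size_word_le (x : List Bool) : size x ≤ 4 * x.length + 1 := (size_bits x).2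

theorem size_of_length_eq {x y : List Bool} (h : y.length = x.length) :
    size y ≤ 4 * size x + 1 := by
  have h1 := size_word_le y
  have h2 := length_le_size' x
  omega

/-! ### The least element of a cycle -/

section cycle

variable {f : Equiv.Perm (List Bool)} (hlen : ∀ x, (f x).length = x.length)

/-- One step of the search for the least element of the cycle. -/
def minStep (f : List Bool → List Bool) (z : List Bool × List Bool) : List Bool × List Bool :=
  (f z.1, bif ltb z.1 z.2 then z.1 else z.2)

include hlen in
theorem minStep_iterate (x : List Bool) (k : ℕ) :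
    ((minStep f)^[k] (f x, x)).1 = f^[k + 1] x ∧
    (∃ i ≤ k, ((minStep f)^[k] (f x, x)).2 = f^[i] x) ∧
    ∀ i ≤ k, val ((minStep f)^[k] (f x, x)).2 ≤ val (f^[i] x) := by
  induction k with
  | zero =>
    refine ⟨rfl, ⟨0, le_rfl, rfl⟩, ?_⟩
    intro i hi
    obtain rfl : i = 0 := by omega
    exact le_rfl
  | succ k ih =>
    rw [Function.iterate_succ_apply']
    generalize (minStep f)^[k] (f x, x) = z at ih
    obtain ⟨y, b⟩ := z
    obtain ⟨h1, ⟨i₀, hi₀, h2⟩, h3⟩ := ih
    simp only at h1 h2 h3
    subst h1
    have hle : (f^[k + 1] x).length = b.length := by
      rw [h2, iterate_length hlen, iterate_length hlen]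
    simp only [minStep]
    rw [ltb_eq hle]
    refine ⟨(Function.iterate_succ_apply' _ _ _).symm, ?_, ?_⟩
    · cases decide (val (f^[k + 1] x) < val b)
      · exact ⟨i₀, by omega, h2⟩
      · exact ⟨k + 1, le_rfl, rfl⟩
    · intro i hi
      by_cases hc : val (f^[k + 1] x) < val b
      · rw [decide_eq_true hc, cond_true]
        rcases Nat.lt_or_ge i (k + 1) with h | h
        · have := h3 i (by omega); omega
        · obtain rfl : i = k + 1 := by omega
          exact le_rfl
      · rw [decide_eq_false hc, cond_false]
        rcases Nat.lt_or_ge i (k + 1) with h | h
        · exact h3 i (by omega)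
        · obtain rfl : i = k + 1 := by omega
          omega

open Classical in
/-- The number of steps to return. -/
noncomputable def retTime (hlen : ∀ x, (f x).length = x.length) (x : List Bool) : ℕ :=
  Nat.find (exists_period f.injective hlen x)

theorem retTime_pos (x : List Bool) : 0 < retTime hlen x := by
  classical
  exact (Nat.find_spec (exists_period f.injective hlen x)).1

theorem iterate_retTime (x : List Bool) : f^[retTime hlen x] x = x := by
  classical
  exact (Nat.find_spec (exists_period f.injective hlen x)).2

theorem iterate_ne_of_lt (x : List Bool) {k : ℕ} (h0 : 0 < k) (h : k < retTime hlen x) :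
    f^[k] x ≠ x := by
  classical
  intro h'
  exact Nat.find_min (exists_period f.injective hlen x) h ⟨h0, h'⟩

/-- The least element of the cycle. -/
noncomputable def least (hlen : ∀ x, (f x).length = x.length) (x : List Bool) : List Bool :=
  ((minStep f)^[retTime hlen x - 1] (f x, x)).2

theorem exists_least (x : List Bool) : ∃ i, least hlen x = f^[i] x := by
  obtain ⟨i, -, h⟩ := (minStep_iterate hlen x (retTime hlen x - 1)).2.1
  exact ⟨i, h⟩

theorem least_le (x : List Bool) (i : ℕ) : val (least hlen x) ≤ val (f^[i] x) := by
  have h1 := (minStep_iterate hlen x (retTime hlen x - 1)).2.2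
  have hpos := retTime_pos hlen x
  have h2 : f^[i] x = f^[i % retTime hlen x] x := by
    conv_lhs => rw [← Nat.mod_add_div i (retTime hlen x)]
    rw [Function.iterate_add_apply]
    congr 1
    generalize i / retTime hlen x = q
    induction q with
    | zero => simp
    | succ q ih =>
      rw [Nat.mul_succ, Nat.add_comm, Function.iterate_add_apply, ih, iterate_retTime]
  rw [h2]
  have h3 := Nat.mod_lt i hpos
  exact h1 _ (by omega)

theorem length_least (x : List Bool) : (least hlen x).length = x.length := by
  obtain ⟨i, h⟩ := exists_least hlen x
  rw [h, iterate_length hlen]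

theorem exists_iterate_least (x : List Bool) : ∃ k, f^[k] (least hlen x) = x := by
  obtain ⟨i, h⟩ := exists_least hlen x
  have hpos := retTime_pos hlen x
  -- go on to the next multiple of the period
  refine ⟨i * retTime hlen x - i, ?_⟩
  have h2 : ∀ q, f^[q * retTime hlen x] x = x := by
    intro q
    induction q with
    | zero => simp
    | succ q ih => rw [Nat.succ_mul, Nat.add_comm, Function.iterate_add_apply, ih,
        iterate_retTime]
  rw [h, ← Function.iterate_add_apply]
  have h3 : i ≤ i * retTime hlen x := Nat.le_mul_of_pos_right _ hpos
  rw [Nat.sub_add_cancel h3]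
  exact h2 i

theorem least_apply (x : List Bool) : least hlen (f x) = least hlen x := by
  apply val_inj (by rw [length_least, length_least, hlen])
  apply le_antisymm
  · obtain ⟨i, h⟩ := exists_least hlen x
    -- the least element of the cycle of `x` is an iterate of `f x`
    have hpos := retTime_pos hlen x
    have h1 : f^[i + retTime hlen x] x = f^[i] x := by
      rw [Function.iterate_add_apply, iterate_retTime]
    have h2 : f^[i + retTime hlen x] x = f^[i + retTime hlen x - 1] (f x) := by
      rw [← Function.iterate_succ_apply]
      congr 2
      omega
    rw [h, ← h1, h2]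
    exact least_le hlen (f x) _
  · obtain ⟨i, h⟩ := exists_least hlen (f x)
    rw [h, ← Function.iterate_succ_apply]
    exact least_le hlen x _

theorem PT.least' (hf : PT false f) : PT false (least hlen) := by
  have key := (PT.loop (m := false) (ini := fun x : List Bool => (f x, x))
    (s := fun z : List Bool × (List Bool × List Bool) => minStep f z.2)
    (c := fun z : List Bool × (List Bool × List Bool) => !(decide (z.2.1 = z.1)))
    (fun x => retTime hlen x - 1) (hf.prodMk PT.id')
    (by
      have h1 : PT false (fun z : List Bool × (List Bool × List Bool) => f z.2.1) :=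
        hf.comp' (by fun_prop)
      unfold minStep
      fun_prop)
    (by fun_prop) (10 * Polynomial.X + 10) (by
      intro x k _
      obtain ⟨h1, ⟨i, -, h2⟩, -⟩ := minStep_iterate hlen x k
      have h1 : ((minStep f)^[k] (f x, x)).1 = f^[k + 1] x := h1
      simp only
      generalize (minStep f)^[k] (f x, x) = z at h1 h2
      obtain ⟨y, b⟩ := z
      simp only at h1 h2
      have h3 := size_of_length_eq (x := x) (y := y) (by rw [h1, iterate_length hlen])
      have h4 := size_of_length_eq (x := x) (y := b) (by rw [h2, iterate_length hlen])
      rw [size_pair]
      simp only [Polynomial.eval_add, Polynomial.eval_mul, Polynomial.eval_ofNat,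
        Polynomial.eval_X]
      omega) (by
      intro x k hk
      have h1 : ((minStep f)^[k] (f x, x)).1 = f^[k + 1] x := (minStep_iterate hlen x k).1
      simp only [h1]
      have := iterate_ne_of_lt hlen x (k := k + 1) (by omega) (by omega)
      simpa using this) (by
      intro x
      have h1 := (minStep_iterate hlen x (retTime hlen x - 1)).1
      have h2 := retTime_pos hlen x
      rw [show retTime hlen x - 1 + 1 = retTime hlen x by omega, iterate_retTime] at h1
      simp only [h1]
      simp) (by simp)).snd'
  exact key

open Classical in
/-- The position in the cycle. -/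
noncomputable def posn (hlen : ∀ x, (f x).length = x.length) (x : List Bool) : ℕ :=
  Nat.find (exists_iterate_least hlen x)

theorem iterate_posn (x : List Bool) : f^[posn hlen x] (least hlen x) = x := by
  classical
  exact Nat.find_spec (exists_iterate_least hlen x)

theorem iterate_ne_of_lt_posn (x : List Bool) {k : ℕ} (h : k < posn hlen x) :
    f^[k] (least hlen x) ≠ x := by
  classical
  exact Nat.find_min (exists_iterate_least hlen x) h

/-- The reversal: the element at position `k` of a cycle goes to the element at position
`-k`. -/
noncomputable def flip (hlen : ∀ x, (f x).length = x.length) (x : List Bool) : List Bool :=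
  f.symm^[posn hlen x] (least hlen x)

theorem pair_iterate {X Y : Type} (F : X → X) (G : Y → Y) (k : ℕ) (a : X) (b : Y) :
    (fun z : X × Y => (F z.1, G z.2))^[k] (a, b) = (F^[k] a, G^[k] b) := by
  induction k with
  | zero => rfl
  | succ k ih => rw [Function.iterate_succ_apply', ih, Function.iterate_succ_apply',
      Function.iterate_succ_apply']

theorem length_symm {f : Equiv.Perm (List Bool)} (hlen : ∀ x, (f x).length = x.length)
    (x : List Bool) : (f.symm x).length = x.length := by
  conv_rhs => rw [← f.apply_symm_apply x]
  rw [hlen]

theorem PT.flip' (hf : PT false f) (hf' : PT false f.symm) : PT false (flip hlen) := by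
  have h0 := PT.least' hlen hf
  have key := (PT.loop (m := false) (ini := fun x : List Bool => (least hlen x, least hlen x))
    (s := fun z : List Bool × (List Bool × List Bool) => (f z.2.1, f.symm z.2.2))
    (c := fun z : List Bool × (List Bool × List Bool) => !(decide (z.2.1 = z.1)))
    (fun x => posn hlen x) (h0.prodMk h0)
    (by
      have h1 : PT false (fun z : List Bool × (List Bool × List Bool) => f z.2.1) :=
        hf.comp' (by fun_prop)
      have h2 : PT false (fun z : List Bool × (List Bool × List Bool) => f.symm z.2.2) :=
        hf'.comp' (by fun_prop)
      fun_prop)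
    (by fun_prop) (10 * Polynomial.X + 10) (by
      intro x k _
      simp only
      rw [pair_iterate, size_pair]
      have h3 := size_of_length_eq (x := x) (y := f^[k] (least hlen x))
        (by rw [iterate_length hlen, length_least])
      have h4 := size_of_length_eq (x := x) (y := f.symm^[k] (least hlen x))
        (by rw [iterate_length (length_symm hlen), length_least])
      simp only [Polynomial.eval_add, Polynomial.eval_mul, Polynomial.eval_ofNat,
        Polynomial.eval_X]
      omega) (by
      intro x k hk
      simp only
      rw [pair_iterate]
      have := iterate_ne_of_lt_posn hlen x hk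
      simpa using this) (by
      intro x
      simp only
      rw [pair_iterate]
      simp [iterate_posn]) (by simp)).snd'
  refine key.of_eq (fun x => ?_)
  simp only
  rw [pair_iterate]
  rfl

theorem length_flip (x : List Bool) : (flip hlen x).length = x.length := by
  unfold flip
  rw [iterate_length (length_symm hlen), length_least]

theorem symm_iterate_eq {x r : List Bool} {k : ℕ} (h : f^[k] r = x) : f.symm^[k] x = r := by
  rw [← h]
  exact (Function.LeftInverse.iterate f.symm_apply_apply k) r

theorem iterate_comm_symm (j k : ℕ) (r : List Bool) :
    f^[j] (f.symm^[k] r) = f.symm^[k] (f^[j] r) := by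
  have h : Function.Commute f f.symm := by
    intro x; rw [f.symm_apply_apply, f.apply_symm_apply]
  exact (h.iterate_iterate j k) r

/-- The reversal does not depend on the choice of the position. -/
theorem flip_eq (x : List Bool) {k : ℕ} (h : f^[k] (least hlen x) = x) :
    flip hlen x = f.symm^[k] (least hlen x) := by
  unfold flip
  set r := least hlen x
  have h1 := iterate_posn hlen x
  -- apply `f ^ (k + posn)`
  apply (f.injective.iterate (k + posn hlen x))
  have e1 : f^[k + posn hlen x] (f.symm^[posn hlen x] r) = x := by
    rw [Function.iterate_add_apply, iterate_comm_symm]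
    rw [symm_iterate_eq (r := r) rfl]
    exact h
  have e2 : f^[k + posn hlen x] (f.symm^[k] r) = x := by
    rw [Nat.add_comm, Function.iterate_add_apply, iterate_comm_symm]
    rw [symm_iterate_eq (r := r) rfl]
    exact h1
  rw [e1, e2]

theorem least_iterate (x : List Bool) (k : ℕ) : least hlen (f^[k] x) = least hlen x := by
  induction k with
  | zero => rfl
  | succ k ih => rw [Function.iterate_succ_apply', least_apply, ih]

theorem flip_apply (x : List Bool) : flip hlen (f x) = f.symm (flip hlen x) := by
  have h1 := iterate_posn hlen x
  have h2 : f^[posn hlen x + 1] (least hlen (f x)) = f x := by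
    rw [Function.iterate_succ_apply', least_apply, h1]
  rw [flip_eq hlen (f x) h2, Function.iterate_succ_apply', least_apply]
  rfl

theorem flip_flip (x : List Bool) : flip hlen (flip hlen x) = x := by
  set r := least hlen x with hr
  have h1 := iterate_posn hlen x
  set k := posn hlen x with hk
  -- `f ^ (k T - k)` of `r` is `f ^ (-k)` of `r`
  have hT := iterate_retTime hlen r
  have hpos := retTime_pos hlen r
  set T := retTime hlen r
  have h2 : ∀ q, f^[q * T] r = r := by
    intro q
    induction q with
    | zero => simp
    | succ q ih => rw [Nat.succ_mul, Nat.add_comm, Function.iterate_add_apply, ih, hT]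
  have h3 : k ≤ k * T := Nat.le_mul_of_pos_right _ hpos
  have e1 : flip hlen x = f^[k * T - k] r := by
    show f.symm^[k] r = _
    apply symm_iterate_eq
    rw [← Function.iterate_add_apply, Nat.add_sub_cancel' h3, h2]
  have e2 : least hlen (flip hlen x) = r := by
    rw [e1, least_iterate]
    rw [hr]
    obtain ⟨i, hi⟩ := exists_least hlen x
    rw [hi, least_iterate, ← hi]
  rw [flip_eq hlen (flip hlen x) (k := k * T - k) (by rw [e2, e1]), e2]
  apply symm_iterate_eq
  rw [← h1, ← Function.iterate_add_apply, Nat.sub_add_cancel h3]
  exact h2 k

end cycle

/-! ### The collapse of the function classes -/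

theorem mem_P_iff' {G : List Bool → Bool} : {r | G r = true} ∈ P ↔ PT true G := by
  rw [mem_P_iff]
  constructor
  · intro h; refine h.of_eq (fun x => ?_); simp
  · intro h; refine h.of_eq (fun x => ?_); simp

theorem mem_PSPACE_iff' {G : List Bool → Bool} : {r | G r = true} ∈ PSPACE ↔ PT false G := by
  rw [mem_PSPACE_iff]
  constructor
  · intro h; refine h.of_eq (fun x => ?_); simp
  · intro h; refine h.of_eq (fun x => ?_); simp

theorem PT.of_collapse (h : P = PSPACE) {F : List Bool → β} (hF : PT false F) :
    PT true F := by
  obtain ⟨p, hp⟩ := hF.exists_size_le
  let W : List Bool → ℕ := fun x => p.eval (size x) + 1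
  let U : List Bool → List Bool := fun x => padTo (W x) (code (F x))
  have hW : ∀ m, PT m W := by
    intro m
    have h1 : PT m (fun x : List Bool => p.eval (size x)) := PT.polyEval (by fun_prop) p
    exact h1.succ'
  have hU : PT false U := PT.padTo' (hW false) hF.code'
  have hUlen : ∀ x, (U x).length = W x := by
    intro x
    apply length_padTo
    have h1 : (code (F x)).length = size (F x) := rfl
    have h2 := hp x
    simp only [W]
    omega
  let G : List Bool → Bool := fun r =>
    bitAt (U (toWord (hd (decodeD r)))) (toNat (tl (decodeD r)))
  have hG : PT false G := by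
    have h1 : PT false (fun r : List Bool => U (toWord (hd (decodeD r)))) :=
      hU.comp' (by fun_prop)
    simp only [G]
    fun_prop
  have hL : {r | G r = true} ∈ PSPACE := mem_PSPACE_iff'.mpr hG
  rw [← h, mem_P_iff'] at hL
  have hbit : PT true (fun z : List Bool × ℕ => bitAt (U z.1) z.2) := by
    have h1 : PT true (fun z : List Bool × ℕ => G (code z)) := hL.comp' (PT.code' PT.id')
    refine h1.of_eq (fun z => ?_)
    simp only [G]
    rw [decodeD_codeT, hd_rep, tl_rep, toWord_rep, toNat_rep]
  -- compute `U` letter by letter
  let st : List Bool × (ℕ × List Bool) → ℕ × List Bool := fun z =>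
    (z.2.1 - 1, bitAt (U z.1) (z.2.1 - 1) :: z.2.2)
  have hst : PT true st := by
    have h1 : PT true (fun z : List Bool × (ℕ × List Bool) => bitAt (U z.1) (z.2.1 - 1)) :=
      hbit.comp' (f := fun z : List Bool × (ℕ × List Bool) => (z.1, z.2.1 - 1)) (by fun_prop)
    simp only [st]
    fun_prop
  have hit : ∀ x k, k ≤ W x → (fun y => st (x, y))^[k] (W x, []) =
      (W x - k, (U x).drop (W x - k)) := by
    intro x k hk
    induction k with
    | zero =>
      rw [Function.iterate_zero_apply, Nat.sub_zero, ← hUlen x, List.drop_length]
    | succ k ih =>
      rw [Function.iterate_succ_apply', ih (by omega)]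
      simp only [st]
      rw [show W x - k - 1 = W x - (k + 1) by omega]
      have h1 : W x - (k + 1) < (U x).length := by rw [hUlen]; omega
      rw [List.drop_eq_getElem_cons h1, show W x - (k + 1) + 1 = W x - k by omega]
      congr 2
      unfold bitAt
      rw [List.getD_eq_getElem _ _ h1]
  have hU' : PT true U := by
    have key := (PT.iterate (m := true) (hW true) (ini := fun x => (W x, []))
      ((hW true).prodMk (PT.const' [])) hst (10 * p + 20) (by
        intro x k hk
        have h1 := hit x k hk
        rw [h1, size_pair, size_nat]
        have h2 := size_word_le ((U x).drop (W x - k))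
        rw [List.length_drop, hUlen] at h2
        simp only [Polynomial.eval_add, Polynomial.eval_mul, Polynomial.eval_ofNat]
        simp only [W] at h2 ⊢
        omega)).snd'
    refine key.of_eq (fun x => ?_)
    have h1 := hit x (W x) le_rfl
    rw [h1, Nat.sub_self]
    rfl
  have hrep : PT true (fun x => decodeD (unpad (U x))) := by fun_prop
  refine PT.congr_code hrep (fun x => ?_)
  simp only [U]
  rw [unpad_padTo, decodeD_codeT]
  rfl

end Pool.Agent.PPS
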