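import Pool.Agent.PPS.Tree

/-!
# Functions computed in polynomial time / polynomial space by stack programs
-/

namespace Pool.Agent.PPS

open Prog

/-- The store with `l` on stack `io` and all other stacks empty. -/
def one {ι : Type} [DecidableEq ι] (io : ι) (l : List Bool) : Store ι :=
  fun i => if i = io then l else []

/-- `PT m f`: the function `f` is computed by a stack program in polynomial space, and if
`m = true` also in polynomial time. -/
def PT (m : Bool) {α β : Type} [Rep α] [Rep β] (f : α → β) : Prop :=
  ∃ (ι : Type) (_ : DecidableEq ι) (_ : Finite ι) (c : Prog ι) (io : ι) (p : Polynomial ℕ),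
    ∀ a, ∃ T, Run (p.eval (size a)) T c (one io (code a)) (one io (code (f a))) ∧
      (m = true → T ≤ p.eval (size a))

theorem polyMono (p : Polynomial ℕ) {a b : ℕ} (h : a ≤ b) : p.eval a ≤ p.eval b := by
  rw [Polynomial.eval_eq_sum, Polynomial.eval_eq_sum]
  exact Finset.sum_le_sum fun i _ => Nat.mul_le_mul_left _ (Nat.pow_le_pow_left h i)

theorem Exec.length_le {ι : Type} [DecidableEq ι] {B : ℕ} {c : Prog ι} {S S' : Store ι}
    {t : ℕ} (h : Exec B c S S' t) (hS : ∀ i, (S i).length ≤ B) :
    ∀ i, (S' i).length ≤ B := by
  have upd : ∀ {S : Store ι} (i : ι) (l : List Bool), (∀ i, (S i).length ≤ B) →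
      l.length ≤ B → ∀ j, (Function.update S i l j).length ≤ B := by
    intro S i l h hl j
    by_cases hj : j = i
    · subst hj; simpa using hl
    · simpa [Function.update_of_ne hj] using h j
  induction h with
  | skip S => exact hS
  | push S i b h => exact upd i _ hS (by simpa using h)
  | popN S S' i n f t u hS' h ih => exact ih hS
  | popF S S' i n f t u l hS' h ih =>
    exact ih (upd i l hS (by have := hS i; rw [hS'] at this; simp at this; omega))
  | popT S S' i n f t u l hS' h ih =>
    exact ih (upd i l hS (by have := hS i; rw [hS'] at this; simp at this; omega))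
  | seq S S' S'' a b u v h h' ih ih' => exact ih' (ih hS)
  | loopN S i a hS' => exact hS
  | loopF S i a l hS' =>
    exact upd i l hS (by have := hS i; rw [hS'] at this; simp at this; omega)
  | loopT S S' S'' i a l u v hS' h h' ih ih' =>
    exact ih' (ih (upd i l hS (by have := hS i; rw [hS'] at this; simp at this; omega)))

/-- A program for `f` with its polynomial, as data. -/
structure Impl (m : Bool) {α β : Type} [Rep α] [Rep β] (f : α → β) where
  ι : Type
  [dec : DecidableEq ι]
  [fin : Finite ι]
  c : Prog ι
  io : ι
  p : Polynomial ℕ
  le : ∀ n, n ≤ p.eval n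
  spec : ∀ a, ∃ T, Run (p.eval (size a)) T c (one io (code a)) (one io (code (f a))) ∧
      (m = true → T ≤ p.eval (size a))

attribute [instance] Impl.dec Impl.fin

variable {m : Bool} {α β γ σ : Type} [Rep α] [Rep β] [Rep γ] [Rep σ]

theorem PT.impl {f : α → β} (h : PT m f) : Nonempty (Impl m f) := by
  obtain ⟨ι, h1, h2, c, io, p, h3⟩ := h
  refine ⟨⟨ι, c, io, p + Polynomial.X, ?_, ?_⟩⟩
  · intro n; simp
  · intro a
    obtain ⟨T, hT, hm⟩ := h3 a
    refine ⟨T, hT.mono (by simp) le_rfl, fun h => (hm h).trans (by simp)⟩

theorem Impl.size_le {f : α → β} (I : Impl m f) (a : α) : size (f a) ≤ I.p.eval (size a) := by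
  obtain ⟨T, ⟨t, ht, hE⟩, hm⟩ := I.spec a
  have := hE.length_le (by
    intro i
    unfold one
    split_ifs
    · exact I.le _
    · simp) I.io
  simpa [one, size] using this

theorem PT.exists_size_le {f : α → β} (h : PT m f) :
    ∃ p : Polynomial ℕ, ∀ a, size (f a) ≤ p.eval (size a) := by
  obtain ⟨I⟩ := h.impl
  exact ⟨I.p, I.size_le⟩

theorem PT.of_true {f : α → β} (h : PT true f) : PT m f := by
  obtain ⟨ι, h1, h2, c, io, p, h3⟩ := h
  refine ⟨ι, h1, h2, c, io, p, fun a => ?_⟩
  obtain ⟨T, hT, hm⟩ := h3 a
  exact ⟨T, hT, fun _ => hm rfl⟩

/-! ### Calling a program -/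

/-- Apply the function computed by `c` to stack `a`, with auxiliary stack `t` and flag stack
`f`. -/
def callP {ι J : Type} (c : Prog ι) (io : ι) (e : ι → J) (a t f : J) : Prog J :=
  seq (seq (moveRev a t f) (moveRev t (e io) f))
    (seq (c.map e) (seq (moveRev (e io) t f) (moveRev t a f)))

theorem run_callRaw {ι : Type} [DecidableEq ι] {c : Prog ι} {io : ι} {J : Type}
    [DecidableEq J] (e : ι → J)
    (he : Function.Injective e) (a t g : J) (hat : a ≠ t) (hag : a ≠ g) (htg : t ≠ g)
    (ha : ∀ i, e i ≠ a) (ht : ∀ i, e i ≠ t) (hg : ∀ i, e i ≠ g) (x y : List Bool)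
    (R : Store J) (hRa : R a = x) (hRt : R t = []) (hRe : ∀ i, R (e i) = []) {B T : ℕ}
    (hT : Run B T c (one io x) (one io y))
    (hx : x.length ≤ B) (hy : y.length ≤ B) (hRg : (R g).length < B) :
    Run B (T + 8 * x.length + 8 * y.length + 20) (callP c io e a t g) R
      (Function.update R a y) := by
  -- first move
  have r1 := run_moveRev (B := B) (T := 4 * x.length + 5) hat hag htg R
    (by rw [hRa, hRt]; simpa using hx) hRg (by rw [hRa])
  rw [hRa, hRt, List.append_nil] at r1
  have r2 := run_moveRev (B := B) (T := 4 * x.length + 5) (ht io).symm htg (hg io)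
    (Function.update (Function.update R a []) t x.reverse)
    (by
      rw [Function.update_self, Function.update_of_ne (ht _), Function.update_of_ne (ha _), hRe]
      simpa using hx)
    (by rw [Function.update_of_ne htg.symm, Function.update_of_ne hag.symm]; exact hRg)
    (by rw [Function.update_self]; simp)
  rw [Function.update_self, List.reverse_reverse, Function.update_of_ne (ht _),
    Function.update_of_ne (ha _), hRe, List.append_nil, Function.update_idem] at r2
  obtain ⟨u, hu, hE⟩ := hT
  obtain ⟨R', h1, h2, h3⟩ := hE.map he
    (R := Function.update (Function.update (Function.update R a []) t []) (e io) x)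
    (by
      intro i
      by_cases hi : i = io
      · subst hi; simp [one]
      · rw [Function.update_of_ne (fun h => hi (he h)), Function.update_of_ne (ht i),
          Function.update_of_ne (ha i), hRe]
        simp [one, hi])
  have hR' : R' = Function.update (Function.update (Function.update R a []) t []) (e io) y := by
    funext j
    by_cases hj : ∃ i, e i = j
    · obtain ⟨i, rfl⟩ := hj
      rw [h1]
      by_cases hi : i = io
      · subst hi; simp [one]
      · rw [Function.update_of_ne (fun h => hi (he h)), Function.update_of_ne (ht i),
          Function.update_of_ne (ha i), hRe]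
        simp [one, hi]
    · push Not at hj
      rw [h2 j hj, Function.update_of_ne (fun h => hj _ h.symm),
        Function.update_of_ne (fun h => hj _ h.symm)]
  have r3 : Run B T (c.map e)
      (Function.update (Function.update (Function.update R a []) t []) (e io) x)
      (Function.update (Function.update (Function.update R a []) t []) (e io) y) :=
    ⟨u, hu, hR' ▸ h3⟩
  have r4 := run_moveRev (B := B) (T := 4 * y.length + 5) (ht io) (hg io) htg
    (Function.update (Function.update (Function.update R a []) t []) (e io) y)
    (by
      rw [Function.update_self, Function.update_of_ne (ht _).symm, Function.update_self]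
      simpa using hy)
    (by
      rw [Function.update_of_ne (hg _).symm, Function.update_of_ne htg.symm,
        Function.update_of_ne hag.symm]
      exact hRg)
    (by rw [Function.update_self])
  rw [Function.update_self, Function.update_of_ne (ht _).symm, Function.update_self,
    List.append_nil, Function.update_idem] at r4
  have r5 := run_moveRev (B := B) (T := 4 * y.length + 5) hat.symm htg hag
    (Function.update (Function.update (Function.update (Function.update R a []) t [])
      (e io) []) t y.reverse)
    (by
      rw [Function.update_self, Function.update_of_ne hat, Function.update_of_ne (ha _).symm,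
        Function.update_of_ne hat, Function.update_self]
      simpa using hy)
    (by
      rw [Function.update_of_ne htg.symm, Function.update_of_ne (hg _).symm,
        Function.update_of_ne htg.symm, Function.update_of_ne hag.symm]
      exact hRg)
    (by rw [Function.update_self]; simp)
  rw [Function.update_self, List.reverse_reverse, Function.update_of_ne hat,
    Function.update_of_ne (ha _).symm, Function.update_of_ne hat, Function.update_self,
    List.append_nil, Function.update_idem] at r5
  have h := (Run.seq (Run.seq r1 r2) (Run.seq r3 (Run.seq r4 r5))).mono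
    (T' := T + 8 * x.length + 8 * y.length + 20) le_rfl (by omega)
  unfold callP
  convert h using 1
  funext j
  by_cases hja : j = a
  · subst hja; simp
  by_cases hjt : j = t
  · subst hjt; simp [Function.update_of_ne hja, hRt]
  by_cases hje : j = e io
  · subst hje; simp [Function.update_of_ne hja, Function.update_of_ne hjt, hRe]
  simp [Function.update_of_ne hja, Function.update_of_ne hjt, Function.update_of_ne hje]

theorem run_callP {f : α → β} (I : Impl m f) {J : Type} [DecidableEq J] (e : I.ι → J)
    (he : Function.Injective e) (a t g : J) (hat : a ≠ t) (hag : a ≠ g) (htg : t ≠ g)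
    (ha : ∀ i, e i ≠ a) (ht : ∀ i, e i ≠ t) (hg : ∀ i, e i ≠ g) (x : α) (R : Store J)
    (hRa : R a = code x) (hRt : R t = []) (hRe : ∀ i, R (e i) = []) {B : ℕ}
    (hB : I.p.eval (size x) ≤ B) (hRg : (R g).length < B) :
    ∃ T, Run B T (callP I.c I.io e a t g) R (Function.update R a (code (f x))) ∧
      (m = true → T ≤ 20 * I.p.eval (size x) + 20) := by
  obtain ⟨T, hT, hm⟩ := I.spec x
  have hx : size x ≤ I.p.eval (size x) := I.le _
  have hfx : size (f x) ≤ I.p.eval (size x) := I.size_le x
  have hxl : (code x).length = size x := rfl
  have hfl : (code (f x)).length = size (f x) := rfl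
  refine ⟨_, run_callRaw e he a t g hat hag htg ha ht hg (code x) (code (f x)) R hRa hRt hRe
    (hT.mono hB le_rfl) (by omega) (by omega) hRg, ?_⟩
  intro h
  have := hm h
  omega

end Pool.Agent.PPS
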