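import Mathlib

/-!
# Stack programs

Structured programs over finitely many stacks of bits, with a big-step semantics that keeps
track of time and of the maximal stack height.
-/

namespace Pool.Agent.PPS

/-- Structured programs over stacks of bits indexed by `ι`. -/
inductive Prog (ι : Type) : Type
  | skip : Prog ι
  /-- push a bit on stack `i` -/
  | push (i : ι) (b : Bool) : Prog ι
  /-- pop stack `i` and branch: `n` if it was empty, `f` / `t` if the popped bit was
  `false` / `true` -/
  | pop (i : ι) (n f t : Prog ι) : Prog ι
  | seq (a b : Prog ι) : Prog ι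
  /-- pop stack `i`; if the popped bit was `true`, then run `a` and repeat, otherwise stop -/
  | loop (i : ι) (a : Prog ι) : Prog ι

/-- A store: the contents of all stacks (the head of a list is the top of the stack). -/
abbrev Store (ι : Type) := ι → List Bool

variable {ι : Type} [DecidableEq ι]

/-- `Exec B c S S' t`: the program `c` started on the store `S` ends with the store `S'` after
exactly `t` steps, and no push makes a stack higher than `B`. -/
inductive Exec (B : ℕ) : Prog ι → Store ι → Store ι → ℕ → Prop
  | skip (S : Store ι) : Exec B .skip S S 1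
  | push (S : Store ι) (i : ι) (b : Bool) (h : (S i).length < B) :
      Exec B (.push i b) S (Function.update S i (b :: S i)) 1
  | popN (S S' : Store ι) (i : ι) (n f t : Prog ι) (u : ℕ) (hS : S i = [])
      (h : Exec B n S S' u) : Exec B (.pop i n f t) S S' (u + 1)
  | popF (S S' : Store ι) (i : ι) (n f t : Prog ι) (u : ℕ) (l : List Bool)
      (hS : S i = false :: l) (h : Exec B f (Function.update S i l) S' u) :
      Exec B (.pop i n f t) S S' (u + 1)
  | popT (S S' : Store ι) (i : ι) (n f t : Prog ι) (u : ℕ) (l : List Bool)
      (hS : S i = true :: l) (h : Exec B t (Function.update S i l) S' u) :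
      Exec B (.pop i n f t) S S' (u + 1)
  | seq (S S' S'' : Store ι) (a b : Prog ι) (u v : ℕ)
      (h : Exec B a S S' u) (h' : Exec B b S' S'' v) : Exec B (.seq a b) S S'' (u + v)
  | loopN (S : Store ι) (i : ι) (a : Prog ι) (hS : S i = []) : Exec B (.loop i a) S S 1
  | loopF (S : Store ι) (i : ι) (a : Prog ι) (l : List Bool) (hS : S i = false :: l) :
      Exec B (.loop i a) S (Function.update S i l) 1
  | loopT (S S' S'' : Store ι) (i : ι) (a : Prog ι) (l : List Bool) (u v : ℕ)
      (hS : S i = true :: l) (h : Exec B a (Function.update S i l) S' u)
      (h' : Exec B (.loop i a) S' S'' v) : Exec B (.loop i a) S S'' (u + v + 1)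

namespace Prog

/-- Renaming of stacks. -/
def map {κ : Type} (e : ι → κ) : Prog ι → Prog κ
  | skip => skip
  | push i b => push (e i) b
  | pop i n f t => pop (e i) (n.map e) (f.map e) (t.map e)
  | seq a b => seq (a.map e) (b.map e)
  | loop i a => loop (e i) (a.map e)

end Prog

end Pool.Agent.PPS
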