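import Pool.Agent.PPS.Bennett
import Pool.Agent.PPS.PS

/-!
# A polynomial-time permutation whose time reversal is hard
-/

namespace Pool.Agent.PPS

variable {m : Bool} {α β γ δ σ τ : Type} [Rep α] [Rep β] [Rep γ] [Rep δ] [Rep σ] [Rep τ]

@[fun_prop]
theorem PT.half' {n : α → ℕ} (hn : PT m n) : PT m (fun a => n a / 2) := by
  obtain ⟨p, hp⟩ := hn.exists_size_le
  have hit : ∀ k : ℕ, (fun y : ℕ × Bool => ((bif y.2 then y.1 + 1 else y.1, !y.2) : ℕ × Bool))^[k]
      (0, false) = (k / 2, decide (k % 2 = 1)) := by
    intro k
    induction k with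
    | zero => rfl
    | succ k ih =>
      rw [Function.iterate_succ_apply', ih]
      rcases Nat.mod_two_eq_zero_or_one k with h | h
      · rw [show decide (k % 2 = 1) = false by simp [h],
          show decide ((k + 1) % 2 = 1) = true by simp; omega, show (k + 1) / 2 = k / 2 by omega]
        rfl
      · rw [show decide (k % 2 = 1) = true by simp [h],
          show decide ((k + 1) % 2 = 1) = false by simp; omega,
          show (k + 1) / 2 = k / 2 + 1 by omega]
        rfl
  have := (PT.iterate (m := m) (s := fun z : α × (ℕ × Bool) =>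
    ((bif z.2.2 then z.2.1 + 1 else z.2.1, !z.2.2) : ℕ × Bool)) (ini := fun _ => (0, false))
    hn (by fun_prop) (by fun_prop) (p + 10) (by
      intro a k hk
      simp only
      rw [hit, size_pair, size_nat]
      have h1 := hp a
      rw [size_nat] at h1
      have h2 : size (decide (k % 2 = 1)) ≤ 3 := by cases decide (k % 2 = 1) <;> decide
      simp only [Polynomial.eval_add, Polynomial.eval_ofNat]
      omega)).fst'
  refine this.of_eq (fun a => ?_)
  exact (congrArg Prod.fst (hit (n a))).symm

/-! ### The clock -/

/-- The active phases of the clock. -/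
def hot (p : List Bool) : Bool :=
  decide (p = bits 6 0) || (decide (p = bits 6 2) || (decide (p = bits 6 8) ||
    (decide (p = bits 6 18) || decide (p = bits 6 22))))

@[fun_prop]
theorem PT.hot' {p : α → List Bool} (hp : PT m p) : PT m (fun a => hot (p a)) := by
  unfold hot; fun_prop

/-- The elementary operation prescribed by the clock `κ`. -/
def sched (κ : List Bool) (w : ℕ) : Option (ℕ × ℕ) :=
  bif hot (κ.drop (κ.length - 6)) && decide ((κ.drop (2 * w)).take (κ.length - 6 - 2 * w) =
      List.replicate (κ.length - 6 - 2 * w) false)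
    then opOf (bitAt κ) w (some (w + 1, 0)) else none

@[fun_prop]
theorem PT.sched' {κ : α → List Bool} {w : α → ℕ} (hκ : PT m κ) (hw : PT m w) :
    PT m (fun a => sched (κ a) (w a)) := by
  have h1 : PT m (fun a => opOf (bitAt (κ a)) (w a) (some (w a + 1, 0))) :=
    PT.opOf' hκ hw (by fun_prop)
  unfold sched
  fun_prop

theorem take_bits (a b t : ℕ) : (bits (a + b) t).take a = bits a t := by
  rw [bits_add, List.take_left' (length_bits a t)]

theorem drop_bits (a b t : ℕ) : (bits (a + b) t).drop a = bits b (t / 2 ^ a) := by
  rw [bits_add, List.drop_left' (length_bits a t)]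

theorem sched_bits {w K : ℕ} (hw : 2 ≤ w) (hK : K = w * w + 3 * w + 1) (p r : ℕ)
    (hr : r < 2 ^ (K - 6)) :
    sched (bits K (p * 2 ^ (K - 6) + r)) w =
      bif hot (bits 6 p) && decide (r < 4 ^ w) then opOf (Nat.testBit r) w (some (w + 1, 0))
        else none := by
  have hww : 2 * w ≤ w * w := Nat.mul_le_mul_right w hw
  have h6 : 2 * w < K - 6 := by omega
  obtain ⟨c, hc⟩ : ∃ c, K = 2 * w + (c + 6) := ⟨K - 6 - 2 * w, by omega⟩
  have hK6 : K - 6 = 2 * w + c := by omega
  have hN : 2 ^ (K - 6) = 2 ^ (2 * w) * 2 ^ c := by rw [hK6, pow_add]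
  have e1 : (p * 2 ^ (K - 6) + r) / 2 ^ (K - 6) = p := by
    rw [Nat.mul_comm, Nat.mul_add_div (by positivity), Nat.div_eq_of_lt hr, Nat.add_zero]
  have e2 : (bits K (p * 2 ^ (K - 6) + r)).drop (K - 6) = bits 6 p := by
    have := drop_bits (K - 6) 6 (p * 2 ^ (K - 6) + r)
    rw [show K - 6 + 6 = K by omega, e1] at this
    exact this
  have e3 : ((bits K (p * 2 ^ (K - 6) + r)).drop (2 * w)).take (K - 6 - 2 * w) =
      bits c ((p * 2 ^ (K - 6) + r) / 2 ^ (2 * w)) := by
    have := drop_bits (2 * w) (c + 6) (p * 2 ^ (K - 6) + r)
    rw [← hc] at this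
    rw [this, show K - 6 - 2 * w = c by omega, take_bits]
  have e4 : ((p * 2 ^ (K - 6) + r) / 2 ^ (2 * w)) % 2 ^ c = r / 2 ^ (2 * w) := by
    have h1 : p * 2 ^ (K - 6) + r = 2 ^ (2 * w) * (p * 2 ^ c) + r := by rw [hN]; ring
    rw [h1, Nat.mul_add_div (by positivity), Nat.mul_comm p, Nat.mul_add_mod]
    apply Nat.mod_eq_of_lt
    rw [Nat.div_lt_iff_lt_mul (by positivity), Nat.mul_comm, ← hN]
    exact hr
  have e5 : decide (bits c ((p * 2 ^ (K - 6) + r) / 2 ^ (2 * w)) = List.replicate c false) =
      decide (r < 4 ^ w) := by
    apply decide_eq_decide.mpr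
    rw [bits_eq_replicate, e4, Nat.div_eq_zero_iff]
    have h4 : 4 ^ w = 2 ^ (2 * w) := by rw [pow_mul]; norm_num
    rw [h4]
    constructor
    · rintro (h | h)
      · exact absurd h (by positivity)
      · exact h
    · exact Or.inr
  have e6 : opOf (bitAt (bits K (p * 2 ^ (K - 6) + r))) w (some (w + 1, 0)) =
      opOf (Nat.testBit r) w (some (w + 1, 0)) := by
    apply opOf_congr
    intro i hi
    rw [bitAt_bits, decide_eq_true (by omega : i < K), Bool.true_and, Nat.mul_comm,
      Nat.testBit_two_pow_mul_add p hr, if_pos (by omega)]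
  unfold sched
  rw [length_bits, e2, e3, show K - 6 - 2 * w = c by omega, e5, e6]

theorem sched_cold {κ : List Bool} (w : ℕ) (h : hot (κ.drop (κ.length - 6)) = false) :
    sched κ w = none := by
  unfold sched
  rw [h, Bool.false_and, cond_false]

/-! ### The permutation -/

/-- The permutation: the first half of the word is a clock, which prescribes an elementary
operation on the second half. -/
def fwd (s : List Bool → List Bool) (z : List Bool) : List Bool :=
  inc (z.take (z.length / 2)) ++
    opW s (sched (z.take (z.length / 2)) (lead (z.drop (z.length / 2))))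
      (z.drop (z.length / 2))

/-- The inverse permutation. -/
def bwd (s : List Bool → List Bool) (z : List Bool) : List Bool :=
  dec (z.take (z.length / 2)) ++
    opW s (sched (dec (z.take (z.length / 2))) (lead (z.drop (z.length / 2))))
      (z.drop (z.length / 2))

theorem PT.fwd' {s : List Bool → List Bool} (hs : PT m s) : PT m (fwd s) := by
  have h1 : PT m (fun z : List Bool =>
      opW s (sched (z.take (z.length / 2)) (lead (z.drop (z.length / 2))))
        (z.drop (z.length / 2))) := PT.opW' hs (by fun_prop) (by fun_prop)
  unfold fwd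
  fun_prop

theorem PT.bwd' {s : List Bool → List Bool} (hs : PT m s) : PT m (bwd s) := by
  have h1 : PT m (fun z : List Bool =>
      opW s (sched (dec (z.take (z.length / 2))) (lead (z.drop (z.length / 2))))
        (z.drop (z.length / 2))) := PT.opW' hs (by fun_prop) (by fun_prop)
  unfold bwd
  fun_prop

@[simp] theorem length_fwd (s : List Bool → List Bool) (z : List Bool) :
    (fwd s z).length = z.length := by
  simp only [fwd, List.length_append, length_inc, length_opW, List.length_take,
    List.length_drop]
  omega

@[simp] theorem length_bwd (s : List Bool → List Bool) (z : List Bool) :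
    (bwd s z).length = z.length := by
  simp only [bwd, List.length_append, length_dec, length_opW, List.length_take,
    List.length_drop]
  omega

theorem take_half_append {κ d z : List Bool} (h : κ.length = z.length / 2)
    (h' : (κ ++ d).length = z.length) :
    (κ ++ d).take ((κ ++ d).length / 2) = κ ∧ (κ ++ d).drop ((κ ++ d).length / 2) = d := by
  rw [h', ← h]
  exact ⟨List.take_left, List.drop_left⟩

theorem bwd_fwd {s : List Bool → List Bool} (hs : ∀ y, (s y).length = y.length)
    (z : List Bool) : bwd s (fwd s z) = z := by
  have hl := length_fwd s z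
  have h1 : (inc (z.take (z.length / 2))).length = z.length / 2 := by
    rw [length_inc, List.length_take]; omega
  obtain ⟨h2, h3⟩ := take_half_append (z := z) h1 hl
  unfold bwd
  rw [show fwd s z = inc (z.take (z.length / 2)) ++
    opW s (sched (z.take (z.length / 2)) (lead (z.drop (z.length / 2))))
      (z.drop (z.length / 2)) from rfl] at hl ⊢
  rw [h2, h3, dec_inc, lead_opW, opW_opW hs, List.take_append_drop]

theorem fwd_bwd {s : List Bool → List Bool} (hs : ∀ y, (s y).length = y.length)
    (z : List Bool) : fwd s (bwd s z) = z := by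
  have hl := length_bwd s z
  have h1 : (dec (z.take (z.length / 2))).length = z.length / 2 := by
    rw [length_dec, List.length_take]; omega
  obtain ⟨h2, h3⟩ := take_half_append (z := z) h1 hl
  unfold fwd
  rw [show bwd s z = dec (z.take (z.length / 2)) ++
    opW s (sched (dec (z.take (z.length / 2))) (lead (z.drop (z.length / 2))))
      (z.drop (z.length / 2)) from rfl] at hl ⊢
  rw [h2, h3, inc_dec, lead_opW, opW_opW hs, List.take_append_drop]

/-- The permutation as an element of the symmetric group. -/
def revPerm (s : List Bool → List Bool) (hs : ∀ y, (s y).length = y.length) :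
    Equiv.Perm (List Bool) where
  toFun := fwd s
  invFun := bwd s
  left_inv := bwd_fwd hs
  right_inv := fwd_bwd hs

theorem fwd_append (s : List Bool → List Bool) {κ d : List Bool} (h : d.length = κ.length) :
    fwd s (κ ++ d) = inc κ ++ opW s (sched κ (lead d)) d := by
  have h1 : (κ ++ d).length / 2 = κ.length := by rw [List.length_append]; omega
  unfold fwd
  rw [h1, List.take_left, List.drop_left]

/-! ### Runs of the permutation -/

theorem fwd_idle (s : List Bool → List Bool) {K : ℕ} {d : List Bool} (hd : d.length = K)
    (t n : ℕ) (h : ∀ i < n, sched (bits K (t + i)) (lead d) = none) :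
    (fwd s)^[n] (bits K t ++ d) = bits K (t + n) ++ d := by
  induction n with
  | zero => rfl
  | succ n ih =>
    rw [Function.iterate_succ_apply', ih (fun i hi => h i (by omega)),
      fwd_append s (by rw [hd, length_bits]), inc_bits, h n (by omega)]
    rfl

theorem length_act {s : List Bool → List Bool} {w : ℕ} {R : ℕ → List Bool}
    (hR : ∀ i, (R i).length = w) (o : Option (ℕ × ℕ)) (i : ℕ) :
    (act s o R i).length = w := by
  rcases o with _ | ⟨a, b⟩
  · exact hR i
  · simp only [act]
    by_cases h : i = b
    · subst h; rw [Function.update_self, length_xorl]; exact hR _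
    · rw [Function.update_of_ne h]; exact hR i

theorem length_seqR {s : List Bool → List Bool} {w : ℕ} {R : ℕ → List Bool}
    (hR : ∀ i, (R i).length = w) (F : ℕ → Option (ℕ × ℕ)) (n i : ℕ) :
    (seqR s F n R i).length = w := by
  induction n generalizing i with
  | zero => exact hR i
  | succ n ih => exact length_act ih _ _

theorem fwd_enc {s : List Bool → List Bool} (hs : ∀ y, (s y).length = y.length) {w K : ℕ}
    (hK : K = w * w + 3 * w + 1) {R : ℕ → List Bool} (hR : ∀ i, (R i).length = w) (t n : ℕ)
    (F : ℕ → Option (ℕ × ℕ)) (hF : ∀ i < n, sched (bits K (t + i)) w = F i)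
    (hF' : ∀ i < n, ∀ a b, F i = some (a, b) → a ≠ b ∧ a ≤ w + 1 ∧ b ≤ w + 1) :
    (fwd s)^[n] (bits K t ++ enc w R) = bits K (t + n) ++ enc w (seqR s F n R) := by
  induction n with
  | zero => rfl
  | succ n ih =>
    have hlen := length_seqR (s := s) hR F n
    rw [Function.iterate_succ_apply', ih (fun i hi => hF i (by omega))
      (fun i hi => hF' i (by omega)),
      fwd_append s (by rw [length_enc hlen, length_bits, hK]), inc_bits, lead_enc,
      hF n (by omega)]
    have h1 : opW s (F n) (enc w (seqR s F n R)) = enc w (seqR s F (n + 1) R) := by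
      show _ = enc w (act s (F n) (seqR s F n R))
      rcases h : F n with _ | ⟨a, b⟩
      · rfl
      · obtain ⟨h1, h2, h3⟩ := hF' n (by omega) a b h
        exact opW_enc hs hlen h2 h3 h1
    rw [h1]
    rfl

/-- The effect of the permutation in one phase. -/
theorem fwd_phase {s : List Bool → List Bool} (hs : ∀ y, (s y).length = y.length) {w K : ℕ}
    (hw : 2 ≤ w) (hK : K = w * w + 3 * w + 1) {R : ℕ → List Bool}
    (hR : ∀ i, (R i).length = w) (hz : ∀ i, 1 ≤ i → i ≤ w → R i = List.replicate w false)
    (p : ℕ) :
    (fwd s)^[2 ^ (K - 6)] (bits K (p * 2 ^ (K - 6)) ++ enc w R) =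
      bits K ((p + 1) * 2 ^ (K - 6)) ++ enc w (bif hot (bits 6 p) then
        Function.update R 0 (xorl (R 0) (s^[2 ^ w] (R (w + 1)))) else R) := by
  let F : ℕ → Option (ℕ × ℕ) := fun r => bif hot (bits 6 p) && decide (r < 4 ^ w) then
    opOf (Nat.testBit r) w (some (w + 1, 0)) else none
  have hww : 2 * w ≤ w * w := Nat.mul_le_mul_right w hw
  have h4 : 4 ^ w ≤ 2 ^ (K - 6) := by
    have : 4 ^ w = 2 ^ (2 * w) := by rw [pow_mul]; norm_num
    rw [this]
    exact Nat.pow_le_pow_right (by norm_num) (by omega)
  rw [fwd_enc hs hK hR (p * 2 ^ (K - 6)) (2 ^ (K - 6)) F (fun i hi => sched_bits hw hK p i hi)]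
  · congr 2
    · ring
    · cases hp : hot (bits 6 p) with
      | false =>
        have : F = fun _ => none := by
          funext r; simp only [F, hp, Bool.false_and, cond_false]
        rw [this, seqR_none]
        rfl
      | true =>
        obtain ⟨e, he⟩ := Nat.exists_eq_add_of_le h4
        rw [he, seqR_add]
        have h5 : seqR s F (4 ^ w) R =
            Function.update R 0 (xorl (R 0) (s^[2 ^ w] (R (w + 1)))) := by
          rw [← bennett hs w (w + 1) 0 R (by omega) (by omega) (by omega) hz hR]
          apply seqR_congr
          intro t ht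
          simp only [F, hp, decide_eq_true ht, Bool.and_self, cond_true]
        have h6 : (fun i => F (4 ^ w + i)) = fun _ => none := by
          funext i
          simp only [F]
          rw [decide_eq_false (by omega : ¬ 4 ^ w + i < 4 ^ w), Bool.and_false, cond_false]
        rw [h6, seqR_none, h5]
        rfl
  · intro i hi a b hab
    simp only [F] at hab
    cases h : hot (bits 6 p) && decide (i < 4 ^ w) with
    | false => rw [h, cond_false] at hab; cases hab
    | true =>
      rw [h, cond_true] at hab
      exact opOf_spec _ w w (w + 1) 0 le_rfl (by omega) le_rfl (by omega) (by omega) (by omega)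
        hab

/-! ### The orbit of an instance -/

section orbit

variable (s : List Bool → List Bool) (y : List Bool)

/-- Size of the clock. -/
def clk (w : ℕ) : ℕ := w * w + 3 * w + 1

/-- The registers at the beginning of a phase: the last one holds `y`, the auxiliary ones are
clear, the first one is clear or holds the result. -/
def Rst (b : Bool) : ℕ → List Bool := fun i =>
  if i = 0 then (bif b then s^[2 ^ y.length] y else List.replicate y.length false)
  else if i ≤ y.length then List.replicate y.length false else y

/-- The word at the beginning of phase `p`. -/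
def Zst (p : ℕ) (b : Bool) : List Bool :=
  bits (clk y.length) (p * 2 ^ (clk y.length - 6)) ++ enc y.length (Rst s y b)

variable {s y}

theorem length_Rst (hs : ∀ y, (s y).length = y.length) (b : Bool) (i : ℕ) :
    (Rst s y b i).length = y.length := by
  simp only [Rst]
  split_ifs
  · cases b
    · simp
    · exact length_iterate hs _ _
  · simp
  · rfl

theorem length_Zst (hs : ∀ y, (s y).length = y.length) (p : ℕ) (b : Bool) :
    (Zst s y p b).length = 2 * clk y.length := by
  rw [Zst, List.length_append, length_bits, length_enc (length_Rst hs b)]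
  unfold clk
  ring

theorem Zst_step (hs : ∀ y, (s y).length = y.length) (hy : 2 ≤ y.length) (p : ℕ) (b : Bool) :
    (fwd s)^[2 ^ (clk y.length - 6)] (Zst s y p b) = Zst s y (p + 1) (xor b (hot (bits 6 p))) := by
  unfold Zst
  rw [fwd_phase hs hy (K := clk y.length) rfl (length_Rst hs b) (by
    intro i h1 h2
    simp only [Rst]
    rw [if_neg (by omega), if_pos h2])]
  congr 2
  cases hot (bits 6 p) with
  | false => rw [cond_false, Bool.xor_false]
  | true =>
    rw [cond_true]
    funext i
    by_cases hi : i = 0
    · subst hi
      rw [Function.update_self]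
      have e1 : Rst s y b (y.length + 1) = y := by simp [Rst]
      rw [e1]
      cases b
      · show xorl (List.replicate y.length false) _ = s^[2 ^ y.length] y
        exact xorl_zero _ (length_iterate hs _ _)
      · show xorl (s^[2 ^ y.length] y) _ = List.replicate y.length false
        rw [xorl_self, length_iterate hs]
    · rw [Function.update_of_ne hi]
      simp [Rst, hi]

/-- The parity of the number of active phases before phase `p`. -/
def par : ℕ → Bool
  | 0 => false
  | p + 1 => xor (par p) (hot (bits 6 p))

theorem Zst_iterate (hs : ∀ y, (s y).length = y.length) (hy : 2 ≤ y.length) (p : ℕ) :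
    (fwd s)^[p * 2 ^ (clk y.length - 6)] (Zst s y 0 false) = Zst s y p (par p) := by
  induction p with
  | zero => simp [par]
  | succ p ih =>
    rw [Nat.succ_mul, Nat.add_comm, Function.iterate_add_apply, ih, Zst_step hs hy]
    rfl

theorem take_iterate_fwd {K : ℕ} {z : List Bool} (hz : z.length = 2 * K) (n : ℕ) :
    ((fwd s)^[n] z).take K = bits K (val (z.take K) + n) := by
  have hlen : ∀ n, ((fwd s)^[n] z).length = 2 * K := by
    intro n
    induction n with
    | zero => exact hz
    | succ n ih => rw [Function.iterate_succ_apply', length_fwd, ih]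
  induction n with
  | zero =>
    rw [Function.iterate_zero_apply, Nat.add_zero]
    have h1 : (z.take K).length = K := by rw [List.length_take]; omega
    have h2 := bits_val (z.take K)
    rw [h1] at h2
    exact h2.symm
  | succ n ih =>
    rw [Function.iterate_succ_apply']
    have h1 := hlen n
    generalize (fwd s)^[n] z = z' at ih h1
    unfold fwd
    rw [h1, show 2 * K / 2 = K by omega, ← Nat.add_assoc, ← inc_bits, ← ih]
    have h2 : (inc (z'.take K)).length = K := by rw [length_inc, List.length_take]; omega
    exact List.take_left' h2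

/-- Two consecutive phases are idle. -/
def calm (p : List Bool) : Bool := !(hot p) && !(hot (dec p))

theorem calm_cover : ∀ q < 64, (calm (bits 6 q) || (calm (bits 6 (q + 56)) ||
    calm (bits 6 (q + 42)))) = true := by decide

theorem dec_bits_six (q : ℕ) : dec (bits 6 q) = bits 6 (q + 63) := by
  have h : bits 6 q = inc (bits 6 (q + 63)) := by
    rw [inc_bits]
    apply bits_congr
    norm_num
    omega
  rw [h, dec_inc]

/-- Going back by one phase, if this is idle. -/
theorem fwd_back {K : ℕ} (hK : 6 ≤ K) {κ d : List Bool} (hκ : κ.length = K)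
    (hd : d.length = K) (h : calm (κ.drop (K - 6)) = true) :
    (fwd s)^[2 ^ (K - 6)] ((κ.take (K - 6) ++ dec (κ.drop (K - 6))) ++ d) = κ ++ d := by
  obtain ⟨K', rfl⟩ : ∃ K', K = K' + 6 := ⟨K - 6, by omega⟩
  rw [show K' + 6 - 6 = K' by omega] at h ⊢
  set c := val κ with hc
  have hκc : κ = bits (K' + 6) c := by
    conv_lhs => rw [← bits_val κ]
    rw [hκ]
  have e1 : κ.take K' = bits K' c := by
    conv_lhs => rw [hκc]
    exact take_bits _ _ _
  have e2 : κ.drop K' = bits 6 (c / 2 ^ K') := by
    conv_lhs => rw [hκc]
    exact drop_bits _ _ _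
  have hpos : 0 < 2 ^ K' := by positivity
  have e3 : κ.take K' ++ dec (κ.drop K') = bits (K' + 6) (c + 63 * 2 ^ K') := by
    rw [e1, e2, dec_bits_six, bits_add]
    congr 1
    · exact bits_congr (Nat.add_mul_mod_self_right _ _ _).symm
    · rw [Nat.add_mul_div_right _ _ hpos]
  rw [e2] at h
  rw [e3, fwd_idle s hd]
  · rw [hκc]
    congr 1
    apply bits_congr
    rw [show c + 63 * 2 ^ K' + 2 ^ K' = c + 1 * 2 ^ (K' + 6) by rw [pow_add]; ring]
    exact Nat.add_mul_mod_self_right _ _ _
  · intro i hi
    apply sched_cold
    rw [length_bits, show K' + 6 - 6 = K' by omega, drop_bits]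
    rw [calm, Bool.and_eq_true, Bool.not_eq_true', Bool.not_eq_true'] at h
    obtain ⟨h1, h2⟩ := h
    rw [dec_bits_six] at h2
    have h3 : (c + 63 * 2 ^ K' + i) / 2 ^ K' = (c + i) / 2 ^ K' + 63 := by
      rw [show c + 63 * 2 ^ K' + i = c + i + 63 * 2 ^ K' by ring, Nat.add_mul_div_right _ _ hpos]
    rw [h3]
    have h4 : (c + i) / 2 ^ K' = c / 2 ^ K' ∨ (c + i) / 2 ^ K' = c / 2 ^ K' + 1 := by
      have h5 : c / 2 ^ K' ≤ (c + i) / 2 ^ K' := Nat.div_le_div_right (by omega)
      have h6 : (c + i) / 2 ^ K' ≤ (c + 2 ^ K') / 2 ^ K' := Nat.div_le_div_right (by omega)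
      rw [Nat.add_div_right _ hpos] at h6
      omega
    rcases h4 with h4 | h4
    · rw [h4]; exact h2
    · rw [h4, ← h1]
      congr 1
      apply bits_congr
      norm_num
      omega

end orbit

/-! ### Extraction of the result from a time reversal -/

/-- The word at the beginning of phase `p`, explicitly. -/
def Zword (p : ℕ) (y : List Bool) : List Bool :=
  (List.replicate (clk y.length - 6) false ++ bits 6 p) ++
    (List.replicate y.length true ++
      false :: (List.replicate ((y.length + 1) * y.length) false ++ y))

theorem PT.Zword' (p : ℕ) : PT m (Zword p) := by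
  unfold Zword clk
  fun_prop

theorem regs_zero {w : ℕ} {R : ℕ → List Bool} (n : ℕ)
    (h : ∀ i < n, R i = List.replicate w false) :
    regs (n + 1) R = List.replicate (n * w) false ++ R n := by
  induction n generalizing R with
  | zero => simp [regs]
  | succ n ih =>
    have h1 : regs (n + 1 + 1) R = R 0 ++ regs (n + 1) (fun i => R (i + 1)) := rfl
    rw [h1, ih (fun i hi => h (i + 1) (by omega)), h 0 (by omega), ← List.append_assoc,
      ← List.replicate_add]
    congr 2
    ring

theorem Zword_eq (s : List Bool → List Bool) {y : List Bool} (hy : 2 ≤ y.length) (p : ℕ) :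
    Zword p y = Zst s y p false := by
  have hww : 2 * y.length ≤ y.length * y.length := Nat.mul_le_mul_right _ hy
  have h6 : 6 ≤ clk y.length := by unfold clk; omega
  unfold Zword Zst
  congr 1
  · have h1 : clk y.length = (clk y.length - 6) + 6 := by omega
    conv_rhs => rw [h1]
    rw [bits_add, show clk y.length - 6 + 6 - 6 = clk y.length - 6 by omega,
      Nat.mul_div_cancel _ (by positivity)]
    congr 1
    exact (bits_eq_replicate.mpr (Nat.mul_mod_left _ _)).symm
  · unfold enc
    congr 2
    rw [regs_zero (w := y.length) (y.length + 1) (by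
      intro i hi
      simp only [Rst]
      by_cases h0 : i = 0
      · rw [if_pos h0]; rfl
      · rw [if_neg h0, if_pos (by omega)])]
    congr 1
    simp [Rst]

/-- The result that is read off from the conjugate word at phase `p`. -/
def getRes (g g' : List Bool → List Bool) (p : ℕ) (y : List Bool) : List Bool :=
  ((g' ((((g (Zword p y)).take (clk y.length)).take (clk y.length - 6) ++
    dec (((g (Zword p y)).take (clk y.length)).drop (clk y.length - 6))) ++
      (g (Zword p y)).drop (clk y.length))).drop (clk y.length + y.length + 1)).take y.length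

/-- The test for phase `p`. -/
def isCalm (g : List Bool → List Bool) (p : ℕ) (y : List Bool) : Bool :=
  calm (((g (Zword p y)).take (clk y.length)).drop (clk y.length - 6))

theorem PT.getRes' {g g' : List Bool → List Bool} (hg : PT m g) (hg' : PT m g') (p : ℕ) :
    PT m (getRes g g' p) := by
  have h1 : PT m (Zword p) := PT.Zword' p
  unfold getRes clk
  fun_prop

theorem PT.isCalm' {g : List Bool → List Bool} (hg : PT m g) (p : ℕ) :
    PT m (isCalm g p) := by
  have h1 : PT m (Zword p) := PT.Zword' p
  unfold isCalm clk calm
  fun_prop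

section extract

variable {s : List Bool → List Bool} {g : Equiv.Perm (List Bool)}

theorem fwd_conj (hs : ∀ y, (s y).length = y.length) (hrev : ∀ z, g (fwd s z) = bwd s (g z))
    (n : ℕ) (z : List Bool) : (fwd s)^[n] (g ((fwd s)^[n] z)) = g z := by
  induction n generalizing z with
  | zero => rfl
  | succ n ih =>
    rw [Function.iterate_succ_apply', Function.iterate_succ_apply, ih, hrev, fwd_bwd hs]

theorem getRes_eq (hs : ∀ y, (s y).length = y.length) (hrev : ∀ z, g (fwd s z) = bwd s (g z))
    (hlen : ∀ z, (g z).length = z.length) {y : List Bool} (hy : 2 ≤ y.length) (p : ℕ)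
    (hp : hot (bits 6 p) = true) (hc : isCalm g p y = true) :
    getRes g g.symm p y = s^[2 ^ y.length] y := by
  have hww : 2 * y.length ≤ y.length * y.length := Nat.mul_le_mul_right _ hy
  have h6 : 6 ≤ clk y.length := by unfold clk; omega
  set K := clk y.length with hK
  have hZl : (Zword p y).length = 2 * K := by rw [Zword_eq s hy, length_Zst hs]
  set v := g (Zword p y) with hv
  have hvl : v.length = 2 * K := by rw [hv, hlen, hZl]
  have hκ : (v.take K).length = K := by rw [List.length_take]; omega
  have hd : (v.drop K).length = K := by rw [List.length_drop]; omega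
  have h1 := fwd_back (s := s) h6 hκ hd (by
    unfold isCalm at hc
    exact hc)
  rw [List.take_append_drop] at h1
  set v' := ((v.take K).take (K - 6) ++ dec ((v.take K).drop (K - 6))) ++ v.drop K with hv'
  -- the image of the next phase
  have h2 : (fwd s)^[2 ^ (K - 6)] (Zword p y) = Zst s y (p + 1) true := by
    rw [Zword_eq s hy, hK, Zst_step hs hy, hp]
    rfl
  have h3 := fwd_conj hs hrev (2 ^ (K - 6)) (Zword p y)
  rw [h2, ← hv, ← h1] at h3
  have hinj : Function.Injective (fwd s) := (revPerm s hs).injective
  have h4 : g (Zst s y (p + 1) true) = v' := (hinj.iterate (2 ^ (K - 6))) h3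
  have h5 : g.symm v' = Zst s y (p + 1) true := by rw [← h4, Equiv.symm_apply_apply]
  have h7 : getRes g g.symm p y = ((g.symm v').drop (K + y.length + 1)).take y.length := rfl
  rw [h7, h5]
  have h8 : (Zst s y (p + 1) true).drop (K + y.length + 1) =
      (enc y.length (Rst s y true)).drop ((0 + 1) * y.length + 1) := by
    rw [Zst, show K + y.length + 1 =
      (bits (clk y.length) ((p + 1) * 2 ^ (clk y.length - 6))).length +
        ((0 + 1) * y.length + 1) by rw [length_bits, ← hK]; ring, ← List.drop_drop,
      List.drop_left]
  rw [h8, slice_enc (length_Rst hs true) (by omega)]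
  rfl

theorem calm_some (hs : ∀ y, (s y).length = y.length) (hrev : ∀ z, g (fwd s z) = bwd s (g z))
    (hlen : ∀ z, (g z).length = z.length) {y : List Bool} (hy : 2 ≤ y.length) :
    (isCalm g 0 y || (isCalm g 8 y || isCalm g 22 y)) = true := by
  have hww : 2 * y.length ≤ y.length * y.length := Nat.mul_le_mul_right _ hy
  have h6 : 6 ≤ clk y.length := by unfold clk; omega
  set K := clk y.length with hK
  have hpos : 0 < 2 ^ (K - 6) := by positivity
  -- the phase of the conjugate word
  let q : ℕ → ℕ := fun p => val ((g (Zword p y)).take K) / 2 ^ (K - 6)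
  have hvl : ∀ p, (g (Zword p y)).length = 2 * K := by
    intro p; rw [hlen, Zword_eq s hy, length_Zst hs]
  have hbits : ∀ p, (g (Zword p y)).take K = bits K (val ((g (Zword p y)).take K)) := by
    intro p
    have h1 : ((g (Zword p y)).take K).length = K := by rw [List.length_take, hvl]; omega
    conv_lhs => rw [← bits_val ((g (Zword p y)).take K)]
    rw [h1]
  have htop : ∀ p, ((g (Zword p y)).take K).drop (K - 6) = bits 6 (q p) := by
    intro p
    rw [hbits p]
    have := drop_bits (K - 6) 6 (val ((g (Zword p y)).take K))
    rw [show K - 6 + 6 = K by omega] at this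
    exact this
  have hrel : ∀ p, par p = false → bits 6 (q p + p) = bits 6 (q 0) := by
    intro p hp
    have h1 := Zst_iterate hs hy p
    rw [hp, ← Zword_eq s hy, ← Zword_eq s hy, ← hK] at h1
    have h2 := fwd_conj hs hrev (p * 2 ^ (K - 6)) (Zword 0 y)
    rw [h1] at h2
    have h3 := take_iterate_fwd (s := s) (hvl p) (p * 2 ^ (K - 6))
    rw [h2] at h3
    rw [← htop 0, h3]
    have h4 := drop_bits (K - 6) 6 (val ((g (Zword p y)).take K) + p * 2 ^ (K - 6))
    rw [show K - 6 + 6 = K by omega, Nat.add_mul_div_right _ _ hpos] at h4
    exact h4.symm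
  have hval : ∀ {a b : ℕ}, bits 6 a = bits 6 b → a % 64 = b % 64 := by
    intro a b h
    have := congrArg val h
    rw [val_bits, val_bits] at this
    simpa using this
  have h8 := hval (hrel 8 (by decide))
  have h22 := hval (hrel 22 (by decide))
  have e0 : isCalm g 0 y = calm (bits 6 (q 0 % 64)) := by
    unfold isCalm
    rw [← hK, htop 0]
    congr 1
    apply bits_congr
    norm_num
  have e8 : isCalm g 8 y = calm (bits 6 (q 0 % 64 + 56)) := by
    unfold isCalm
    rw [← hK, htop 8]
    congr 1
    apply bits_congr
    norm_num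
    omega
  have e22 : isCalm g 22 y = calm (bits 6 (q 0 % 64 + 42)) := by
    unfold isCalm
    rw [← hK, htop 22]
    congr 1
    apply bits_congr
    norm_num
    omega
  rw [e0, e8, e22]
  exact calm_cover _ (Nat.mod_lt _ (by norm_num))

/-- If the permutation is conjugate to its inverse by a polynomial-time permutation, then the
exponential iteration of `s` is computable in polynomial time. -/
theorem exists_of_reverse (hs : ∀ y, (s y).length = y.length)
    (hrev : ∀ z, g (fwd s z) = bwd s (g z)) (hlen : ∀ z, (g z).length = z.length)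
    (hg : PT m g) (hg' : PT m g.symm) :
    ∃ A : List Bool → List Bool, PT m A ∧
      ∀ y, 2 ≤ y.length → A y = s^[2 ^ y.length] y := by
  refine ⟨fun y => bif isCalm g 0 y then getRes g g.symm 0 y else
    bif isCalm g 8 y then getRes g g.symm 8 y else getRes g g.symm 22 y, ?_, ?_⟩
  · exact PT.cond (PT.isCalm' hg 0) (PT.getRes' hg hg' 0)
      (PT.cond (PT.isCalm' hg 8) (PT.getRes' hg hg' 8) (PT.getRes' hg hg' 22))
  · intro y hy
    have h := calm_some hs hrev hlen hy
    simp only
    cases h0 : isCalm g 0 y with
    | true => rw [cond_true]; exact getRes_eq hs hrev hlen hy 0 (by decide) h0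
    | false =>
      rw [cond_false]
      cases h8 : isCalm g 8 y with
      | true => rw [cond_true]; exact getRes_eq hs hrev hlen hy 8 (by decide) h8
      | false =>
        rw [cond_false]
        rw [h0, h8, Bool.false_or, Bool.false_or] at h
        exact getRes_eq hs hrev hlen hy 22 (by decide) h

end extract

end Pool.Agent.PPS
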