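import Pool.Agent.PPS.Defs
import Pool.Agent.PPS.Flow

/-!
# From flow charts to Turing machines
-/

namespace Pool.Agent.PPS

namespace TM

variable (M : TM)

theorem run_add (a b : ℕ) (c : M.Cfg) : M.run (a + b) c = M.run b (M.run a c) := by
  unfold run
  rw [Nat.add_comm, Function.iterate_add_apply]

theorem run_zero (c : M.Cfg) : M.run 0 c = c := rfl

theorem run_one_of_step {c c' : M.Cfg} (h : M.step c = some c') : M.run 1 c = c' := by
  simp [run, h]

theorem run_of_halted {c : M.Cfg} (h : M.step c = none) (n : ℕ) : M.run n c = c := by
  induction n with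
  | zero => rfl
  | succ n ih => rw [run_add, ih]; simp [run, h]

theorem conf_of_haltedAt {x : List Bool} {n : ℕ} (h : M.HaltedAt x n) {m : ℕ} (hm : n ≤ m) :
    M.conf x m = M.conf x n := by
  obtain ⟨d, rfl⟩ := Nat.exists_eq_add_of_le hm
  unfold conf
  rw [run_add]
  exact M.run_of_halted h d

theorem haltedAt_mono {x : List Bool} {n : ℕ} (h : M.HaltedAt x n) {m : ℕ} (hm : n ≤ m) :
    M.HaltedAt x m := by
  unfold HaltedAt
  rw [M.conf_of_haltedAt h hm]
  exact h

theorem conf_eq_of_haltedAt {x : List Bool} {n m : ℕ} (h : M.HaltedAt x n)
    (h' : M.HaltedAt x m) : M.conf x n = M.conf x m := by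
  rcases le_total n m with hnm | hnm
  · exact (M.conf_of_haltedAt h hnm).symm
  · exact M.conf_of_haltedAt h' hnm

variable {M} in
theorem cfg_ext {c c' : M.Cfg} (h1 : c.state = c'.state) (h2 : ∀ k, c.head k = c'.head k)
    (h3 : ∀ k, c.tape k = c'.tape k) : c = c' := by
  cases c; cases c'
  simp only at h1 h2 h3
  rw [Cfg.mk.injEq]
  exact ⟨h1, funext h2, funext h3⟩

variable {M} in
theorem step_eq_some {c c' : M.Cfg} {s : M.K → Option M.Γ}
    (hs : ∀ k, c.tape k (c.head k) = s k)
    {r : M.Q × (M.K → Option M.Γ × Move)}
    (h : M.δ c.state s = some r) (h1 : c'.state = r.1)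
    (h2 : ∀ k, c'.head k = c.head k + (r.2 k).2.toInt)
    (h3 : ∀ k, c'.tape k = Function.update (c.tape k) (c.head k) (r.2 k).1) :
    M.step c = some c' := by
  have hs' : (fun k => c.tape k (c.head k)) = s := funext hs
  unfold step
  rw [hs', h, Option.map_some]
  congr 1
  exact cfg_ext h1.symm (fun k => (h2 k).symm) (fun k => (h3 k).symm)

variable {M} in
theorem step_eq_none {c : M.Cfg} {s : M.K → Option M.Γ}
    (hs : ∀ k, c.tape k (c.head k) = s k) (h : M.δ c.state s = none) :
    M.step c = none := by
  have hs' : (fun k => c.tape k (c.head k)) = s := funext hs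
  unfold step
  rw [hs', h, Option.map_none]

end TM

namespace ToTM

/-- States of the machine that simulates a flow chart with positions `P`. -/
inductive St (P : Type) : Type
  | ini : St P
  | at (o : Option P) : St P
  | pend (p : P) : St P
  | last : St P
  | fin (b : Bool) : St P

instance (P : Type) [Finite P] : Finite (St P) := by
  let f : St P → (Option P ⊕ P) ⊕ (Bool × Bool) := fun s =>
    match s with
    | .ini => .inr (false, false)
    | .at o => .inl (.inl o)
    | .pend p => .inl (.inr p)
    | .last => .inr (false, true)
    | .fin b => .inr (true, b)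
  refine Finite.of_injective f ?_
  intro a b h
  cases a <;> cases b <;> simp_all [f]

/-- Tape contents over the alphabet `Bool`. -/
def wd (w : List Bool) : ℤ → Option Bool := fun z => if 0 ≤ z then w[z.toNat]? else none

theorem wd_at_length (l : List Bool) : wd l (l.length : ℤ) = none := by
  simp [wd]

theorem wd_neg (l : List Bool) (z : ℤ) (hz : z < 0) : wd l z = none := by
  simp [wd, not_le.mpr hz]

theorem wd_append_one (l : List Bool) (b : Bool) :
    Function.update (wd l) (l.length : ℤ) (some b) = wd (l ++ [b]) := by
  funext z
  by_cases hz : z = l.length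
  · subst hz
    simp [wd]
  · rw [Function.update_of_ne hz]
    unfold wd
    by_cases h0 : 0 ≤ z
    · simp only [h0, if_true]
      obtain ⟨n, rfl⟩ := Int.eq_ofNat_of_zero_le h0
      have hn : n ≠ l.length := by
        intro h; apply hz; simp [h]
      simp only [Int.toNat_natCast]
      rcases Nat.lt_or_gt_of_ne hn with h | h
      · rw [List.getElem?_append_left h]
      · rw [List.getElem?_eq_none (by omega), List.getElem?_eq_none (by simp; omega)]
    · simp [h0]

theorem wd_append_one_self (l : List Bool) (b : Bool) :
    wd (l ++ [b]) (l.length : ℤ) = some b := by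
  rw [← wd_append_one]; simp

theorem wd_erase (l : List Bool) (b : Bool) :
    Function.update (wd (l ++ [b])) (l.length : ℤ) none = wd l := by
  rw [← wd_append_one, Function.update_idem]
  rw [Function.update_eq_self_iff]
  exact (wd_at_length l).symm

variable {ι P : Type} [DecidableEq ι] [Finite ι] [Finite P]

/-- The transition function of the machine that simulates a flow chart. -/
def delta (m : P → Instr ι (Option P)) (p₀ : P) (io : ι) (dec : Bool) (q : St P)
    (s : ι → Option Bool) : Option (St P × (ι → Option Bool × Move)) :=
  match q with
  | .ini =>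
    match s io with
    | some _ => some (.ini, fun k => (s k, if k = io then .right else .stay))
    | none => some (.at (some p₀), fun k => (s k, .stay))
  | .at none =>
    if dec then some (.last, fun k => (s k, if k = io then .left else .stay)) else none
  | .at (some p) =>
    match m p with
    | .nop q => some (.at q, fun k => (s k, .stay))
    | .push i b q =>
      some (.at q, fun k => if k = i then (some b, .right) else (s k, .stay))
    | .pop i _ => some (.pend p, fun k => (s k, if k = i then .left else .stay))
  | .pend p =>
    match m p with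
    | .pop i q =>
      some (.at (q (s i)), fun k =>
        if k = i then (none, if (s i).isSome then .stay else .right) else (s k, .stay))
    | _ => none
  | .last => some (.fin (decide (s io = some true)), fun k => (s k, .stay))
  | .fin _ => none

/-- The machine that simulates a flow chart. -/
def machine (m : P → Instr ι (Option P)) (p₀ : P) (io : ι) (dec : Bool) : TM where
  K := ι
  io := io
  Γ := Bool
  bit := id
  bit_inj := Function.injective_id
  Q := St P
  start := .ini
  accept := fun s => match s with
    | .fin b => b
    | _ => false
  δ := delta m p₀ io dec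

section

variable (m : P → Instr ι (Option P)) (p₀ : P) (io : ι) (dec : Bool)

theorem word_eq (l : List Bool) : (machine m p₀ io dec).word l = wd l := by
  funext z
  show (if 0 ≤ z then (l[z.toNat]?).map id else none) = _
  simp [wd]

theorem mstep {c c' : (machine m p₀ io dec).Cfg} (s : ι → Option Bool)
    (r : St P × (ι → Option Bool × Move)) (hs : ∀ k : ι, c.tape k (c.head k) = s k)
    (h : delta m p₀ io dec c.state s = some r) (h1 : c'.state = r.1)
    (h2 : ∀ k : ι, c'.head k = c.head k + (r.2 k).2.toInt)
    (h3 : ∀ k : ι, c'.tape k = Function.update (c.tape k : ℤ → Option Bool) (c.head k)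
      (r.2 k).1) :
    (machine m p₀ io dec).step c = some c' :=
  TM.step_eq_some hs h h1 h2 h3

/-- Configurations that represent a store. -/
def cfgOf (q : St P) (S : Store ι) : (machine m p₀ io dec).Cfg where
  state := q
  head := fun (k : ι) => ((S k).length : ℤ)
  tape := fun (k : ι) => wd (S k).reverse

theorem wd_reverse_length (l : List Bool) : wd l.reverse (l.length : ℤ) = none := by
  have := wd_at_length l.reverse
  rwa [List.length_reverse] at this

theorem update_wd_none (l : List Bool) :
    wd l.reverse = Function.update (wd l.reverse) (l.length : ℤ) none := by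
  symm
  rw [Function.update_eq_self_iff]
  exact (wd_reverse_length l).symm

theorem step_nop (p : P) (q : Option P) (S : Store ι) (h : m p = .nop q) :
    (machine m p₀ io dec).step (cfgOf m p₀ io dec (.at (some p)) S) =
      some (cfgOf m p₀ io dec (.at q) S) := by
  refine mstep m p₀ io dec (fun _ => none) (St.at q, fun k => (none, .stay))
    (fun k => wd_reverse_length (S k)) ?_ rfl ?_ ?_
  · show delta m p₀ io dec (.at (some p)) _ = _
    simp only [delta, h]
  · intro k
    show ((S k).length : ℤ) = (S k).length + Move.stay.toInt
    simp [Move.toInt]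
  · intro k
    exact update_wd_none _

theorem step_push (p : P) (i : ι) (b : Bool) (q : Option P) (S : Store ι)
    (h : m p = .push i b q) :
    (machine m p₀ io dec).step (cfgOf m p₀ io dec (.at (some p)) S) =
      some (cfgOf m p₀ io dec (.at q) (Function.update S i (b :: S i))) := by
  refine mstep m p₀ io dec (fun _ => none)
    (St.at q, fun k => if k = i then (some b, .right) else (none, .stay))
    (fun k => wd_reverse_length (S k)) ?_ rfl ?_ ?_
  · show delta m p₀ io dec (.at (some p)) _ = _
    simp only [delta, h]
  · intro k
    show ((Function.update S i (b :: S i) k).length : ℤ) = (S k).length +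
      (if k = i then ((some b, .right) : Option Bool × Move) else (none, .stay)).2.toInt
    by_cases hk : k = i
    · subst hk; simp [Move.toInt]
    · simp [hk, Move.toInt]
  · intro k
    show wd (Function.update S i (b :: S i) k).reverse =
      Function.update (wd (S k).reverse) ((S k).length : ℤ)
        (if k = i then ((some b, .right) : Option Bool × Move) else (none, .stay)).1
    by_cases hk : k = i
    · subst hk
      have := wd_append_one (S k).reverse b
      simpa using this.symm
    · simp only [hk, if_false, ne_eq, not_false_eq_true, Function.update_of_ne]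
      exact update_wd_none _

/-- The configuration in the middle of a pop on tape `i`. -/
def cfgPop (q : St P) (i : ι) (S : Store ι) : (machine m p₀ io dec).Cfg where
  state := q
  head := fun (k : ι) => ((S k).length : ℤ) + (if k = i then -1 else 0)
  tape := fun (k : ι) => wd (S k).reverse

theorem step_pop (p : P) (i : ι) (q : Option Bool → Option P) (S : Store ι)
    (h : m p = .pop i q) :
    (machine m p₀ io dec).step (cfgOf m p₀ io dec (.at (some p)) S) =
      some (cfgPop m p₀ io dec (.pend p) i S) := by
  refine mstep m p₀ io dec (fun _ => none)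
    (St.pend p, fun k => (none, if k = i then .left else .stay))
    (fun k => wd_reverse_length (S k)) ?_ rfl ?_ ?_
  · show delta m p₀ io dec (.at (some p)) _ = _
    simp only [delta, h]
  · intro k
    show ((S k).length : ℤ) + (if k = i then -1 else 0) = (S k).length +
      (if k = i then Move.left else .stay).toInt
    by_cases hk : k = i
    · subst hk; simp [Move.toInt]
    · simp [hk, Move.toInt]
  · intro k
    exact update_wd_none _

theorem scanned_pop (l : List Bool) : wd l.reverse ((l.length : ℤ) + -1) = l.head? := by
  rcases l with _ | ⟨b, l⟩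
  · exact wd_neg _ _ (by simp)
  · have := wd_append_one_self l.reverse b
    simpa using this

theorem step_pend (p : P) (i : ι) (q : Option Bool → Option P) (S : Store ι)
    (h : m p = .pop i q) :
    (machine m p₀ io dec).step (cfgPop m p₀ io dec (.pend p) i S) =
      some (cfgOf m p₀ io dec (.at (q (S i).head?)) (Function.update S i (S i).tail)) := by
  refine mstep m p₀ io dec (fun k => if k = i then (S i).head? else none)
    (St.at (q (S i).head?), fun k =>
      if k = i then (none, if ((S i).head?).isSome then .stay else .right)
      else (none, .stay)) ?_ ?_ rfl ?_ ?_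
  · intro k
    show wd (S k).reverse (((S k).length : ℤ) + (if k = i then -1 else 0)) = _
    by_cases hk : k = i
    · subst hk
      simp only [if_true]
      exact scanned_pop _
    · simp only [hk, if_false, add_zero]
      exact wd_reverse_length _
  · show delta m p₀ io dec (.pend p) _ = _
    simp only [delta, h, if_true]
    congr 2
    funext k
    by_cases hk : k = i
    · simp [hk]
    · simp [hk]
  · intro k
    show ((Function.update S i (S i).tail k).length : ℤ) =
      ((S k).length : ℤ) + (if k = i then -1 else 0) +
      (if k = i then ((none, if ((S i).head?).isSome then .stay else .right) :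
        Option Bool × Move) else (none, .stay)).2.toInt
    by_cases hk : k = i
    · subst hk
      rcases hS : S k with _ | ⟨b, l⟩
      · simp [Move.toInt]
      · simp [Move.toInt]
    · simp [hk, Move.toInt]
  · intro k
    show wd (Function.update S i (S i).tail k).reverse =
      Function.update (wd (S k).reverse) (((S k).length : ℤ) + (if k = i then -1 else 0))
      (if k = i then ((none, if ((S i).head?).isSome then .stay else .right) :
        Option Bool × Move) else (none, .stay)).1
    by_cases hk : k = i
    · subst hk
      simp only [if_true, Function.update_self]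
      rcases hS : S k with _ | ⟨b, l⟩
      · simp only [List.reverse_nil, List.tail_nil]
        symm
        rw [Function.update_eq_self_iff]
        exact (wd_neg _ _ (by simp)).symm
      · have := wd_erase l.reverse b
        simpa using this.symm
    · simp only [hk, if_false, add_zero, ne_eq, not_false_eq_true, Function.update_of_ne]
      exact update_wd_none _

theorem step_exit (S : Store ι) :
    (machine m p₀ io false).step (cfgOf m p₀ io false (.at none) S) = none :=
  TM.step_eq_none (s := fun _ => (none : Option Bool))
    (fun k => wd_reverse_length (S k)) rfl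

theorem step_exit_dec (S : Store ι) :
    (machine m p₀ io true).step (cfgOf m p₀ io true (.at none) S) =
      some (cfgPop m p₀ io true .last io S) := by
  refine mstep m p₀ io true (fun _ => none)
    (St.last, fun k => (none, if k = io then .left else .stay))
    (fun k => wd_reverse_length (S k)) rfl rfl ?_ ?_
  · intro k
    show ((S k).length : ℤ) + (if k = io then -1 else 0) = (S k).length +
      (if k = io then Move.left else .stay).toInt
    by_cases hk : k = io
    · subst hk; simp [Move.toInt]
    · simp [hk, Move.toInt]
  · intro k
    exact update_wd_none _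

theorem step_last (S : Store ι) :
    (machine m p₀ io dec).step (cfgPop m p₀ io dec .last io S) =
      some (cfgPop m p₀ io dec (.fin (decide ((S io).head? = some true))) io S) := by
  refine mstep m p₀ io dec (fun k => if k = io then (S io).head? else none)
    (St.fin (decide ((S io).head? = some true)), fun k =>
      (if k = io then (S io).head? else none, .stay)) ?_ ?_ rfl ?_ ?_
  · intro k
    show wd (S k).reverse (((S k).length : ℤ) + (if k = io then -1 else 0)) = _
    by_cases hk : k = io
    · subst hk
      simp only [if_true]
      exact scanned_pop _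
    · simp only [hk, if_false, add_zero]
      exact wd_reverse_length _
  · show delta m p₀ io dec .last _ = _
    simp only [delta, if_true]
  · intro k
    show ((S k).length : ℤ) + (if k = io then -1 else 0) =
      ((S k).length : ℤ) + (if k = io then -1 else 0) + Move.stay.toInt
    simp [Move.toInt]
  · intro k
    show wd (S k).reverse =
      Function.update (wd (S k).reverse) (((S k).length : ℤ) + (if k = io then -1 else 0))
      (if k = io then (S io).head? else none)
    symm
    rw [Function.update_eq_self_iff]
    by_cases hk : k = io
    · subst hk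
      simp only [if_true]
      exact (scanned_pop _).symm
    · simp only [hk, if_false, add_zero]
      exact (wd_reverse_length _).symm

theorem step_fin (b : Bool) (S : Store ι) :
    (machine m p₀ io dec).step (cfgPop m p₀ io dec (.fin b) io S) = none :=
  TM.step_eq_none (fun _ => rfl) rfl

/-- The machine goes from `c` to `c'` in `N` steps, all heads staying in `[-1, B]`. -/
def MRun (M : TM) (B N : ℕ) (c c' : M.Cfg) : Prop :=
  M.run N c = c' ∧ ∀ n ≤ N, ∀ k, -1 ≤ (M.run n c).head k ∧ (M.run n c).head k ≤ B

theorem MRun.trans {M : TM} {B N N' : ℕ} {c c' c'' : M.Cfg} (h : MRun M B N c c')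
    (h' : MRun M B N' c' c'') : MRun M B (N + N') c c'' := by
  refine ⟨?_, ?_⟩
  · rw [TM.run_add, h.1, h'.1]
  · intro n hn k
    rcases Nat.lt_or_ge N n with h1 | h1
    · have := h'.2 (n - N) (by omega) k
      rw [← h.1, ← TM.run_add, show N + (n - N) = n by omega] at this
      exact this
    · exact h.2 n h1 k

theorem MRun.refl {M : TM} {B : ℕ} {c : M.Cfg}
    (h : ∀ k, -1 ≤ c.head k ∧ c.head k ≤ B) : MRun M B 0 c c := by
  refine ⟨rfl, ?_⟩
  intro n hn k
  obtain rfl : n = 0 := by omega
  exact h k

theorem MRun.step {M : TM} {B : ℕ} {c c' : M.Cfg}
    (h : ∀ k, -1 ≤ c.head k ∧ c.head k ≤ B) (h' : ∀ k, -1 ≤ c'.head k ∧ c'.head k ≤ B)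
    (hs : M.step c = some c') : MRun M B 1 c c' := by
  refine ⟨M.run_one_of_step hs, ?_⟩
  intro n hn k
  interval_cases n
  · exact h k
  · rw [M.run_one_of_step hs]; exact h' k

theorem cfgOf_bd {B : ℕ} (q : St P) (S : Store ι) (hS : ∀ i, (S i).length ≤ B) (k : ι) :
    -1 ≤ (cfgOf m p₀ io dec q S).head k ∧ (cfgOf m p₀ io dec q S).head k ≤ B := by
  have := hS k
  simp only [cfgOf]
  omega

theorem cfgPop_bd {B : ℕ} (q : St P) (i : ι) (S : Store ι) (hS : ∀ i, (S i).length ≤ B)
    (k : ι) :
    -1 ≤ (cfgPop m p₀ io dec q i S).head k ∧ (cfgPop m p₀ io dec q i S).head k ≤ B := by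
  have := hS k
  simp only [cfgPop]
  split_ifs <;> omega

theorem mrun_of_flowRun {B n : ℕ} {o : Option P} {S S' : Store ι}
    (h : FlowRun m B n (o, S) (none, S')) :
    ∃ N ≤ 2 * n, MRun (machine m p₀ io dec) B N (cfgOf m p₀ io dec (.at o) S)
      (cfgOf m p₀ io dec (.at none) S') := by
  have hbd := fun (q : St P) (S : Store ι) (hS : ∀ i, (S i).length ≤ B) =>
    cfgOf_bd m p₀ io dec q S hS
  induction n generalizing o S with
  | zero =>
    have h0 := h.1
    simp only [Function.iterate_zero, id_eq, Prod.mk.injEq] at h0
    obtain ⟨rfl, rfl⟩ := h0
    exact ⟨0, by omega, MRun.refl (hbd _ _ fun i => h.2 0 le_rfl i)⟩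
  | succ n ih =>
    have hS : ∀ i, (S i).length ≤ B := fun i => h.2 0 (by omega) i
    have h' : FlowRun m B n (fstep m (o, S)) (none, S') := by
      refine ⟨?_, ?_⟩
      · rw [← Function.iterate_succ_apply]; exact h.1
      · intro k hk i
        rw [← Function.iterate_succ_apply]
        exact h.2 (k + 1) (by omega) i
    cases o with
    | none =>
      obtain ⟨N, hN, hr⟩ := ih h'
      exact ⟨N, by omega, hr⟩
    | some p =>
      rw [fstep_some] at h'
      cases hp : m p with
      | nop q =>
        rw [hp] at h'
        simp only [Instr.exec] at h'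
        obtain ⟨N, hN, hr⟩ := ih h'
        refine ⟨1 + N, by omega, MRun.trans ?_ hr⟩
        exact MRun.step (hbd _ _ hS) (hbd _ _ hS) (step_nop m p₀ io dec p q S hp)
      | push i b q =>
        rw [hp] at h'
        simp only [Instr.exec] at h'
        obtain ⟨N, hN, hr⟩ := ih h'
        refine ⟨1 + N, by omega, MRun.trans ?_ hr⟩
        exact MRun.step (hbd _ _ hS) (hbd _ _ fun i => h'.2 0 (by omega) i)
          (step_push m p₀ io dec p i b q S hp)
      | pop i q =>
        rw [hp] at h'
        simp only [Instr.exec] at h'
        obtain ⟨N, hN, hr⟩ := ih h'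
        have hmid := cfgPop_bd m p₀ io dec (.pend p) i S hS
        refine ⟨1 + 1 + N, by omega, MRun.trans (MRun.trans
          (MRun.step (hbd _ _ hS) hmid (step_pop m p₀ io dec p i q S hp))
          (MRun.step hmid (hbd _ _ fun i => h'.2 0 (by omega) i)
            (step_pend m p₀ io dec p i q S hp))) hr⟩

/-- The store with `l` on stack `io` and all other stacks empty. -/
def single (io : ι) (l : List Bool) : Store ι := fun i => if i = io then l else []

/-- Configurations in the initial phase. -/
def cfgIni (x : List Bool) (j : ℕ) : (machine m p₀ io dec).Cfg where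
  state := .ini
  head := fun (k : ι) => if k = io then (j : ℤ) else 0
  tape := fun (k : ι) => if k = io then wd x else fun _ => none

theorem init_eq (x : List Bool) :
    (machine m p₀ io dec).init x = cfgIni m p₀ io dec x 0 := by
  refine TM.cfg_ext rfl ?_ ?_
  · intro (k : ι)
    show (0 : ℤ) = if k = io then ((0 : ℕ) : ℤ) else 0
    simp
  · intro (k : ι)
    show (if k = io then (machine m p₀ io dec).word x else fun _ => none) =
      if k = io then wd x else fun _ => none
    rw [word_eq]
    rfl

theorem step_ini (x : List Bool) (j : ℕ) (hj : j < x.length) :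
    (machine m p₀ io dec).step (cfgIni m p₀ io dec x j) =
      some (cfgIni m p₀ io dec x (j + 1)) := by
  have hsc : wd x j = some x[j] := by simp [wd, hj]
  refine mstep m p₀ io dec (fun k => if k = io then some x[j] else none)
    (St.ini, fun k =>
      (if k = io then some x[j] else none, if k = io then .right else .stay)) ?_ ?_ rfl ?_ ?_
  · intro k
    show (if k = io then wd x else fun _ => none) (if k = io then (j : ℤ) else 0) = _
    by_cases hk : k = io
    · simp only [hk, if_true]; exact hsc
    · simp [hk]
  · show delta m p₀ io dec .ini _ = _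
    simp only [delta, if_true]
  · intro k
    show (if k = io then ((j + 1 : ℕ) : ℤ) else 0) = (if k = io then (j : ℤ) else 0) +
      (if k = io then Move.right else .stay).toInt
    by_cases hk : k = io
    · simp [hk, Move.toInt]
    · simp [hk, Move.toInt]
  · intro k
    show (if k = io then wd x else fun _ => none) =
      Function.update (if k = io then wd x else fun _ => none) (if k = io then (j : ℤ) else 0)
      (if k = io then some x[j] else none)
    symm
    rw [Function.update_eq_self_iff]
    by_cases hk : k = io
    · simp only [hk, if_true]; exact hsc.symm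
    · simp [hk]

theorem step_ini_end (x : List Bool) :
    (machine m p₀ io dec).step (cfgIni m p₀ io dec x x.length) =
      some (cfgOf m p₀ io dec (.at (some p₀)) (single io x.reverse)) := by
  refine mstep m p₀ io dec (fun _ => none) (St.at (some p₀), fun k => (none, .stay))
    ?_ ?_ rfl ?_ ?_
  · intro k
    show (if k = io then wd x else fun _ => none) (if k = io then (x.length : ℤ) else 0) = _
    by_cases hk : k = io
    · simp only [hk, if_true]; exact wd_at_length x
    · simp [hk]
  · rfl
  · intro k
    show ((single io x.reverse k).length : ℤ) = (if k = io then (x.length : ℤ) else 0) +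
      Move.stay.toInt
    by_cases hk : k = io
    · simp [hk, Move.toInt, single]
    · simp [hk, Move.toInt, single]
  · intro k
    show wd (single io x.reverse k).reverse =
      Function.update (if k = io then wd x else fun _ => none)
        (if k = io then (x.length : ℤ) else 0) none
    by_cases hk : k = io
    · subst hk
      simp only [if_true, single, List.reverse_reverse]
      symm
      rw [Function.update_eq_self_iff]
      exact (wd_at_length x).symm
    · simp only [hk, if_false, single, List.reverse_nil]
      symm
      rw [Function.update_eq_iff]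
      refine ⟨by simp [wd], ?_⟩
      intro z _
      simp [wd]

theorem mrun_ini {B : ℕ} (x : List Bool) (hB : x.length ≤ B) :
    MRun (machine m p₀ io dec) B (x.length + 1) ((machine m p₀ io dec).init x)
      (cfgOf m p₀ io dec (.at (some p₀)) (single io x.reverse)) := by
  have hb : ∀ j ≤ x.length, ∀ k, -1 ≤ (cfgIni m p₀ io dec x j).head k ∧
      (cfgIni m p₀ io dec x j).head k ≤ B := by
    intro j hj k
    simp only [cfgIni]
    split_ifs <;> omega
  have key : ∀ j ≤ x.length, MRun (machine m p₀ io dec) B j ((machine m p₀ io dec).init x)
      (cfgIni m p₀ io dec x j) := by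
    intro j hj
    induction j with
    | zero =>
      rw [← init_eq]
      refine MRun.refl ?_
      rw [init_eq]
      exact hb 0 (by omega)
    | succ j ih =>
      exact MRun.trans (ih (by omega)) (MRun.step (hb j (by omega)) (hb (j + 1) hj)
        (step_ini m p₀ io dec x j (by omega)))
  refine MRun.trans (key x.length le_rfl) (MRun.step (hb _ le_rfl) ?_
    (step_ini_end m p₀ io dec x))
  refine cfgOf_bd m p₀ io dec _ _ ?_
  intro i
  simp only [single]
  split_ifs
  · simpa using hB
  · simp

end

end ToTM

open ToTM in
/-- A stack program whose stack `io` carries input and output gives a Turing machine. -/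
theorem exists_TM_computes {ι : Type} [DecidableEq ι] [Finite ι] (c : Prog ι) (io : ι) :
    ∃ M : TM, ∀ (x : List Bool) (S' : Store ι) (t B : ℕ),
      Exec B c (single io x.reverse) S' t → x.length ≤ B →
      (∃ N ≤ x.length + 1 + 2 * t, M.HaltedAt x N ∧
        (M.conf x N).tape M.io = M.word (S' io).reverse) ∧
      ∀ k, M.visited x k ⊆ Set.Icc (-1) (B : ℤ) := by
  refine ⟨machine c.instr c.entry io false, ?_⟩
  intro x S' t B h hB
  have h1 := mrun_ini c.instr c.entry io false x hB
  have hS0 : ∀ i, (single io x.reverse i).length ≤ B := by
    intro i
    simp only [single]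
    split_ifs
    · simpa using hB
    · simp
  obtain ⟨N, hN, h2⟩ := mrun_of_flowRun c.instr c.entry io false
    (Prog.flowRun_of_exec h (Prog.embeds_self c) hS0)
  have h3 := h1.trans h2
  have hhalt : (machine c.instr c.entry io false).HaltedAt x (x.length + 1 + N) := by
    unfold TM.HaltedAt TM.conf
    rw [h3.1]
    exact step_exit _ _ _ _
  refine ⟨⟨x.length + 1 + N, by omega, hhalt, ?_⟩, ?_⟩
  · unfold TM.conf
    rw [h3.1, word_eq]
    rfl
  · intro k
    rintro z ⟨n, rfl⟩
    show (TM.conf _ x n).head k ∈ _
    rcases le_total n (x.length + 1 + N) with hn | hn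
    · exact h3.2 n hn k
    · rw [TM.conf_of_haltedAt _ hhalt hn]
      exact h3.2 _ le_rfl k

open ToTM in
/-- A stack program whose stack `io` carries input and (on top) an answer gives a Turing
machine that accepts iff the answer is `true`. -/
theorem exists_TM_decides {ι : Type} [DecidableEq ι] [Finite ι] (c : Prog ι) (io : ι) :
    ∃ M : TM, ∀ (x : List Bool) (S' : Store ι) (t B : ℕ),
      Exec B c (single io x.reverse) S' t → x.length ≤ B →
      (∃ N ≤ x.length + 3 + 2 * t, M.HaltedAt x N ∧
        (M.accept (M.conf x N).state = true ↔ (S' io).head? = some true)) ∧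
      ∀ k, M.visited x k ⊆ Set.Icc (-1) (B : ℤ) := by
  refine ⟨machine c.instr c.entry io true, ?_⟩
  intro x S' t B h hB
  have h1 := mrun_ini c.instr c.entry io true x hB
  have hS0 : ∀ i, (single io x.reverse i).length ≤ B := by
    intro i
    simp only [single]
    split_ifs
    · simpa using hB
    · simp
  have hfl := Prog.flowRun_of_exec h (Prog.embeds_self c) hS0
  obtain ⟨N, hN, h2⟩ := mrun_of_flowRun c.instr c.entry io true hfl
  have h2' := h1.trans h2
  have hS' := hfl.le_right
  have h3 := (h2'.trans (MRun.step (cfgOf_bd _ _ _ _ _ _ hS') (cfgPop_bd _ _ _ _ _ _ _ hS')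
    (step_exit_dec c.instr c.entry io S'))).trans
    (MRun.step (cfgPop_bd _ _ _ _ _ _ _ hS') (cfgPop_bd _ _ _ _ _ _ _ hS')
    (step_last c.instr c.entry io true S'))
  have hhalt : (machine c.instr c.entry io true).HaltedAt x (x.length + 1 + N + 1 + 1) := by
    unfold TM.HaltedAt TM.conf
    rw [h3.1]
    exact step_fin _ _ _ _ _ _
  refine ⟨⟨x.length + 1 + N + 1 + 1, by omega, hhalt, ?_⟩, ?_⟩
  · unfold TM.conf
    rw [h3.1]
    show decide ((S' io).head? = some true) = true ↔ _
    simp
  · intro k
    rintro z ⟨n, rfl⟩
    show (TM.conf _ x n).head k ∈ _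
    rcases le_total n (x.length + 1 + N + 1 + 1) with hn | hn
    · exact h3.2 n hn k
    · rw [TM.conf_of_haltedAt _ hhalt hn]
      exact h3.2 _ le_rfl k

end Pool.Agent.PPS
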