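import Pool.Agent.PPS.Basic

/-!
# A toolkit for typed polynomial-time / polynomial-space functions
-/

namespace Pool.Agent.PPS

variable {m : Bool} {α β γ δ σ τ : Type} [Rep α] [Rep β] [Rep γ] [Rep δ] [Rep σ] [Rep τ]

attribute [fun_prop] PT

@[fun_prop]
theorem PT.id' : PT m (fun a : α => a) := PT.id

@[fun_prop]
theorem PT.const' (b : β) : PT m (fun _ : α => b) := PT.const b

@[fun_prop]
theorem PT.comp' {g : β → γ} {f : α → β} (hg : PT m g) (hf : PT m f) :
    PT m (fun a => g (f a)) := hg.comp hf

@[fun_prop]
theorem PT.prodMk {f : α → β} {g : α → γ} (hf : PT m f) (hg : PT m g) :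
    PT m (fun a => (f a, g a)) := hf.pair hg

@[fun_prop]
theorem PT.fst' {f : α → β × γ} (hf : PT m f) : PT m (fun a => (f a).1) := PT.fst.comp hf

@[fun_prop]
theorem PT.snd' {f : α → β × γ} (hf : PT m f) : PT m (fun a => (f a).2) := PT.snd.comp hf

example {f : α → β} (hf : PT m f) : PT m (fun a => ((f a, a), a)) := by fun_prop

/-! ### Changing the types -/

theorem PT.congr_code {f : α → β} {g : α → γ} (hf : PT m f)
    (h : ∀ a, code (g a) = code (f a)) : PT m g := by
  obtain ⟨ι, h1, h2, c, io, p, h3⟩ := hf
  refine ⟨ι, h1, h2, c, io, p, fun a => ?_⟩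
  obtain ⟨T, hT, hm⟩ := h3 a
  exact ⟨T, by rw [h a]; exact hT, hm⟩

theorem PT.congr_dom {f : β → γ} (hf : PT m f) {e : α → β} (h : ∀ a, code (e a) = code a) :
    PT m (fun a => f (e a)) :=
  hf.comp (PT.congr_code PT.id h)

theorem PT.of_eq {f g : α → β} (hf : PT m f) (h : ∀ a, g a = f a) : PT m g :=
  (funext h : g = f) ▸ hf

@[fun_prop]
theorem PT.rep : PT m (Rep.rep : α → D) := PT.congr_code PT.id (fun _ => rfl)

theorem PT.val {p : α → Prop} : PT m (Subtype.val : {a : α // p a} → α) :=
  PT.congr_code PT.id (fun _ => rfl)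

theorem PT.mkSub {p : β → Prop} {f : α → β} (hf : PT m f) (h : ∀ a, p (f a)) :
    PT m (fun a => (⟨f a, h a⟩ : {b : β // p b})) :=
  PT.congr_code hf (fun _ => rfl)

/-! ### Case distinctions -/

theorem PT.ite {c : α → Bool} {f g : α → β} (hc : PT m c) (hf : PT m f) (hg : PT m g) :
    PT m (fun a => if c a then f a else g a) := by
  have key : PT m (fun p : Bool × α => if p.1 then f p.2 else g p.2) := by
    refine PT.caseD (f₁ := g) (f₂ := fun z : (Unit × Unit) × α => f z.2) hg
      (by fun_prop) ?_
    rintro ⟨b, a⟩
    cases b with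
    | false => exact Or.inl ⟨a, rfl, rfl⟩
    | true => exact Or.inr ⟨(((), ()), a), rfl, ⟨_, rfl⟩, rfl⟩
  exact key.comp (hc.pair PT.id)

@[fun_prop]
theorem PT.cond {c : α → Bool} {f g : α → β} (hc : PT m c) (hf : PT m f) (hg : PT m g) :
    PT m (fun a => bif c a then f a else g a) := by
  have := hc.ite hf hg
  convert this using 2 with a
  cases c a <;> rfl

theorem PT.dite {p : α → Prop} [DecidablePred p] {f : {a // p a} → β} {g : {a // ¬ p a} → β}
    (hc : PT m (fun a => decide (p a))) (hf : PT m f) (hg : PT m g) :
    PT m (fun a => if h : p a then f ⟨a, h⟩ else g ⟨a, h⟩) := by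
  have key : PT m (fun q : {q : Bool × α // q.1 = decide (p q.2)} =>
      if h : p q.1.2 then f ⟨q.1.2, h⟩ else g ⟨q.1.2, h⟩) := by
    refine PT.caseD (f₁ := g) (f₂ := fun z : (Unit × Unit) × {a // p a} => f z.2) hg
      (by fun_prop) ?_
    rintro ⟨⟨b, a⟩, hb⟩
    cases b with
    | false =>
      have ha : ¬ p a := by simpa using hb.symm
      exact Or.inl ⟨⟨a, ha⟩, rfl, by simp [ha]⟩
    | true =>
      have ha : p a := by simpa using hb.symm
      exact Or.inr ⟨(((), ()), ⟨a, ha⟩), rfl, ⟨_, rfl⟩, by simp [ha]⟩
  exact key.comp (PT.mkSub (hc.pair PT.id) (fun a => rfl))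

theorem PT.listCase {l : α → List β} {f : α → γ} {g : (β × List β) × α → γ} (hl : PT m l)
    (hf : PT m f) (hg : PT m g) :
    PT m (fun a => match l a with
      | [] => f a
      | x :: l => g ((x, l), a)) := by
  have key : PT m (fun p : List β × α => match p.1 with
      | [] => f p.2
      | x :: l => g ((x, l), p.2)) := by
    refine PT.caseD (f₁ := f) (f₂ := g) hf hg ?_
    rintro ⟨l, a⟩
    cases l with
    | nil => exact Or.inl ⟨a, rfl, rfl⟩
    | cons x l => exact Or.inr ⟨((x, l), a), rfl, ⟨_, rfl⟩, rfl⟩
  exact key.comp (hl.pair PT.id)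

theorem PT.natCase {n : α → ℕ} {f : α → γ} {g : ℕ × α → γ} (hn : PT m n)
    (hf : PT m f) (hg : PT m g) :
    PT m (fun a => match n a with
      | 0 => f a
      | k + 1 => g (k, a)) := by
  have key : PT m (fun p : ℕ × α => match p.1 with
      | 0 => f p.2
      | k + 1 => g (k, p.2)) := by
    refine PT.caseD (f₁ := f) (f₂ := fun z : (Unit × ℕ) × α => g (z.1.2, z.2)) hf
      (by fun_prop) ?_
    rintro ⟨k, a⟩
    cases k with
    | zero => exact Or.inl ⟨a, rfl, rfl⟩
    | succ k => exact Or.inr ⟨(((), k), a), rfl, ⟨_, rfl⟩, rfl⟩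
  exact key.comp (hn.pair PT.id)

theorem PT.optCase {o : α → Option β} {f : α → γ} {g : β × α → γ} (ho : PT m o)
    (hf : PT m f) (hg : PT m g) :
    PT m (fun a => match o a with
      | none => f a
      | some b => g (b, a)) := by
  have key : PT m (fun p : Option β × α => match p.1 with
      | none => f p.2
      | some b => g (b, p.2)) := by
    refine PT.caseD (f₁ := f) (f₂ := fun z : (β × Unit) × α => g (z.1.1, z.2)) hf
      (by fun_prop) ?_
    rintro ⟨o, a⟩
    cases o with
    | none => exact Or.inl ⟨a, rfl, rfl⟩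
    | some b =>
      refine Or.inr ⟨((b, ()), a), ?_, ⟨_, rfl⟩, rfl⟩
      rfl
  exact key.comp (ho.pair PT.id)

theorem PT.treeCase {d : α → D} {f : α → γ} {g : (D × D) × α → γ} (hd : PT m d)
    (hf : PT m f) (hg : PT m g) :
    PT m (fun a => match d a with
      | .nil => f a
      | .cons x y => g ((x, y), a)) := by
  have key : PT m (fun p : D × α => match p.1 with
      | .nil => f p.2
      | .cons x y => g ((x, y), p.2)) := by
    refine PT.caseD (f₁ := f) (f₂ := g) hf hg ?_
    rintro ⟨l, a⟩
    cases l with
    | nil => exact Or.inl ⟨a, rfl, rfl⟩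
    | cons x l => exact Or.inr ⟨((x, l), a), rfl, ⟨_, rfl⟩, rfl⟩
  exact key.comp (hd.pair PT.id)

theorem PT.finCase {n : ℕ} {F : Fin n × α → β} (h : ∀ i, PT m (fun a => F (i, a))) :
    PT m F := by
  induction n with
  | zero =>
    refine ⟨Unit, inferInstance, inferInstance, .skip, (), 0, ?_⟩
    rintro ⟨i, a⟩
    exact i.elim0
  | succ n ih =>
    have h' := ih (F := fun p => F (p.1.succ, p.2)) (fun i => h i.succ)
    refine PT.caseD (f₁ := fun a => F (0, a))
      (f₂ := fun z : (Unit × Fin n) × α => F (z.1.2.succ, z.2)) (h 0) ?_ ?_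
    · exact h'.comp (f := fun z : (Unit × Fin n) × α => (z.1.2, z.2)) (by fun_prop)
    · rintro ⟨i, a⟩
      refine Fin.cases ?_ (fun i => ?_) i
      · exact Or.inl ⟨a, rfl, rfl⟩
      · exact Or.inr ⟨(((), i), a), rfl, ⟨_, rfl⟩, rfl⟩

/-! ### Constructors -/

@[fun_prop]
theorem PT.cons' {f : α → β} {g : α → List β} (hf : PT m f) (hg : PT m g) :
    PT m (fun a => f a :: g a) :=
  PT.congr_code (hf.pair hg) (fun _ => rfl)

@[fun_prop]
theorem PT.succ' {f : α → ℕ} (hf : PT m f) : PT m (fun a => f a + 1) :=
  PT.congr_code ((PT.const' (m := m) ()).pair hf) (fun _ => rfl)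

@[fun_prop]
theorem PT.some' {f : α → β} (hf : PT m f) : PT m (fun a => some (f a)) :=
  PT.congr_code (hf.pair (PT.const' (m := m) ())) (fun _ => rfl)

@[fun_prop]
theorem PT.treeCons {f g : α → D} (hf : PT m f) (hg : PT m g) :
    PT m (fun a => D.cons (f a) (g a)) :=
  PT.congr_code (hf.pair hg) (fun _ => rfl)

@[fun_prop]
theorem PT.tail' {f : α → List β} (hf : PT m f) : PT m (fun a => (f a).tail) := by
  have := PT.listCase (m := m) (γ := List β) (f := fun _ : α => []) (g := fun z => z.1.2) hf
    (by fun_prop) (by fun_prop)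
  convert this using 2 with a
  cases f a <;> rfl

@[fun_prop]
theorem PT.head?' {f : α → List β} (hf : PT m f) : PT m (fun a => (f a).head?) := by
  have := PT.listCase (m := m) (γ := Option β) (f := fun _ : α => none)
    (g := fun z => some z.1.1) hf (by fun_prop) (by fun_prop)
  convert this using 2 with a
  cases f a <;> rfl

theorem PT.headD' {f : α → List β} {d : α → β} (hf : PT m f) (hd : PT m d) :
    PT m (fun a => (f a).headD (d a)) := by
  have := PT.listCase (m := m) (γ := β) (f := d)
    (g := fun z => z.1.1) hf (by fun_prop) (by fun_prop)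
  convert this using 2 with a
  cases f a <;> rfl

@[fun_prop]
theorem PT.pred' {f : α → ℕ} (hf : PT m f) : PT m (fun a => f a - 1) := by
  have := PT.natCase (m := m) (γ := ℕ) (f := fun _ : α => 0)
    (g := fun z => z.1) hf (by fun_prop) (by fun_prop)
  convert this using 2 with a
  cases f a <;> rfl

/-! ### Booleans -/

@[fun_prop]
theorem PT.not' {f : α → Bool} (hf : PT m f) : PT m (fun a => !(f a)) := by
  have := hf.cond (PT.const' (m := m) false) (PT.const' (m := m) true)
  convert this using 2 with a
  cases f a <;> rfl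

@[fun_prop]
theorem PT.and' {f g : α → Bool} (hf : PT m f) (hg : PT m g) :
    PT m (fun a => f a && g a) := by
  have := hf.cond hg (PT.const' (m := m) false)
  convert this using 2 with a
  cases f a <;> rfl

@[fun_prop]
theorem PT.or' {f g : α → Bool} (hf : PT m f) (hg : PT m g) :
    PT m (fun a => f a || g a) := by
  have := hf.cond (PT.const' (m := m) true) hg
  convert this using 2 with a
  cases f a <;> rfl

@[fun_prop]
theorem PT.xor' {f g : α → Bool} (hf : PT m f) (hg : PT m g) :
    PT m (fun a => xor (f a) (g a)) := by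
  have := hf.cond hg.not' hg
  convert this using 2 with a
  cases f a <;> cases g a <;> rfl

@[fun_prop]
theorem PT.decideEq [DecidableEq β] {f g : α → β} (hf : PT m f) (hg : PT m g) :
    PT m (fun a => decide (f a = g a)) := by
  have := (PT.eqCode (m := m) (α := β)).comp (hf.pair hg)
  convert this using 2 with a
  exact decide_eq_decide.mpr code_injective.eq_iff.symm

@[fun_prop]
theorem PT.beq' {f g : α → Bool} (hf : PT m f) (hg : PT m g) :
    PT m (fun a => f a == g a) := by
  have := hf.decideEq hg
  convert this using 2 with a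
  cases f a <;> cases g a <;> rfl

/-! ### Loops -/

theorem PT.loop {ini : α → σ} {s : α × σ → σ} {c : α × σ → Bool} (N : α → ℕ)
    (hini : PT m ini) (hs : PT m s) (hc : PT m c) (q : Polynomial ℕ)
    (hsz : ∀ a k, k ≤ N a → size ((fun y => s (a, y))^[k] (ini a)) ≤ q.eval (size a))
    (h1 : ∀ a k, k < N a → c (a, (fun y => s (a, y))^[k] (ini a)) = true)
    (h2 : ∀ a, c (a, (fun y => s (a, y))^[N a] (ini a)) = false)
    (hN : m = true → ∀ a, N a ≤ q.eval (size a)) :
    PT m (fun a => (fun y => s (a, y))^[N a] (ini a)) := by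
  let s' : α × σ → α × σ := fun z => (z.1, s z)
  have hs' : PT m s' := by
    have h : PT m (fun z : α × σ => z.1) := by fun_prop
    exact h.pair hs
  have hit : ∀ (k : ℕ) (a : α) (y : σ), s'^[k] (a, y) = (a, (fun y => s (a, y))^[k] y) := by
    intro k a y
    induction k with
    | zero => rfl
    | succ k ih => rw [Function.iterate_succ_apply', Function.iterate_succ_apply', ih]
  have key := PT.whileSub (m := m) hs' hc (fun z => z.2 = ini z.1) (fun z => N z.1.1)
    (Polynomial.X + q + 1) (by
      rintro ⟨⟨a, y⟩, hy⟩ k hk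
      simp only at hy hk
      subst hy
      simp only [hit, size_pair, Polynomial.eval_add, Polynomial.eval_X, Polynomial.eval_one]
      have h3 := hsz a k hk
      have h4 : q.eval (size a) ≤ q.eval (size a + size (ini a) + 1) := polyMono _ (by omega)
      omega) (by
      rintro ⟨⟨a, y⟩, hy⟩ k hk
      simp only at hy hk
      subst hy
      simp only [hit]
      exact h1 a k hk) (by
      rintro ⟨⟨a, y⟩, hy⟩
      simp only at hy
      subst hy
      simp only [hit]
      exact h2 a) (by
      rintro hm ⟨⟨a, y⟩, hy⟩
      simp only at hy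
      subst hy
      simp only [size_pair, Polynomial.eval_add, Polynomial.eval_X, Polynomial.eval_one]
      have h3 := hN hm a
      have h4 : q.eval (size a) ≤ q.eval (size a + size (ini a) + 1) := polyMono _ (by omega)
      omega)
  have h5 : PT m (fun a => (⟨(a, ini a), rfl⟩ : {z : α × σ // z.2 = ini z.1})) :=
    PT.mkSub (p := fun z : α × σ => z.2 = ini z.1) (PT.id.pair hini) (fun _ => rfl)
  have h6 := (PT.snd (m := m)).comp (key.comp h5)
  convert h6 using 2 with a
  simp only [hit]

theorem PT.iterate {ini : α → σ} {s : α × σ → σ} {n : α → ℕ} (hn : PT m n)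
    (hini : PT m ini) (hs : PT m s) (q : Polynomial ℕ)
    (hsz : ∀ a k, k ≤ n a → size ((fun y => s (a, y))^[k] (ini a)) ≤ q.eval (size a)) :
    PT m (fun a => (fun y => s (a, y))^[n a] (ini a)) := by
  obtain ⟨p, hp⟩ := hn.exists_size_le
  -- the state is a counter together with the value
  let s' : α × (ℕ × σ) → ℕ × σ := fun z => (z.2.1 - 1, s (z.1, z.2.2))
  have hs' : PT m s' := by
    have h : PT m (fun z : α × (ℕ × σ) => s (z.1, z.2.2)) :=
      hs.comp (f := fun z : α × (ℕ × σ) => (z.1, z.2.2)) (by fun_prop)
    exact PT.prodMk (by fun_prop) h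
  have hit : ∀ (k : ℕ) (a : α), (fun y => s' (a, y))^[k] (n a, ini a) =
      (n a - k, (fun y => s (a, y))^[k] (ini a)) := by
    intro k a
    induction k with
    | zero => rfl
    | succ k ih =>
      rw [Function.iterate_succ_apply', Function.iterate_succ_apply', ih]
      simp only [s', Prod.mk.injEq, and_true]
      omega
  have key := PT.loop (m := m) (ini := fun a => (n a, ini a)) (s := s')
    (c := fun z => !(decide (z.2.1 = 0))) n (hn.pair hini) hs' (by fun_prop)
    (p + q + 1) (by
      intro a k hk
      rw [hit, size_pair]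
      simp only [Polynomial.eval_add, Polynomial.eval_one]
      have h3 := hsz a k hk
      have h4 := hp a
      rw [size_nat] at h4 ⊢
      omega) (by
      intro a k hk
      rw [hit]
      simp only [Bool.not_eq_eq_eq_not, Bool.not_true, decide_eq_false_iff_not]
      omega) (by
      intro a
      rw [hit]
      simp) (by
      intro _ a
      have h4 := hp a
      rw [size_nat] at h4
      simp only [Polynomial.eval_add, Polynomial.eval_one]
      omega)
  have h6 := (PT.snd (m := m)).comp key
  convert h6 using 2 with a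
  rw [hit]

theorem PT.foldl {ini : α → σ} {s : α × (σ × β) → σ} {l : α → List β} (hl : PT m l)
    (hini : PT m ini) (hs : PT m s) (q : Polynomial ℕ)
    (hsz : ∀ a k, size (((l a).take k).foldl (fun y b => s (a, (y, b))) (ini a)) ≤
      q.eval (size a)) :
    PT m (fun a => (l a).foldl (fun y b => s (a, (y, b))) (ini a)) := by
  obtain ⟨p, hp⟩ := hl.exists_size_le
  let s' : α × (List β × σ) → List β × σ := fun z =>
    match z.2.1 with
    | [] => z.2
    | b :: l => (l, s (z.1, (z.2.2, b)))
  have hs' : PT m s' := by
    have := PT.listCase (m := m) (l := fun z : α × (List β × σ) => z.2.1)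
      (f := fun z : α × (List β × σ) => z.2)
      (g := fun w : (β × List β) × (α × (List β × σ)) =>
        (w.1.2, s (w.2.1, (w.2.2.2, w.1.1)))) (by fun_prop) (by fun_prop)
      (PT.prodMk (by fun_prop) (hs.comp (f := fun w : (β × List β) × (α × (List β × σ)) =>
        (w.2.1, (w.2.2.2, w.1.1))) (by fun_prop)))
    exact this
  have hit : ∀ (k : ℕ) (a : α), k ≤ (l a).length → (fun y => s' (a, y))^[k] (l a, ini a) =
      ((l a).drop k, ((l a).take k).foldl (fun y b => s (a, (y, b))) (ini a)) := by
    intro k a hk
    induction k with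
    | zero => simp
    | succ k ih =>
      rw [Function.iterate_succ_apply', ih (by omega)]
      rw [List.drop_eq_getElem_cons (by omega : k < (l a).length)]
      simp only [s']
      rw [List.take_succ_eq_append_getElem (by omega : k < (l a).length), List.foldl_append]
      rfl
  have key := PT.loop (m := m) (ini := fun a => (l a, ini a)) (s := s')
    (c := fun z => (z.2.1).head?.isSome) (fun a => (l a).length) (hl.pair hini) hs' (by
      have := PT.listCase (m := m) (l := fun z : α × (List β × σ) => z.2.1)
        (f := fun _ => false) (g := fun _ => true) (by fun_prop) (by fun_prop) (by fun_prop)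
      convert this using 2 with z
      cases z.2.1 <;> rfl)
    (p + q + 1) (by
      intro a k hk
      rw [hit k a hk, size_pair]
      simp only [Polynomial.eval_add, Polynomial.eval_one]
      have h3 := hsz a k
      have h4 := hp a
      have h5 : ∀ (l : List β) (k : ℕ), size (l.drop k) ≤ size l := by
        intro l
        induction l with
        | nil => simp
        | cons b l ih =>
          intro k
          cases k with
          | zero => simp
          | succ k =>
            rw [List.drop_succ_cons, size_cons]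
            have := ih k
            omega
      have := h5 (l a) k
      omega) (by
      intro a k hk
      rw [hit k a (by omega)]
      simp only [List.head?_drop]
      rw [List.getElem?_eq_getElem hk]
      rfl) (by
      intro a
      rw [hit _ a le_rfl]
      simp) (by
      intro _ a
      have h4 := hp a
      have h5 : ∀ (l : List β), l.length ≤ size l := by
        intro l
        induction l with
        | nil => simp
        | cons b l ih => rw [size_cons, List.length_cons]; omega
      have := h5 (l a)
      simp only [Polynomial.eval_add, Polynomial.eval_one]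
      omega)
  have h6 := (PT.snd (m := m)).comp key
  convert h6 using 2 with a
  rw [hit _ a le_rfl, List.take_length]

end Pool.Agent.PPS
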